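import Mathlib

/-!
# Digits of four-term progressions without carries
-/

namespace Pool.Agent.Helper60.FourAP

/-- Position of `w` in `[0, W)`: the eighth it lies in, and the dyadic distances to both ends. -/
def typ (W w : ℕ) : ℕ × ℕ × ℕ := (8 * w / W, Nat.log 2 (w + 1), Nat.log 2 (W - w))

lemma abs_lt_of_log_eq {a b : ℕ} (ha : 1 ≤ a) (hb : 1 ≤ b) (h : Nat.log 2 a = Nat.log 2 b) :
    |(b : ℤ) - a| < a := by
  have h1 : 2 ^ Nat.log 2 a ≤ a := Nat.pow_log_le_self 2 (by omega)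
  have h2 : a < 2 ^ (Nat.log 2 a + 1) := Nat.lt_pow_succ_log_self (by norm_num) a
  have h3 : 2 ^ Nat.log 2 b ≤ b := Nat.pow_log_le_self 2 (by omega)
  have h4 : b < 2 ^ (Nat.log 2 b + 1) := Nat.lt_pow_succ_log_self (by norm_num) b
  rw [← h] at h3 h4
  rw [pow_succ] at h2 h4
  rw [abs_lt]
  constructor <;> omega

lemma abs_lt_of_div_eq {W a b : ℕ} (hW : 0 < W) (h : 8 * a / W = 8 * b / W) :
    8 * |(b : ℤ) - a| < W := by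
  have h1 := Nat.div_add_mod (8 * a) W
  have h2 := Nat.div_add_mod (8 * b) W
  have h3 := Nat.mod_lt (8 * a) hW
  have h4 := Nat.mod_lt (8 * b) hW
  rw [h] at h1
  have h5 : |8 * ((b : ℤ) - a)| < W := by
    rw [abs_lt]
    constructor
    · omega
    · omega
  rw [abs_mul] at h5
  simpa using h5

lemma no_wrap {W : ℕ} (hW : 0 < W) {w0 w1 w2 w3 : ℕ} (h0 : w0 < W) (h1 : w1 < W)
    (h2 : w2 < W) (h3 : w3 < W) {δ : ℤ} (c1 : (W : ℤ) ∣ (w1 : ℤ) - (w0 + δ))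
    (c2 : (W : ℤ) ∣ (w2 : ℤ) - (w0 + 2 * δ)) (c3 : (W : ℤ) ∣ (w3 : ℤ) - (w0 + 3 * δ))
    (t03 : typ W w0 = typ W w3) (t12 : typ W w1 = typ W w2) :
    ∃ Δ : ℤ, (w1 : ℤ) = w0 + Δ ∧ (w2 : ℤ) = w0 + 2 * Δ ∧ (w3 : ℤ) = w0 + 3 * Δ ∧
      8 * |Δ| < W ∧ (W : ℤ) ∣ δ - Δ := by
  simp only [typ, Prod.mk.injEq] at t03 t12
  obtain ⟨t1, t2, t3⟩ := t03
  have b1 := abs_lt_of_div_eq hW t1
  have b2 := abs_lt_of_div_eq hW t12.1
  have b3 := abs_lt_of_log_eq (by omega) (by omega) t2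
  have b4 := abs_lt_of_log_eq (by omega) (by omega) t3
  have e3 : (((w3 + 1 : ℕ) : ℤ) - ((w0 + 1 : ℕ) : ℤ)) = (w3 : ℤ) - w0 := by push_cast; ring
  have e4 : (((W - w3 : ℕ) : ℤ) - ((W - w0 : ℕ) : ℤ)) = -((w3 : ℤ) - w0) := by
    rw [Nat.cast_sub h3.le, Nat.cast_sub h0.le]; ring
  rw [e3] at b3
  rw [e4, abs_neg] at b4
  push_cast [Nat.cast_sub h0.le] at b3 b4
  obtain ⟨k1, hk1⟩ := c1
  obtain ⟨k2, hk2⟩ := c2
  obtain ⟨k3, hk3⟩ := c3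
  have hΓ : ((w3 : ℤ) - w0) - 3 * ((w2 : ℤ) - w1) = W * (k3 - 3 * k2 + 3 * k1) := by
    linear_combination hk3 - 3 * hk2 + 3 * hk1
  have hW' : (0 : ℤ) < W := by exact_mod_cast hW
  have hk : k3 - 3 * k2 + 3 * k1 = 0 := by
    by_contra hne
    have habs : 2 * |((w3 : ℤ) - w0) - 3 * ((w2 : ℤ) - w1)| < W := by
      have := abs_sub ((w3 : ℤ) - w0) (3 * ((w2 : ℤ) - w1))
      have h3 : |3 * ((w2 : ℤ) - w1)| = 3 * |(w2 : ℤ) - w1| := by rw [abs_mul]; norm_num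
      linarith
    rw [hΓ, abs_mul, abs_of_pos hW'] at habs
    have h1 : 1 ≤ |k3 - 3 * k2 + 3 * k1| := Int.one_le_abs hne
    nlinarith
  rw [hk, mul_zero] at hΓ
  have hG : (w3 : ℤ) - w0 = 3 * ((w2 : ℤ) - w1) := by linarith
  rw [hG] at b3 b4
  have b3' : 3 * |(w2 : ℤ) - w1| < (w0 : ℤ) + 1 := by
    have : |3 * ((w2 : ℤ) - w1)| = 3 * |(w2 : ℤ) - w1| := by rw [abs_mul]; norm_num
    linarith
  have b4' : 3 * |(w2 : ℤ) - w1| < (W : ℤ) - w0 := by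
    have : |3 * ((w2 : ℤ) - w1)| = 3 * |(w2 : ℤ) - w1| := by rw [abs_mul]; norm_num
    linarith
  have hle := neg_abs_le ((w2 : ℤ) - w1)
  have hge := le_abs_self ((w2 : ℤ) - w1)
  have hnn := abs_nonneg ((w2 : ℤ) - w1)
  have hx0 : 0 ≤ (w0 : ℤ) + ((w2 : ℤ) - w1) := by omega
  have hx1 : (w0 : ℤ) + ((w2 : ℤ) - w1) < W := by omega
  have hcong : (w1 : ℤ) - (w0 + ((w2 : ℤ) - w1)) = W * (k1 - (k2 - k1)) := by
    linear_combination hk1 - (hk2 - hk1)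
  have hz : k1 - (k2 - k1) = 0 := by
    by_contra hne
    have h1' : 1 ≤ |k1 - (k2 - k1)| := Int.one_le_abs hne
    have h2' : |(w1 : ℤ) - (w0 + ((w2 : ℤ) - w1))| < W := by
      rw [abs_lt]; constructor <;> omega
    rw [hcong, abs_mul, abs_of_pos hW'] at h2'
    nlinarith
  rw [hz, mul_zero] at hcong
  refine ⟨(w2 : ℤ) - w1, by linarith, by linarith, by linarith, b2, ?_⟩
  exact ⟨-(k2 - k1), by linear_combination hk1 - hk2⟩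

/-- The vector of base `p` digits of a number below `p ^ 3`. -/
def dig (p v : ℕ) : Fin 3 → ZMod p := ![((v % p : ℕ) : ZMod p), ((v % p ^ 2 / p : ℕ) : ZMod p),
  ((v / p ^ 2 : ℕ) : ZMod p)]

lemma dig_ap {p : ℕ} (hp : 0 < p) {v0 v1 v2 v3 : ℕ} {δ : ℤ}
    (c1 : ((p : ℤ) ^ 3) ∣ (v1 : ℤ) - (v0 + δ))
    (c2 : ((p : ℤ) ^ 3) ∣ (v2 : ℤ) - (v0 + 2 * δ)) (c3 : ((p : ℤ) ^ 3) ∣ (v3 : ℤ) - (v0 + 3 * δ))
    (t03 : typ p (v0 % p) = typ p (v3 % p)) (t12 : typ p (v1 % p) = typ p (v2 % p))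
    (s03 : typ (p ^ 2) (v0 % p ^ 2) = typ (p ^ 2) (v3 % p ^ 2))
    (s12 : typ (p ^ 2) (v1 % p ^ 2) = typ (p ^ 2) (v2 % p ^ 2)) :
    ∃ D : Fin 3 → ZMod p, dig p v1 = dig p v0 + D ∧ dig p v2 = dig p v0 + 2 • D ∧
      dig p v3 = dig p v0 + 3 • D ∧ (D = 0 → ((p : ℤ) ^ 3) ∣ δ) := by
  have hp2 : 0 < p ^ 2 := by positivity
  have hp3 : (p : ℤ) ∣ (p : ℤ) ^ 3 := dvd_pow_self _ (by norm_num)
  have hp32 : (p : ℤ) ^ 2 ∣ (p : ℤ) ^ 3 := pow_dvd_pow _ (by norm_num)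
  have red : ∀ (m v : ℕ), ((m : ℕ) : ℤ) ∣ ((v % m : ℕ) : ℤ) - (v : ℤ) := by
    intro m v
    have := Nat.div_add_mod v m
    refine ⟨-((v / m : ℕ) : ℤ), ?_⟩
    have h2 : ((v : ℕ) : ℤ) = (m : ℤ) * ((v / m : ℕ) : ℤ) + ((v % m : ℕ) : ℤ) := by
      exact_mod_cast this.symm
    linarith
  have comb : ∀ (m : ℕ) (hm : ((m : ℕ) : ℤ) ∣ (p : ℤ) ^ 3) (v : ℕ) (i : ℤ)
      (c : ((p : ℤ) ^ 3) ∣ (v : ℤ) - (v0 + i * δ)),
      ((m : ℕ) : ℤ) ∣ ((v % m : ℕ) : ℤ) - (((v0 % m : ℕ) : ℤ) + i * δ) := by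
    intro m hm v i c
    have h1 := red m v
    have h2 := red m v0
    have h3 := hm.trans c
    have h4 := (dvd_sub (dvd_add h1 h3) h2)
    have h5 : ((v % m : ℕ) : ℤ) - (((v0 % m : ℕ) : ℤ) + i * δ) = ((v % m : ℕ) : ℤ) - (v : ℤ) +
        ((v : ℤ) - (v0 + i * δ)) - (((v0 % m : ℕ) : ℤ) - (v0 : ℤ)) := by ring
    rw [h5]
    exact h4
  have c1' : ((p : ℤ) ^ 3) ∣ (v1 : ℤ) - (v0 + 1 * δ) := by rwa [one_mul]
  -- level one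
  obtain ⟨Δ0, x1, x2, x3, x4, x5⟩ := no_wrap hp (Nat.mod_lt v0 hp) (Nat.mod_lt v1 hp)
    (Nat.mod_lt v2 hp) (Nat.mod_lt v3 hp) (δ := δ)
    (by simpa using comb p hp3 v1 1 c1') (comb p hp3 v2 2 c2) (comb p hp3 v3 3 c3) t03 t12
  -- level two
  have hp32' : ((p ^ 2 : ℕ) : ℤ) ∣ (p : ℤ) ^ 3 := by push_cast; exact hp32
  obtain ⟨Δ1, y1, y2, y3, y4, y5⟩ := no_wrap hp2 (Nat.mod_lt v0 hp2) (Nat.mod_lt v1 hp2)
    (Nat.mod_lt v2 hp2) (Nat.mod_lt v3 hp2) (δ := δ)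
    (by simpa using comb (p ^ 2) hp32' v1 1 c1') (comb (p ^ 2) hp32' v2 2 c2)
    (comb (p ^ 2) hp32' v3 3 c3) s03 s12
  -- digits
  have dec1 : ∀ v : ℕ, ((v % p ^ 2 : ℕ) : ℤ) = p * ((v % p ^ 2 / p : ℕ) : ℤ) + ((v % p : ℕ) : ℤ) := by
    intro v
    have h1 := Nat.div_add_mod (v % p ^ 2) p
    have h2 : v % p ^ 2 % p = v % p := Nat.mod_mod_of_dvd v (dvd_pow_self p (by norm_num))
    rw [h2] at h1
    exact_mod_cast h1.symm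
  have dec2 : ∀ v : ℕ, (v : ℤ) = (p : ℤ) ^ 2 * ((v / p ^ 2 : ℕ) : ℤ) + ((v % p ^ 2 : ℕ) : ℤ) := by
    intro v
    have h1 := Nat.div_add_mod v (p ^ 2)
    exact_mod_cast h1.symm
  have hpZ : (0 : ℤ) < p := by exact_mod_cast hp
  set a0 : ℕ → ℤ := fun v => ((v % p : ℕ) : ℤ) with ha0
  set a1 : ℕ → ℤ := fun v => ((v % p ^ 2 / p : ℕ) : ℤ) with ha1
  set a2 : ℕ → ℤ := fun v => ((v / p ^ 2 : ℕ) : ℤ) with ha2
  have dd : ∀ v, dig p v = ![((a0 v : ℤ) : ZMod p), ((a1 v : ℤ) : ZMod p),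
      ((a2 v : ℤ) : ZMod p)] := by
    intro v
    simp only [dig, ha0, ha1, ha2, Int.cast_natCast]
  obtain ⟨D1, hD1⟩ : ∃ D1 : ℤ, Δ1 - Δ0 = p * D1 := by
    refine ⟨a1 v1 - a1 v0, ?_⟩
    have e1 := dec1 v1
    have e0 := dec1 v0
    simp only [ha1]
    linear_combination -y1 + x1 + e1 - e0
  have z1 : ∀ (v : ℕ) (i : ℤ), ((v % p : ℕ) : ℤ) = ((v0 % p : ℕ) : ℤ) + i * Δ0 →
      ((v % p ^ 2 : ℕ) : ℤ) = ((v0 % p ^ 2 : ℕ) : ℤ) + i * Δ1 → a1 v = a1 v0 + i * D1 := by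
    intro v i hx hy
    have e1 := dec1 v
    have e0 := dec1 v0
    have : (p : ℤ) * a1 v = p * (a1 v0 + i * D1) := by
      simp only [ha1]
      linear_combination hy - hx - e1 + e0 + i * hD1
    exact mul_left_cancel₀ hpZ.ne' this
  have x1' : ((v1 % p : ℕ) : ℤ) = ((v0 % p : ℕ) : ℤ) + 1 * Δ0 := by rw [one_mul]; exact x1
  have y1' : ((v1 % p ^ 2 : ℕ) : ℤ) = ((v0 % p ^ 2 : ℕ) : ℤ) + 1 * Δ1 := by rw [one_mul]; exact y1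
  have u1 := z1 v1 1 x1' y1'
  have u2 := z1 v2 2 x2 y2
  have u3 := z1 v3 3 x3 y3
  obtain ⟨k1, hk1⟩ := c1'
  obtain ⟨D2, hD2⟩ : ∃ D2 : ℤ, δ - Δ1 = (p : ℤ) ^ 2 * D2 := by
    refine ⟨a2 v1 - a2 v0 - p * k1, ?_⟩
    have e1 := dec2 v1
    have e0 := dec2 v0
    simp only [ha2]
    linear_combination e1 - e0 + y1 - hk1
  have z2 : ∀ (v : ℕ) (i : ℤ), ((p : ℤ) ^ 3) ∣ (v : ℤ) - (v0 + i * δ) →
      ((v % p ^ 2 : ℕ) : ℤ) = ((v0 % p ^ 2 : ℕ) : ℤ) + i * Δ1 →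
      ((a2 v : ℤ) : ZMod p) = ((a2 v0 : ℤ) : ZMod p) + (i : ZMod p) * (D2 : ZMod p) := by
    intro v i hc hy
    obtain ⟨k, hk⟩ := hc
    have e1 := dec2 v
    have e0 := dec2 v0
    have h1 : (p : ℤ) ^ 2 * a2 v = (p : ℤ) ^ 2 * (a2 v0 + i * D2 + p * k) := by
      simp only [ha2]
      linear_combination -e1 + e0 - hy + hk + i * hD2
    have h2 := mul_left_cancel₀ (pow_ne_zero 2 hpZ.ne') h1
    rw [h2]
    push_cast
    simp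
  have w1 := z2 v1 1 ⟨k1, hk1⟩ y1'
  have w2 := z2 v2 2 c2 y2
  have w3 := z2 v3 3 c3 y3
  refine ⟨![(Δ0 : ZMod p), (D1 : ZMod p), (D2 : ZMod p)], ?_, ?_, ?_, ?_⟩
  · rw [dd, dd]
    have x1'' : a0 v1 = a0 v0 + Δ0 := x1
    ext i
    fin_cases i
    · simp [x1'']
    · simp [u1]
    · simpa using w1
  · rw [dd, dd]
    have x2'' : a0 v2 = a0 v0 + 2 * Δ0 := x2
    ext i
    fin_cases i
    · simp [x2'']
    · simp [u2]
    · simpa using w2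
  · rw [dd, dd]
    have x3'' : a0 v3 = a0 v0 + 3 * Δ0 := x3
    ext i
    fin_cases i
    · simp [x3'']
    · simp [u3]
    · simpa using w3
  · intro hD
    have d0 : ((Δ0 : ℤ) : ZMod p) = 0 := by simpa using congrFun hD 0
    have d1 : ((D1 : ℤ) : ZMod p) = 0 := by simpa using congrFun hD 1
    have d2 : ((D2 : ℤ) : ZMod p) = 0 := by simpa using congrFun hD 2
    rw [ZMod.intCast_zmod_eq_zero_iff_dvd] at d0 d1 d2
    have small : ∀ (m : ℤ) (x : ℤ), 0 < m → m ∣ x → 8 * |x| < m → x = 0 := by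
      intro m x hm hd hx
      apply Int.eq_zero_of_abs_lt_dvd hd
      have := abs_nonneg x
      omega
    have hz0 : Δ0 = 0 := small _ _ hpZ d0 x4
    have hz1 : Δ1 = 0 := by
      apply small ((p : ℤ) ^ 2) _ (by positivity)
      · obtain ⟨r, hr⟩ := d1
        exact ⟨r, by rw [hz0] at hD1; linear_combination hD1 + p * hr⟩
      · exact_mod_cast y4
    obtain ⟨r, hr⟩ := d2
    exact ⟨r, by rw [hz1] at hD2; linear_combination hD2 + (p : ℤ) ^ 2 * hr⟩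

end Pool.Agent.Helper60.FourAP
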