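import Mathlib

/-!
# Shifts without additive coincidences
-/

namespace Pool.Agent.Helper60.FourAP

/-- The number with the ternary digits of `n`, read in base nine. -/
def tau : ℕ → ℕ → ℕ
  | 0, _ => 0
  | w + 1, n => n % 3 + 9 * tau w (n / 3)

lemma tau_lt (w n : ℕ) : tau w n < 9 ^ w := by
  induction w generalizing n with
  | zero => simp [tau]
  | succ w ih =>
    have h1 := ih (n / 3)
    have h2 : n % 3 < 3 := Nat.mod_lt _ (by norm_num)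
    rw [tau, pow_succ]
    omega

lemma tau_sep (w : ℕ) : ∀ n0 n1 n2 n3 : ℕ, n0 < 3 ^ w → n1 < 3 ^ w → n2 < 3 ^ w → n3 < 3 ^ w →
    ((9 : ℤ) ^ w) ∣ (tau w n0 - 3 * tau w n1 + 3 * tau w n2 - tau w n3 : ℤ) →
    n0 = n3 ∧ n1 = n2 := by
  induction w with
  | zero => intro n0 n1 n2 n3 h0 h1 h2 h3 _; simp at h0 h1 h2 h3; omega
  | succ w ih =>
    intro n0 n1 n2 n3 h0 h1 h2 h3 h
    rw [pow_succ] at h0 h1 h2 h3
    obtain ⟨k, hk⟩ := h
    rw [pow_succ] at hk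
    simp only [tau] at hk
    push_cast at hk
    set t0 : ℤ := (tau w (n0 / 3) : ℤ)
    set t1 : ℤ := (tau w (n1 / 3) : ℤ)
    set t2 : ℤ := (tau w (n2 / 3) : ℤ)
    set t3 : ℤ := (tau w (n3 / 3) : ℤ)
    have m0 : (n0 : ℤ) % 3 = ((n0 % 3 : ℕ) : ℤ) := by push_cast; rfl
    have m1 : (n1 : ℤ) % 3 = ((n1 % 3 : ℕ) : ℤ) := by push_cast; rfl
    have m2 : (n2 : ℤ) % 3 = ((n2 % 3 : ℕ) : ℤ) := by push_cast; rfl
    have m3 : (n3 : ℤ) % 3 = ((n3 % 3 : ℕ) : ℤ) := by push_cast; rfl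
    have b0 : (n0 : ℤ) % 3 < 3 := by omega
    have hdig : (n0 : ℤ) % 3 = (n3 : ℤ) % 3 ∧ (n1 : ℤ) % 3 = (n2 : ℤ) % 3 := by
      have h9 : ((n0 : ℤ) % 3 - 3 * ((n1 : ℤ) % 3) + 3 * ((n2 : ℤ) % 3) - (n3 : ℤ) % 3) =
          9 * ((9 : ℤ) ^ w * k - (t0 - 3 * t1 + 3 * t2 - t3)) := by linarith
      omega
    have hdiv : ((9 : ℤ) ^ w) ∣ (t0 - 3 * t1 + 3 * t2 - t3) := by
      refine ⟨k, ?_⟩
      linarith [hdig.1, hdig.2]
    have h4 := ih (n0 / 3) (n1 / 3) (n2 / 3) (n3 / 3) (by omega) (by omega) (by omega) (by omega)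
      hdiv
    omega

lemma shift_arith {W p U ρ : ℤ} (hW : 1 ≤ W) (hp : 1 ≤ p) (hρ : 0 ≤ ρ) (hρ' : ρ < 16 * W * p)
    (hU : 16 * W * p ≤ U)
    {g0 g1 g2 g3 t0 t1 t2 t3 e0 e1 e2 e3 K : ℤ}
    (hg0 : 0 ≤ g0 ∧ g0 < p) (hg1 : 0 ≤ g1 ∧ g1 < p) (hg2 : 0 ≤ g2 ∧ g2 < p)
    (hg3 : 0 ≤ g3 ∧ g3 < p)
    (ht0 : 0 ≤ t0 ∧ t0 < W) (ht1 : 0 ≤ t1 ∧ t1 < W) (ht2 : 0 ≤ t2 ∧ t2 < W)
    (ht3 : 0 ≤ t3 ∧ t3 < W)
    (he0 : 0 ≤ e0 ∧ e0 < U) (he1 : 0 ≤ e1 ∧ e1 < U) (he2 : 0 ≤ e2 ∧ e2 < U)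
    (he3 : 0 ≤ e3 ∧ e3 < U)
    (h : (16 * U * (W * g0 + t0) + e0) - 3 * (16 * U * (W * g1 + t1) + e1) +
      3 * (16 * U * (W * g2 + t2) + e2) - (16 * U * (W * g3 + t3) + e3) =
      (16 * W * p * U + ρ) * K) :
    W * (g0 - 3 * g1 + 3 * g2 - g3) + (t0 - 3 * t1 + 3 * t2 - t3) = W * p * K := by
  obtain ⟨G, hG⟩ : ∃ G, G = g0 - 3 * g1 + 3 * g2 - g3 := ⟨_, rfl⟩
  obtain ⟨T, hT⟩ : ∃ T, T = t0 - 3 * t1 + 3 * t2 - t3 := ⟨_, rfl⟩
  obtain ⟨e, he⟩ : ∃ e, e = e0 - 3 * e1 + 3 * e2 - e3 := ⟨_, rfl⟩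
  obtain ⟨q, hq⟩ : ∃ q, q = W * p := ⟨_, rfl⟩
  have hq1 : 1 ≤ q := by rw [hq]; nlinarith
  have hGl : -(4 * p) ≤ G := by omega
  have hGu : G ≤ 4 * p := by omega
  have hTl : -(4 * W) ≤ T := by omega
  have hTu : T ≤ 4 * W := by omega
  have hel : -(4 * U) < e := by
    have : 16 * W * p = 16 * q := by rw [hq]; ring
    omega
  have heu : e < 4 * U := by
    have : 16 * W * p = 16 * q := by rw [hq]; ring
    omega
  have hQ : 16 * W * p = 16 * q := by rw [hq]; ring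
  rw [hQ] at hρ' hU
  have h1 : 16 * U * (W * G + T) + e = (16 * q * U + ρ) * K := by
    have h2 : (16 * U * (W * g0 + t0) + e0) - 3 * (16 * U * (W * g1 + t1) + e1) +
      3 * (16 * U * (W * g2 + t2) + e2) - (16 * U * (W * g3 + t3) + e3) =
      16 * U * (W * G + T) + e := by rw [hG, hT, he]; ring
    rw [← h2, h, hQ]
  rw [← hG, ← hT, ← hq]
  clear h hG hT he hg0 hg1 hg2 hg3 ht0 ht1 ht2 ht3 he0 he1 he2 he3
  have hWG1 : -(4 * q) ≤ W * G := by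
    have := mul_le_mul_of_nonneg_left hGl (show (0:ℤ) ≤ W by omega)
    have h2 : W * -(4 * p) = -(4 * q) := by rw [hq]; ring
    linarith
  have hWG2 : W * G ≤ 4 * q := by
    have := mul_le_mul_of_nonneg_left hGu (show (0:ℤ) ≤ W by omega)
    have h2 : W * (4 * p) = 4 * q := by rw [hq]; ring
    linarith
  have hWp : W ≤ q := by
    have := mul_le_mul_of_nonneg_left hp (show (0:ℤ) ≤ W by omega)
    rw [hq]; linarith
  obtain ⟨Y, hY⟩ : ∃ Y, Y = W * G + T := ⟨_, rfl⟩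
  rw [← hY] at h1 ⊢
  have hY1 : -(8 * q) ≤ Y := by linarith
  have hY2 : Y ≤ 8 * q := by linarith
  clear hWG1 hWG2 hY hGl hGu hTl hTu hWp hQ
  have hU0 : 0 < U := by linarith
  have hqU : U ≤ q * U := by
    have := mul_le_mul_of_nonneg_right hq1 hU0.le
    linarith
  have hUY1 : -(128 * (q * U)) ≤ 16 * U * Y := by
    have := mul_le_mul_of_nonneg_left hY1 (show (0:ℤ) ≤ 16 * U by omega)
    have h2 : 16 * U * -(8 * q) = -(128 * (q * U)) := by ring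
    linarith
  have hUY2 : 16 * U * Y ≤ 128 * (q * U) := by
    have := mul_le_mul_of_nonneg_left hY2 (show (0:ℤ) ≤ 16 * U by omega)
    have h2 : 16 * U * (8 * q) = 128 * (q * U) := by ring
    linarith
  have hP : 0 < 16 * q * U + ρ := by
    have : 16 * q * U = 16 * (q * U) := by ring
    linarith
  have hK1 : -13 < K := by
    by_contra hc
    have hc' : K ≤ -13 := by omega
    have h3 := mul_le_mul_of_nonneg_left hc' hP.le
    have h4 : (16 * q * U + ρ) * -13 = -(208 * (q * U)) - 13 * ρ := by ring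
    linarith
  have hK2 : K < 13 := by
    by_contra hc
    have hc' : 13 ≤ K := by omega
    have h3 := mul_le_mul_of_nonneg_left hc' hP.le
    have h4 : (16 * q * U + ρ) * 13 = 208 * (q * U) + 13 * ρ := by ring
    linarith
  have h5 : 16 * U * (Y - q * K) = ρ * K - e := by linear_combination h1
  have h6 : ρ * K ≤ 12 * ρ := by
    have := mul_le_mul_of_nonneg_left (show K ≤ 12 by omega) hρ
    linarith
  have h7 : -(12 * ρ) ≤ ρ * K := by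
    have := mul_le_mul_of_nonneg_left (show -12 ≤ K by omega) hρ
    linarith
  by_contra hne
  rcases lt_or_gt_of_ne hne with h8 | h8
  · have h9 : Y - q * K ≤ -1 := by omega
    have := mul_le_mul_of_nonneg_left h9 (show (0:ℤ) ≤ 16 * U by omega)
    linarith
  · have h9 : 1 ≤ Y - q * K := by omega
    have := mul_le_mul_of_nonneg_left h9 (show (0:ℤ) ≤ 16 * U by omega)
    linarith

end Pool.Agent.Helper60.FourAP
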