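import Pool.Agent.Helper60.FourAPInterval

/-!
# Counting squares in intervals, twisted by characters and along progressions
-/

namespace Pool.Agent.Helper60.FourAP

open Finset

variable {P : ℕ} [Fact P.Prime]

lemma twisted_squares (h2 : (2 : ZMod P) ≠ 0) {s U : ℕ} (h : s + U ≤ P) (χ : AddChar (ZMod P) ℂ) :
    ‖∑ x ∈ (Finset.univ : Finset (ZMod P)).filter (fun x => x ^ 2 ∈ Itv P s U), χ x -
      (if χ = 0 then (U : ℂ) else 0)‖ ≤ Real.sqrt P * (1 + Real.log P) := by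
  classical
  have hP0 : 0 < P := (Fact.out : P.Prime).pos
  have hP1 : (0 : ℝ) < P := by exact_mod_cast hP0
  have hPC : (P : ℂ) ≠ 0 := by exact_mod_cast hP0.ne'
  set F : ZMod P → ℂ := fun k => ∑ y ∈ Itv P s U, (ZMod.stdAddChar (-(k * y)) : ℂ) with hF
  have e1 : (P : ℂ) * ∑ x ∈ (Finset.univ : Finset (ZMod P)).filter (fun x => x ^ 2 ∈ Itv P s U),
      χ x = ∑ k : ZMod P, F k * ∑ x : ZMod P, (ZMod.stdAddChar (k * x ^ 2) : ℂ) * χ x := by
    have a1 : ∀ x : ZMod P, (P : ℂ) * (if x ^ 2 ∈ Itv P s U then χ x else 0) =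
        ∑ k : ZMod P, F k * (ZMod.stdAddChar (k * x ^ 2) * χ x) := by
      intro x
      have := count_eq (Itv P s U) (fun y => y) (x ^ 2)
      simp_rw [← mul_assoc]
      rw [← Finset.sum_mul, ← this]
      by_cases hx : x ^ 2 ∈ Itv P s U
      · have h3 : (Itv P s U).filter (fun t => t = x ^ 2) = {x ^ 2} := by
          ext t
          simp only [Finset.mem_filter, Finset.mem_singleton]
          exact ⟨fun h => h.2, fun h => ⟨h ▸ hx, h⟩⟩
        rw [h3]
        simp [hx]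
      · have h3 : (Itv P s U).filter (fun t => t = x ^ 2) = ∅ := by
          ext t
          simp only [Finset.mem_filter, Finset.notMem_empty, iff_false, not_and]
          exact fun h h' => hx (h' ▸ h)
        rw [h3]
        simp [hx]
    rw [Finset.sum_filter, Finset.mul_sum]
    simp_rw [a1]
    rw [Finset.sum_comm]
    refine Finset.sum_congr rfl fun k _ => ?_
    rw [Finset.mul_sum]
  have e2 : ∑ k : ZMod P, F k * ∑ x : ZMod P, (ZMod.stdAddChar (k * x ^ 2) : ℂ) * χ x =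
      (P : ℂ) * (if χ = 0 then (U : ℂ) else 0) +
      ∑ k ∈ (Finset.univ : Finset (ZMod P)).erase 0,
        F k * ∑ x : ZMod P, (ZMod.stdAddChar (k * x ^ 2) : ℂ) * χ x := by
    rw [← Finset.add_sum_erase _ _ (Finset.mem_univ (0 : ZMod P))]
    congr 1
    have f0 : F 0 = U := by
      simp [hF, card_Itv h]
    rw [f0]
    simp only [zero_mul, AddChar.map_zero_eq_one, one_mul]
    rw [AddChar.sum_eq_ite, ZMod.card]
    by_cases hχ : χ = 0
    · simp [hχ, mul_comm]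
    · simp [hχ]
  have e3 : ∑ x ∈ (Finset.univ : Finset (ZMod P)).filter (fun x => x ^ 2 ∈ Itv P s U), χ x -
      (if χ = 0 then (U : ℂ) else 0) = (P : ℂ)⁻¹ *
      ∑ k ∈ (Finset.univ : Finset (ZMod P)).erase 0,
        F k * ∑ x : ZMod P, (ZMod.stdAddChar (k * x ^ 2) : ℂ) * χ x := by
    rw [e2] at e1
    rw [eq_inv_mul_iff_mul_eq₀ hPC, mul_sub, e1]
    ring
  rw [e3, norm_mul, norm_inv, Complex.norm_natCast]
  have e4 : ‖∑ k ∈ (Finset.univ : Finset (ZMod P)).erase 0,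
        F k * ∑ x : ZMod P, (ZMod.stdAddChar (k * x ^ 2) : ℂ) * χ x‖ ≤
      (P * (1 + Real.log P)) * Real.sqrt P := by
    refine (norm_sum_le _ _).trans ?_
    have a1 : ∀ k ∈ (Finset.univ : Finset (ZMod P)).erase 0,
        ‖F k * ∑ x : ZMod P, (ZMod.stdAddChar (k * x ^ 2) : ℂ) * χ x‖ ≤
        (P : ℝ) / 2 * (1 / (k.val : ℝ) + 1 / ((P : ℝ) - k.val)) * Real.sqrt P := by
      intro k hk
      have hk' : k ≠ 0 := by simpa using hk
      rw [norm_mul, gauss_norm h2 hk']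
      exact mul_le_mul_of_nonneg_right (norm_sum_Itv h hk') (Real.sqrt_nonneg _)
    refine (Finset.sum_le_sum a1).trans ?_
    rw [← Finset.sum_mul]
    exact mul_le_mul_of_nonneg_right sum_inv_le (Real.sqrt_nonneg _)
  calc (P : ℝ)⁻¹ * ‖∑ k ∈ (Finset.univ : Finset (ZMod P)).erase 0,
        F k * ∑ x : ZMod P, (ZMod.stdAddChar (k * x ^ 2) : ℂ) * χ x‖
      ≤ (P : ℝ)⁻¹ * ((P * (1 + Real.log P)) * Real.sqrt P) :=
        mul_le_mul_of_nonneg_left e4 (by positivity)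
    _ = Real.sqrt P * (1 + Real.log P) := by field_simp

/-- Sum of squares of the Fourier coefficients of an interval. -/
lemma parseval_interval {V : ℕ} (hV : V ≤ P) :
    ∑ k : ZMod P, ‖∑ a ∈ Finset.range V, (ZMod.stdAddChar (k * (a : ZMod P)) : ℂ)‖ ^ 2 =
      P * V := by
  classical
  have h := count_eq (P := P) (Finset.range V ×ˢ Finset.range V)
    (fun t => (t.1 : ZMod P) - (t.2 : ZMod P)) 0
  have e1 : ((Finset.range V ×ˢ Finset.range V).filter
      (fun t : ℕ × ℕ => (t.1 : ZMod P) - (t.2 : ZMod P) = 0)).card = V := by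
    have : (Finset.range V ×ˢ Finset.range V).filter
      (fun t : ℕ × ℕ => (t.1 : ZMod P) - (t.2 : ZMod P) = 0) =
      (Finset.range V).image (fun a => (a, a)) := by
      ext ⟨a, b⟩
      simp only [Finset.mem_filter, Finset.mem_product, Finset.mem_range, Finset.mem_image,
        Prod.mk.injEq]
      constructor
      · rintro ⟨⟨ha, hb⟩, hab⟩
        have h1 : (a : ZMod P) = b := sub_eq_zero.1 hab
        have h3 := congrArg ZMod.val h1
        rw [ZMod.val_natCast_of_lt (by omega), ZMod.val_natCast_of_lt (by omega)] at h3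
        exact ⟨a, ha, rfl, h3⟩
      · rintro ⟨c, hc, rfl, rfl⟩
        exact ⟨⟨hc, hc⟩, by simp⟩
    rw [this, Finset.card_image_of_injective _ (fun a b h => (Prod.mk.inj h).1), Finset.card_range]
  rw [e1] at h
  have e2 : ∀ k : ZMod P, (∑ t ∈ Finset.range V ×ˢ Finset.range V,
      (ZMod.stdAddChar (-(k * ((t.1 : ZMod P) - (t.2 : ZMod P)))) : ℂ)) =
      ((‖∑ a ∈ Finset.range V, (ZMod.stdAddChar (k * (a : ZMod P)) : ℂ)‖ ^ 2 : ℝ) : ℂ) := by
    intro k
    rw [Finset.sum_product]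
    have a1 : ∀ a b : ℕ, (ZMod.stdAddChar (-(k * ((a : ZMod P) - (b : ZMod P)))) : ℂ) =
        (starRingEnd ℂ) (ZMod.stdAddChar (k * (a : ZMod P))) *
          ZMod.stdAddChar (k * (b : ZMod P)) := by
      intro a b
      rw [← AddChar.map_neg_eq_conj, ← AddChar.map_add_eq_mul]
      congr 1
      ring
    simp_rw [a1]
    rw [← Finset.sum_mul_sum, ← map_sum, mul_comm, Complex.mul_conj, Complex.normSq_eq_norm_sq]
  simp_rw [e2] at h
  simp only [mul_zero, AddChar.map_zero_eq_one, mul_one] at h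
  exact_mod_cast h.symm

lemma cast_sum_filter {α β : Type*} [Fintype α] [Fintype β] (p : α → β → Prop)
    [DecidablePred fun t : α × β => p t.1 t.2] [∀ a b, Decidable (p a b)] :
    (((Finset.univ : Finset (α × β)).filter (fun t => p t.1 t.2)).card : ℝ) =
      ∑ a : α, ∑ b : β, if p a b then (1 : ℝ) else 0 := by
  rw [Finset.card_filter]
  push_cast
  rw [Fintype.sum_prod_type]

lemma triple_sum {K : Type*} [Fintype K] [DecidableEq K] (n : K → ℝ) (o : K) (A B : ℝ) :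
    ∑ k0 : K, ∑ k1 : K, ∑ k2 : K, (n k0 * n k1 * n k2) *
      (A + if k0 = o ∧ k1 = o ∧ k2 = o then B else 0) =
    (∑ k, n k) ^ 3 * A + n o ^ 3 * B := by
  have e1 : ∀ k0 k1 k2 : K, (n k0 * n k1 * n k2) *
      (A + if k0 = o ∧ k1 = o ∧ k2 = o then B else 0) =
      n k0 * (n k1 * (n k2 * A)) + (if k0 = o then (if k1 = o then
        (if k2 = o then n o ^ 3 * B else 0) else 0) else 0) := by
    intro k0 k1 k2
    by_cases h0 : k0 = o <;> by_cases h1 : k1 = o <;> by_cases h2 : k2 = o <;>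
      simp [h0, h1, h2] <;> ring
  simp_rw [e1, Finset.sum_add_distrib]
  have e2 : ∑ k0 : K, ∑ k1 : K, ∑ k2 : K, n k0 * (n k1 * (n k2 * A)) = (∑ k, n k) ^ 3 * A := by
    simp_rw [← Finset.mul_sum, ← Finset.sum_mul]
    ring
  have e3 : ∑ k0 : K, ∑ k1 : K, ∑ k2 : K, (if k0 = o then (if k1 = o then
        (if k2 = o then n o ^ 3 * B else 0) else 0) else 0) = n o ^ 3 * B := by
    have c1 : ∀ k0 k1 : K, ∑ k2 : K, (if k0 = o then (if k1 = o then
        (if k2 = o then n o ^ 3 * B else 0) else 0) else 0) =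
        if k0 = o then (if k1 = o then n o ^ 3 * B else 0) else 0 := by
      intro k0 k1
      by_cases h0 : k0 = o <;> by_cases h1 : k1 = o <;> simp [h0, h1]
    simp_rw [c1]
    have c2 : ∀ k0 : K, ∑ k1 : K, (if k0 = o then (if k1 = o then n o ^ 3 * B else 0) else 0) =
        if k0 = o then n o ^ 3 * B else 0 := by
      intro k0
      by_cases h0 : k0 = o <;> simp [h0]
    simp_rw [c2]
    simp
  rw [e2, e3]

/-- Upper bound for the number of three-term progressions of arguments whose squares lie in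
an interval. -/
lemma three_squares (h2 : (2 : ZMod P) ≠ 0) {s U : ℕ} (hU : 0 < U) (hUP : 2 * U ≤ P) :
    (((Finset.univ : Finset (ZMod P × ZMod P)).filter (fun t => t.1 ^ 2 ∈ Itv P s U ∧
      (t.1 + t.2) ^ 2 ∈ Itv P s U ∧ (t.1 + 2 * t.2) ^ 2 ∈ Itv P s U)).card : ℝ) ≤
      64 * (U : ℝ) ^ 3 / P + 8 * (P * Real.sqrt P) := by
  classical
  have hP0 : 0 < P := (Fact.out : P.Prime).pos
  have hP1 : (0 : ℝ) < P := by exact_mod_cast hP0
  have hPC : (P : ℂ) ≠ 0 := by exact_mod_cast hP0.ne'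
  have hUR : (0 : ℝ) < U := by exact_mod_cast hU
  set T : Finset (ℕ × ℕ) := Finset.range (2 * U) ×ˢ Finset.range (2 * U) with hT
  set c : ℕ × ℕ → ZMod P := fun t => (s : ZMod P) + (t.1 : ZMod P) - (t.2 : ZMod P) with hc
  set f : ZMod P → ℝ := fun y => ((T.filter (fun t => c t = y)).card : ℝ) with hf
  set F : ZMod P → ℂ := fun k => ∑ t ∈ T, (ZMod.stdAddChar (-(k * c t)) : ℂ) with hF
  set g : ZMod P → ℝ := fun k =>
    ‖∑ a ∈ Finset.range (2 * U), (ZMod.stdAddChar (k * (a : ZMod P)) : ℂ)‖ with hg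
  have f0 : ∀ y, 0 ≤ f y := fun y => Nat.cast_nonneg _
  -- majorant
  have f1 : ∀ y ∈ Itv P s U, (U : ℝ) ≤ f y := by
    intro y hy
    simp only [Itv, Finset.mem_filter, Finset.mem_univ, true_and] at hy
    have : (Finset.range U).card ≤ (T.filter (fun t => c t = y)).card := by
      apply Finset.card_le_card_of_injOn (fun b => (y.val - s + b, b))
      · intro b hb
        have hb' : b < U := by simpa using hb
        simp only [hT, hc, Finset.coe_filter, Set.mem_ofPred_eq, Finset.mem_product,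
          Finset.mem_range]
        refine ⟨⟨by omega, by omega⟩, ?_⟩
        have h1 : ((y.val - s + b : ℕ) : ZMod P) = y - s + b := by
          rw [Nat.cast_add, Nat.cast_sub hy.1, ZMod.natCast_zmod_val]
        rw [h1]
        ring
      · intro a _ b _ hab
        exact (Prod.mk.inj hab).2
    rw [Finset.card_range] at this
    simp only [hf]
    exact_mod_cast this
  -- Fourier expansion
  have f2 : ∀ y, (P : ℂ) * (f y : ℂ) = ∑ k : ZMod P, F k * ZMod.stdAddChar (k * y) := by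
    intro y
    have := count_eq (P := P) T c y
    rw [← this]
    simp [hf]
  have F1 : ∀ k, ‖F k‖ = g k ^ 2 := by
    intro k
    have a1 : F k = ZMod.stdAddChar (-(k * (s : ZMod P))) *
        ((starRingEnd ℂ) (∑ a ∈ Finset.range (2 * U), (ZMod.stdAddChar (k * (a : ZMod P)) : ℂ)) *
        (∑ a ∈ Finset.range (2 * U), (ZMod.stdAddChar (k * (a : ZMod P)) : ℂ))) := by
      simp only [hF, hT, hc]
      rw [Finset.sum_product, map_sum, Finset.sum_mul_sum, Finset.mul_sum]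
      refine Finset.sum_congr rfl fun a _ => ?_
      rw [Finset.mul_sum]
      refine Finset.sum_congr rfl fun b _ => ?_
      rw [← AddChar.map_neg_eq_conj, ← AddChar.map_add_eq_mul, ← AddChar.map_add_eq_mul]
      congr 1
      ring
    rw [a1, norm_mul, AddChar.norm_apply, one_mul, norm_mul, RCLike.norm_conj, hg]
    ring
  have F0 : ‖F 0‖ = 4 * (U : ℝ) ^ 2 := by
    rw [F1]
    simp only [hg, zero_mul, AddChar.map_zero_eq_one, Finset.sum_const, Finset.card_range,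
      nsmul_eq_mul, mul_one]
    rw [Complex.norm_natCast]
    push_cast
    ring
  have FS : ∑ k : ZMod P, ‖F k‖ = P * (2 * U) := by
    simp_rw [F1, hg]
    rw [parseval_interval hUP]
    push_cast
    ring
  -- the main estimate
  have main : (U : ℝ) ^ 3 * (((Finset.univ : Finset (ZMod P × ZMod P)).filter
      (fun t => t.1 ^ 2 ∈ Itv P s U ∧
      (t.1 + t.2) ^ 2 ∈ Itv P s U ∧ (t.1 + 2 * t.2) ^ 2 ∈ Itv P s U)).card : ℝ) ≤
      ∑ x : ZMod P, ∑ d : ZMod P, f (x ^ 2) * f ((x + d) ^ 2) * f ((x + 2 * d) ^ 2) := by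
    rw [cast_sum_filter (fun x d : ZMod P => x ^ 2 ∈ Itv P s U ∧
      (x + d) ^ 2 ∈ Itv P s U ∧ (x + 2 * d) ^ 2 ∈ Itv P s U), Finset.mul_sum]
    refine Finset.sum_le_sum fun x _ => ?_
    rw [Finset.mul_sum]
    refine Finset.sum_le_sum fun d _ => ?_
    split_ifs with hx
    · rw [mul_one]
      have b1 := f1 _ hx.1
      have b2 := f1 _ hx.2.1
      have b3 := f1 _ hx.2.2
      calc (U : ℝ) ^ 3 = U * U * U := by ring
        _ ≤ f (x ^ 2) * f ((x + d) ^ 2) * f ((x + 2 * d) ^ 2) := by gcongr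
    · rw [mul_zero]
      exact mul_nonneg (mul_nonneg (f0 _) (f0 _)) (f0 _)
  set S : ℝ := ∑ x : ZMod P, ∑ d : ZMod P, f (x ^ 2) * f ((x + d) ^ 2) * f ((x + 2 * d) ^ 2)
    with hS
  have hSC : (P : ℂ) ^ 3 * (S : ℂ) = ∑ k0 : ZMod P, ∑ k1 : ZMod P, ∑ k2 : ZMod P,
      F k0 * F k1 * F k2 * ∑ x : ZMod P, ∑ d : ZMod P,
        (ZMod.stdAddChar (k0 * x ^ 2 + k1 * (x + d) ^ 2 + k2 * (x + 2 * d) ^ 2) : ℂ) := by
    have a1 : ∀ x d : ZMod P, (P : ℂ) ^ 3 * (((f (x ^ 2) * f ((x + d) ^ 2) *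
        f ((x + 2 * d) ^ 2) : ℝ)) : ℂ) =
        ∑ k0 : ZMod P, ∑ k1 : ZMod P, ∑ k2 : ZMod P, F k0 * F k1 * F k2 *
        (ZMod.stdAddChar (k0 * x ^ 2 + k1 * (x + d) ^ 2 + k2 * (x + 2 * d) ^ 2) : ℂ) := by
      intro x d
      have b1 : (P : ℂ) ^ 3 * (((f (x ^ 2) * f ((x + d) ^ 2) *
        f ((x + 2 * d) ^ 2) : ℝ)) : ℂ) = ((P : ℂ) * (f (x ^ 2) : ℂ)) *
        ((P : ℂ) * (f ((x + d) ^ 2) : ℂ)) * ((P : ℂ) * (f ((x + 2 * d) ^ 2) : ℂ)) := by
        push_cast
        ring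
      rw [b1, f2, f2, f2, Finset.sum_mul_sum, Finset.sum_mul]
      refine Finset.sum_congr rfl fun k0 _ => ?_
      rw [Finset.sum_mul]
      refine Finset.sum_congr rfl fun k1 _ => ?_
      rw [Finset.mul_sum]
      refine Finset.sum_congr rfl fun k2 _ => ?_
      rw [AddChar.map_add_eq_mul, AddChar.map_add_eq_mul]
      ring
    rw [hS]
    push_cast
    rw [Finset.mul_sum]
    simp_rw [Finset.mul_sum]
    have a2 : ∀ x d : ZMod P, (P : ℂ) ^ 3 * ((f (x ^ 2) : ℂ) * (f ((x + d) ^ 2) : ℂ) *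
        (f ((x + 2 * d) ^ 2) : ℂ)) =
        ∑ k0 : ZMod P, ∑ k1 : ZMod P, ∑ k2 : ZMod P, F k0 * F k1 * F k2 *
        (ZMod.stdAddChar (k0 * x ^ 2 + k1 * (x + d) ^ 2 + k2 * (x + 2 * d) ^ 2) : ℂ) := by
      intro x d
      rw [← a1 x d]
      push_cast
      ring
    simp_rw [a2]
    -- move the sums over `x, d` inside
    have c1 : ∀ G : ZMod P → ZMod P → ZMod P → ZMod P → ZMod P → ℂ,
        ∑ x, ∑ d, ∑ k0, ∑ k1, ∑ k2, G x d k0 k1 k2 = ∑ k0, ∑ k1, ∑ k2, ∑ x, ∑ d,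
          G x d k0 k1 k2 := by
      intro G
      calc ∑ x, ∑ d, ∑ k0, ∑ k1, ∑ k2, G x d k0 k1 k2
          = ∑ x, ∑ k0, ∑ d, ∑ k1, ∑ k2, G x d k0 k1 k2 := by
            refine Finset.sum_congr rfl fun x _ => ?_
            rw [Finset.sum_comm]
        _ = ∑ k0, ∑ x, ∑ d, ∑ k1, ∑ k2, G x d k0 k1 k2 := by rw [Finset.sum_comm]
        _ = ∑ k0, ∑ k1, ∑ k2, ∑ x, ∑ d, G x d k0 k1 k2 := by
            refine Finset.sum_congr rfl fun k0 _ => ?_
            calc ∑ x, ∑ d, ∑ k1, ∑ k2, G x d k0 k1 k2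
                = ∑ x, ∑ k1, ∑ d, ∑ k2, G x d k0 k1 k2 := by
                  refine Finset.sum_congr rfl fun x _ => ?_
                  rw [Finset.sum_comm]
              _ = ∑ k1, ∑ x, ∑ d, ∑ k2, G x d k0 k1 k2 := by rw [Finset.sum_comm]
              _ = ∑ k1, ∑ k2, ∑ x, ∑ d, G x d k0 k1 k2 := by
                  refine Finset.sum_congr rfl fun k1 _ => ?_
                  calc ∑ x, ∑ d, ∑ k2, G x d k0 k1 k2
                      = ∑ x, ∑ k2, ∑ d, G x d k0 k1 k2 := by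
                        refine Finset.sum_congr rfl fun x _ => ?_
                        rw [Finset.sum_comm]
                    _ = ∑ k2, ∑ x, ∑ d, G x d k0 k1 k2 := by rw [Finset.sum_comm]
    exact c1 _
  have hG : ∀ k0 k1 k2 : ZMod P, ‖∑ x : ZMod P, ∑ d : ZMod P,
      (ZMod.stdAddChar (k0 * x ^ 2 + k1 * (x + d) ^ 2 + k2 * (x + 2 * d) ^ 2) : ℂ)‖ ≤
      P * Real.sqrt P + if k0 = 0 ∧ k1 = 0 ∧ k2 = 0 then (P : ℝ) ^ 2 else 0 := by
    intro k0 k1 k2
    by_cases hk : k0 = 0 ∧ k1 = 0 ∧ k2 = 0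
    · rw [if_pos hk]
      obtain ⟨rfl, rfl, rfl⟩ := hk
      simp only [zero_mul, add_zero, AddChar.map_zero_eq_one, Finset.sum_const, Finset.card_univ,
        ZMod.card, nsmul_eq_mul, mul_one, norm_mul, Complex.norm_natCast]
      have : 0 ≤ (P : ℝ) * Real.sqrt P := by positivity
      nlinarith
    · rw [if_neg hk, add_zero]
      exact gauss_two h2 k0 k1 k2 hk
  have hS0 : 0 ≤ S := Finset.sum_nonneg fun x _ => Finset.sum_nonneg fun d _ =>
    mul_nonneg (mul_nonneg (f0 _) (f0 _)) (f0 _)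
  have hSb : (P : ℝ) ^ 3 * S ≤ (P * (2 * U)) ^ 3 * (P * Real.sqrt P) +
      (4 * (U : ℝ) ^ 2) ^ 3 * (P : ℝ) ^ 2 := by
    have a1 : (P : ℝ) ^ 3 * S = ‖(P : ℂ) ^ 3 * (S : ℂ)‖ := by
      rw [norm_mul, norm_pow, Complex.norm_natCast, Complex.norm_real, Real.norm_of_nonneg hS0]
    rw [a1, hSC]
    calc ‖∑ k0 : ZMod P, ∑ k1 : ZMod P, ∑ k2 : ZMod P, F k0 * F k1 * F k2 *
          ∑ x : ZMod P, ∑ d : ZMod P,
          (ZMod.stdAddChar (k0 * x ^ 2 + k1 * (x + d) ^ 2 + k2 * (x + 2 * d) ^ 2) : ℂ)‖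
        ≤ ∑ k0 : ZMod P, ∑ k1 : ZMod P, ∑ k2 : ZMod P, (‖F k0‖ * ‖F k1‖ * ‖F k2‖) *
          (P * Real.sqrt P + if k0 = 0 ∧ k1 = 0 ∧ k2 = 0 then (P : ℝ) ^ 2 else 0) := by
          refine (norm_sum_le _ _).trans (Finset.sum_le_sum fun k0 _ => ?_)
          refine (norm_sum_le _ _).trans (Finset.sum_le_sum fun k1 _ => ?_)
          refine (norm_sum_le _ _).trans (Finset.sum_le_sum fun k2 _ => ?_)
          rw [norm_mul, norm_mul, norm_mul]
          exact mul_le_mul_of_nonneg_left (hG k0 k1 k2) (by positivity)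
      _ = (P * (2 * U)) ^ 3 * (P * Real.sqrt P) + (4 * (U : ℝ) ^ 2) ^ 3 * (P : ℝ) ^ 2 := by
          rw [triple_sum (fun k => ‖F k‖) 0, FS, F0]
  have hPS : S ≤ 8 * (U : ℝ) ^ 3 * (P * Real.sqrt P) + 64 * (U : ℝ) ^ 6 / P := by
    have a1 : (P : ℝ) ^ 3 * S ≤ (P : ℝ) ^ 3 * (8 * (U : ℝ) ^ 3 * (P * Real.sqrt P) +
        64 * (U : ℝ) ^ 6 / P) := by
      refine hSb.trans (le_of_eq ?_)
      field_simp
      ring
    exact le_of_mul_le_mul_left a1 (by positivity)
  have hfin := main.trans hPS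
  have a2 : (8 * (U : ℝ) ^ 3 * (P * Real.sqrt P) + 64 * (U : ℝ) ^ 6 / P) =
      (U : ℝ) ^ 3 * (64 * (U : ℝ) ^ 3 / P + 8 * (P * Real.sqrt P)) := by
    field_simp
    ring
  rw [a2] at hfin
  exact le_of_mul_le_mul_left hfin (by positivity)

end Pool.Agent.Helper60.FourAP
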