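import Pool.Agent.Helper60.FourAPNorm
import Pool.Agent.Helper60.FourAPShift
import Pool.Agent.Helper60.FourAPDigits
import Pool.Agent.Helper60.FourAPSquares

/-!
# The set and its four-term progressions
-/

namespace Pool.Agent.Helper60.FourAP

open Finset

/-- Bound for the dyadic parts of the types. -/
def bb (p : ℕ) : ℕ := 2 * Nat.log 2 p + 2

/-- The two types of `v`, packed in one number. -/
def code (p v : ℕ) : ℕ :=
  (typ p (v % p)).1 + 8 * ((typ p (v % p)).2.1 + bb p * ((typ p (v % p)).2.2 + bb p *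
    ((typ (p ^ 2) (v % p ^ 2)).1 + 8 * ((typ (p ^ 2) (v % p ^ 2)).2.1 +
      bb p * (typ (p ^ 2) (v % p ^ 2)).2.2))))

lemma pack_inj {n a x a' x' : ℕ} (ha : a < n) (ha' : a' < n) (h : a + n * x = a' + n * x') :
    a = a' ∧ x = x' := by
  have h1 : (a + n * x) % n = (a' + n * x') % n := by rw [h]
  rw [Nat.add_mul_mod_self_left, Nat.add_mul_mod_self_left, Nat.mod_eq_of_lt ha,
    Nat.mod_eq_of_lt ha'] at h1
  subst h1
  have h2 : n * x = n * x' := by omega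
  exact ⟨rfl, Nat.eq_of_mul_eq_mul_left (by omega) h2⟩

lemma pack_lt {n m a x : ℕ} (ha : a < n) (hx : x < m) : a + n * x < n * m := by
  have : n * x + n ≤ n * m := by
    calc n * x + n = n * (x + 1) := by ring
      _ ≤ n * m := Nat.mul_le_mul_left n hx
  omega

lemma typ_lt {W w : ℕ} (hw : w < W) : (typ W w).1 < 8 ∧ (typ W w).2.1 ≤ Nat.log 2 W ∧
    (typ W w).2.2 ≤ Nat.log 2 W := by
  refine ⟨?_, ?_, ?_⟩
  · simp only [typ]
    rw [Nat.div_lt_iff_lt_mul (by omega)]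
    omega
  · show Nat.log 2 (w + 1) ≤ Nat.log 2 W
    exact Nat.log_mono_right hw
  · show Nat.log 2 (W - w) ≤ Nat.log 2 W
    exact Nat.log_mono_right (Nat.sub_le _ _)

lemma log_sq_le (p : ℕ) : Nat.log 2 (p ^ 2) ≤ 2 * Nat.log 2 p + 1 := by
  rcases Nat.eq_zero_or_pos p with h | h
  · subst h; simp
  have h1 : p < 2 ^ (Nat.log 2 p + 1) := Nat.lt_pow_succ_log_self (by norm_num) p
  have h2 : p ^ 2 < 2 ^ (2 * Nat.log 2 p + 2) := by
    calc p ^ 2 < (2 ^ (Nat.log 2 p + 1)) ^ 2 := Nat.pow_lt_pow_left h1 (by norm_num)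
      _ = 2 ^ (2 * Nat.log 2 p + 2) := by rw [← pow_mul]; congr 1; ring
  have h3 := (Nat.log_lt_iff_lt_pow (b := 2) (by norm_num) (by positivity)).2 h2
  omega

lemma code_bounds {p v : ℕ} (hp : 0 < p) : (typ p (v % p)).1 < 8 ∧ (typ p (v % p)).2.1 < bb p ∧
    (typ p (v % p)).2.2 < bb p ∧ (typ (p ^ 2) (v % p ^ 2)).1 < 8 ∧
    (typ (p ^ 2) (v % p ^ 2)).2.1 < bb p ∧ (typ (p ^ 2) (v % p ^ 2)).2.2 < bb p := by
  have h1 := typ_lt (Nat.mod_lt v hp)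
  have h2 := typ_lt (Nat.mod_lt v (show 0 < p ^ 2 by positivity))
  have h3 := log_sq_le p
  unfold bb
  refine ⟨h1.1, ?_, ?_, h2.1, ?_, ?_⟩ <;> omega

lemma code_lt {p : ℕ} (hp : 0 < p) (v : ℕ) : code p v < 64 * bb p ^ 4 := by
  obtain ⟨h1, h2, h3, h4, h5, h6⟩ := code_bounds (v := v) hp
  have h7 := pack_lt h5 h6
  have h8 := pack_lt h4 h7
  have h9 := pack_lt h3 h8
  have h10 := pack_lt h2 h9
  have h11 := pack_lt h1 h10
  have e : 64 * bb p ^ 4 = 8 * (bb p * (bb p * (8 * (bb p * bb p)))) := by ring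
  rw [e]
  exact h11

lemma code_inj {p : ℕ} (hp : 0 < p) {v v' : ℕ} (h : code p v = code p v') :
    typ p (v % p) = typ p (v' % p) ∧ typ (p ^ 2) (v % p ^ 2) = typ (p ^ 2) (v' % p ^ 2) := by
  obtain ⟨h1, h2, h3, h4, h5, h6⟩ := code_bounds (v := v) hp
  obtain ⟨h1', h2', h3', h4', h5', h6'⟩ := code_bounds (v := v') hp
  obtain ⟨e1, r1⟩ := pack_inj h1 h1' h
  obtain ⟨e2, r2⟩ := pack_inj h2 h2' r1
  obtain ⟨e3, r3⟩ := pack_inj h3 h3' r2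
  obtain ⟨e4, r4⟩ := pack_inj h4 h4' r3
  obtain ⟨e5, e6⟩ := pack_inj h5 h5' r4
  exact ⟨Prod.ext e1 (Prod.ext e2 e3), Prod.ext e4 (Prod.ext e5 e6)⟩

/-- Number of ternary digits needed for the codes. -/
def ww (p : ℕ) : ℕ := Nat.clog 3 (64 * bb p ^ 4)

/-- Number of cells. -/
def qq (p : ℕ) : ℕ := 16 * 9 ^ ww p * p

/-- The left end of the interval attached to the residue with representative `v`. -/
def shf (p : ℕ) (g : (Fin 3 → ZMod p) → ZMod p) (U v : ℕ) : ℕ :=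
  16 * U * (9 ^ ww p * (g (dig p v)).val + tau (ww p) (code p v))

lemma shf_le {p : ℕ} [NeZero p] (g : (Fin 3 → ZMod p) → ZMod p) (U v : ℕ) :
    shf p g U v + U ≤ U * qq p := by
  have h1 : (g (dig p v)).val < p := ZMod.val_lt _
  have h2 := tau_lt (ww p) (code p v)
  have h3 : 9 ^ ww p * (g (dig p v)).val + tau (ww p) (code p v) + 1 ≤ 9 ^ ww p * p := by
    calc 9 ^ ww p * (g (dig p v)).val + tau (ww p) (code p v) + 1
        ≤ 9 ^ ww p * (g (dig p v)).val + 9 ^ ww p := by omega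
      _ = 9 ^ ww p * ((g (dig p v)).val + 1) := by ring
      _ ≤ 9 ^ ww p * p := Nat.mul_le_mul_left _ h1
  unfold shf qq
  calc 16 * U * (9 ^ ww p * (g (dig p v)).val + tau (ww p) (code p v)) + U
      ≤ 16 * U * (9 ^ ww p * (g (dig p v)).val + tau (ww p) (code p v)) + 16 * U * 1 := by omega
    _ = 16 * U * (9 ^ ww p * (g (dig p v)).val + tau (ww p) (code p v) + 1) := by ring
    _ ≤ 16 * U * (9 ^ ww p * p) := Nat.mul_le_mul_left _ h3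
    _ = U * (16 * 9 ^ ww p * p) := by ring

lemma shift_nat {P p U W ρ : ℕ} (hW : 0 < W) (hp : 0 < p) (hP : P = 16 * W * p * U + ρ)
    (hρ : ρ < 16 * W * p) (hU : 16 * W * p ≤ U) {g0 g1 g2 g3 t0 t1 t2 t3 q0 q1 q2 q3 s0 s1 s2 s3 : ℕ}
    (hs0 : s0 = 16 * U * (W * g0 + t0)) (hs1 : s1 = 16 * U * (W * g1 + t1))
    (hs2 : s2 = 16 * U * (W * g2 + t2)) (hs3 : s3 = 16 * U * (W * g3 + t3))
    (hg0 : g0 < p) (hg1 : g1 < p) (hg2 : g2 < p) (hg3 : g3 < p)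
    (ht0 : t0 < W) (ht1 : t1 < W) (ht2 : t2 < W) (ht3 : t3 < W)
    (hq0 : s0 ≤ q0 ∧ q0 < s0 + U) (hq1 : s1 ≤ q1 ∧ q1 < s1 + U)
    (hq2 : s2 ≤ q2 ∧ q2 < s2 + U) (hq3 : s3 ≤ q3 ∧ q3 < s3 + U) {K : ℤ}
    (hK : (q0 : ℤ) - 3 * q1 + 3 * q2 - q3 = P * K) :
    (W : ℤ) * ((g0 : ℤ) - 3 * g1 + 3 * g2 - g3) + ((t0 : ℤ) - 3 * t1 + 3 * t2 - t3) =
      W * p * K := by
  refine shift_arith (W := (W : ℤ)) (p := (p : ℤ)) (U := (U : ℤ)) (ρ := (ρ : ℤ))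
    (e0 := (q0 : ℤ) - s0) (e1 := (q1 : ℤ) - s1) (e2 := (q2 : ℤ) - s2) (e3 := (q3 : ℤ) - s3)
    (by exact_mod_cast hW) (by exact_mod_cast hp) (Int.natCast_nonneg _) (by exact_mod_cast hρ)
    (by exact_mod_cast hU)
    ⟨Int.natCast_nonneg _, by exact_mod_cast hg0⟩ ⟨Int.natCast_nonneg _, by exact_mod_cast hg1⟩
    ⟨Int.natCast_nonneg _, by exact_mod_cast hg2⟩ ⟨Int.natCast_nonneg _, by exact_mod_cast hg3⟩
    ⟨Int.natCast_nonneg _, by exact_mod_cast ht0⟩ ⟨Int.natCast_nonneg _, by exact_mod_cast ht1⟩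
    ⟨Int.natCast_nonneg _, by exact_mod_cast ht2⟩ ⟨Int.natCast_nonneg _, by exact_mod_cast ht3⟩
    (by omega) (by omega) (by omega) (by omega) ?_
  have a0 : (s0 : ℤ) = 16 * U * (W * g0 + t0) := by exact_mod_cast hs0
  have a1 : (s1 : ℤ) = 16 * U * (W * g1 + t1) := by exact_mod_cast hs1
  have a2 : (s2 : ℤ) = 16 * U * (W * g2 + t2) := by exact_mod_cast hs2
  have a3 : (s3 : ℤ) = 16 * U * (W * g3 + t3) := by exact_mod_cast hs3
  have aP : (P : ℤ) = 16 * W * p * U + ρ := by exact_mod_cast hP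
  rw [← aP, ← hK, ← a0, ← a1, ← a2, ← a3]
  ring

lemma shf_eq {p : ℕ} (g : (Fin 3 → ZMod p) → ZMod p) (U v : ℕ) :
    shf p g U v = 16 * U * (9 ^ ww p * (g (dig p v)).val + tau (ww p) (code p v)) := rfl

lemma code_lt' {p : ℕ} (hp : 0 < p) (v : ℕ) : code p v < 3 ^ ww p :=
  (code_lt hp v).trans_le (Nat.le_pow_clog (by norm_num) _)

lemma qq_pos {p : ℕ} (hp : 0 < p) : 0 < qq p := by unfold qq; positivity

lemma qq_eq (p : ℕ) : qq p = 16 * 9 ^ ww p * p := rfl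

lemma mem_Itv {P s U : ℕ} [NeZero P] (y : ZMod P) :
    y ∈ Itv P s U ↔ s ≤ y.val ∧ y.val < s + U := by
  simp [Itv]

lemma third_diff_dvd {P : ℕ} [NeZero P] (y t : ZMod P) :
    ∃ K : ℤ, (((y ^ 2).val : ℤ) - 3 * (((y + t) ^ 2).val : ℤ) +
      3 * (((y + 2 * t) ^ 2).val : ℤ) - (((y + 3 * t) ^ 2).val : ℤ)) = P * K := by
  have : (P : ℤ) ∣ (((y ^ 2).val : ℤ) - 3 * (((y + t) ^ 2).val : ℤ) +
      3 * (((y + 2 * t) ^ 2).val : ℤ) - (((y + 3 * t) ^ 2).val : ℤ)) := by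
    rw [← ZMod.intCast_zmod_eq_zero_iff_dvd]
    push_cast
    simp only [ZMod.natCast_zmod_val]
    ring
  exact this

lemma val_ap_dvd {M : ℕ} [NeZero M] (j δ : ZMod M) (i : ℕ) :
    ((M : ℕ) : ℤ) ∣ ((j + (i : ZMod M) * δ).val : ℤ) - ((j.val : ℤ) + (i : ℤ) * (δ.val : ℤ)) := by
  rw [← ZMod.intCast_zmod_eq_zero_iff_dvd]
  push_cast
  simp only [ZMod.natCast_zmod_val]
  ring

lemma g_zero {p : ℕ} [NeZero p] {a b c d : ZMod p} {K : ℤ}
    (h : (a.val : ℤ) - 3 * b.val + 3 * c.val - d.val = p * K) : a - 3 * b + 3 * c - d = 0 := by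
  have h5 : (((a.val : ℤ) - 3 * b.val + 3 * c.val - d.val : ℤ) : ZMod p) = 0 := by
    rw [h]
    push_cast
    simp
  push_cast at h5
  simp only [ZMod.natCast_zmod_val] at h5
  exact h5

lemma ww_eq (p : ℕ) : ww p = Nat.clog 3 (64 * bb p ^ 4) := rfl

lemma bb_eq (p : ℕ) : bb p = 2 * Nat.log 2 p + 2 := rfl

attribute [irreducible] qq ww code shf bb

/-- The key rigidity statement: four-term progressions stay in one residue class. -/
lemma ap_core {p P : ℕ} [Fact p.Prime] [Fact P.Prime] (g : (Fin 3 → ZMod p) → ZMod p)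
    (hg : ∀ a D : Fin 3 → ZMod p, D ≠ 0 → g a - 3*g (a+D) + 3*g (a+2•D) - g (a+3•D) ≠ 0)
    (U : ℕ) (hUdef : U = P / qq p)
    (hU : qq p ≤ U) (j δ : ZMod (p ^ 3)) (y t : ZMod P)
    (h0 : y ^ 2 ∈ Itv P (shf p g U j.val) U)
    (h1 : (y + t) ^ 2 ∈ Itv P (shf p g U (j + δ).val) U)
    (h2 : (y + 2 * t) ^ 2 ∈ Itv P (shf p g U (j + 2 * δ).val) U)
    (h3 : (y + 3 * t) ^ 2 ∈ Itv P (shf p g U (j + 3 * δ).val) U) :
    δ = 0 := by
  have hp : 0 < p := (Fact.out : p.Prime).pos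
  have hP : 0 < P := (Fact.out : P.Prime).pos
  have : NeZero (p ^ 3) := ⟨by positivity⟩
  have hW : 0 < 9 ^ ww p := by positivity
  have hq : 0 < qq p := qq_pos hp
  rw [mem_Itv] at h0 h1 h2 h3
  obtain ⟨v0, hv0⟩ : ∃ v0, v0 = j.val := ⟨_, rfl⟩
  obtain ⟨v1, hv1⟩ : ∃ v1, v1 = (j + δ).val := ⟨_, rfl⟩
  obtain ⟨v2, hv2⟩ : ∃ v2, v2 = (j + 2 * δ).val := ⟨_, rfl⟩
  obtain ⟨v3, hv3⟩ : ∃ v3, v3 = (j + 3 * δ).val := ⟨_, rfl⟩
  rw [← hv0] at h0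
  rw [← hv1] at h1
  rw [← hv2] at h2
  rw [← hv3] at h3
  obtain ⟨K, hK⟩ := third_diff_dvd y t
  have hmod : P % qq p < qq p := Nat.mod_lt P hq
  have hdm : P = 16 * 9 ^ ww p * p * U + P % qq p := by
    have h4 := Nat.div_add_mod P (qq p)
    rw [← hUdef] at h4
    rw [← qq_eq]
    exact h4.symm
  have key := shift_nat hW hp hdm (by rw [← qq_eq]; exact hmod) (by rw [← qq_eq]; exact hU)
    (shf_eq g U v0) (shf_eq g U v1) (shf_eq g U v2) (shf_eq g U v3)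
    (ZMod.val_lt _) (ZMod.val_lt _) (ZMod.val_lt _) (ZMod.val_lt _)
    (tau_lt _ _) (tau_lt _ _) (tau_lt _ _) (tau_lt _ _) h0 h1 h2 h3 hK
  obtain ⟨T, hT⟩ : ∃ T : ℤ, T = (tau (ww p) (code p v0) : ℤ) - 3 * (tau (ww p) (code p v1) : ℤ) +
    3 * (tau (ww p) (code p v2) : ℤ) - (tau (ww p) (code p v3) : ℤ) := ⟨_, rfl⟩
  obtain ⟨Gc, hGc⟩ : ∃ Gc : ℤ, Gc = ((g (dig p v0)).val : ℤ) - 3 * ((g (dig p v1)).val : ℤ) +
    3 * ((g (dig p v2)).val : ℤ) - ((g (dig p v3)).val : ℤ) := ⟨_, rfl⟩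
  rw [← hT, ← hGc] at key
  have hTd : ((9 : ℤ) ^ ww p) ∣ T := by
    refine ⟨p * K - Gc, ?_⟩
    push_cast at key
    linear_combination key
  rw [hT] at hTd
  obtain ⟨c03, c12⟩ := tau_sep (ww p) _ _ _ _ (code_lt' hp v0) (code_lt' hp v1) (code_lt' hp v2)
    (code_lt' hp v3) hTd
  have hT0 : T = 0 := by rw [hT, c03, c12]; ring
  have hG : Gc = p * K := by
    rw [hT0, add_zero] at key
    have hW' : (((9 ^ ww p : ℕ) : ℤ)) ≠ 0 := by exact_mod_cast hW.ne'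
    apply mul_left_cancel₀ hW'
    rw [key]
    ring
  have hgz : g (dig p v0) - 3 * g (dig p v1) + 3 * g (dig p v2) - g (dig p v3) = 0 := by
    rw [hGc] at hG
    exact g_zero hG
  obtain ⟨t03, s03⟩ := code_inj hp c03
  obtain ⟨t12, s12⟩ := code_inj hp c12
  have cst : ∀ i : ℕ, ((p : ℤ) ^ 3) ∣ ((j + (i : ZMod (p ^ 3)) * δ).val : ℤ) -
      ((v0 : ℤ) + (i : ℤ) * (δ.val : ℤ)) := by
    intro i
    have h6 := val_ap_dvd j δ i
    rw [hv0]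
    push_cast at h6
    exact h6
  have cs1 := cst 1
  have cs2 := cst 2
  have cs3 := cst 3
  simp only [Nat.cast_one, one_mul, Nat.cast_ofNat] at cs1 cs2 cs3
  rw [← hv1] at cs1
  rw [← hv2] at cs2
  rw [← hv3] at cs3
  obtain ⟨D, d1, d2, d3, d4⟩ := dig_ap (p := p) hp cs1 cs2 cs3 t03 t12 s03 s12
  have hD : D = 0 := by
    by_contra hD
    apply hg (dig p v0) D hD
    rw [← d1, ← d2, ← d3]
    exact hgz
  have h7 := d4 hD
  have h8 : ((p ^ 3 : ℕ) : ℤ) ∣ (δ.val : ℤ) := by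
    push_cast
    exact h7
  rw [← ZMod.intCast_zmod_eq_zero_iff_dvd] at h8
  rw [Int.cast_natCast, ZMod.natCast_zmod_val] at h8
  exact h8

end Pool.Agent.Helper60.FourAP
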