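import Pool.Agent.Helper60.FourAPMain

/-!
# Choice of the parameters
-/

namespace Pool.Agent.Helper60.FourAP

open Finset Filter Asymptotics

lemma exists_large_prime (Q : ℕ) (hQ : 0 < Q) (ε : ℝ) (hε : 0 < ε) (n₀ : ℕ) :
    ∃ P : ℕ, P.Prime ∧ n₀ ≤ P ∧ Real.sqrt P * (1 + Real.log P) ≤ ε * P ∧
      Real.sqrt P * (1 + Real.log P) + 1 ≤ P / (2 * Q) ∧
      8 * ((P : ℝ) * Real.sqrt P) ≤ (P : ℝ) ^ 2 / (Q : ℝ) ^ 3 ∧ Q * Q ≤ P := by
  have hQR : (0 : ℝ) < Q := by exact_mod_cast hQ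
  have l1 : (fun x : ℝ => Real.log x) =o[atTop] fun x => x ^ (1 / 2 : ℝ) :=
    isLittleO_log_rpow_atTop (by norm_num)
  have l2 : (fun _ : ℝ => (1 : ℝ)) =o[atTop] fun x : ℝ => x ^ (1 / 2 : ℝ) := by
    rw [isLittleO_one_left_iff]
    exact (tendsto_norm_atTop_atTop).comp (tendsto_rpow_atTop (by norm_num))
  have l3 : (fun x : ℝ => 1 + Real.log x) =o[atTop] fun x => x ^ (1 / 2 : ℝ) := l2.add l1
  have key : ∀ η : ℝ, 0 < η → ∀ᶠ x : ℝ in atTop, 1 + Real.log x ≤ η * Real.sqrt x := by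
    intro η hη
    filter_upwards [l3.bound hη, eventually_ge_atTop 1] with x hx h1
    rw [Real.norm_eq_abs, Real.norm_eq_abs, ← Real.sqrt_eq_rpow,
      abs_of_nonneg (Real.sqrt_nonneg _)] at hx
    exact (le_abs_self _).trans hx
  have k1 := key ε hε
  have k2 := key (1 / (4 * Q)) (by positivity)
  have k3 : ∀ᶠ x : ℝ in atTop, 4 * (Q : ℝ) ≤ x := eventually_ge_atTop _
  have k4 : ∀ᶠ x : ℝ in atTop, (8 * (Q : ℝ) ^ 3) ^ 2 ≤ x := eventually_ge_atTop _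
  have k5 : ∀ᶠ x : ℝ in atTop, (Q : ℝ) * Q ≤ x := eventually_ge_atTop _
  have hall := (k1.and (k2.and (k3.and (k4.and k5))))
  have hnat := tendsto_natCast_atTop_atTop.eventually hall
  obtain ⟨m, hm⟩ := Filter.eventually_atTop.1 hnat
  obtain ⟨P, hP1, hP2⟩ := Nat.exists_infinite_primes (max m n₀)
  obtain ⟨a1, a2, a3, a4, a5⟩ := hm P (le_trans (le_max_left _ _) hP1)
  have hP0 : (0 : ℝ) < P := by exact_mod_cast hP2.pos
  have hs : Real.sqrt P * Real.sqrt P = P := Real.mul_self_sqrt hP0.le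
  have hs0 : 0 < Real.sqrt P := Real.sqrt_pos.2 hP0
  refine ⟨P, hP2, le_trans (le_max_right _ _) hP1, ?_, ?_, ?_, by exact_mod_cast a5⟩
  · calc Real.sqrt P * (1 + Real.log P) ≤ Real.sqrt P * (ε * Real.sqrt P) :=
          mul_le_mul_of_nonneg_left a1 hs0.le
      _ = ε * (Real.sqrt P * Real.sqrt P) := by ring
      _ = ε * P := by rw [hs]
  · have b1 : Real.sqrt P * (1 + Real.log P) ≤ P / (4 * Q) := by
      calc Real.sqrt P * (1 + Real.log P) ≤ Real.sqrt P * (1 / (4 * Q) * Real.sqrt P) :=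
            mul_le_mul_of_nonneg_left a2 hs0.le
        _ = (Real.sqrt P * Real.sqrt P) / (4 * Q) := by ring
        _ = P / (4 * Q) := by rw [hs]
    have b2 : 1 ≤ (P : ℝ) / (4 * Q) := by
      rw [one_le_div (by positivity)]
      exact a3
    have b3 : (P : ℝ) / (2 * Q) = P / (4 * Q) + P / (4 * Q) := by field_simp; norm_num
    rw [b3]
    linarith
  · have b1 : 8 * (Q : ℝ) ^ 3 ≤ Real.sqrt P := Real.le_sqrt_of_sq_le a4
    rw [le_div_iff₀ (by positivity)]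
    calc 8 * ((P : ℝ) * Real.sqrt P) * (Q : ℝ) ^ 3 = (8 * (Q : ℝ) ^ 3) * (P * Real.sqrt P) := by ring
      _ ≤ Real.sqrt P * (P * Real.sqrt P) := mul_le_mul_of_nonneg_right b1 (by positivity)
      _ = P * (Real.sqrt P * Real.sqrt P) := by ring
      _ = (P : ℝ) ^ 2 := by rw [hs]; ring

lemma bb_le {p : ℕ} (hp : 5 ≤ p) : (bb p : ℝ) ≤ 6 * Real.log p := by
  have hp0 : (0 : ℝ) < p := by
    have : 0 < p := by omega
    exact_mod_cast this
  have h1 : (2 : ℝ) ^ (Nat.log 2 p) ≤ p := by exact_mod_cast Nat.pow_log_le_self 2 (by omega)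
  have h2 : (Nat.log 2 p : ℝ) * Real.log 2 ≤ Real.log p := by
    rw [← Real.log_pow]
    exact Real.log_le_log (by positivity) h1
  have h3 : (0.6931471803 : ℝ) < Real.log 2 := Real.log_two_gt_d9
  have h4 : (1 : ℝ) ≤ Real.log p := by
    rw [Real.le_log_iff_exp_le hp0]
    have h5 : Real.exp 1 < 2.7182818286 := Real.exp_one_lt_d9
    have h6 : (5 : ℝ) ≤ p := by exact_mod_cast hp
    linarith
  rw [bb_eq]
  push_cast
  have h7 : (0 : ℝ) ≤ (Nat.log 2 p : ℝ) := Nat.cast_nonneg _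
  have h8 : (Nat.log 2 p : ℝ) * 0.6931471803 ≤ Real.log p := by nlinarith
  linarith

lemma nine_pow_le {p : ℕ} (hp : 5 ≤ p) :
    ((9 ^ ww p : ℕ) : ℝ) ≤ (192 * (6 * Real.log p) ^ 4) ^ 2 := by
  have hb : 2 ≤ bb p := by rw [bb_eq]; omega
  have hx : 1 < 64 * bb p ^ 4 := by
    have : 1 ≤ bb p ^ 4 := Nat.one_le_pow _ _ (by omega)
    omega
  have h1 : 3 ^ (ww p - 1) < 64 * bb p ^ 4 := by
    have := Nat.pow_pred_clog_lt_self (b := 3) (by norm_num) hx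
    rw [ww_eq]
    exact this
  have hw : 0 < ww p := by
    rw [ww_eq]
    exact Nat.clog_pos (by norm_num) hx
  have h2 : 3 ^ ww p ≤ 192 * bb p ^ 4 := by
    have h3 : 3 ^ ww p = 3 * 3 ^ (ww p - 1) := by
      rw [← pow_succ']
      congr 1
      omega
    omega
  have h4 : ((3 ^ ww p : ℕ) : ℝ) ≤ 192 * (6 * Real.log p) ^ 4 := by
    have h5 : ((3 ^ ww p : ℕ) : ℝ) ≤ ((192 * bb p ^ 4 : ℕ) : ℝ) := by exact_mod_cast h2
    refine h5.trans ?_
    push_cast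
    have := bb_le hp
    gcongr
  have h6 : ((9 ^ ww p : ℕ) : ℝ) = ((3 ^ ww p : ℕ) : ℝ) ^ 2 := by
    push_cast
    rw [← pow_mul, mul_comm, pow_mul]
    norm_num
  rw [h6]
  exact pow_le_pow_left₀ (by positivity) h4 2

lemma exists_good_p (C c : ℝ) (hC : C < 6) (hc : 0 < c) :
    ∃ p : ℕ, p.Prime ∧ 5 ≤ p ∧
      65 < c * (1 / (2 * (qq p : ℝ))) ^ C * (p : ℝ) ^ 3 * (qq p : ℝ) ^ 3 := by
  set C' := max C 3 with hC'
  have hC3 : 3 ≤ C' := le_max_right _ _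
  have hC6 : C' < 6 := max_lt hC (by norm_num)
  have hs : 0 < 6 - C' := by linarith
  -- asymptotics
  have l1 : (fun x : ℝ => Real.log x ^ (24 : ℝ)) =o[atTop] fun x => x ^ (6 - C') :=
    isLittleO_log_rpow_rpow_atTop 24 hs
  set K : ℝ := 4160 * (16 * (192 * 6 ^ 4) ^ 2) ^ 3 with hK
  have hK0 : 0 < K := by rw [hK]; positivity
  have ev : ∀ᶠ x : ℝ in atTop, K * Real.log x ^ 24 < c * x ^ (6 - C') := by
    filter_upwards [l1.bound (show 0 < c / (2 * K) by positivity), eventually_gt_atTop 1]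
      with x hx h1
    have hx0 : 0 < x := by linarith
    rw [Real.norm_eq_abs, Real.norm_eq_abs, abs_of_nonneg (Real.rpow_nonneg hx0.le _)] at hx
    have h2 := (le_abs_self _).trans hx
    have h3 : Real.log x ^ (24 : ℝ) = Real.log x ^ 24 := by
      exact_mod_cast Real.rpow_natCast (Real.log x) 24
    rw [h3] at h2
    have h4 : 0 < x ^ (6 - C') := Real.rpow_pos_of_pos hx0 _
    calc K * Real.log x ^ 24 ≤ K * (c / (2 * K) * x ^ (6 - C')) :=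
          mul_le_mul_of_nonneg_left h2 hK0.le
      _ = c / 2 * x ^ (6 - C') := by field_simp
      _ < c * x ^ (6 - C') := by
          apply mul_lt_mul_of_pos_right _ h4
          linarith
  obtain ⟨m, hm⟩ := Filter.eventually_atTop.1 (tendsto_natCast_atTop_atTop.eventually ev)
  obtain ⟨p, hp1, hp2⟩ := Nat.exists_infinite_primes (max m 5)
  have hp5 : 5 ≤ p := le_trans (le_max_right _ _) hp1
  have hfin := hm p (le_trans (le_max_left _ _) hp1)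
  refine ⟨p, hp2, hp5, ?_⟩
  have hp0 : (0 : ℝ) < p := by exact_mod_cast hp2.pos
  have hpR : (1 : ℝ) ≤ p := by exact_mod_cast hp2.one_lt.le
  set W : ℝ := ((9 ^ ww p : ℕ) : ℝ) with hW
  have hW1 : 1 ≤ W := by
    rw [hW]
    exact_mod_cast Nat.one_le_pow _ _ (by norm_num)
  have hQ : (qq p : ℝ) = 16 * W * p := by
    rw [qq_eq, hW]
    push_cast
    ring
  have hQ1 : (1 : ℝ) ≤ qq p := by
    rw [hQ]
    nlinarith
  have hWl := nine_pow_le hp5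
  rw [← hW] at hWl
  -- step 1: pass to C'
  have s1 : (1 / (2 * (qq p : ℝ))) ^ C' ≤ (1 / (2 * (qq p : ℝ))) ^ C := by
    apply Real.rpow_le_rpow_of_exponent_ge
    · positivity
    · rw [div_le_one (by positivity)]
      linarith
    · exact le_max_left _ _
  -- step 2
  have s2 : (1 / (2 * (qq p : ℝ))) ^ C' = (2 ^ C' * (qq p : ℝ) ^ C')⁻¹ := by
    rw [one_div, Real.inv_rpow (by positivity), Real.mul_rpow (by norm_num) (by positivity)]
  have s3 : (2 : ℝ) ^ C' ≤ 64 := by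
    calc (2 : ℝ) ^ C' ≤ (2 : ℝ) ^ (6 : ℝ) :=
          Real.rpow_le_rpow_of_exponent_le (by norm_num) hC6.le
      _ = 64 := by
          have : (2 : ℝ) ^ (6 : ℝ) = 2 ^ 6 := by exact_mod_cast Real.rpow_natCast (2 : ℝ) 6
          rw [this]; norm_num
  have s4 : (qq p : ℝ) ^ C' = (qq p : ℝ) ^ 3 * (qq p : ℝ) ^ (C' - 3) := by
    rw [← Real.rpow_natCast (qq p : ℝ) 3, ← Real.rpow_add (by linarith)]
    congr 1
    push_cast
    ring
  have s5 : (qq p : ℝ) ^ (C' - 3) ≤ (16 * W) ^ 3 * (p : ℝ) ^ (C' - 3) := by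
    rw [hQ, Real.mul_rpow (by positivity) (by positivity)]
    gcongr
    calc (16 * W) ^ (C' - 3) ≤ (16 * W) ^ (3 : ℝ) :=
          Real.rpow_le_rpow_of_exponent_le (by linarith) (by linarith)
      _ = (16 * W) ^ 3 := by exact_mod_cast Real.rpow_natCast (16 * W) 3
  have s6 : 4160 * (16 * W) ^ 3 ≤ K * Real.log p ^ 24 := by
    have : K * Real.log p ^ 24 = 4160 * (16 * (192 * (6 * Real.log p) ^ 4) ^ 2) ^ 3 := by
      rw [hK]; ring
    rw [this]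
    gcongr
  have s7 : 4160 * (16 * W) ^ 3 < c * (p : ℝ) ^ (6 - C') := lt_of_le_of_lt s6 hfin
  have s8 : (p : ℝ) ^ (6 - C') * (p : ℝ) ^ (C' - 3) = (p : ℝ) ^ 3 := by
    rw [← Real.rpow_add hp0, ← Real.rpow_natCast (p : ℝ) 3]
    congr 1
    push_cast
    ring
  have hpC : 0 < (p : ℝ) ^ (C' - 3) := Real.rpow_pos_of_pos hp0 _
  have hQ3 : 0 < (qq p : ℝ) ^ 3 := by positivity
  have s9 : 65 * (2 ^ C' * (qq p : ℝ) ^ C') < c * (p : ℝ) ^ 3 * (qq p : ℝ) ^ 3 := by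
    calc 65 * (2 ^ C' * (qq p : ℝ) ^ C')
        ≤ 65 * (64 * ((qq p : ℝ) ^ 3 * ((16 * W) ^ 3 * (p : ℝ) ^ (C' - 3)))) := by
          rw [s4]
          gcongr
      _ = (4160 * (16 * W) ^ 3) * ((p : ℝ) ^ (C' - 3) * (qq p : ℝ) ^ 3) := by ring
      _ < (c * (p : ℝ) ^ (6 - C')) * ((p : ℝ) ^ (C' - 3) * (qq p : ℝ) ^ 3) :=
          mul_lt_mul_of_pos_right s7 (by positivity)
      _ = c * ((p : ℝ) ^ (6 - C') * (p : ℝ) ^ (C' - 3)) * (qq p : ℝ) ^ 3 := by ring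
      _ = c * (p : ℝ) ^ 3 * (qq p : ℝ) ^ 3 := by rw [s8]
  have hD : 0 < 2 ^ C' * (qq p : ℝ) ^ C' := by positivity
  have s10 : 65 < c * (2 ^ C' * (qq p : ℝ) ^ C')⁻¹ * (p : ℝ) ^ 3 * (qq p : ℝ) ^ 3 := by
    have : c * (2 ^ C' * (qq p : ℝ) ^ C')⁻¹ * (p : ℝ) ^ 3 * (qq p : ℝ) ^ 3 =
        (c * (p : ℝ) ^ 3 * (qq p : ℝ) ^ 3) / (2 ^ C' * (qq p : ℝ) ^ C') := by
      rw [div_eq_mul_inv]; ring
    rw [this, lt_div_iff₀ hD]
    exact s9
  rw [← s2] at s10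
  refine lt_of_lt_of_le s10 ?_
  gcongr

theorem exponent_below_six (C : ℝ) (hC : C < 6) :
    ¬ ∃ c : ℝ, 0 < c ∧ ∀ α : ℝ, 0 < α → α ≤ 1 →
      ∃ ε : ℝ, 0 < ε ∧ ∃ N₀ : ℕ, ∀ N : ℕ, N₀ ≤ N →
        ∀ A : Finset (ZMod (N + 1)),
          α * ((N : ℝ) + 1) ≤ (A.card : ℝ) →
          (∀ r : ZMod (N + 1),
            ‖∑ x : ZMod (N + 1),
                ((if x ∈ A then (1 : ℂ) else 0) - (A.card : ℂ) / ((N : ℂ) + 1)) *
                  Complex.exp (-(2 * (Real.pi : ℂ) * Complex.I * ((x.val * r.val : ℕ) : ℂ))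
                    / ((N : ℂ) + 1))‖
              ≤ ε * ((N : ℝ) + 1)) →
          c * α ^ C * ((N : ℝ) + 1) ^ 2 ≤
            (((Finset.univ : Finset (ZMod (N + 1) × ZMod (N + 1))).filter
              (fun p => p.1 ∈ A ∧ p.1 + p.2 ∈ A ∧ p.1 + 2 * p.2 ∈ A ∧
                p.1 + 3 * p.2 ∈ A)).card : ℝ) := by
  rintro ⟨c, hc, H⟩
  obtain ⟨p, hp, hp5, hgood⟩ := exists_good_p C c hC hc
  have : Fact p.Prime := ⟨hp⟩
  have hp0 : (0 : ℝ) < p := by exact_mod_cast hp.pos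
  have hQ0 : 0 < qq p := qq_pos hp.pos
  have hQR : (0 : ℝ) < qq p := by exact_mod_cast hQ0
  have hQ1 : (1 : ℝ) ≤ qq p := by exact_mod_cast hQ0
  obtain ⟨ε, hε, N₀, hN⟩ := H (1 / (2 * (qq p : ℝ))) (by positivity)
    (by rw [div_le_one (by positivity)]; linarith)
  obtain ⟨P, hP, hPn, b1, b2, b3, b4⟩ := exists_large_prime (qq p) hQ0 ε hε (max (N₀ + 1) (p + 3))
  have : Fact P.Prime := ⟨hP⟩
  have hPN : N₀ + 1 ≤ P := le_trans (le_max_left _ _) hPn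
  have hPp : p + 3 ≤ P := le_trans (le_max_right _ _) hPn
  have hP0 : (0 : ℝ) < P := by exact_mod_cast hP.pos
  have h2 : (2 : ZMod P) ≠ 0 := by
    have : ((2 : ℕ) : ZMod P) ≠ 0 := by
      rw [Ne, ZMod.natCast_eq_zero_iff]
      intro h
      have := Nat.le_of_dvd (by norm_num) h
      omega
    exact_mod_cast this
  obtain ⟨g, hg⟩ := exists_cubic p hp5
  have hcop : Nat.Coprime (p ^ 3) P := by
    apply Nat.Coprime.pow_left
    exact (Nat.coprime_primes hp hP).2 (by omega)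
  have hpos : 0 < p ^ 3 * P := Nat.mul_pos (pow_pos hp.pos 3) hP.pos
  obtain ⟨N, hNeq⟩ : ∃ N, N + 1 = p ^ 3 * P := ⟨p ^ 3 * P - 1, by omega⟩
  have hNR : (N : ℝ) + 1 = (p : ℝ) ^ 3 * P := by exact_mod_cast hNeq
  have hN0 : N₀ ≤ N := by
    have h3 : 1 * P ≤ p ^ 3 * P := Nat.mul_le_mul_right P (Nat.one_le_pow _ _ hp.pos)
    omega
  let Φ : ZMod (N + 1) ≃+* ZMod (p ^ 3) × ZMod P :=
    (ZMod.ringEquivCongr hNeq).trans (ZMod.chineseRemainder hcop)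
  have hE : errE P = Real.sqrt P * (1 + Real.log P) := rfl
  have hlog : 0 ≤ Real.log P := Real.log_nonneg (by exact_mod_cast hP.one_lt.le)
  have hE0 : 0 ≤ errE P := by rw [hE]; positivity
  rw [← hE] at b1 b2
  have hUQ : qq p ≤ P / qq p := by
    rw [Nat.le_div_iff_mul_le hQ0]
    exact b4
  obtain ⟨U, hU⟩ : ∃ U, U = P / qq p := ⟨_, rfl⟩
  have hUle : (U : ℝ) ≤ P / qq p := by rw [hU]; exact Nat.cast_div_le
  have hUge : (P : ℝ) / qq p - 1 ≤ U := by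
    have h3 := Nat.div_add_mod P (qq p)
    have h4 := Nat.mod_lt P hQ0
    have h5 : (P : ℝ) ≤ (qq p : ℝ) * U + qq p := by
      have : P ≤ qq p * U + qq p := by rw [hU]; omega
      exact_mod_cast this
    rw [sub_le_iff_le_add, div_le_iff₀ hQR]
    linarith
  have hcard := card_setA (p := p) (P := P) (g := g) h2
  have hdens : (1 / (2 * (qq p : ℝ))) * ((N : ℝ) + 1) ≤ ((pullA g Φ).card : ℝ) := by
    rw [card_pullA]
    refine le_trans ?_ hcard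
    rw [hNR, ← hU]
    have h3 : (P : ℝ) / (2 * qq p) ≤ U - errE P := by
      have h4 : (P : ℝ) / qq p = P / (2 * qq p) + P / (2 * qq p) := by field_simp; norm_num
      linarith
    calc 1 / (2 * (qq p : ℝ)) * ((p : ℝ) ^ 3 * P) = (p : ℝ) ^ 3 * (P / (2 * qq p)) := by ring
      _ ≤ (p : ℝ) ^ 3 * (U - errE P) := by gcongr
  have hfour : ∀ r : ZMod (N + 1),
            ‖∑ x : ZMod (N + 1),
                ((if x ∈ pullA g Φ then (1 : ℂ) else 0) -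
                  ((pullA g Φ).card : ℂ) / ((N : ℂ) + 1)) *
                  Complex.exp (-(2 * (Real.pi : ℂ) * Complex.I * ((x.val * r.val : ℕ) : ℂ))
                    / ((N : ℂ) + 1))‖
              ≤ ε * ((N : ℝ) + 1) := by
    intro r
    refine (fourier_pullA Φ h2 hE0 r).trans ?_
    rw [hNR]
    calc (p : ℝ) ^ 3 * errE P ≤ (p : ℝ) ^ 3 * (ε * P) := by gcongr
      _ = ε * ((p : ℝ) ^ 3 * P) := by ring
  have hmain := hN N hN0 (pullA g Φ) hdens hfour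
  have hcount := hmain.trans (count_pullA Φ h2 hg hUQ)
  rw [hNR, ← hU] at hcount
  have h5 : 64 * (U : ℝ) ^ 3 / P ≤ 64 * ((P : ℝ) ^ 2 / (qq p : ℝ) ^ 3) := by
    have h6 : (U : ℝ) ^ 3 ≤ (P / qq p) ^ 3 := pow_le_pow_left₀ (by positivity) hUle 3
    rw [div_le_iff₀ hP0]
    calc 64 * (U : ℝ) ^ 3 ≤ 64 * ((P : ℝ) / qq p) ^ 3 := by gcongr
      _ = 64 * ((P : ℝ) ^ 2 / (qq p : ℝ) ^ 3) * P := by
          rw [div_pow]
          ring
  have h7 : c * (1 / (2 * (qq p : ℝ))) ^ C * ((p : ℝ) ^ 3 * P) ^ 2 ≤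
      (p : ℝ) ^ 3 * (65 * ((P : ℝ) ^ 2 / (qq p : ℝ) ^ 3)) := by
    refine hcount.trans ?_
    have h8 : 64 * (U : ℝ) ^ 3 / P + 8 * ((P : ℝ) * Real.sqrt P) ≤
        65 * ((P : ℝ) ^ 2 / (qq p : ℝ) ^ 3) := by linarith
    gcongr
  have h9 : (c * (1 / (2 * (qq p : ℝ))) ^ C * (p : ℝ) ^ 3 * (qq p : ℝ) ^ 3) *
      ((p : ℝ) ^ 3 * (P : ℝ) ^ 2 / (qq p : ℝ) ^ 3) ≤
      65 * ((p : ℝ) ^ 3 * (P : ℝ) ^ 2 / (qq p : ℝ) ^ 3) := by
    calc (c * (1 / (2 * (qq p : ℝ))) ^ C * (p : ℝ) ^ 3 * (qq p : ℝ) ^ 3) *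
        ((p : ℝ) ^ 3 * (P : ℝ) ^ 2 / (qq p : ℝ) ^ 3)
        = c * (1 / (2 * (qq p : ℝ))) ^ C * ((p : ℝ) ^ 3 * P) ^ 2 := by
          field_simp
      _ ≤ (p : ℝ) ^ 3 * (65 * ((P : ℝ) ^ 2 / (qq p : ℝ) ^ 3)) := h7
      _ = 65 * ((p : ℝ) ^ 3 * (P : ℝ) ^ 2 / (qq p : ℝ) ^ 3) := by ring
  have h10 := le_of_mul_le_mul_right h9 (by positivity)
  linarith

end Pool.Agent.Helper60.FourAP
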