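import Mathlib

/-!
# Quadratic exponential sums modulo a prime
-/

namespace Pool.Agent.Helper60.FourAP

open Finset

variable {P : ℕ} [Fact P.Prime]

lemma gauss_mul_conj (h2 : (2 : ZMod P) ≠ 0) {k : ZMod P} (hk : k ≠ 0)
    (χ : AddChar (ZMod P) ℂ) :
    (∑ x : ZMod P, ZMod.stdAddChar (k * x ^ 2) * χ x) *
      (starRingEnd ℂ) (∑ x : ZMod P, ZMod.stdAddChar (k * x ^ 2) * χ x) = P := by
  have e1 : (starRingEnd ℂ) (∑ x : ZMod P, ZMod.stdAddChar (k * x ^ 2) * χ x) =
      ∑ y : ZMod P, ZMod.stdAddChar (-(k * y ^ 2)) * χ (-y) := by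
    rw [map_sum]
    refine Finset.sum_congr rfl fun y _ => ?_
    rw [map_mul, AddChar.map_neg_eq_conj, AddChar.map_neg_eq_conj]
  rw [e1, Finset.sum_mul_sum, Finset.sum_comm]
  have e2 : ∀ y : ZMod P, ∑ x : ZMod P, ZMod.stdAddChar (k * x ^ 2) * χ x *
      (ZMod.stdAddChar (-(k * y ^ 2)) * χ (-y)) =
      ∑ h : ZMod P, ZMod.stdAddChar (k * h ^ 2) * χ h * ZMod.stdAddChar (y * (2 * k * h)) := by
    intro y
    rw [← Equiv.sum_comp (Equiv.addLeft y)]
    refine Finset.sum_congr rfl fun h _ => ?_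
    have a1 : (ZMod.stdAddChar (k * (y + h) ^ 2) : ℂ) * χ (y + h) *
        (ZMod.stdAddChar (-(k * y ^ 2)) * χ (-y)) =
        (ZMod.stdAddChar (k * (y + h) ^ 2) * ZMod.stdAddChar (-(k * y ^ 2))) *
        (χ (y + h) * χ (-y)) := by ring
    have a2 : (ZMod.stdAddChar (k * h ^ 2) : ℂ) * χ h * ZMod.stdAddChar (y * (2 * k * h)) =
        (ZMod.stdAddChar (k * h ^ 2) * ZMod.stdAddChar (y * (2 * k * h))) * χ h := by ring
    simp only [Equiv.coe_addLeft]
    rw [a1, a2, ← AddChar.map_add_eq_mul, ← AddChar.map_add_eq_mul, ← AddChar.map_add_eq_mul]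
    congr 2
    · ring
    · ring
  simp_rw [e2]
  rw [Finset.sum_comm]
  have e3 : ∀ h : ZMod P, ∑ y : ZMod P, (ZMod.stdAddChar (k * h ^ 2) : ℂ) * χ h *
      ZMod.stdAddChar (y * (2 * k * h)) = if h = 0 then (P : ℂ) else 0 := by
    intro h
    rw [← Finset.mul_sum, AddChar.sum_mulShift (2 * k * h) (ZMod.isPrimitive_stdAddChar P)]
    by_cases hh : h = 0
    · simp [hh, ZMod.card]
    · have : 2 * k * h ≠ 0 := mul_ne_zero (mul_ne_zero h2 hk) hh
      simp [hh, this]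
  simp_rw [e3]
  simp

lemma gauss_norm (h2 : (2 : ZMod P) ≠ 0) {k : ZMod P} (hk : k ≠ 0)
    (χ : AddChar (ZMod P) ℂ) :
    ‖∑ x : ZMod P, ZMod.stdAddChar (k * x ^ 2) * χ x‖ = Real.sqrt P := by
  have h := gauss_mul_conj h2 hk χ
  rw [Complex.mul_conj, Complex.normSq_eq_norm_sq] at h
  have h' : ‖∑ x : ZMod P, ZMod.stdAddChar (k * x ^ 2) * χ x‖ ^ 2 = (P : ℝ) := by exact_mod_cast h
  rw [← h', Real.sqrt_sq (norm_nonneg _)]

/-- The two-variable sum attached to three points of a progression. -/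
lemma gauss_two (h2 : (2 : ZMod P) ≠ 0) (k0 k1 k2 : ZMod P)
    (hk : ¬ (k0 = 0 ∧ k1 = 0 ∧ k2 = 0)) :
    ‖∑ x : ZMod P, ∑ d : ZMod P, (ZMod.stdAddChar (k0 * x ^ 2 + k1 * (x + d) ^ 2 +
      k2 * (x + 2 * d) ^ 2) : ℂ)‖ ≤ P * Real.sqrt P := by
  have hP1 : (1 : ℝ) ≤ P := by exact_mod_cast (Fact.out : P.Prime).one_lt.le
  have hcard : ((Finset.univ : Finset (ZMod P)).card : ℝ) = P := by
    rw [Finset.card_univ, ZMod.card]
  by_cases hc : k1 + 4 * k2 = 0
  · by_cases ha : k0 + k1 + k2 = 0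
    · -- cross term only
      have hb : k1 + 2 * k2 ≠ 0 := by
        intro hb
        have h3 : 2 * k2 = 0 := by linear_combination hc - hb
        have h4 : k2 = 0 := by
          rcases mul_eq_zero.1 h3 with h | h
          · exact absurd h h2
          · exact h
        have h5 : k1 = 0 := by rw [h4] at hb; simpa using hb
        have h6 : k0 = 0 := by rw [h4, h5] at ha; simpa using ha
        exact hk ⟨h6, h5, h4⟩
      have e1 : ∑ x : ZMod P, ∑ d : ZMod P, (ZMod.stdAddChar (k0 * x ^ 2 + k1 * (x + d) ^ 2 +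
          k2 * (x + 2 * d) ^ 2) : ℂ) = ∑ x : ZMod P, if x = 0 then (P : ℂ) else 0 := by
        refine Finset.sum_congr rfl fun x _ => ?_
        have e2 : ∀ d : ZMod P, (ZMod.stdAddChar (k0 * x ^ 2 + k1 * (x + d) ^ 2 +
          k2 * (x + 2 * d) ^ 2) : ℂ) = ZMod.stdAddChar (d * (2 * (k1 + 2 * k2) * x)) := by
          intro d
          congr 1
          linear_combination x ^ 2 * ha + d ^ 2 * hc
        simp_rw [e2]
        rw [AddChar.sum_mulShift _ (ZMod.isPrimitive_stdAddChar P)]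
        by_cases hx : x = 0
        · simp [hx, ZMod.card]
        · have : 2 * (k1 + 2 * k2) * x ≠ 0 := mul_ne_zero (mul_ne_zero h2 hb) hx
          simp [hx, this]
      rw [e1]
      simp only [Finset.sum_ite_eq', Finset.mem_univ, if_true]
      rw [Complex.norm_natCast]
      have : (1 : ℝ) ≤ Real.sqrt P := by
        rw [Real.one_le_sqrt]; exact hP1
      nlinarith
    · rw [Finset.sum_comm]
      refine (norm_sum_le _ _).trans ?_
      have e1 : ∀ d ∈ (Finset.univ : Finset (ZMod P)),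
          ‖∑ x : ZMod P, (ZMod.stdAddChar (k0 * x ^ 2 + k1 * (x + d) ^ 2 +
          k2 * (x + 2 * d) ^ 2) : ℂ)‖ ≤ Real.sqrt P := by
        intro d _
        have e2 : ∑ x : ZMod P, (ZMod.stdAddChar (k0 * x ^ 2 + k1 * (x + d) ^ 2 +
          k2 * (x + 2 * d) ^ 2) : ℂ) = ZMod.stdAddChar ((k1 + 4 * k2) * d ^ 2) *
          ∑ x : ZMod P, ZMod.stdAddChar ((k0 + k1 + k2) * x ^ 2) *
            (AddChar.mulShift ZMod.stdAddChar (2 * (k1 + 2 * k2) * d)) x := by
          rw [Finset.mul_sum]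
          refine Finset.sum_congr rfl fun x _ => ?_
          rw [AddChar.mulShift_apply, ← AddChar.map_add_eq_mul, ← AddChar.map_add_eq_mul]
          congr 1
          ring
        rw [e2, norm_mul, AddChar.norm_apply, one_mul, gauss_norm h2 ha]
      refine (Finset.sum_le_sum e1).trans ?_
      rw [Finset.sum_const, nsmul_eq_mul, hcard]
  · refine (norm_sum_le _ _).trans ?_
    have e1 : ∀ x ∈ (Finset.univ : Finset (ZMod P)),
        ‖∑ d : ZMod P, (ZMod.stdAddChar (k0 * x ^ 2 + k1 * (x + d) ^ 2 +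
        k2 * (x + 2 * d) ^ 2) : ℂ)‖ ≤ Real.sqrt P := by
      intro x _
      have e2 : ∑ d : ZMod P, (ZMod.stdAddChar (k0 * x ^ 2 + k1 * (x + d) ^ 2 +
        k2 * (x + 2 * d) ^ 2) : ℂ) = ZMod.stdAddChar ((k0 + k1 + k2) * x ^ 2) *
        ∑ d : ZMod P, ZMod.stdAddChar ((k1 + 4 * k2) * d ^ 2) *
          (AddChar.mulShift ZMod.stdAddChar (2 * (k1 + 2 * k2) * x)) d := by
        rw [Finset.mul_sum]
        refine Finset.sum_congr rfl fun d _ => ?_
        rw [AddChar.mulShift_apply, ← AddChar.map_add_eq_mul, ← AddChar.map_add_eq_mul]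
        congr 1
        ring
      rw [e2, norm_mul, AddChar.norm_apply, one_mul, gauss_norm h2 hc]
    refine (Finset.sum_le_sum e1).trans ?_
    rw [Finset.sum_const, nsmul_eq_mul, hcard]

end Pool.Agent.Helper60.FourAP
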