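import Pool.Agent.Helper60.FourAPGauss

/-!
# Squares in intervals modulo a prime
-/

namespace Pool.Agent.Helper60.FourAP

open Finset

variable {P : ℕ} [Fact P.Prime]

lemma count_eq {ι : Type*} (T : Finset ι) (c : ι → ZMod P) (y : ZMod P) :
    (P : ℂ) * ((T.filter (fun t => c t = y)).card : ℂ) =
      ∑ k : ZMod P, (∑ t ∈ T, (ZMod.stdAddChar (-(k * c t)) : ℂ)) * ZMod.stdAddChar (k * y) := by
  have e1 : ∀ k : ZMod P, (∑ t ∈ T, (ZMod.stdAddChar (-(k * c t)) : ℂ)) * ZMod.stdAddChar (k * y) =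
      ∑ t ∈ T, (ZMod.stdAddChar (k * (y - c t)) : ℂ) := by
    intro k
    rw [Finset.sum_mul]
    refine Finset.sum_congr rfl fun t _ => ?_
    rw [← AddChar.map_add_eq_mul]
    congr 1
    ring
  simp_rw [e1]
  rw [Finset.sum_comm]
  have e2 : ∀ t : ι, ∑ k : ZMod P, (ZMod.stdAddChar (k * (y - c t)) : ℂ) =
      if c t = y then (P : ℂ) else 0 := by
    intro t
    rw [AddChar.sum_mulShift (y - c t) (ZMod.isPrimitive_stdAddChar P), ZMod.card]
    by_cases h : c t = y
    · simp [h]
    · have : y - c t ≠ 0 := fun h' => h (sub_eq_zero.1 h').symm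
      simp [h, this]
  simp_rw [e2]
  rw [Finset.card_filter, Nat.cast_sum, Finset.mul_sum]
  refine Finset.sum_congr rfl fun t _ => ?_
  by_cases h : c t = y <;> simp [h]

/-- The interval of residues with representatives in `[s, s + U)`. -/
def Itv (P s U : ℕ) [NeZero P] : Finset (ZMod P) :=
  Finset.univ.filter (fun y => s ≤ y.val ∧ y.val < s + U)

lemma sum_Itv {s U : ℕ} (h : s + U ≤ P) {E : Type*} [AddCommMonoid E] (f : ZMod P → E) :
    ∑ y ∈ Itv P s U, f y = ∑ i ∈ Finset.range U, f ((s + i : ℕ) : ZMod P) := by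
  symm
  refine Finset.sum_nbij' (fun i => ((s + i : ℕ) : ZMod P)) (fun y => y.val - s) ?_ ?_ ?_ ?_ ?_
  · intro i hi
    rw [Finset.mem_range] at hi
    simp only [Itv, Finset.mem_filter, Finset.mem_univ, true_and]
    rw [ZMod.val_natCast_of_lt (by omega)]
    omega
  · intro y hy
    simp only [Itv, Finset.mem_filter, Finset.mem_univ, true_and] at hy
    rw [Finset.mem_range]
    omega
  · intro i hi
    rw [Finset.mem_range] at hi
    rw [ZMod.val_natCast_of_lt (by omega)]
    omega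
  · intro y hy
    simp only [Itv, Finset.mem_filter, Finset.mem_univ, true_and] at hy
    have : s + (y.val - s) = y.val := by omega
    rw [this, ZMod.natCast_zmod_val]
  · intro i _
    rfl

lemma card_Itv {s U : ℕ} (h : s + U ≤ P) : (Itv P s U).card = U := by
  have := sum_Itv h (fun _ => (1 : ℕ))
  simpa using this

lemma norm_psi_sub_one {k : ZMod P} (hk : k ≠ 0) :
    4 * min (k.val : ℝ) (P - k.val) / P ≤ ‖(ZMod.stdAddChar k : ℂ) - 1‖ := by
  have hP0 : (0 : ℝ) < P := by exact_mod_cast (Fact.out : P.Prime).pos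
  have hk0 : (0 : ℝ) < k.val := by
    have : k.val ≠ 0 := by rwa [Ne, ZMod.val_eq_zero]
    exact_mod_cast Nat.pos_of_ne_zero this
  have hkP : (k.val : ℝ) < P := by exact_mod_cast ZMod.val_lt k
  have e1 : (ZMod.stdAddChar k : ℂ) = Complex.exp (Complex.I * ((2 * Real.pi * k.val / P : ℝ) : ℂ)) := by
    conv_lhs => rw [← ZMod.natCast_zmod_val k]
    have := ZMod.stdAddChar_coe (N := P) (k.val : ℤ)
    rw [Int.cast_natCast] at this
    rw [this]
    congr 1
    push_cast
    ring
  rw [e1, Complex.norm_exp_I_mul_ofReal_sub_one]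
  have e2 : 2 * Real.pi * (k.val : ℝ) / P / 2 = Real.pi * k.val / P := by ring
  rw [e2, norm_mul, Real.norm_ofNat]
  have hpi := Real.pi_pos
  have key : 2 * min (k.val : ℝ) (P - k.val) / P ≤ Real.sin (Real.pi * k.val / P) := by
    rcases le_total (2 * (k.val : ℝ)) P with h | h
    · have h1 : Real.pi * k.val / P ≤ Real.pi / 2 := by
        rw [div_le_div_iff₀ hP0 (by norm_num)]
        nlinarith
      have h2 := Real.mul_le_sin (x := Real.pi * k.val / P) (by positivity) h1
      refine le_trans ?_ h2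
      have h3 : 2 / Real.pi * (Real.pi * k.val / P) = 2 * k.val / P := by field_simp
      rw [h3]
      gcongr
      exact min_le_left _ _
    · have h0 : (0 : ℝ) < P - k.val := by linarith
      have h1 : Real.pi * (P - k.val) / P ≤ Real.pi / 2 := by
        rw [div_le_div_iff₀ hP0 (by norm_num)]
        nlinarith
      have h2 := Real.mul_le_sin (x := Real.pi * (P - k.val) / P) (by positivity) h1
      have h4 : Real.pi * (P - k.val) / P = Real.pi - Real.pi * k.val / P := by field_simp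
      have h5 : Real.sin (Real.pi * (P - k.val) / P) = Real.sin (Real.pi * k.val / P) := by
        rw [h4, Real.sin_pi_sub]
      rw [h5] at h2
      refine le_trans ?_ h2
      have h3 : 2 / Real.pi * (Real.pi * (P - k.val) / P) = 2 * (P - k.val) / P := by field_simp
      rw [h3]
      gcongr
      exact min_le_right _ _
  have h6 : Real.sin (Real.pi * k.val / P) ≤ ‖Real.sin (Real.pi * k.val / P)‖ := le_abs_self _
  have h7 : 4 * min (k.val : ℝ) (P - k.val) / P = 2 * (2 * min (k.val : ℝ) (P - k.val) / P) := by ring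
  rw [h7]
  linarith

lemma norm_sum_Itv {s U : ℕ} (h : s + U ≤ P) {k : ZMod P} (hk : k ≠ 0) :
    ‖∑ y ∈ Itv P s U, (ZMod.stdAddChar (-(k * y)) : ℂ)‖ ≤
      P / 2 * (1 / (k.val : ℝ) + 1 / ((P : ℝ) - k.val)) := by
  have hP0 : (0 : ℝ) < P := by exact_mod_cast (Fact.out : P.Prime).pos
  have hk0 : (0 : ℝ) < k.val := by
    have : k.val ≠ 0 := by rwa [Ne, ZMod.val_eq_zero]
    exact_mod_cast Nat.pos_of_ne_zero this
  have hkP : (k.val : ℝ) < P := by exact_mod_cast ZMod.val_lt k
  have e1 : ‖∑ y ∈ Itv P s U, (ZMod.stdAddChar (-(k * y)) : ℂ)‖ =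
      ‖∑ i ∈ Finset.range U, (ZMod.stdAddChar k : ℂ) ^ i‖ := by
    have a1 : ∑ y ∈ Itv P s U, (ZMod.stdAddChar (-(k * y)) : ℂ) =
        (starRingEnd ℂ) (∑ y ∈ Itv P s U, (ZMod.stdAddChar (k * y) : ℂ)) := by
      rw [map_sum]
      refine Finset.sum_congr rfl fun y _ => ?_
      rw [AddChar.map_neg_eq_conj]
    rw [a1, RCLike.norm_conj, sum_Itv h]
    have a2 : ∀ i : ℕ, (ZMod.stdAddChar (k * ((s + i : ℕ) : ZMod P)) : ℂ) =
        ZMod.stdAddChar (k * (s : ZMod P)) * (ZMod.stdAddChar k) ^ i := by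
      intro i
      rw [← AddChar.map_nsmul_eq_pow, ← AddChar.map_add_eq_mul]
      congr 1
      push_cast
      rw [nsmul_eq_mul]
      ring
    simp_rw [a2]
    rw [← Finset.mul_sum, norm_mul, AddChar.norm_apply, one_mul]
  rw [e1]
  have hmin : 0 < min (k.val : ℝ) (P - k.val) := lt_min hk0 (by linarith)
  have hn := norm_psi_sub_one hk
  have hpos : 0 < ‖(ZMod.stdAddChar k : ℂ) - 1‖ := lt_of_lt_of_le (by positivity) hn
  have hg : ‖∑ i ∈ Finset.range U, (ZMod.stdAddChar k : ℂ) ^ i‖ * ‖(ZMod.stdAddChar k : ℂ) - 1‖ ≤ 2 := by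
    rw [← norm_mul, geom_sum_mul]
    refine (norm_sub_le _ _).trans ?_
    rw [norm_pow, AddChar.norm_apply, one_pow, norm_one]
    norm_num
  have h1 : ‖∑ i ∈ Finset.range U, (ZMod.stdAddChar k : ℂ) ^ i‖ *
      (4 * min (k.val : ℝ) (P - k.val) / P) ≤ 2 :=
    (mul_le_mul_of_nonneg_left hn (norm_nonneg _)).trans hg
  have h2 : ‖∑ i ∈ Finset.range U, (ZMod.stdAddChar k : ℂ) ^ i‖ ≤
      P / 2 * (1 / min (k.val : ℝ) (P - k.val)) := by
    have h3 : P / 2 * (1 / min (k.val : ℝ) (P - k.val)) =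
        2 / (4 * min (k.val : ℝ) (P - k.val) / P) := by
      field_simp
      norm_num
    rw [h3, le_div_iff₀ (by positivity)]
    exact h1
  refine h2.trans ?_
  gcongr
  rcases min_choice (k.val : ℝ) (P - k.val) with h4 | h4
  · rw [h4]
    have : 0 < 1 / ((P : ℝ) - k.val) := by
      have : (0 : ℝ) < P - k.val := by linarith
      positivity
    linarith
  · rw [h4]
    have : 0 < 1 / (k.val : ℝ) := by positivity
    linarith

lemma sum_val (F : ℕ → ℝ) : ∑ k : ZMod P, F k.val = ∑ a ∈ Finset.range P, F a := by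
  refine Finset.sum_nbij' (fun k => k.val) (fun a => (a : ZMod P)) ?_ ?_ ?_ ?_ ?_
  · intro k _
    exact Finset.mem_range.2 (ZMod.val_lt k)
  · intro a _
    exact Finset.mem_univ _
  · intro k _
    exact ZMod.natCast_zmod_val k
  · intro a ha
    exact ZMod.val_natCast_of_lt (Finset.mem_range.1 ha)
  · intro k _
    rfl

lemma sum_inv_le : ∑ k ∈ (Finset.univ : Finset (ZMod P)).erase 0,
    (P : ℝ) / 2 * (1 / (k.val : ℝ) + 1 / ((P : ℝ) - k.val)) ≤ P * (1 + Real.log P) := by
  have hP0 : 0 < P := (Fact.out : P.Prime).pos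
  have hP1 : (0 : ℝ) < P := by exact_mod_cast hP0
  -- harmonic sum
  have hh : ∑ a ∈ Finset.range P, (1 / (a : ℝ)) ≤ 1 + Real.log P := by
    obtain ⟨n, rfl⟩ : ∃ n, P = n + 1 := ⟨P - 1, by omega⟩
    rw [Finset.sum_range_succ']
    have h1 := harmonic_le_one_add_log n
    have h2 : ((harmonic n : ℚ) : ℝ) = ∑ a ∈ Finset.range n, (1 / ((a + 1 : ℕ) : ℝ)) := by
      rw [harmonic]
      push_cast
      refine Finset.sum_congr rfl fun a _ => ?_
      rw [one_div]
    rw [h2] at h1
    have h3 : Real.log n ≤ Real.log ((n + 1 : ℕ) : ℝ) := by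
      rcases Nat.eq_zero_or_pos n with h | h
      · subst h
        simp
      · apply Real.log_le_log
        · exact_mod_cast h
        · push_cast; linarith
    simp only [Nat.cast_zero, div_zero, add_zero]
    linarith
  have h1 : ∑ k ∈ (Finset.univ : Finset (ZMod P)).erase 0, (1 / (k.val : ℝ)) ≤ 1 + Real.log P := by
    refine le_trans ?_ hh
    rw [← sum_val (P := P) (fun a => 1 / (a : ℝ))]
    exact Finset.sum_le_sum_of_subset_of_nonneg (Finset.erase_subset _ _)
      (fun k _ _ => by positivity)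
  have h2 : ∑ k ∈ (Finset.univ : Finset (ZMod P)).erase 0, (1 / ((P : ℝ) - k.val)) =
      ∑ k ∈ (Finset.univ : Finset (ZMod P)).erase 0, (1 / (k.val : ℝ)) := by
    refine Finset.sum_nbij' (fun k => -k) (fun k => -k) ?_ ?_ ?_ ?_ ?_
    · intro k hk
      simpa using hk
    · intro k hk
      simpa using hk
    · intro k _
      simp
    · intro k _
      simp
    · intro k hk
      have hk' : k ≠ 0 := by simpa using hk
      have : NeZero k := ⟨hk'⟩
      rw [ZMod.val_neg_of_ne_zero k]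
      rw [Nat.cast_sub (ZMod.val_lt k).le]
  rw [← Finset.mul_sum, Finset.sum_add_distrib, h2]
  have h3 : (P : ℝ) / 2 * (∑ k ∈ (Finset.univ : Finset (ZMod P)).erase 0, (1 / (k.val : ℝ)) +
      ∑ k ∈ (Finset.univ : Finset (ZMod P)).erase 0, (1 / (k.val : ℝ))) =
      P * ∑ k ∈ (Finset.univ : Finset (ZMod P)).erase 0, (1 / (k.val : ℝ)) := by ring
  rw [h3]
  exact mul_le_mul_of_nonneg_left h1 hP1.le

end Pool.Agent.Helper60.FourAP
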