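import Pool.Agent.Helper60.FourAPSet

/-!
# Transfer to a cyclic group
-/

namespace Pool.Agent.Helper60.FourAP

open Finset

lemma exp_eq_char {N : ℕ} (r x : ZMod (N + 1)) :
    Complex.exp (-(2 * (Real.pi : ℂ) * Complex.I * ((x.val * r.val : ℕ) : ℂ)) / ((N : ℂ) + 1)) =
      AddChar.mulShift (ZMod.stdAddChar (N := N + 1)) (-r) x := by
  rw [AddChar.mulShift_apply]
  have h1 : -r * x = ((-((x.val * r.val : ℕ) : ℤ) : ℤ) : ZMod (N + 1)) := by
    push_cast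
    rw [ZMod.natCast_zmod_val, ZMod.natCast_zmod_val]
    ring
  rw [h1, ZMod.stdAddChar_coe]
  congr 1
  push_cast
  ring

lemma mulShift_ne_zero {N : ℕ} {r : ZMod (N + 1)} (hr : r ≠ 0) :
    AddChar.mulShift (ZMod.stdAddChar (N := N + 1)) (-r) ≠ 0 :=
  ZMod.isPrimitive_stdAddChar (N + 1) (neg_ne_zero.2 hr)

section

variable {N p P : ℕ} [Fact p.Prime] [Fact P.Prime] {g : (Fin 3 → ZMod p) → ZMod p}
  (Φ : ZMod (N + 1) ≃+* ZMod (p ^ 3) × ZMod P)

/-- The set in the cyclic group. -/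
def pullA (g : (Fin 3 → ZMod p) → ZMod p) (Φ : ZMod (N + 1) ≃+* ZMod (p ^ 3) × ZMod P) :
    Finset (ZMod (N + 1)) :=
  (setA p P g).map Φ.symm.toEquiv.toEmbedding

lemma mem_pullA (x : ZMod (N + 1)) : x ∈ pullA g Φ ↔ Φ x ∈ setA p P g := by
  unfold pullA
  rw [Finset.mem_map]
  constructor
  · rintro ⟨z, hz, rfl⟩
    simpa using hz
  · intro h
    exact ⟨Φ x, h, by simp⟩

lemma card_pullA : (pullA g Φ).card = (setA p P g).card := by
  unfold pullA
  rw [Finset.card_map]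

lemma fourier_pullA (h2 : (2 : ZMod P) ≠ 0) (hE : 0 ≤ errE P) (r : ZMod (N + 1)) :
    ‖∑ x : ZMod (N + 1),
        ((if x ∈ pullA g Φ then (1 : ℂ) else 0) - ((pullA g Φ).card : ℂ) / ((N : ℂ) + 1)) *
          Complex.exp (-(2 * (Real.pi : ℂ) * Complex.I * ((x.val * r.val : ℕ) : ℂ))
            / ((N : ℂ) + 1))‖ ≤ (p : ℝ) ^ 3 * errE P := by
  classical
  have hN : ((N : ℂ) + 1) ≠ 0 := by exact_mod_cast Nat.succ_ne_zero N
  simp_rw [exp_eq_char]
  by_cases hr : r = 0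
  · subst hr
    simp only [neg_zero, AddChar.mulShift_zero, AddChar.one_apply, mul_one]
    rw [Finset.sum_sub_distrib, Finset.sum_const, Finset.card_univ, ZMod.card, nsmul_eq_mul]
    have e1 : ∑ x : ZMod (N + 1), (if x ∈ pullA g Φ then (1 : ℂ) else 0) = (pullA g Φ).card := by
      simp
    rw [e1]
    have e2 : ((N + 1 : ℕ) : ℂ) * (((pullA g Φ).card : ℂ) / ((N : ℂ) + 1)) = (pullA g Φ).card := by
      push_cast
      field_simp
    rw [e2, sub_self, norm_zero]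
    positivity
  · set χ := AddChar.mulShift (ZMod.stdAddChar (N := N + 1)) (-r) with hχ
    have hχ0 : χ ≠ 0 := mulShift_ne_zero hr
    have e1 : ∑ x : ZMod (N + 1), ((if x ∈ pullA g Φ then (1 : ℂ) else 0) -
        ((pullA g Φ).card : ℂ) / ((N : ℂ) + 1)) * χ x = ∑ x ∈ pullA g Φ, χ x := by
      simp_rw [sub_mul]
      rw [Finset.sum_sub_distrib, ← Finset.mul_sum, AddChar.sum_eq_ite, if_neg hχ0, mul_zero,
        sub_zero]
      simp [Finset.sum_ite_mem]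
    rw [e1]
    let χ' : AddChar (ZMod (p ^ 3) × ZMod P) ℂ := χ.compAddMonoidHom (Φ.symm : _ →+ _)
    have hχ' : χ' ≠ 0 := by
      intro h
      apply hχ0
      ext x
      have h3 : χ' (Φ x) = 1 := by rw [h]; rfl
      have h4 : χ' (Φ x) = χ x := by
        show χ (Φ.symm (Φ x)) = χ x
        rw [RingEquiv.symm_apply_apply]
      rw [← h4, h3]
      rfl
    have e2 : ∑ x ∈ pullA g Φ, χ x = ∑ z ∈ setA p P g, χ' z := by
      unfold pullA
      rw [Finset.sum_map]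
      rfl
    rw [e2]
    exact char_setA h2 χ' hχ'

lemma count_pullA (h2 : (2 : ZMod P) ≠ 0)
    (hg : ∀ a D : Fin 3 → ZMod p, D ≠ 0 → g a - 3*g (a+D) + 3*g (a+2•D) - g (a+3•D) ≠ 0)
    (hU : qq p ≤ P / qq p) :
    (((Finset.univ : Finset (ZMod (N + 1) × ZMod (N + 1))).filter
      (fun q => q.1 ∈ pullA g Φ ∧ q.1 + q.2 ∈ pullA g Φ ∧ q.1 + 2 * q.2 ∈ pullA g Φ ∧
        q.1 + 3 * q.2 ∈ pullA g Φ)).card : ℝ) ≤
      (p : ℝ) ^ 3 * (64 * ((P / qq p : ℕ) : ℝ) ^ 3 / P + 8 * (P * Real.sqrt P)) := by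
  classical
  have : NeZero (p ^ 3) := ⟨pow_ne_zero _ (Fact.out : p.Prime).ne_zero⟩
  refine le_trans ?_ (four_ap_setA h2 hg hU)
  have : ((Finset.univ : Finset (ZMod (N + 1) × ZMod (N + 1))).filter
      (fun q => q.1 ∈ pullA g Φ ∧ q.1 + q.2 ∈ pullA g Φ ∧ q.1 + 2 * q.2 ∈ pullA g Φ ∧
        q.1 + 3 * q.2 ∈ pullA g Φ)).card ≤
      ((Finset.univ : Finset ((ZMod (p ^ 3) × ZMod P) × (ZMod (p ^ 3) × ZMod P))).filter
      (fun q => q.1 ∈ setA p P g ∧ q.1 + q.2 ∈ setA p P g ∧ q.1 + 2 * q.2 ∈ setA p P g ∧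
        q.1 + 3 * q.2 ∈ setA p P g)).card := by
    apply Finset.card_le_card_of_injOn (fun q => (Φ q.1, Φ q.2))
    · intro q hq
      rw [Finset.mem_coe, Finset.mem_filter] at hq ⊢
      obtain ⟨_, m0, m1, m2, m3⟩ := hq
      rw [mem_pullA] at m0 m1 m2 m3
      refine ⟨Finset.mem_univ _, m0, ?_, ?_, ?_⟩
      · simpa using m1
      · have e2 : Φ 2 = 2 := map_ofNat Φ 2
        rw [map_add, map_mul, e2] at m2
        exact m2
      · have e3 : Φ 3 = 3 := map_ofNat Φ 3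
        rw [map_add, map_mul, e3] at m3
        exact m3
    · intro q _ q' _ h
      simp only [Prod.mk.injEq, EmbeddingLike.apply_eq_iff_eq] at h
      exact Prod.ext h.1 h.2
  exact_mod_cast this

end

end Pool.Agent.Helper60.FourAP
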