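import Mathlib

/-!
# A function on `F_p ^ 3` whose third differences along progressions never vanish
-/

namespace Pool.Agent.Helper60.FourAP

open Polynomial

lemma third_diff_monic_cubic {R : Type*} [CommRing R] (q : R[X]) (hq : q.Monic)
    (hd : q.natDegree = 3) :
    q.eval 3 - 3 * q.eval 2 + 3 * q.eval 1 - q.eval 0 = 6 := by
  have h3 : q.coeff 3 = 1 := by rw [← hd]; exact hq
  simp only [eval_eq_sum_range, hd, Finset.sum_range_succ, Finset.sum_range_zero, h3]
  ring

lemma norm_third_diff {K E : Type*} [Field K] [Field E] [Algebra K E] [FiniteDimensional K E]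
    (h3 : Module.finrank K E = 3) (a D : E) (hD : D ≠ 0) :
    Algebra.norm K (a + 3 * D) - 3 * Algebra.norm K (a + 2 * D) + 3 * Algebra.norm K (a + D) -
      Algebra.norm K a = 6 * Algebra.norm K D := by
  set u : E := a / D with hu
  set q : K[X] := (Algebra.lmul K E (-u)).charpoly with hq
  have hqm : q.Monic := LinearMap.charpoly_monic _
  have hqd : q.natDegree = 3 := by rw [hq, LinearMap.charpoly_natDegree, h3]
  have key : ∀ t : K, Algebra.norm K (a + algebraMap K E t * D) = Algebra.norm K D * q.eval t := by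
    intro t
    have h1 : a + algebraMap K E t * D = D * (algebraMap K E t - (-u)) := by
      rw [hu]; field_simp; ring
    rw [h1, map_mul, hq, LinearMap.eval_charpoly, Algebra.norm_apply K (algebraMap K E t - (-u))]
    congr 2
    rw [map_sub, Algebra.lmul_algebraMap]
    rfl
  have k3 := key 3
  have k2 := key 2
  have k1 := key 1
  have k0 := key 0
  simp only [map_ofNat, map_one, map_zero, one_mul, zero_mul, add_zero] at k3 k2 k1 k0
  rw [k3, k2, k1, k0]
  have := third_diff_monic_cubic q hqm hqd
  linear_combination Algebra.norm K D * this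

/-- For every prime `p ≥ 5` there is a function on `F_p ^ 3` with values in `F_p` whose third
difference along any non-constant four-term progression is nonzero. -/
lemma exists_cubic (p : ℕ) [Fact p.Prime] (hp : 5 ≤ p) :
    ∃ g : (Fin 3 → ZMod p) → ZMod p, ∀ a D : Fin 3 → ZMod p, D ≠ 0 →
      g a - 3 * g (a + D) + 3 * g (a + 2 • D) - g (a + 3 • D) ≠ 0 := by
  let E := GaloisField p 3
  have h3 : Module.finrank (ZMod p) E = 3 := GaloisField.finrank p (by norm_num)
  let b : Module.Basis (Fin 3) (ZMod p) E := Module.finBasisOfFinrankEq _ _ h3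
  let e : (Fin 3 → ZMod p) ≃ₗ[ZMod p] E := b.equivFun.symm
  refine ⟨fun v => Algebra.norm (ZMod p) (e v), fun a D hD h => ?_⟩
  have hD' : e D ≠ 0 := by simpa using hD
  have h1 := norm_third_diff h3 (e a) (e D) hD'
  simp only [map_add, map_nsmul] at h
  have e2 : (2 : ℕ) • e D = 2 * e D := by rw [nsmul_eq_mul]; norm_num
  have e3 : (3 : ℕ) • e D = 3 * e D := by rw [nsmul_eq_mul]; norm_num
  rw [e2, e3] at h
  have h2 : (6 : ZMod p) * Algebra.norm (ZMod p) (e D) = 0 := by
    rw [← h1]; linear_combination -h
  rcases mul_eq_zero.1 h2 with h3 | h3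
  · have h6 : ((6 : ℕ) : ZMod p) = 0 := by exact_mod_cast h3
    rw [ZMod.natCast_eq_zero_iff] at h6
    have hpp : p.Prime := Fact.out
    have h23 : p ∣ 2 * 3 := by simpa using h6
    rcases (hpp.dvd_mul).1 h23 with h4 | h4
    · have := Nat.le_of_dvd (by norm_num) h4; omega
    · have := Nat.le_of_dvd (by norm_num) h4; omega
  · exact hD' ((Algebra.norm_eq_zero_iff).1 h3)

end Pool.Agent.Helper60.FourAP
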