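import Pool.Agent.Helper60.FourAPCore

/-!
# The set in a product group
-/

namespace Pool.Agent.Helper60.FourAP

open Finset

/-- The set: pairs `(j, y)` for which `y ^ 2` lies in the interval attached to `j`. -/
def setA (p P : ℕ) [Fact p.Prime] [Fact P.Prime] (g : (Fin 3 → ZMod p) → ZMod p) :
    Finset (ZMod (p ^ 3) × ZMod P) :=
  haveI : NeZero (p ^ 3) := ⟨pow_ne_zero _ (Fact.out : p.Prime).ne_zero⟩
  Finset.univ.filter (fun z => z.2 ^ 2 ∈ Itv P (shf p g (P / qq p) z.1.val) (P / qq p))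

variable {p P : ℕ} [Fact p.Prime] [Fact P.Prime] {g : (Fin 3 → ZMod p) → ZMod p}

lemma mem_setA (z : ZMod (p ^ 3) × ZMod P) :
    z ∈ setA p P g ↔ z.2 ^ 2 ∈ Itv P (shf p g (P / qq p) z.1.val) (P / qq p) := by
  simp [setA]

lemma shf_add_le (v : ℕ) : shf p g (P / qq p) v + P / qq p ≤ P :=
  (shf_le g _ v).trans (Nat.div_mul_le_self P (qq p))

lemma sum_setA [NeZero (p ^ 3)] (f : ZMod (p ^ 3) × ZMod P → ℂ) :
    ∑ z ∈ setA p P g, f z = ∑ j : ZMod (p ^ 3), ∑ y ∈ (Finset.univ : Finset (ZMod P)).filter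
      (fun x => x ^ 2 ∈ Itv P (shf p g (P / qq p) j.val) (P / qq p)), f (j, y) := by
  classical
  have e1 : ∑ z ∈ setA p P g, f z = ∑ z : ZMod (p ^ 3) × ZMod P,
      if z.2 ^ 2 ∈ Itv P (shf p g (P / qq p) z.1.val) (P / qq p) then f z else 0 := by
    rw [← Finset.sum_filter]
    refine Finset.sum_congr ?_ fun _ _ => rfl
    ext z
    rw [mem_setA]
    simp
  rw [e1, Fintype.sum_prod_type]
  refine Finset.sum_congr rfl fun j _ => ?_
  rw [Finset.sum_filter]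

/-- The error term. -/
noncomputable def errE (P : ℕ) : ℝ := Real.sqrt P * (1 + Real.log P)

lemma char_setA (h2 : (2 : ZMod P) ≠ 0) (χ : AddChar (ZMod (p ^ 3) × ZMod P) ℂ) (hχ : χ ≠ 0) :
    ‖∑ z ∈ setA p P g, χ z‖ ≤ (p : ℝ) ^ 3 * errE P := by
  classical
  have : NeZero (p ^ 3) := ⟨pow_ne_zero _ (Fact.out : p.Prime).ne_zero⟩
  set U := P / qq p with hU
  let χ1 : AddChar (ZMod (p ^ 3)) ℂ := χ.compAddMonoidHom (AddMonoidHom.inl _ _)
  let χ2 : AddChar (ZMod P) ℂ := χ.compAddMonoidHom (AddMonoidHom.inr _ _)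
  have h12 : ∀ (j : ZMod (p ^ 3)) (y : ZMod P), χ (j, y) = χ1 j * χ2 y := by
    intro j y
    show χ (j, y) = χ (j, 0) * χ (0, y)
    rw [← AddChar.map_add_eq_mul]
    simp
  rw [sum_setA]
  simp_rw [h12, ← Finset.mul_sum]
  have e1 : ∑ j : ZMod (p ^ 3), χ1 j * ∑ y ∈ (Finset.univ : Finset (ZMod P)).filter
      (fun x => x ^ 2 ∈ Itv P (shf p g U j.val) U), χ2 y =
      ∑ j : ZMod (p ^ 3), χ1 j * (∑ y ∈ (Finset.univ : Finset (ZMod P)).filter
      (fun x => x ^ 2 ∈ Itv P (shf p g U j.val) U), χ2 y - (if χ2 = 0 then (U : ℂ) else 0)) := by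
    have e2 : ∑ j : ZMod (p ^ 3), χ1 j * (if χ2 = 0 then (U : ℂ) else 0) = 0 := by
      rw [← Finset.sum_mul]
      by_cases h : χ2 = 0
      · have h1 : χ1 ≠ 0 := by
          intro h1
          apply hχ
          ext ⟨j, y⟩
          rw [h12, h, h1]
          simp
        rw [AddChar.sum_eq_ite, if_neg h1, zero_mul]
      · rw [if_neg h, mul_zero]
    simp_rw [mul_sub]
    rw [Finset.sum_sub_distrib, e2, sub_zero]
  rw [e1]
  refine (norm_sum_le _ _).trans ?_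
  have e3 : ∀ j ∈ (Finset.univ : Finset (ZMod (p ^ 3))),
      ‖χ1 j * (∑ y ∈ (Finset.univ : Finset (ZMod P)).filter
      (fun x => x ^ 2 ∈ Itv P (shf p g U j.val) U), χ2 y - (if χ2 = 0 then (U : ℂ) else 0))‖ ≤
      errE P := by
    intro j _
    rw [norm_mul, AddChar.norm_apply, one_mul]
    exact twisted_squares h2 (shf_add_le _) χ2
  refine (Finset.sum_le_sum e3).trans ?_
  rw [Finset.sum_const, Finset.card_univ, ZMod.card, nsmul_eq_mul]
  push_cast
  exact le_rfl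

lemma card_setA (h2 : (2 : ZMod P) ≠ 0) :
    (p : ℝ) ^ 3 * (((P / qq p : ℕ) : ℝ) - errE P) ≤ ((setA p P g).card : ℝ) := by
  classical
  have : NeZero (p ^ 3) := ⟨pow_ne_zero _ (Fact.out : p.Prime).ne_zero⟩
  set U := P / qq p with hU
  have e1 : ((setA p P g).card : ℂ) = ∑ j : ZMod (p ^ 3), ∑ y ∈ (Finset.univ : Finset (ZMod P)).filter
      (fun x => x ^ 2 ∈ Itv P (shf p g U j.val) U), (1 : ℂ) := by
    rw [← sum_setA (fun _ => (1 : ℂ))]
    simp
  have e2 : ((setA p P g).card : ℝ) = ∑ j : ZMod (p ^ 3),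
      (((Finset.univ : Finset (ZMod P)).filter
      (fun x => x ^ 2 ∈ Itv P (shf p g U j.val) U)).card : ℝ) := by
    have : (((setA p P g).card : ℝ) : ℂ) = ((∑ j : ZMod (p ^ 3),
      (((Finset.univ : Finset (ZMod P)).filter
      (fun x => x ^ 2 ∈ Itv P (shf p g U j.val) U)).card : ℝ) : ℝ) : ℂ) := by
      push_cast
      rw [e1]
      refine Finset.sum_congr rfl fun j _ => ?_
      simp
    exact_mod_cast this
  rw [e2]
  have e3 : ∀ j ∈ (Finset.univ : Finset (ZMod (p ^ 3))), (U : ℝ) - errE P ≤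
      (((Finset.univ : Finset (ZMod P)).filter
      (fun x => x ^ 2 ∈ Itv P (shf p g U j.val) U)).card : ℝ) := by
    intro j _
    have h := twisted_squares h2 (shf_add_le (p := p) (P := P) (g := g) j.val) 0
    rw [if_pos rfl] at h
    have h3 : ∑ x ∈ (Finset.univ : Finset (ZMod P)).filter
        (fun x => x ^ 2 ∈ Itv P (shf p g (P / qq p) j.val) (P / qq p)), (0 : AddChar (ZMod P) ℂ) x =
        (((Finset.univ : Finset (ZMod P)).filter
        (fun x => x ^ 2 ∈ Itv P (shf p g (P / qq p) j.val) (P / qq p))).card : ℂ) := by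
      simp
    rw [h3] at h
    have h4 := (Complex.abs_re_le_norm _).trans h
    rw [Complex.sub_re, Complex.natCast_re, Complex.natCast_re] at h4
    have h5 := (abs_le.1 h4).1
    have h6 : errE P = Real.sqrt P * (1 + Real.log P) := rfl
    rw [h6, hU]
    linarith
  have e4 := Finset.sum_le_sum e3
  rw [Finset.sum_const, Finset.card_univ, ZMod.card, nsmul_eq_mul] at e4
  push_cast at e4
  exact e4

lemma four_ap_setA (h2 : (2 : ZMod P) ≠ 0)
    (hg : ∀ a D : Fin 3 → ZMod p, D ≠ 0 → g a - 3*g (a+D) + 3*g (a+2•D) - g (a+3•D) ≠ 0)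
    (hU : qq p ≤ P / qq p) [NeZero (p ^ 3)] :
    (((Finset.univ : Finset ((ZMod (p ^ 3) × ZMod P) × (ZMod (p ^ 3) × ZMod P))).filter
      (fun q => q.1 ∈ setA p P g ∧ q.1 + q.2 ∈ setA p P g ∧ q.1 + 2 * q.2 ∈ setA p P g ∧
        q.1 + 3 * q.2 ∈ setA p P g)).card : ℝ) ≤
      (p : ℝ) ^ 3 * (64 * ((P / qq p : ℕ) : ℝ) ^ 3 / P + 8 * (P * Real.sqrt P)) := by
  classical
  obtain ⟨U, hUdef⟩ : ∃ U, U = P / qq p := ⟨_, rfl⟩
  have hp : 0 < p := (Fact.out : p.Prime).pos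
  have hU0 : 0 < U := by
    rw [hUdef]; exact lt_of_lt_of_le (qq_pos hp) hU
  have hU2 : 2 * U ≤ P := by
    have h1 : U * qq p ≤ P := by rw [hUdef]; exact Nat.div_mul_le_self P (qq p)
    have h3 : 2 ≤ qq p := by
      rw [qq_eq]
      have : 0 < 9 ^ ww p * p := by positivity
      nlinarith
    calc 2 * U = U * 2 := by ring
      _ ≤ U * qq p := Nat.mul_le_mul_left _ h3
      _ ≤ P := h1
  let T : Finset (ZMod (p ^ 3) × (ZMod P × ZMod P)) := Finset.univ.filter (fun r =>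
    (r.2.1 ^ 2 ∈ Itv P (shf p g U r.1.val) U ∧ (r.2.1 + r.2.2) ^ 2 ∈ Itv P (shf p g U r.1.val) U ∧
      (r.2.1 + 2 * r.2.2) ^ 2 ∈ Itv P (shf p g U r.1.val) U))
  have hT : (T.card : ℝ) ≤ (p : ℝ) ^ 3 * (64 * (U : ℝ) ^ 3 / P + 8 * (P * Real.sqrt P)) := by
    have e1 : (T.card : ℝ) = ∑ j : ZMod (p ^ 3),
        (((Finset.univ : Finset (ZMod P × ZMod P)).filter (fun t =>
          t.1 ^ 2 ∈ Itv P (shf p g U j.val) U ∧ (t.1 + t.2) ^ 2 ∈ Itv P (shf p g U j.val) U ∧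
          (t.1 + 2 * t.2) ^ 2 ∈ Itv P (shf p g U j.val) U)).card : ℝ) := by
      have := cast_sum_filter (α := ZMod (p ^ 3)) (β := ZMod P × ZMod P) (fun j t =>
        (t.1 ^ 2 ∈ Itv P (shf p g U j.val) U ∧ (t.1 + t.2) ^ 2 ∈ Itv P (shf p g U j.val) U ∧
          (t.1 + 2 * t.2) ^ 2 ∈ Itv P (shf p g U j.val) U))
      refine this.trans (Finset.sum_congr rfl fun j _ => ?_)
      rw [Finset.card_filter]
      push_cast
      rfl
    rw [e1]
    have e2 : ∀ j ∈ (Finset.univ : Finset (ZMod (p ^ 3))),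
        (((Finset.univ : Finset (ZMod P × ZMod P)).filter (fun t =>
          t.1 ^ 2 ∈ Itv P (shf p g U j.val) U ∧ (t.1 + t.2) ^ 2 ∈ Itv P (shf p g U j.val) U ∧
          (t.1 + 2 * t.2) ^ 2 ∈ Itv P (shf p g U j.val) U)).card : ℝ) ≤
        64 * (U : ℝ) ^ 3 / P + 8 * (P * Real.sqrt P) := fun j _ => three_squares h2 hU0 hU2
    refine (Finset.sum_le_sum e2).trans ?_
    rw [Finset.sum_const, Finset.card_univ, ZMod.card, nsmul_eq_mul]
    push_cast
    exact le_rfl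
  rw [← hUdef]
  refine le_trans ?_ hT
  have hcard : ((Finset.univ : Finset ((ZMod (p ^ 3) × ZMod P) × (ZMod (p ^ 3) × ZMod P))).filter
      (fun q => q.1 ∈ setA p P g ∧ q.1 + q.2 ∈ setA p P g ∧ q.1 + 2 * q.2 ∈ setA p P g ∧
        q.1 + 3 * q.2 ∈ setA p P g)).card ≤ T.card := by
    have hδ : ∀ q : (ZMod (p ^ 3) × ZMod P) × (ZMod (p ^ 3) × ZMod P),
        (q.1 ∈ setA p P g ∧ q.1 + q.2 ∈ setA p P g ∧ q.1 + 2 * q.2 ∈ setA p P g ∧
        q.1 + 3 * q.2 ∈ setA p P g) → q.2.1 = 0 := by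
      rintro ⟨⟨j, y⟩, ⟨δ, t⟩⟩ ⟨m0, m1, m2, m3⟩
      rw [mem_setA] at m0 m1 m2 m3
      rw [← hUdef] at m0 m1 m2 m3
      exact ap_core g hg U hUdef (by rw [hUdef]; exact hU) j δ y t m0 m1 m2 m3
    apply Finset.card_le_card_of_injOn (fun q => (q.1.1, (q.1.2, q.2.2)))
    · intro q hq
      rw [Finset.mem_coe, Finset.mem_filter] at hq
      have h0 := hδ q hq.2
      obtain ⟨m0, m1, m2, m3⟩ := hq.2
      rw [mem_setA] at m0 m1 m2
      rw [← hUdef] at m0 m1 m2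
      simp only [Prod.fst_add, Prod.snd_add, Prod.fst_mul, Prod.snd_mul, h0, mul_zero,
        add_zero] at m0 m1 m2
      rw [Finset.mem_coe, Finset.mem_filter]
      exact ⟨Finset.mem_univ _, m0, m1, m2⟩
    · intro q hq q' hq' heq
      rw [Finset.mem_coe, Finset.mem_filter] at hq hq'
      have h0 := hδ q hq.2
      have h0' := hδ q' hq'.2
      simp only [Prod.mk.injEq] at heq
      obtain ⟨a1, a2, a3⟩ := heq
      refine Prod.ext (Prod.ext a1 a2) (Prod.ext ?_ a3)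
      rw [h0, h0']
  exact_mod_cast hcard

end Pool.Agent.Helper60.FourAP
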