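import Pool.Agent.Helper60.GPrinDefs

/-!
# Common part: composition of a-gsm mappings, the test languages, nested words
-/

namespace Pool.Agent.Helper60.GPrin

variable {X Y Z : Type}

lemma AGSM.run_append (τ : AGSM X Y) (s : τ.State) (u v : List X) :
    τ.run s (u ++ v) = τ.run (τ.run s u) v := by
  induction u generalizing s with
  | nil => rfl
  | cons x u ih => exact ih _

lemma AGSM.output_append (τ : AGSM X Y) (s : τ.State) (u v : List X) :
    τ.output s (u ++ v) = τ.output s u ++ τ.output (τ.run s u) v := by
  induction u generalizing s with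
  | nil => rfl
  | cons x u ih => simp [AGSM.output, AGSM.run, ih, List.append_assoc]

/-- The identity a-gsm. -/
def idGSM (X : Type) : AGSM X X where
  State := Unit
  finite_state := inferInstance
  start := ()
  step := fun _ _ => ()
  out := fun _ x => [x]
  accept := Set.univ

lemma idGSM_output (u : List X) (s : (idGSM X).State) : (idGSM X).output s u = u := by
  induction u generalizing s with
  | nil => rfl
  | cons x u ih =>
    simp only [AGSM.output]
    rw [ih]
    rfl

lemma idGSM_preimage (L : Language X) : (idGSM X).preimage L = L := by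
  ext u
  constructor
  · rintro ⟨_, h⟩
    rwa [idGSM_output] at h
  · intro h
    refine ⟨trivial, ?_⟩
    rwa [idGSM_output]

/-- Composition of a-gsm. -/
def AGSM.comp (τ : AGSM X Y) (ρ : AGSM Y Z) : AGSM X Z where
  State := τ.State × ρ.State
  finite_state := by
    have := τ.finite_state
    have := ρ.finite_state
    infer_instance
  start := (τ.start, ρ.start)
  step := fun s x => (τ.step s.1 x, ρ.run s.2 (τ.out s.1 x))
  out := fun s x => ρ.output s.2 (τ.out s.1 x)
  accept := {s | s.1 ∈ τ.accept ∧ s.2 ∈ ρ.accept}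

lemma AGSM.comp_run (τ : AGSM X Y) (ρ : AGSM Y Z) (s : τ.State) (r : ρ.State) (u : List X) :
    (τ.comp ρ).run (s, r) u = (τ.run s u, ρ.run r (τ.output s u)) := by
  induction u generalizing s r with
  | nil => rfl
  | cons x u ih =>
    simp only [AGSM.run, AGSM.output]
    rw [ρ.run_append]
    exact ih _ _

lemma AGSM.comp_output (τ : AGSM X Y) (ρ : AGSM Y Z) (s : τ.State) (r : ρ.State) (u : List X) :
    (τ.comp ρ).output (s, r) u = ρ.output r (τ.output s u) := by
  induction u generalizing s r with
  | nil => rfl
  | cons x u ih =>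
    simp only [AGSM.output]
    rw [ρ.output_append]
    congr 1
    exact ih _ _

lemma AGSM.comp_preimage (τ : AGSM X Y) (ρ : AGSM Y Z) (L : Language Z) :
    (τ.comp ρ).preimage L = τ.preimage (ρ.preimage L) := by
  ext u
  change ((τ.comp ρ).run (τ.start, ρ.start) u ∈ (τ.comp ρ).accept ∧
    (τ.comp ρ).output (τ.start, ρ.start) u ∈ L) ↔
    (τ.run τ.start u ∈ τ.accept ∧ ρ.run ρ.start (τ.output τ.start u) ∈ ρ.accept ∧
      ρ.output ρ.start (τ.output τ.start u) ∈ L)
  rw [AGSM.comp_run, AGSM.comp_output]
  change ((_ ∧ _) ∧ _) ↔ _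
  tauto

/-- Every member of `G L` is the inverse image of `L` under one a-gsm mapping. -/
theorem G.exists_gsm {L : Language Y} {X : Type} {K : Language X} (h : G L X K) :
    ∃ τ : AGSM X Y, K = τ.preimage L := by
  induction h with
  | self => exact ⟨idGSM Y, (idGSM_preimage L).symm⟩
  | inv X X' hX τ K hK ih =>
    obtain ⟨ρ, rfl⟩ := ih
    exact ⟨τ.comp ρ, (τ.comp_preimage ρ L).symm⟩

/-- The alphabet of the test language. -/
inductive Sym (n : ℕ) : Type
  | a (i : Fin n) : Sym n
  | c (i : Fin n) : Sym n
  | b : Sym n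
  deriving DecidableEq

instance (n : ℕ) : Finite (Sym n) := by
  have : Function.Surjective (fun x : Fin n ⊕ Fin n ⊕ Unit => (match x with
    | .inl i => Sym.a i
    | .inr (.inl i) => Sym.c i
    | .inr (.inr _) => Sym.b : Sym n)) := by
    intro y
    cases y with
    | a i => exact ⟨.inl i, rfl⟩
    | c i => exact ⟨.inr (.inl i), rfl⟩
    | b => exact ⟨.inr (.inr ()), rfl⟩
  exact Finite.of_surjective _ this

/-- The word `w c_p b^m`. -/
def enc {n : ℕ} (w : List (Fin n)) (p : Fin n) (m : ℕ) : List (Sym n) :=
  w.map Sym.a ++ Sym.c p :: List.replicate m Sym.b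

/-- The test language `{w c_p b^m : m = |w|_p}`. -/
def TestLang (n : ℕ) : Language (Sym n) :=
  {u | ∃ (w : List (Fin n)) (p : Fin n), u = enc w p (w.count p)}

lemma enc_inj {n : ℕ} {w w' : List (Fin n)} {p p' : Fin n} {m m' : ℕ}
    (h : enc w p m = enc w' p' m') : w = w' ∧ p = p' ∧ m = m' := by
  induction w generalizing w' with
  | nil =>
    cases w' with
    | nil =>
      simp only [enc, List.map_nil, List.nil_append, List.cons.injEq, Sym.c.injEq] at h
      refine ⟨rfl, h.1, ?_⟩
      have := congrArg List.length h.2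
      simpa using this
    | cons y w' => simp [enc] at h
  | cons x w ih =>
    cases w' with
    | nil => simp [enc] at h
    | cons y w' =>
      simp only [enc, List.map_cons, List.cons_append, List.cons.injEq, Sym.a.injEq] at h
      obtain ⟨h1, h2, h3⟩ := ih h.2
      exact ⟨by rw [h.1, h1], h2, h3⟩

lemma enc_mem_iff {n : ℕ} (w : List (Fin n)) (p : Fin n) (m : ℕ) :
    enc w p m ∈ TestLang n ↔ m = w.count p := by
  constructor
  · rintro ⟨w', p', h⟩
    obtain ⟨h1, h2, h3⟩ := enc_inj h
    subst h1 h2
    exact h3
  · rintro rfl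
    exact ⟨w, p, rfl⟩

/-! ## Nested words -/

section Nested

variable {α : Type} (a : ℕ → α) (N : ℕ → ℕ)

/-- `W 0 = []`, `W (p+1) = (W p ++ [a p]) ^ (N p)`. -/
def W : ℕ → List α
  | 0 => []
  | p + 1 => (List.replicate (N p) (W p ++ [a p])).flatten

/-- `rep k l` is the `k`-fold repetition of `l`. -/
def rep {β : Type} (k : ℕ) (l : List β) : List β := (List.replicate k l).flatten

lemma rep_zero {β : Type} (l : List β) : rep 0 l = [] := rfl

lemma rep_succ {β : Type} (k : ℕ) (l : List β) : rep (k + 1) l = l ++ rep k l := by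
  simp [rep, List.replicate_succ]

lemma rep_add {β : Type} (j k : ℕ) (l : List β) : rep (j + k) l = rep j l ++ rep k l := by
  unfold rep
  rw [List.replicate_add, List.flatten_append]

lemma length_rep {β : Type} (k : ℕ) (l : List β) : (rep k l).length = k * l.length := by
  induction k with
  | zero => simp [rep_zero]
  | succ k ih => rw [rep_succ, List.length_append, ih]; ring

lemma count_rep {β : Type} [DecidableEq β] (k : ℕ) (l : List β) (x : β) :
    (rep k l).count x = k * l.count x := by
  induction k with
  | zero => simp [rep_zero]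
  | succ k ih => rw [rep_succ, List.count_append, ih]; ring

lemma W_succ (p : ℕ) : W a N (p + 1) = rep (N p) (W a N p ++ [a p]) := rfl

lemma mem_W {p : ℕ} {x : α} (h : x ∈ W a N p) : ∃ q < p, x = a q := by
  induction p with
  | zero => simp [W] at h
  | succ p ih =>
    simp only [W, List.mem_flatten, List.mem_replicate] at h
    obtain ⟨l, ⟨_, rfl⟩, h⟩ := h
    simp only [List.mem_append, List.mem_singleton] at h
    rcases h with h | h
    · obtain ⟨q, hq, rfl⟩ := ih h
      exact ⟨q, by omega, rfl⟩
    · exact ⟨p, by omega, h⟩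

theorem nested (z : List α) (κ : ℕ → Type) [∀ p, Fintype (κ p)] (col : ∀ p, ℕ → κ p) (n : ℕ)
    (hN : ∀ p < n, Fintype.card (κ p) < N p) (p : ℕ) (hp : p ≤ n) :
    ∀ pre post : List α, z = pre ++ W a N p ++ post →
      ∃ i, pre.length ≤ i ∧ i ≤ pre.length + (W a N p).length ∧
        ∀ p' < p, ∃ e, i < e ∧ e ≤ pre.length + (W a N p).length ∧ col p' i = col p' e ∧
          (∃ k, i ≤ k ∧ k < e ∧ z[k]? = some (a p')) ∧
          (∀ k, i ≤ k → k < e → ∃ q ≤ p', z[k]? = some (a q)) := by
  induction p with
  | zero =>
    intro pre post hz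
    exact ⟨pre.length, le_rfl, by omega, fun p' hp' => by omega⟩
  | succ p ih =>
    intro pre post hz
    set B := W a N p ++ [a p] with hB
    have hlen : (W a N (p + 1)).length = N p * B.length := by rw [W_succ, length_rep]
    have hBlen : B.length = (W a N p).length + 1 := by simp [hB]
    -- decomposition for each copy
    have hdec : ∀ x, x < N p → z = (pre ++ rep x B) ++ W a N p ++ ([a p] ++ rep (N p - x - 1) B ++ post) := by
      intro x hx
      rw [hz, W_succ, ← hB]
      have : N p = x + (1 + (N p - x - 1)) := by omega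
      conv_lhs => rw [this]
      rw [rep_add, rep_add, rep_succ, rep_zero, hB]
      simp [List.append_assoc]
    have hih : ∀ x : Fin (N p), ∃ i, (pre ++ rep x.1 B).length ≤ i ∧
        i ≤ (pre ++ rep x.1 B).length + (W a N p).length ∧
        ∀ p' < p, ∃ e, i < e ∧ e ≤ (pre ++ rep x.1 B).length + (W a N p).length ∧
          col p' i = col p' e ∧ (∃ k, i ≤ k ∧ k < e ∧ z[k]? = some (a p')) ∧
          (∀ k, i ≤ k → k < e → ∃ q ≤ p', z[k]? = some (a q)) := by
      intro x
      exact ih (by omega) _ _ (hdec x.1 x.2)
    choose I hI1 hI2 hI3 using hih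
    -- pigeonhole
    have hcard : Fintype.card (κ p) < Fintype.card (Fin (N p)) := by
      simpa using hN p (by omega)
    obtain ⟨x0, y0, hxy0, hcol0⟩ := Fintype.exists_ne_map_eq_of_card_lt (fun x => col p (I x)) hcard
    obtain ⟨x, y, hxy, hcol⟩ : ∃ x y : Fin (N p), x < y ∧ col p (I x) = col p (I y) := by
      rcases lt_or_gt_of_ne hxy0 with h | h
      · exact ⟨x0, y0, h, hcol0⟩
      · exact ⟨y0, x0, h, hcol0.symm⟩
    have hpl : ∀ x : Fin (N p), (pre ++ rep x.1 B).length = pre.length + x.1 * B.length := by
      intro x; rw [List.length_append, length_rep]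
    have hle : ∀ x : Fin (N p), (x.1 + 1) * B.length ≤ N p * B.length := fun x =>
      Nat.mul_le_mul_right _ x.2
    have hle2 : ∀ x : Fin (N p), pre.length + x.1 * B.length + (W a N p).length <
        pre.length + (W a N (p+1)).length := by
      intro x
      have := hle x
      rw [hlen]
      rw [add_mul, one_mul] at this
      omega
    have hxy' : (x.1 + 1) * B.length ≤ y.1 * B.length := Nat.mul_le_mul_right _ hxy
    have hIx2 := hI2 x
    have hIy1 := hI1 y
    have hIy2 := hI2 y
    have hIx1 := hI1 x
    rw [hpl] at hIx1 hIx2 hIy1 hIy2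
    have hlex := hle2 x
    have hley := hle2 y
    rw [add_mul, one_mul] at hxy'
    refine ⟨I x, by omega, by omega, ?_⟩
    intro p' hp'
    rcases Nat.lt_succ_iff_lt_or_eq.1 hp' with h | h
    · obtain ⟨e, h1, h2, h3, h4, h5⟩ := hI3 x p' h
      rw [hpl] at h2
      exact ⟨e, h1, by omega, h3, h4, h5⟩
    · subst h
      refine ⟨I y, by omega, by omega, hcol, ?_, ?_⟩
      · refine ⟨pre.length + x.1 * B.length + (W a N p').length, by omega, by omega, ?_⟩
        rw [hdec x.1 x.2, List.append_assoc _ (W a N p'), ← hpl x]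
        rw [List.getElem?_append_right (by omega), List.getElem?_append_right (by omega)]
        simp
      · intro k hk1 hk2
        have hk3 : pre.length ≤ k := by omega
        have hk4 : k < pre.length + (W a N (p'+1)).length := by omega
        have hlt : k - pre.length < (W a N (p' + 1)).length := by omega
        have : z[k]? = some ((W a N (p' + 1))[k - pre.length]) := by
          rw [hz, List.append_assoc, List.getElem?_append_right hk3,
            List.getElem?_append_left hlt, List.getElem?_eq_getElem hlt]
        obtain ⟨q, hq, hq'⟩ := mem_W a N (List.getElem_mem hlt)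
        exact ⟨q, by omega, by rw [this, hq']⟩

/-- The segment of `z` between positions `i` and `e`. -/
def seg {β : Type} (z : List β) (i e : ℕ) : List β := (z.drop i).take (e - i)

lemma mem_seg {β : Type} (z : List β) (i e : ℕ) (x : β) :
    x ∈ seg z i e ↔ ∃ k, i ≤ k ∧ k < e ∧ z[k]? = some x := by
  unfold seg
  rw [List.mem_iff_getElem?]
  constructor
  · rintro ⟨k, hk⟩
    rw [List.getElem?_take] at hk
    split_ifs at hk with h
    rw [List.getElem?_drop] at hk
    exact ⟨i + k, by omega, by omega, hk⟩
  · rintro ⟨k, h1, h2, h3⟩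
    refine ⟨k - i, ?_⟩
    rw [List.getElem?_take, if_pos (by omega), List.getElem?_drop, Nat.add_sub_cancel' h1]
    exact h3

lemma take_append_seg {β : Type} (z : List β) {i e : ℕ} (h : i ≤ e) :
    z.take i ++ seg z i e = z.take e := by
  unfold seg
  rw [← List.take_add, Nat.add_sub_cancel' h]

lemma seg_append_drop {β : Type} (z : List β) {i e : ℕ} (h : i ≤ e) :
    seg z i e ++ z.drop e = z.drop i := by
  unfold seg
  have : z.drop e = (z.drop i).drop (e - i) := by
    rw [List.drop_drop, Nat.add_sub_cancel' h]
  rw [this, List.take_append_drop]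

lemma seg_append_seg {β : Type} (z : List β) {i j k : ℕ} (h : i ≤ j) (h' : j ≤ k) :
    seg z i j ++ seg z j k = seg z i k := by
  have h1 : z.drop j = (z.drop i).drop (j - i) := by
    rw [List.drop_drop, Nat.add_sub_cancel' h]
  unfold seg
  rw [h1, ← List.take_add]
  congr 1
  omega

lemma seg_self {β : Type} (z : List β) (i : ℕ) : seg z i i = [] := by simp [seg]

end Nested

end Pool.Agent.Helper60.GPrin
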