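import Pool.Agent.Helper60.GPrinCommon

/-!
# Abstract counter systems
-/

namespace Pool.Agent.Helper60.GPrin

/-- An abstract one-counter transition system with labels in `X`. -/
structure CSys (X σ : Type) where
  step : σ → ℕ → List X → σ → ℕ → Prop
  label_le : ∀ {s h u s' h'}, step s h u s' h' → u.length ≤ 1
  mono : ∀ {s h u s' h'}, step s h u s' h' → ∀ k, step s (h + k) u s' (h' + k)
  J : ℕ
  up : ∀ {s h u s' h'}, step s h u s' h' → h' ≤ h + J
  dn : ∀ {s h u s' h'}, step s h u s' h' → h ≤ h' + 1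

variable {X σ : Type} (C : CSys X σ)

/-- Runs all of whose states lie in `P`. -/
inductive CSys.RunIn (P : Set σ) : σ → ℕ → List X → σ → ℕ → Prop
  | nil (s : σ) (h : ℕ) (hs : s ∈ P) : CSys.RunIn P s h [] s h
  | cons (s : σ) (h : ℕ) (u : List X) (s₁ : σ) (h₁ : ℕ) (v : List X) (s₂ : σ) (h₂ : ℕ)
      (hs : s ∈ P) (st : C.step s h u s₁ h₁) (r : CSys.RunIn P s₁ h₁ v s₂ h₂) :
      CSys.RunIn P s h (u ++ v) s₂ h₂

/-- Runs. -/
inductive CSys.Run : σ → ℕ → List X → σ → ℕ → Prop
  | nil (s : σ) (h : ℕ) : CSys.Run s h [] s h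
  | cons (s : σ) (h : ℕ) (u : List X) (s₁ : σ) (h₁ : ℕ) (v : List X) (s₂ : σ) (h₂ : ℕ)
      (st : C.step s h u s₁ h₁) (r : CSys.Run s₁ h₁ v s₂ h₂) : CSys.Run s h (u ++ v) s₂ h₂

variable {C}

lemma CSys.RunIn.run {P : Set σ} {s : σ} {h : ℕ} {u : List X} {s' : σ} {h' : ℕ}
    (r : C.RunIn P s h u s' h') : C.Run s h u s' h' := by
  induction r with
  | nil s h hs => exact .nil s h
  | cons s h u s₁ h₁ v s₂ h₂ hs st r ih => exact .cons s h u s₁ h₁ v s₂ h₂ st ih

lemma CSys.Run.runIn {P : Set σ} (hP : ∀ s ∈ P, ∀ h u s' h', C.step s h u s' h' → s' ∈ P)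
    {s : σ} {h : ℕ} {u : List X} {s' : σ} {h' : ℕ}
    (r : C.Run s h u s' h') (hs : s ∈ P) : C.RunIn P s h u s' h' := by
  induction r with
  | nil s h => exact .nil s h hs
  | cons s h u s₁ h₁ v s₂ h₂ st r ih => exact .cons s h u s₁ h₁ v s₂ h₂ hs st (ih (hP _ hs _ _ _ _ st))

lemma CSys.Run.mem {P : Set σ} (hP : ∀ s ∈ P, ∀ h u s' h', C.step s h u s' h' → s' ∈ P)
    {s : σ} {h : ℕ} {u : List X} {s' : σ} {h' : ℕ}
    (r : C.Run s h u s' h') (hs : s ∈ P) : s' ∈ P := by
  induction r with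
  | nil s h => exact hs
  | cons s h u s₁ h₁ v s₂ h₂ st r ih => exact ih (hP _ hs _ _ _ _ st)

lemma CSys.Run.append {s : σ} {h : ℕ} {u : List X} {s' : σ} {h' : ℕ} {v : List X} {s'' : σ}
    {h'' : ℕ} (r : C.Run s h u s' h') (r' : C.Run s' h' v s'' h'') :
    C.Run s h (u ++ v) s'' h'' := by
  induction r with
  | nil s h => exact r'
  | cons s h u s₁ h₁ v₁ s₂ h₂ st r ih =>
    rw [List.append_assoc]
    exact .cons _ _ _ _ _ _ _ _ st (ih r')

lemma CSys.Run.mono {s : σ} {h : ℕ} {u : List X} {s' : σ} {h' : ℕ} (r : C.Run s h u s' h')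
    (k : ℕ) : C.Run s (h + k) u s' (h' + k) := by
  induction r with
  | nil s h => exact .nil _ _
  | cons s h u s₁ h₁ v₁ s₂ h₂ st r ih => exact .cons _ _ _ _ _ _ _ _ (C.mono st k) ih

lemma CSys.Run.iter_pos {s : σ} {h d : ℕ} {u : List X} (r : C.Run s h u s (h + d)) (t : ℕ) :
    C.Run s h (rep t u) s (h + t * d) := by
  induction t with
  | zero => simpa [rep_zero] using CSys.Run.nil (C := C) s h
  | succ t ih =>
    rw [rep_succ, show h + (t + 1) * d = h + t * d + d by ring]
    have := ih.mono d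
    rw [show h + t * d + d = (h + d) + t * d by ring] at this ⊢
    exact r.append this

lemma CSys.Run.iter_neg {s : σ} {h e : ℕ} {u : List X} (r : C.Run s (h + e) u s h) (t : ℕ) :
    C.Run s (h + t * e) (rep t u) s h := by
  induction t with
  | zero => simpa [rep_zero] using CSys.Run.nil (C := C) s h
  | succ t ih =>
    rw [rep_succ, show h + (t + 1) * e = (h + e) + t * e by ring]
    exact (r.mono (t * e)).append ih

lemma CSys.Run.split {s : σ} {h : ℕ} {w : List X} {s' : σ} {h' : ℕ}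
    (r : C.Run s h w s' h') : ∀ (u v : List X) (x : X), w = u ++ x :: v →
    ∃ s₁ h₁ s₂ h₂, C.Run s h u s₁ h₁ ∧ C.step s₁ h₁ [x] s₂ h₂ ∧ C.Run s₂ h₂ v s' h' := by
  induction r with
  | nil s h => intro u v x hw; simp at hw
  | cons s h u₁ s₁ h₁ v₁ s₂ h₂ st r ih =>
    intro u v x hw
    have hl := C.label_le st
    match u₁, hl with
    | [], _ =>
      obtain ⟨t₁, k₁, t₂, k₂, r1, r2, r3⟩ := ih u v x hw
      exact ⟨t₁, k₁, t₂, k₂, .cons _ _ [] _ _ _ _ _ st r1, r2, r3⟩
    | [y], _ =>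
      cases u with
      | nil =>
        simp only [List.nil_append, List.cons_append, List.cons.injEq] at hw
        obtain ⟨rfl, rfl⟩ := hw
        exact ⟨s, h, s₁, h₁, .nil _ _, st, r⟩
      | cons y' u' =>
        simp only [List.cons_append, List.nil_append, List.cons.injEq] at hw
        obtain ⟨rfl, hw⟩ := hw
        obtain ⟨t₁, k₁, t₂, k₂, r1, r2, r3⟩ := ih u' v x hw
        exact ⟨t₁, k₁, t₂, k₂, .cons _ _ [y] _ _ _ _ _ st r1, r2, r3⟩

lemma CSys.Run.single {s : σ} {h : ℕ} {u : List X} {s' : σ} {h' : ℕ} (st : C.step s h u s' h') :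
    C.Run s h u s' h' := by
  have := CSys.Run.cons (C := C) _ _ _ _ _ _ _ _ st (.nil s' h')
  simpa using this

lemma CSys.Run.split2 {s : σ} {h : ℕ} {u v : List X} {s' : σ} {h' : ℕ}
    (r : C.Run s h (u ++ v) s' h') :
    ∃ s₁ h₁, C.Run s h u s₁ h₁ ∧ C.Run s₁ h₁ v s' h' := by
  cases v with
  | nil => exact ⟨s', h', by simpa using r, .nil _ _⟩
  | cons x v =>
    obtain ⟨s₁, h₁, s₂, h₂, r1, r2, r3⟩ := r.split u v x rfl
    exact ⟨s₁, h₁, r1, .cons _ _ [x] _ _ _ _ _ r2 r3⟩

/-- Configurations along a run labelled by a power of one letter. -/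
lemma CSys.Run.seq_replicate {x : X} {s' : σ} {h' : ℕ} : ∀ (m : ℕ) {s : σ} {h : ℕ},
    C.Run s h (List.replicate m x) s' h' →
    ∃ (T : ℕ → σ) (H : ℕ → ℕ),
      (∀ i ≤ m, C.Run s h (List.replicate i x) (T i) (H i)) ∧
      (∀ i ≤ m, C.Run (T i) (H i) (List.replicate (m - i) x) s' h') ∧
      ∀ i j, i ≤ j → j ≤ m → C.Run (T i) (H i) (List.replicate (j - i) x) (T j) (H j) := by
  intro m
  induction m with
  | zero =>
    intro s h r
    refine ⟨fun _ => s, fun _ => h, ?_, ?_, ?_⟩
    · intro i hi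
      obtain rfl : i = 0 := by omega
      exact .nil _ _
    · intro i hi
      obtain rfl : i = 0 := by omega
      exact r
    · intro i j hij hj
      obtain rfl : j = 0 := by omega
      obtain rfl : i = 0 := by omega
      exact .nil _ _
  | succ m ih =>
    intro s h r
    rw [List.replicate_succ] at r
    obtain ⟨s₁, h₁, r1, r2⟩ := CSys.Run.split2 (u := [x]) r
    obtain ⟨T, H, h2, h3, h4⟩ := ih r2
    refine ⟨fun i => if i = 0 then s else T (i - 1), fun i => if i = 0 then h else H (i - 1),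
      ?_, ?_, ?_⟩
    · intro i hi
      cases i with
      | zero => exact .nil _ _
      | succ i =>
        simp only [Nat.add_eq_zero_iff, one_ne_zero, and_false, if_false, Nat.add_sub_cancel,
          List.replicate_succ]
        exact r1.append (h2 i (by omega))
    · intro i hi
      cases i with
      | zero =>
        simp only [if_true, Nat.sub_zero, List.replicate_succ]
        exact r1.append r2
      | succ i =>
        simp only [Nat.add_eq_zero_iff, one_ne_zero, and_false, if_false, Nat.add_sub_cancel,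
          Nat.add_sub_add_right]
        exact h3 i (by omega)
    · intro i j hij hj
      cases i with
      | zero =>
        cases j with
        | zero => exact .nil _ _
        | succ j =>
          simp only [Nat.add_eq_zero_iff, one_ne_zero, and_false, if_false, Nat.add_sub_cancel,
            if_true, Nat.sub_zero, List.replicate_succ]
          exact r1.append (h2 j (by omega))
      | succ i =>
        cases j with
        | zero => omega
        | succ j =>
          simp only [Nat.add_eq_zero_iff, one_ne_zero, and_false, if_false, Nat.add_sub_cancel,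
            Nat.add_sub_add_right]
          exact h4 i j (by omega) (by omega)

/-- Configurations just before each letter of `z` and just before the first letter of `y :: v`. -/
lemma CSys.Run.seq_ready {y : X} {v : List X} {s' : σ} {h' : ℕ} : ∀ (z : List X) {s : σ} {h : ℕ},
    C.Run s h (z ++ y :: v) s' h' →
    ∃ (T : ℕ → σ) (H : ℕ → ℕ),
      (∀ i ≤ z.length, ∃ x s₂ h₂, C.step (T i) (H i) [x] s₂ h₂) ∧
      C.Run s h [] (T 0) (H 0) ∧
      C.Run (T z.length) (H z.length) (y :: v) s' h' ∧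
      ∀ i j, i ≤ j → j ≤ z.length → C.Run (T i) (H i) (seg z i j) (T j) (H j) := by
  intro z
  induction z with
  | nil =>
    intro s h r
    obtain ⟨s₁, h₁, s₂, h₂, r1, r2, r3⟩ := r.split [] v y rfl
    refine ⟨fun _ => s₁, fun _ => h₁, fun i _ => ⟨y, s₂, h₂, r2⟩, r1,
      .cons _ _ [y] _ _ _ _ _ r2 r3, fun i j hij hj => ?_⟩
    have : seg ([] : List X) i j = [] := by simp [seg]
    rw [this]
    exact .nil _ _
  | cons x z ih =>
    intro s h r
    obtain ⟨s₁, h₁, s₂, h₂, r1, r2, r3⟩ := r.split [] (z ++ y :: v) x rfl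
    obtain ⟨T, H, q1, q2, q3, q4⟩ := ih r3
    refine ⟨fun i => if i = 0 then s₁ else T (i - 1), fun i => if i = 0 then h₁ else H (i - 1),
      ?_, r1, ?_, ?_⟩
    · intro i hi
      cases i with
      | zero => exact ⟨x, s₂, h₂, r2⟩
      | succ i =>
        simp only [Nat.add_eq_zero_iff, one_ne_zero, and_false, if_false, Nat.add_sub_cancel]
        exact q1 i (by simpa using hi)
    · simpa using q3
    · intro i j hij hj
      cases i with
      | zero =>
        cases j with
        | zero => rw [seg_self]; exact .nil _ _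
        | succ j =>
          simp only [Nat.add_eq_zero_iff, one_ne_zero, and_false, if_false, Nat.add_sub_cancel,
            if_true]
          have h5 : seg (x :: z) 0 (j + 1) = [x] ++ ([] ++ seg z 0 j) := by simp [seg]
          rw [h5]
          exact (CSys.Run.single r2).append (q2.append (q4 0 j (by omega) (by simpa using hj)))
      | succ i =>
        cases j with
        | zero => omega
        | succ j =>
          simp only [Nat.add_eq_zero_iff, one_ne_zero, and_false, if_false, Nat.add_sub_cancel]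
          have h5 : seg (x :: z) (i + 1) (j + 1) = seg z i j := by simp [seg]
          rw [h5]
          exact q4 i j (by omega) (by simpa using hj)

/-- Last visit to a given state. -/
lemma CSys.RunIn.last_visit {P : Set σ} (s₀ : σ) {s : σ} {h : ℕ} {u : List X} {s' : σ} {h' : ℕ}
    (r : C.RunIn P s h u s' h') :
    C.RunIn (P \ {s₀}) s h u s' h' ∨
    ∃ u₁ u₂ h₁, C.Run s h u₁ s₀ h₁ ∧ u = u₁ ++ u₂ ∧
      ((s' = s₀ ∧ h' = h₁ ∧ u₂ = []) ∨
        ∃ v s₁ h₂ u₃, C.step s₀ h₁ v s₁ h₂ ∧ C.RunIn (P \ {s₀}) s₁ h₂ u₃ s' h' ∧ u₂ = v ++ u₃) := by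
  classical
  induction r with
  | nil s h hs =>
    by_cases hc : s = s₀
    · subst hc
      right
      exact ⟨[], [], h, .nil _ _, rfl, Or.inl ⟨rfl, rfl, rfl⟩⟩
    · left
      exact .nil _ _ ⟨hs, hc⟩
  | cons s h u s₁ h₁ v s₂ h₂ hs st r ih =>
    rcases ih with ih | ⟨u₁, u₂, k, r1, rfl, r2⟩
    · by_cases hc : s = s₀
      · subst hc
        right
        exact ⟨[], u ++ v, h, .nil _ _, rfl, Or.inr ⟨u, s₁, h₁, v, st, ih, rfl⟩⟩
      · left
        exact .cons _ _ _ _ _ _ _ _ ⟨hs, hc⟩ st ih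
    · right
      refine ⟨u ++ u₁, u₂, k, .cons _ _ _ _ _ _ _ _ st r1, by rw [List.append_assoc], r2⟩

/-- If a potential increases a lot along a run then some cycle increases it. -/
lemma CSys.exists_cycle (φ : ℕ → ℤ) (J : ℕ)
    (hφ : ∀ s h u s' h', C.step s h u s' h' → φ h' ≤ φ h + J) :
    ∀ (k : ℕ) (P : Set σ), P.Finite → P.ncard = k → ∀ (s : σ) (h : ℕ) (u : List X) (s' : σ) (h' : ℕ),
      C.RunIn P s h u s' h' → φ h + k * J < φ h' →
      ∃ u₁ u₂ u₃ s₁ h₁ h₂, φ h₁ < φ h₂ ∧ C.Run s h u₁ s₁ h₁ ∧ C.Run s₁ h₁ u₂ s₁ h₂ ∧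
        C.Run s₁ h₂ u₃ s' h' ∧ u = u₁ ++ (u₂ ++ u₃) := by
  intro k
  induction k with
  | zero =>
    intro P hP hk s h u s' h' r hlt
    exfalso
    have : s ∈ P := by cases r <;> assumption
    rw [Set.ncard_eq_zero hP] at hk
    rw [hk] at this
    exact this
  | succ k ih =>
    intro P hP hk s h u s' h' r hlt
    have hs : s ∈ P := by cases r <;> assumption
    rcases r.last_visit s with h1 | ⟨u₁, u₂, h₁, r1, rfl, r2⟩
    · exfalso
      have : s ∈ P \ {s} := by cases h1 <;> assumption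
      exact this.2 rfl
    · by_cases hc : φ h < φ h₁
      · refine ⟨[], u₁, u₂, s, h, h₁, hc, .nil _ _, r1, ?_, rfl⟩
        rcases r2 with ⟨rfl, rfl, rfl⟩ | ⟨v, s₁, h₂, u₃, st, r3, rfl⟩
        · exact .nil _ _
        · exact .cons _ _ _ _ _ _ _ _ st r3.run
      · push Not at hc
        rcases r2 with ⟨rfl, rfl, rfl⟩ | ⟨v, s₁, h₂, u₃, st, r3, rfl⟩
        · exfalso
          push_cast at hlt
          nlinarith [show (0:ℤ) ≤ (J:ℤ) by positivity, show (0:ℤ) ≤ (k:ℤ) by positivity,
            mul_nonneg (show (0:ℤ) ≤ (k:ℤ) by positivity) (show (0:ℤ) ≤ (J:ℤ) by positivity)]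
        · have hk' : (P \ {s}).ncard = k := by
            rw [Set.ncard_sdiff_singleton_of_mem hs, hk]; rfl
          have h4 := hφ _ _ _ _ _ st
          have h5 : φ h₂ + k * J < φ h' := by
            push_cast at hlt
            linarith
          obtain ⟨w₁, w₂, w₃, t, k₁, k₂, q1, q2, q3, q4, q5⟩ :=
            ih (P \ {s}) (hP.subset Set.sdiff_subset) hk' _ _ _ _ _ r3 h5
          refine ⟨u₁ ++ (v ++ w₁), w₂, w₃, t, k₁, k₂, q1, ?_, q3, q4, ?_⟩
          · exact r1.append (.cons _ _ _ _ _ _ _ _ st q2)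
          · rw [q5]; simp [List.append_assoc]

end Pool.Agent.Helper60.GPrin
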