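import Mathlib

/-!
# Inverse a-gsm mappings, one-counter languages, linear languages, G-principality
-/

namespace Pool.Agent.Helper60.GPrin

/-- An a-gsm: a deterministic finite-state machine that outputs a word over `Y` each time it reads
a letter of `X`, with a set of accepting states. -/
structure AGSM (X Y : Type) where
  State : Type
  finite_state : Finite State
  start : State
  step : State → X → State
  out : State → X → List Y
  accept : Set State

/-- The state reached from `s` after reading `u`. -/
def AGSM.run {X Y : Type} (τ : AGSM X Y) : τ.State → List X → τ.State
  | s, [] => s
  | s, x :: u => τ.run (τ.step s x) u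

/-- The output produced from `s` on reading `u`. -/
def AGSM.output {X Y : Type} (τ : AGSM X Y) : τ.State → List X → List Y
  | _, [] => []
  | s, x :: u => τ.out s x ++ τ.output (τ.step s x) u

/-- The inverse image of a language under an a-gsm mapping: the words on which the run ends in an
accepting state and the output is in the language. -/
def AGSM.preimage {X Y : Type} (τ : AGSM X Y) (L : Language Y) : Language X :=
  {u | τ.run τ.start u ∈ τ.accept ∧ τ.output τ.start u ∈ L}

/-- A family of languages: a predicate on pairs of an alphabet and a language over it. -/
abbrev Family := (X : Type) → Language X → Prop

/-- `G L`: the smallest family of languages over finite alphabets that contains `L` and is closed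
under inverse a-gsm mappings. -/
inductive G {Y : Type} (L : Language Y) : (X : Type) → Language X → Prop
  | self : G L Y L
  | inv (X X' : Type) (hX : Finite X) (τ : AGSM X X') (K : Language X') (hK : G L X' K) :
      G L X (τ.preimage K)

/-- A family `F` is G-principal if `F = G L` for some `L` in `F`. -/
def GPrincipal (F : Family) : Prop :=
  ∃ (Y : Type) (L : Language Y), F Y L ∧ ∀ (X : Type) (K : Language X), F X K ↔ G L X K

/-- A nondeterministic pushdown automaton with a single pushdown symbol.  A transition
`(q, x, n, q')` reads the letter `x` (or nothing, if `x = none`) in state `q`, replaces the topmost
pushdown symbol by `n` copies of it and goes to state `q'`. -/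
structure OneCounterPDA (X : Type) where
  State : Type
  finite_state : Finite State
  start : State
  accept : Set State
  trans : Set (State × Option X × ℕ × State)
  finite_trans : trans.Finite

/-- One move on configurations (state, remaining input, number of symbols on the pushdown store);
no move is possible when the store is empty. -/
inductive OneCounterPDA.Step {X : Type} (M : OneCounterPDA X) :
    M.State × List X × ℕ → M.State × List X × ℕ → Prop
  | read (q q' : M.State) (x : X) (n : ℕ) (h : (q, some x, n, q') ∈ M.trans) (u : List X) (k : ℕ) :
      M.Step (q, x :: u, k + 1) (q', u, k + n)
  | eps (q q' : M.State) (n : ℕ) (h : (q, none, n, q') ∈ M.trans) (u : List X) (k : ℕ) :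
      M.Step (q, u, k + 1) (q', u, k + n)

/-- The language accepted by an accepting state and an empty pushdown store, starting with one
symbol on the store. -/
def OneCounterPDA.language {X : Type} (M : OneCounterPDA X) : Language X :=
  {u | ∃ q ∈ M.accept, Relation.ReflTransGen M.Step (M.start, u, 1) (q, [], 0)}

/-- The family of (restricted) one-counter languages. -/
def Roc : Family := fun X L => Finite X ∧ ∃ M : OneCounterPDA X, M.language = L

/-- A context-free grammar is linear if every right-hand side contains at most one nonterminal. -/
def IsLinear {X : Type} (g : ContextFreeGrammar X) : Prop :=
  ∀ r ∈ g.rules, (∃ u : List X, r.output = u.map Symbol.terminal) ∨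
    ∃ (u : List X) (B : g.NT) (v : List X),
      r.output = u.map Symbol.terminal ++ [Symbol.nonterminal B] ++ v.map Symbol.terminal

/-- The family of linear languages. -/
def Lin : Family := fun X L => Finite X ∧ ∃ g : ContextFreeGrammar X, IsLinear g ∧ g.language = L

end Pool.Agent.Helper60.GPrin
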