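import Pool.Agent.Helper60.GPrinLinMain

/-!
# The family of linear languages is not G-principal
-/

namespace Pool.Agent.Helper60.GPrin

open Symbol

lemma AGSM.exists_C {X Y : Type} [Finite X] (τ : AGSM X Y) :
    ∃ C : ℕ, ∀ s x, (τ.out s x).length ≤ C := by
  have := τ.finite_state
  obtain ⟨C, hC⟩ := (Set.finite_range (fun p : τ.State × X => (τ.out p.1 p.2).length)).bddAbove
  exact ⟨C, fun s x => hC ⟨(s, x), rfl⟩⟩

lemma AGSM.output_length {X Y : Type} (τ : AGSM X Y) {C : ℕ}
    (hC : ∀ s x, (τ.out s x).length ≤ C) (u : List X) (s : τ.State) :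
    (τ.output s u).length ≤ C * u.length := by
  induction u generalizing s with
  | nil => simp [AGSM.output]
  | cons x u ih =>
    simp only [AGSM.output, List.length_append, List.length_cons]
    have h1 := hC s x
    have h2 := ih (τ.step s x)
    rw [mul_add, mul_one]
    omega

/-- Sizes for the nested words. -/
lemma exists_N (F : ℕ → ℕ → ℕ) (n : ℕ) : ∃ N : ℕ → ℕ, (∀ j, 1 ≤ N j) ∧
    ∀ p < n, F p (∏ j ∈ Finset.Ico (p + 1) n, N j) < N p := by
  have key : ∀ d, d ≤ n → ∃ N : ℕ → ℕ, (∀ j, 1 ≤ N j) ∧
      ∀ p < n, n - d ≤ p → F p (∏ j ∈ Finset.Ico (p + 1) n, N j) < N p := by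
    intro d
    induction d with
    | zero =>
      intro _
      exact ⟨fun _ => 1, fun _ => le_rfl, fun p h1 h2 => by omega⟩
    | succ d ih =>
      intro hd
      obtain ⟨N, h1, h2⟩ := ih (by omega)
      set p₀ := n - (d + 1) with hp₀
      refine ⟨Function.update N p₀ (F p₀ (∏ j ∈ Finset.Ico (p₀ + 1) n, N j) + 1), ?_, ?_⟩
      · intro j
        by_cases hj : j = p₀
        · subst hj; simp
        · rw [Function.update_of_ne hj]; exact h1 j
      · intro p hp hp'
        have hprod : ∏ j ∈ Finset.Ico (p + 1) n,
            Function.update N p₀ (F p₀ (∏ j ∈ Finset.Ico (p₀ + 1) n, N j) + 1) j =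
            ∏ j ∈ Finset.Ico (p + 1) n, N j := by
          apply Finset.prod_congr rfl
          intro j hj
          rw [Finset.mem_Ico] at hj
          rw [Function.update_of_ne (by omega)]
        rw [hprod]
        by_cases hpp : p = p₀
        · subst hpp
          rw [Function.update_self]
          exact Nat.lt_succ_self _
        · rw [Function.update_of_ne hpp]
          exact h2 p hp (by omega)
  obtain ⟨N, h1, h2⟩ := key n le_rfl
  exact ⟨N, h1, fun p hp => h2 p hp (by omega)⟩

lemma count_W {α : Type} [DecidableEq α] (a : ℕ → α) (N : ℕ → ℕ) (n : ℕ)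
    (ha : ∀ i j, i < n → j < n → a i = a j → i = j) (q : ℕ) (hq : q < n) :
    ∀ m, m ≤ n → ((m ≤ q → (W a N m).count (a q) = 0) ∧
      (q < m → (W a N m).count (a q) = ∏ j ∈ Finset.Ico q m, N j)) := by
  intro m
  induction m with
  | zero => intro _; exact ⟨fun _ => rfl, fun h => by omega⟩
  | succ m ih =>
    intro hm
    obtain ⟨h1, h2⟩ := ih (by omega)
    have h3 : (W a N (m + 1)).count (a q) = N m * ((W a N m).count (a q) + [a m].count (a q)) := by
      rw [W_succ, count_rep, List.count_append]
    constructor
    · intro hmq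
      have h4 : [a m].count (a q) = 0 := by
        rw [List.count_eq_zero, List.mem_singleton]
        intro h
        have := ha q m hq (by omega) h
        omega
      rw [h3, h1 (by omega), h4]
      ring
    · intro hqm
      rcases Nat.lt_succ_iff_lt_or_eq.1 hqm with h | h
      · have h4 : [a m].count (a q) = 0 := by
          rw [List.count_eq_zero, List.mem_singleton]
          intro h'
          have := ha q m hq (by omega) h'
          omega
        rw [h3, h2 h, h4, add_zero, Finset.prod_Ico_succ_top h.le]
        ring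
      · subst h
        rw [h3, h1 le_rfl]
        simp

/-- If the test language is the inverse image of a linear language then `n` is bounded by a number
that depends only on the grammar of the latter. -/
theorem card_ge_lin {n : ℕ} {Y : Type} [Finite Y] (τ : AGSM (Sym n) Y) (g : ContextFreeGrammar Y)
    (hg : IsLinear g) (h : τ.preimage g.language = TestLang n) {R : ℕ}
    (hR : ∀ r ∈ g.rules, r.output.length ≤ R) :
    n ≤ Nat.card ({A // A ∈ inputs g} × {l : List Y // l.length ≤ R}) := by
  classical
  by_contra hcon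
  push Not at hcon
  have hnpos : 0 < n := by omega
  have H : LinHyp τ g R := linHyp hg h hR
  obtain ⟨Rem, hRem⟩ := H.exists_rem
  obtain ⟨C, hC⟩ := τ.exists_C
  have fin1 : Finite τ.State := τ.finite_state
  have fin2 : Finite {A // A ∈ inputs g} := finite_inputs g
  have fin3 : Finite {l : List Y // l.length ≤ R} := finite_lists R
  -- the letters
  let a : ℕ → Fin n := fun p => if h : p < n then ⟨p, h⟩ else ⟨0, hnpos⟩
  have ha : ∀ q : Fin n, a q.val = q := by
    intro q; simp [a, q.2]
  have hainj : ∀ i j, i < n → j < n → a i = a j → i = j := by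
    intro i j hi hj hij
    simpa [a, hi, hj] using hij
  let Bt : Type := τ.State × (Fin n → {A // A ∈ inputs g} × {l : List Y // l.length ≤ R})
  have finBt : Finite Bt := by
    have : Finite (Fin n → {A // A ∈ inputs g} × {l : List Y // l.length ≤ R}) := inferInstance
    exact inferInstanceAs (Finite (_ × _))
  have ftBt : Fintype Bt := Fintype.ofFinite Bt
  set N' := Rem + 1 with hN'
  obtain ⟨N, hN1, hN2⟩ := exists_N (fun _ c => Fintype.card Bt * (C * (c + N' + 1) + 1) ^ n) n
  let Bd : ℕ → ℕ := fun p => C * ((∏ j ∈ Finset.Ico (p + 1) n, N j) + N' + 1)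
  let κ : ℕ → Type := fun p => Bt × (Fin n → Fin (Bd p + 1))
  set V : List (Fin n) := rep N' (List.finRange n) with hV
  set z : List (Fin n) := [] ++ W a N n ++ V with hz
  set l := (W a N n).length with hl
  have hzl : l ≤ z.length := by rw [hz]; simp [hl]
  have hdrop : z.drop l = V := by rw [hz, List.nil_append, hl, List.drop_left]
  have hVcount : ∀ q, V.count q = N' := by
    intro q
    rw [hV, count_rep, List.count_eq_one_of_mem (List.nodup_finRange n) (List.mem_finRange q),
      mul_one]
  have hD : ∀ q, Nonempty (BData τ g R z q l) := fun q =>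
    H.exists_bdata hRem z q l hzl (by rw [hdrop, hVcount]; omega)
  let D : ∀ q, BData τ g R z q l := fun q => (hD q).some
  -- bound on the tail
  have htail : ∀ p q : Fin n, p < q → (Tl τ z q).length ≤ Bd p.val := by
    intro p q hpq
    have h1 : (Tl τ z q).length ≤ C * (z.count q + 1) := by
      have := τ.output_length hC (Sym.c q :: List.replicate (z.count q) Sym.b) (St τ z z.length)
      simpa [Tl] using this
    have h2 : z.count q ≤ (∏ j ∈ Finset.Ico (p.val + 1) n, N j) + N' := by
      rw [hz, List.nil_append, List.count_append, hVcount]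
      have h3 := ((count_W a N n hainj q.val q.2 n le_rfl).2 q.2)
      rw [ha] at h3
      rw [h3]
      have hpq' : p.val + 1 ≤ q.val := hpq
      have h4 : ∏ j ∈ Finset.Ico q.val n, N j ≤ ∏ j ∈ Finset.Ico (p.val + 1) n, N j := by
        apply Finset.prod_le_prod_of_subset_of_one_le'
        · exact Finset.Ico_subset_Ico_left hpq'
        · intro i _ _; exact hN1 i
      omega
    refine h1.trans ?_
    exact Nat.mul_le_mul_left C (by omega)
  -- coloring
  let col : ∀ p, ℕ → κ p := fun p i => ((St τ z (min i l),
    fun q => (⟨(D q).A (min i l), (D q).mem _ (min_le_right _ _)⟩,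
      ⟨(D q).Z (min i l), (D q).Zle _ (min_le_right _ _)⟩)),
    fun q => ⟨min ((D q).V (min i l)).length (Bd p), by
      have := min_le_right ((D q).V (min i l)).length (Bd p); omega⟩)
  have hcard : ∀ p < n, Fintype.card (κ p) < N p := by
    intro p hp
    have := hN2 p hp
    simpa [κ, Bd] using this
  obtain ⟨i, hi1, hi2, hi3⟩ := nested a N z κ col n hcard n le_rfl [] V hz
  have hil : i ≤ l := by simpa using hi2
  -- pigeonhole on the runs
  have : Fintype ({A // A ∈ inputs g} × {l : List Y // l.length ≤ R}) := Fintype.ofFinite _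
  have hlt : Fintype.card ({A // A ∈ inputs g} × {l : List Y // l.length ≤ R}) <
      Fintype.card (Fin n) := by
    rw [Fintype.card_fin, ← Nat.card_eq_fintype_card]
    exact hcon
  obtain ⟨p₀, q₀, hne, hpq₀⟩ := Fintype.exists_ne_map_eq_of_card_lt
    (fun q : Fin n => ((⟨(D q).A i, (D q).mem i hil⟩, ⟨(D q).Z i, (D q).Zle i hil⟩) :
      {A // A ∈ inputs g} × {l : List Y // l.length ≤ R})) hlt
  have key : ∀ p q : Fin n, p < q → (D p).A i = (D q).A i → (D p).Z i = (D q).Z i → False := by
    intro p q hpq hA hZ
    obtain ⟨e, he1, he2, he3, he4, he5⟩ := hi3 p.val p.2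
    have hel : e ≤ l := by simpa using he2
    have hmi : min i l = i := min_eq_left hil
    have hme : min e l = e := min_eq_left hel
    have c1 := congrArg (fun t => t.1.1) he3
    have c2 := congrArg (fun t => ((t.1.2 q).1.1, (t.1.2 q).2.1)) he3
    have c3 := congrArg (fun t => (t.2 q).1) he3
    simp only [col] at c1 c2 c3
    have c2' := Prod.mk.injEq .. ▸ c2
    have c3' := c3
    rw [hmi, hme] at c1 c2' c3'
    have t1 := ((D q).Vle i hil).trans (htail p q hpq)
    have t2 := ((D q).Vle e hel).trans (htail p q hpq)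
    rw [min_eq_left t1, min_eq_left t2] at c3'
    have hps : p ∈ seg z i e := by
      rw [mem_seg]
      obtain ⟨k, hk1, hk2, hk3⟩ := he4
      exact ⟨k, hk1, hk2, by rw [hk3, ha]⟩
    exact H.separate (D p) (D q) he1.le hel c1.symm c2'.1.symm c2'.2.symm c3'.symm hps hA hZ
  simp only [Prod.mk.injEq, Subtype.mk.injEq] at hpq₀
  rcases lt_or_gt_of_ne hne with h1 | h1
  · exact key p₀ q₀ h1 hpq₀.1 hpq₀.2
  · exact key q₀ p₀ h1 hpq₀.1.symm hpq₀.2.symm

/-- The rules of a grammar for the test language. -/
def testRules (n : ℕ) : Set (ContextFreeRule (Sym n) (Option (Fin n))) :=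
  Set.range (fun p : Fin n => ⟨none, [nonterminal (some p)]⟩) ∪
    (Set.range (fun t : Fin n × Fin n => ⟨some t.1, if t.2 = t.1 then
      [terminal (Sym.a t.1), nonterminal (some t.1), terminal Sym.b] else
      [terminal (Sym.a t.2), nonterminal (some t.1)]⟩) ∪
    Set.range (fun p : Fin n => ⟨some p, [terminal (Sym.c p)]⟩))

lemma testRules_finite (n : ℕ) : (testRules n).Finite :=
  (Set.finite_range _).union ((Set.finite_range _).union (Set.finite_range _))

/-- A linear grammar for the test language. -/
noncomputable def testGrammar (n : ℕ) : ContextFreeGrammar (Sym n) where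
  NT := Option (Fin n)
  initial := none
  rules := (testRules_finite n).toFinset

lemma mem_testGrammar (n : ℕ) (r : ContextFreeRule (Sym n) (Option (Fin n))) :
    r ∈ (testGrammar n).rules ↔ r ∈ testRules n := by
  unfold testGrammar
  exact Set.Finite.mem_toFinset _

lemma testRules_linear {n : ℕ} {r : ContextFreeRule (Sym n) (Option (Fin n))}
    (h : r ∈ testRules n) : (∃ u : List (Sym n), r.output = u.map terminal) ∨
      ∃ (u : List (Sym n)) (B : Option (Fin n)) (v : List (Sym n)),
        r.output = u.map terminal ++ [nonterminal B] ++ v.map terminal := by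
  rcases h with ⟨p, rfl⟩ | ⟨⟨p, i⟩, rfl⟩ | ⟨p, rfl⟩
  · right; exact ⟨[], some p, [], rfl⟩
  · right
    by_cases hi : i = p
    · exact ⟨[Sym.a p], some p, [Sym.b], by simp [hi]⟩
    · exact ⟨[Sym.a i], some p, [], by simp [hi]⟩
  · left; exact ⟨[Sym.c p], rfl⟩

lemma isLinear_testGrammar (n : ℕ) : IsLinear (testGrammar n) := by
  intro r hr
  exact testRules_linear ((mem_testGrammar n r).1 hr)

lemma map_term_inj {n : ℕ} {u v : List (Sym n)}
    (h : u.map (terminal (N := Option (Fin n))) = v.map terminal) : u = v :=
  (List.map_injective_iff.2 (fun _ _ hab => by simpa using hab)) h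

lemma decomp_test {n : ℕ} {A B : Option (Fin n)} {u v x y : List (Sym n)}
    (h : u.map terminal ++ [nonterminal B] ++ v.map terminal =
      x.map terminal ++ [nonterminal A] ++ y.map terminal) : u = x ∧ B = A ∧ v = y := by
  induction u generalizing x with
  | nil =>
    cases x with
    | nil =>
      simp only [List.map_nil, List.nil_append, List.cons_append, List.cons.injEq,
        Symbol.nonterminal.injEq] at h
      exact ⟨rfl, h.1, map_term_inj h.2⟩
    | cons c x => simp at h
  | cons c u ih =>
    cases x with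
    | nil => simp at h
    | cons d x =>
      simp only [List.map_cons, List.cons_append, List.cons.injEq, Symbol.terminal.injEq] at h
      obtain ⟨h1, h2, h3⟩ := ih h.2
      exact ⟨by rw [h.1, h1], h2, h3⟩

lemma testRules_term {n : ℕ} {A : Option (Fin n)} {w : List (Sym n)}
    (h : (⟨A, w.map terminal⟩ : ContextFreeRule (Sym n) (Option (Fin n))) ∈ testRules n) :
    ∃ p : Fin n, A = some p ∧ w = [Sym.c p] := by
  rcases h with ⟨p, hp⟩ | ⟨⟨p, i⟩, hp⟩ | ⟨p, hp⟩
  · exfalso
    have h1 := congrArg ContextFreeRule.output hp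
    simp only at h1
    have : nonterminal (some p) ∈ w.map (terminal (N := Option (Fin n))) := by
      rw [← h1]; simp
    simp at this
  · exfalso
    have h1 := congrArg ContextFreeRule.output hp
    simp only at h1
    have : nonterminal (some p) ∈ w.map (terminal (N := Option (Fin n))) := by
      rw [← h1]; split_ifs <;> simp
    simp at this
  · have h1 := congrArg ContextFreeRule.output hp
    have h2 := congrArg ContextFreeRule.input hp
    simp only at h1 h2
    exact ⟨p, h2.symm, map_term_inj (by rw [← h1]; rfl)⟩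

lemma testRules_step {n : ℕ} {A B : Option (Fin n)} {u v : List (Sym n)}
    (h : (⟨A, u.map terminal ++ [nonterminal B] ++ v.map terminal⟩ :
      ContextFreeRule (Sym n) (Option (Fin n))) ∈ testRules n) :
    (∃ p : Fin n, A = none ∧ B = some p ∧ u = [] ∧ v = []) ∨
    (∃ p : Fin n, A = some p ∧ B = some p ∧ u = [Sym.a p] ∧ v = [Sym.b]) ∨
    (∃ p i : Fin n, i ≠ p ∧ A = some p ∧ B = some p ∧ u = [Sym.a i] ∧ v = []) := by
  rcases h with ⟨p, hp⟩ | ⟨⟨p, i⟩, hp⟩ | ⟨p, hp⟩
  · have h1 := congrArg ContextFreeRule.output hp
    have h2 := congrArg ContextFreeRule.input hp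
    simp only at h1 h2
    obtain ⟨h3, h4, h5⟩ := decomp_test (u := u) (v := v) (B := B) (A := some p) (x := []) (y := [])
      h1.symm
    exact Or.inl ⟨p, h2.symm, h4, h3, h5⟩
  · have h1 := congrArg ContextFreeRule.output hp
    have h2 := congrArg ContextFreeRule.input hp
    simp only at h1 h2
    by_cases hi : i = p
    · rw [if_pos hi] at h1
      obtain ⟨h3, h4, h5⟩ := decomp_test (u := u) (v := v) (B := B) (A := some p) (x := [Sym.a p])
        (y := [Sym.b]) h1.symm
      exact Or.inr (Or.inl ⟨p, h2.symm, h4, h3, h5⟩)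
    · rw [if_neg hi] at h1
      obtain ⟨h3, h4, h5⟩ := decomp_test (u := u) (v := v) (B := B) (A := some p) (x := [Sym.a i])
        (y := []) h1.symm
      exact Or.inr (Or.inr ⟨p, i, hi, h2.symm, h4, h3, h5⟩)
  · exfalso
    have h1 := congrArg ContextFreeRule.output hp
    simp only at h1
    have : nonterminal B ∈ [terminal (N := Option (Fin n)) (Sym.c p)] := by
      rw [h1]; simp
    simp at this

lemma testRules_init {n : ℕ} (p : Fin n) :
    (⟨none, ([] : List (Sym n)).map terminal ++ [nonterminal (some p)] ++
      ([] : List (Sym n)).map terminal⟩ :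
      ContextFreeRule (Sym n) (Option (Fin n))) ∈ testRules n :=
  Or.inl ⟨p, rfl⟩

lemma testRules_same {n : ℕ} (p : Fin n) :
    (⟨some p, ([Sym.a p] : List (Sym n)).map terminal ++ [nonterminal (some p)] ++
      ([Sym.b] : List (Sym n)).map terminal⟩ :
      ContextFreeRule (Sym n) (Option (Fin n))) ∈ testRules n :=
  Or.inr (Or.inl ⟨(p, p), by simp⟩)

lemma testRules_diff {n : ℕ} (p i : Fin n) (hi : i ≠ p) :
    (⟨some p, ([Sym.a i] : List (Sym n)).map terminal ++ [nonterminal (some p)] ++
      ([] : List (Sym n)).map terminal⟩ :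
      ContextFreeRule (Sym n) (Option (Fin n))) ∈ testRules n :=
  Or.inr (Or.inl ⟨(p, i), by simp [hi]⟩)

lemma testRules_end {n : ℕ} (p : Fin n) :
    (⟨some p, ([Sym.c p] : List (Sym n)).map terminal⟩ :
      ContextFreeRule (Sym n) (Option (Fin n))) ∈ testRules n :=
  Or.inr (Or.inr ⟨p, rfl⟩)

lemma enc_append_b {n : ℕ} (w : List (Fin n)) (p : Fin n) (m : ℕ) :
    enc w p m ++ [Sym.b] = enc w p (m + 1) := by
  unfold enc
  rw [List.append_assoc, List.cons_append, ← List.replicate_succ']

lemma gen_test {n : ℕ} {A : (testGrammar n).NT} {u : List (Sym n)} (h : Gen (testGrammar n) A u) :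
    (∀ p : Fin n, A = some p → ∃ w : List (Fin n), u = enc w p (w.count p)) ∧
      (A = none → u ∈ TestLang n) := by
  induction h with
  | term A w h =>
    obtain ⟨p, rfl, rfl⟩ := testRules_term ((mem_testGrammar n _).1 h)
    refine ⟨fun p' hp' => ?_, fun h4 => by cases h4⟩
    obtain rfl : p = p' := Option.some.inj hp'
    exact ⟨[], by simp [enc]⟩
  | step A B u v w h hB ih =>
    rcases testRules_step ((mem_testGrammar n _).1 h) with
      ⟨p, rfl, rfl, rfl, rfl⟩ | ⟨p, rfl, rfl, rfl, rfl⟩ | ⟨p, i, hi, rfl, rfl, rfl, rfl⟩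
    · obtain ⟨w', hw'⟩ := ih.1 p rfl
      refine ⟨fun p' hp' => (by cases hp'), fun _ => ?_⟩
      exact ⟨w', p, by simpa using hw'⟩
    · obtain ⟨w', hw'⟩ := ih.1 p rfl
      refine ⟨fun p' hp' => ?_, fun h4 => by cases h4⟩
      obtain rfl : p = p' := Option.some.inj hp'
      refine ⟨p :: w', ?_⟩
      rw [hw', List.append_assoc, enc_append_b, List.count_cons_self]
      simp [enc]
    · obtain ⟨w', hw'⟩ := ih.1 p rfl
      refine ⟨fun p' hp' => ?_, fun h4 => by cases h4⟩
      obtain rfl : p = p' := Option.some.inj hp'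
      refine ⟨i :: w', ?_⟩
      rw [hw', List.append_nil, List.count_cons_of_ne hi]
      simp [enc]

lemma testGrammar_language (n : ℕ) : (testGrammar n).language = TestLang n := by
  ext u
  rw [mem_language_iff_gen (isLinear_testGrammar n)]
  constructor
  · intro h
    exact (gen_test h).2 rfl
  · rintro ⟨w, p, rfl⟩
    have key : ∀ w : List (Fin n), Gen (testGrammar n) (some p) (enc w p (w.count p)) := by
      intro w
      induction w with
      | nil =>
        have : Gen (testGrammar n) (some p) [Sym.c p] :=
          .term (g := testGrammar n) (some p) [Sym.c p] ((mem_testGrammar n _).2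
            (testRules_end p))
        simpa [enc] using this
      | cons i w ih =>
        by_cases hi : i = p
        · subst hi
          have h1 : Gen (testGrammar n) (some i) ([Sym.a i] ++ enc w i (w.count i) ++ [Sym.b]) :=
            .step (g := testGrammar n) (some i) (some i) [Sym.a i] [Sym.b] _
              ((mem_testGrammar n _).2 (testRules_same i)) ih
          rw [List.append_assoc, enc_append_b] at h1
          rw [List.count_cons_self]
          simpa [enc] using h1
        · have h1 : Gen (testGrammar n) (some p) ([Sym.a i] ++ enc w p (w.count p) ++ []) :=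
            .step (g := testGrammar n) (some p) (some p) [Sym.a i] [] _
              ((mem_testGrammar n _).2 (testRules_diff p i hi)) ih
          rw [List.append_nil] at h1
          rw [List.count_cons_of_ne hi]
          simpa [enc] using h1
    have h1 : Gen (testGrammar n) none ([] ++ enc w p (w.count p) ++ []) :=
      .step (g := testGrammar n) none (some p) [] [] _
        ((mem_testGrammar n _).2 (testRules_init p)) (key w)
    rw [List.nil_append, List.append_nil] at h1
    exact h1

lemma testLang_mem_lin (n : ℕ) : Lin (Sym n) (TestLang n) :=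
  ⟨inferInstance, testGrammar n, isLinear_testGrammar n, testGrammar_language n⟩

/-- The family of linear languages is not G-principal. -/
theorem not_GPrincipal_Lin : ¬ GPrincipal Lin := by
  rintro ⟨Y, L, ⟨hY, g, hg, rfl⟩, hL⟩
  obtain ⟨R, hR⟩ := exists_R g
  obtain ⟨τ, hτ⟩ := ((hL _ _).1 (testLang_mem_lin
    (Nat.card ({A // A ∈ inputs g} × {l : List Y // l.length ≤ R}) + 1))).exists_gsm
  have := card_ge_lin τ g hg hτ.symm hR
  omega

end Pool.Agent.Helper60.GPrin
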