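import Pool.Agent.Helper60.GPrinCommon

/-!
# Derivations in linear grammars
-/

namespace Pool.Agent.Helper60.GPrin

open Symbol

variable {Y : Type} (g : ContextFreeGrammar Y)

/-- Words generated by a nonterminal of a linear grammar. -/
inductive Gen : g.NT → List Y → Prop
  | term (A : g.NT) (w : List Y) (h : (⟨A, w.map terminal⟩ : ContextFreeRule Y g.NT) ∈ g.rules) :
      Gen A w
  | step (A B : g.NT) (u v w : List Y)
      (h : (⟨A, u.map terminal ++ [nonterminal B] ++ v.map terminal⟩ : ContextFreeRule Y g.NT) ∈
        g.rules) (hB : Gen B w) : Gen A (u ++ w ++ v)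

variable {g}

lemma derives_of_gen {A : g.NT} {w : List Y} (h : Gen g A w) :
    g.Derives [nonterminal A] (w.map terminal) := by
  induction h with
  | term A w h =>
    refine Relation.ReflTransGen.single ⟨_, h, ?_⟩
    have := ContextFreeRule.Rewrites.input_output
      (r := (⟨A, w.map terminal⟩ : ContextFreeRule Y g.NT))
    exact this
  | step A B u v w h hB ih =>
    refine Relation.ReflTransGen.head ⟨_, h, ContextFreeRule.Rewrites.input_output⟩ ?_
    have := (ih.append_left (u.map terminal)).append_right (v.map terminal)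
    simpa [List.map_append, List.append_assoc] using this

lemma decomp_unique {x y : List Y} {A B : g.NT} {p q : List (Symbol Y g.NT)}
    (h : p ++ [nonterminal B] ++ q = x.map terminal ++ [nonterminal A] ++ y.map terminal) :
    p = x.map terminal ∧ B = A ∧ q = y.map terminal := by
  induction x generalizing p with
  | nil =>
    cases p with
    | nil =>
      simp only [List.nil_append, List.map_nil, List.cons_append, List.cons.injEq,
        nonterminal.injEq] at h
      exact ⟨rfl, h.1, h.2⟩
    | cons s p =>
      simp only [List.cons_append, List.map_nil, List.nil_append, List.cons.injEq] at h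
      exfalso
      have : nonterminal B ∈ y.map (terminal (N := g.NT)) := by
        rw [← h.2]; simp
      simp at this
  | cons a x ih =>
    cases p with
    | nil => simp at h
    | cons s p =>
      simp only [List.cons_append, List.map_cons, List.cons.injEq] at h
      obtain ⟨h1, h2, h3⟩ := ih (by simpa using h.2)
      exact ⟨by rw [h.1, h1]; rfl, h2, h3⟩

lemma derives_terminal {z W : List Y} (h : g.Derives (z.map terminal) (W.map terminal)) :
    z = W := by
  rcases Relation.ReflTransGen.cases_head h with h | ⟨s, ⟨r, _, hr⟩, _⟩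
  · exact (List.map_injective_iff.2 (fun a b hab => by simpa using hab)) h
  · exfalso
    have := hr.nonterminal_input_mem
    simp at this

lemma gen_of_derives (hg : IsLinear g) {W : List Y} {s : List (Symbol Y g.NT)}
    (h : g.Derives s (W.map terminal)) : ∀ (x y : List Y) (A : g.NT),
    s = x.map terminal ++ [nonterminal A] ++ y.map terminal →
    ∃ w, W = x ++ w ++ y ∧ Gen g A w := by
  induction h using Relation.ReflTransGen.head_induction_on with
  | refl =>
    intro x y A hs
    exfalso
    have : nonterminal A ∈ W.map (terminal (N := g.NT)) := by rw [hs]; simp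
    simp at this
  | @head s s₂ st r ih =>
    intro x y A hs
    obtain ⟨rule, hrule, hrw⟩ := st
    obtain ⟨p, q, h1, h2⟩ := hrw.exists_parts
    rw [hs] at h1
    obtain ⟨rfl, h3, rfl⟩ := decomp_unique h1.symm
    rcases hg rule hrule with ⟨u, hu⟩ | ⟨u, B, v, hu⟩
    · rw [hu] at h2
      have h4 : s₂ = (x ++ u ++ y).map terminal := by rw [h2]; simp
      rw [h4] at r
      have h5 := derives_terminal r
      refine ⟨u, h5.symm, .term A u ?_⟩
      rw [← h3, ← hu]
      exact hrule
    · rw [hu] at h2
      obtain ⟨w, hw, hgen⟩ := ih (x ++ u) (v ++ y) B (by rw [h2]; simp)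
      refine ⟨u ++ w ++ v, by rw [hw]; simp [List.append_assoc], .step A B u v w ?_ hgen⟩
      rw [← h3, ← hu]
      exact hrule

lemma mem_language_iff_gen (hg : IsLinear g) (W : List Y) : W ∈ g.language ↔ Gen g g.initial W := by
  constructor
  · intro h
    obtain ⟨w, hw, hgen⟩ := gen_of_derives hg h [] [] g.initial (by simp)
    simp only [List.nil_append, List.append_nil] at hw
    rw [hw]; exact hgen
  · intro h
    exact derives_of_gen h

/-- Contexts: `A` derives `x B y`. -/
def Ctx (A : g.NT) (x : List Y) (B : g.NT) (y : List Y) : Prop :=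
  ∀ r, Gen g B r → Gen g A (x ++ r ++ y)

lemma Ctx.refl (A : g.NT) : Ctx A [] A [] := fun r h => by simpa using h

lemma Ctx.trans {A B C : g.NT} {x y x' y' : List Y} (h : Ctx A x B y) (h' : Ctx B x' C y') :
    Ctx A (x ++ x') C (y' ++ y) := fun r hr => by
  have := h _ (h' r hr)
  simpa [List.append_assoc] using this

/-- A bound for the lengths of the right-hand sides. -/
lemma exists_R (g : ContextFreeGrammar Y) : ∃ R : ℕ, ∀ r ∈ g.rules, r.output.length ≤ R := by
  obtain ⟨R, hR⟩ := ((Finset.finite_toSet g.rules).image (fun r => r.output.length)).bddAbove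
  exact ⟨R, fun r hr => hR ⟨r, hr, rfl⟩⟩

/-- The nonterminals that are inputs of rules. -/
def inputs (g : ContextFreeGrammar Y) : Set g.NT := {A | ∃ r ∈ g.rules, r.input = A}

lemma finite_inputs (g : ContextFreeGrammar Y) : (inputs g).Finite := by
  refine ((Finset.finite_toSet g.rules).image (fun r => r.input)).subset ?_
  rintro A ⟨r, hr, rfl⟩
  exact ⟨r, hr, rfl⟩

/-- A derivation presented step by step. -/
structure Deriv (g : ContextFreeGrammar Y) (R : ℕ) (A : g.NT) (W : List Y) where
  m : ℕ
  N : ℕ → g.NT
  x : ℕ → List Y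
  y : ℕ → List Y
  r : ℕ → List Y
  N0 : N 0 = A
  x0 : x 0 = []
  y0 : y 0 = []
  split : ∀ t ≤ m, x t ++ r t ++ y t = W
  gen : ∀ t ≤ m, Gen g (N t) (r t)
  step : ∀ t < m, ∃ u v, x (t + 1) = x t ++ u ∧ y (t + 1) = v ++ y t ∧ u.length ≤ R ∧
    v.length ≤ R ∧ Ctx (N t) u (N (t + 1)) v
  last : (r m).length ≤ R
  mem : ∀ t ≤ m, N t ∈ inputs g

lemma exists_deriv {R : ℕ} (hR : ∀ r ∈ g.rules, r.output.length ≤ R) {A : g.NT} {W : List Y}
    (h : Gen g A W) : Nonempty (Deriv g R A W) := by
  induction h with
  | term A w h =>
    refine ⟨⟨0, fun _ => A, fun _ => [], fun _ => [], fun _ => w, rfl, rfl, rfl, ?_, ?_, ?_, ?_, ?_⟩⟩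
    · intro t _; simp
    · intro t _; exact .term A w h
    · intro t ht; omega
    · have := hR _ h
      simpa using this
    · intro t _; exact ⟨_, h, rfl⟩
  | step A B u v w h hB ih =>
    obtain ⟨D⟩ := ih
    have hlen := hR _ h
    simp only [List.length_append, List.length_map, List.length_cons, List.length_nil] at hlen
    refine ⟨⟨D.m + 1, fun t => if t = 0 then A else D.N (t - 1),
      fun t => if t = 0 then [] else u ++ D.x (t - 1),
      fun t => if t = 0 then [] else D.y (t - 1) ++ v,
      fun t => if t = 0 then u ++ w ++ v else D.r (t - 1), rfl, rfl, rfl, ?_, ?_, ?_, ?_, ?_⟩⟩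
    · intro t ht
      cases t with
      | zero => simp
      | succ t =>
        simp only [Nat.add_eq_zero_iff, one_ne_zero, and_false, if_false, Nat.add_sub_cancel]
        have := D.split t (by omega)
        calc u ++ D.x t ++ D.r t ++ (D.y t ++ v) = u ++ (D.x t ++ D.r t ++ D.y t) ++ v := by
              simp [List.append_assoc]
          _ = u ++ w ++ v := by rw [this]
    · intro t ht
      cases t with
      | zero => exact .step A B u v w h hB
      | succ t =>
        simp only [Nat.add_eq_zero_iff, one_ne_zero, and_false, if_false, Nat.add_sub_cancel]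
        exact D.gen t (by omega)
    · intro t ht
      cases t with
      | zero =>
        refine ⟨u, v, ?_, ?_, by omega, by omega, ?_⟩
        · simp [D.x0]
        · simp [D.y0]
        · simp only [zero_add, one_ne_zero, if_false, if_true, Nat.sub_self]
          rw [D.N0]
          intro r hr
          exact .step A B u v r h hr
      | succ t =>
        obtain ⟨u', v', h1, h2, h3, h4, h5⟩ := D.step t (by omega)
        refine ⟨u', v', ?_, ?_, h3, h4, ?_⟩
        · simp only [Nat.add_eq_zero_iff, one_ne_zero, and_false, if_false, Nat.add_sub_cancel]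
          rw [h1, List.append_assoc]
        · simp only [Nat.add_eq_zero_iff, one_ne_zero, and_false, if_false, Nat.add_sub_cancel]
          rw [h2, List.append_assoc]
        · simp only [Nat.add_eq_zero_iff, one_ne_zero, and_false, if_false, Nat.add_sub_cancel]
          exact h5
    · simp only [Nat.add_eq_zero_iff, one_ne_zero, and_false, if_false, Nat.add_sub_cancel]
      exact D.last
    · intro t ht
      cases t with
      | zero => exact ⟨_, h, rfl⟩
      | succ t =>
        simp only [Nat.add_eq_zero_iff, one_ne_zero, and_false, if_false, Nat.add_sub_cancel]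
        exact D.mem t (by omega)

lemma Deriv.ctx {R : ℕ} {A : g.NT} {W : List Y} (D : Deriv g R A W) {s t : ℕ} (hst : s ≤ t)
    (ht : t ≤ D.m) : ∃ u v, D.x t = D.x s ++ u ∧ D.y t = v ++ D.y s ∧ Ctx (D.N s) u (D.N t) v := by
  induction t, hst using Nat.le_induction with
  | base => exact ⟨[], [], by simp, by simp, Ctx.refl _⟩
  | succ t hst ih =>
    obtain ⟨u, v, h1, h2, h3⟩ := ih (by omega)
    obtain ⟨u', v', h4, h5, _, _, h6⟩ := D.step t (by omega)
    exact ⟨u ++ u', v' ++ v, by rw [h4, h1, List.append_assoc], by rw [h5, h2, List.append_assoc],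
      h3.trans h6⟩

lemma Deriv.ctx0 {R : ℕ} {A : g.NT} {W : List Y} (D : Deriv g R A W) {t : ℕ} (ht : t ≤ D.m) :
    Ctx A (D.x t) (D.N t) (D.y t) := by
  obtain ⟨u, v, h1, h2, h3⟩ := D.ctx (Nat.zero_le t) ht
  rw [D.x0, List.nil_append] at h1
  rw [D.y0, List.append_nil] at h2
  rw [D.N0] at h3
  rw [h1, h2]
  exact h3

end Pool.Agent.Helper60.GPrin
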