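import Pool.Agent.Helper60.GPrinLinGram

/-!
# Linear languages and the test language
-/

namespace Pool.Agent.Helper60.GPrin

section

variable {n : ℕ} {Y : Type} (τ : AGSM (Sym n) Y)

/-- The output on the first `i` letters of `z`. -/
def Pr (z : List (Fin n)) (i : ℕ) : List Y := τ.output τ.start ((z.take i).map Sym.a)

/-- The state after the first `i` letters of `z`. -/
def St (z : List (Fin n)) (i : ℕ) : τ.State := τ.run τ.start ((z.take i).map Sym.a)

/-- The output on `c_q b^{|z|_q}` after `z`. -/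
def Tl (z : List (Fin n)) (q : Fin n) : List Y :=
  τ.output (St τ z z.length) (Sym.c q :: List.replicate (z.count q) Sym.b)

/-- The output on the test word. -/
def Tx (z : List (Fin n)) (q : Fin n) : List Y := τ.output τ.start (enc z q (z.count q))

lemma Tx_eq (z : List (Fin n)) (q : Fin n) (i : ℕ) :
    Tx τ z q = Pr τ z i ++ (τ.output (St τ z i) ((z.drop i).map Sym.a) ++ Tl τ z q) := by
  unfold Tx Pr Tl St enc
  conv_lhs => rw [← List.take_append_drop i z]
  rw [List.take_length]
  have h1 : τ.run τ.start (z.map Sym.a) =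
      τ.run (τ.run τ.start ((z.take i).map Sym.a)) ((z.drop i).map Sym.a) := by
    rw [← AGSM.run_append, ← List.map_append, List.take_append_drop]
  rw [h1, List.map_append, List.append_assoc, AGSM.output_append, AGSM.output_append,
    List.take_append_drop]

lemma Pr_succ (z : List (Fin n)) {i : ℕ} (hi : i < z.length) :
    Pr τ z (i + 1) = Pr τ z i ++ τ.out (St τ z i) (Sym.a z[i]) := by
  unfold Pr St
  rw [List.take_succ_eq_append_getElem hi, List.map_append, AGSM.output_append]
  simp [AGSM.output]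

lemma Pr_seg (z : List (Fin n)) {i j : ℕ} (hij : i ≤ j) :
    Pr τ z j = Pr τ z i ++ τ.output (St τ z i) ((seg z i j).map Sym.a) := by
  unfold Pr St
  rw [← AGSM.output_append, ← List.map_append, take_append_seg z hij]

lemma St_seg (z : List (Fin n)) {i j : ℕ} (hij : i ≤ j) :
    St τ z j = τ.run (St τ z i) ((seg z i j).map Sym.a) := by
  unfold St
  rw [← AGSM.run_append, ← List.map_append, take_append_seg z hij]

lemma Tx_full (z : List (Fin n)) (q : Fin n) : Tx τ z q = Pr τ z z.length ++ Tl τ z q := by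
  rw [Tx_eq τ z q z.length]
  simp [AGSM.output]

lemma Pr_length_mono (z : List (Fin n)) {i j : ℕ} (hij : i ≤ j) :
    (Pr τ z i).length ≤ (Pr τ z j).length := by
  rw [Pr_seg τ z hij]; simp

lemma Pr_prefix (z : List (Fin n)) (q : Fin n) (i : ℕ) : Pr τ z i <+: Tx τ z q := by
  rw [Tx_eq τ z q i]; exact List.prefix_append _ _

variable {τ} {g : ContextFreeGrammar Y}

/-- The hypotheses. -/
structure LinHyp (τ : AGSM (Sym n) Y) (g : ContextFreeGrammar Y) (R : ℕ) : Prop where
  hR : ∀ r ∈ g.rules, r.output.length ≤ R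
  run : ∀ (z : List (Fin n)) (q : Fin n), τ.run τ.start (enc z q (z.count q)) ∈ τ.accept
  gen : ∀ (z : List (Fin n)) (q : Fin n), Gen g g.initial (Tx τ z q)
  count : ∀ (z : List (Fin n)) (q : Fin n) (m : ℕ), τ.run τ.start (enc z q m) ∈ τ.accept →
    Gen g g.initial (τ.output τ.start (enc z q m)) → m = z.count q

lemma linHyp (hg : IsLinear g) (h : τ.preimage g.language = TestLang n) {R : ℕ}
    (hR : ∀ r ∈ g.rules, r.output.length ≤ R) : LinHyp τ g R := by
  have key : ∀ z q m, enc z q m ∈ τ.preimage g.language ↔ m = z.count q := by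
    intro z q m; rw [h, enc_mem_iff]
  refine ⟨hR, fun z q => ((key z q _).2 rfl).1, fun z q => ?_, fun z q m h1 h2 => ?_⟩
  · exact (mem_language_iff_gen hg _).1 ((key z q _).2 rfl).2
  · exact (key z q m).1 ⟨h1, (mem_language_iff_gen hg _).2 h2⟩

variable {R : ℕ}

/-- Replacing the rest of the word. -/
lemma LinHyp.swap (A : LinHyp τ g R) {z₁ z₂ : List (Fin n)} {q : Fin n} {i₁ i₂ : ℕ}
    (hs : St τ z₁ i₁ = St τ z₂ i₂) (hf : St τ z₁ z₁.length = St τ z₂ z₂.length)
    (hgen : Gen g g.initial (Pr τ z₁ i₁ ++ (τ.output (St τ z₂ i₂) ((z₂.drop i₂).map Sym.a) ++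
      Tl τ z₁ q))) : (z₂.drop i₂).count q = (z₁.drop i₁).count q := by
  have hrun : τ.run (St τ z₁ i₁) ((z₂.drop i₂).map Sym.a) = St τ z₁ z₁.length := by
    rw [hs, hf, St, St, ← AGSM.run_append, ← List.map_append, List.take_append_drop,
      List.take_length]
  have hout : τ.output τ.start (enc (z₁.take i₁ ++ z₂.drop i₂) q (z₁.count q)) =
      Pr τ z₁ i₁ ++ (τ.output (St τ z₂ i₂) ((z₂.drop i₂).map Sym.a) ++ Tl τ z₁ q) := by
    unfold enc
    rw [List.map_append, List.append_assoc, AGSM.output_append, AGSM.output_append]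
    change Pr τ z₁ i₁ ++ (τ.output (St τ z₁ i₁) _ ++ τ.output (τ.run (St τ z₁ i₁) _) _) = _
    rw [hrun, hs]
    rfl
  have hacc : τ.run τ.start (enc (z₁.take i₁ ++ z₂.drop i₂) q (z₁.count q)) ∈ τ.accept := by
    have h1 := A.run z₁ q
    have h2 : τ.run τ.start (enc z₁ q (z₁.count q)) =
        τ.run (St τ z₁ z₁.length) (Sym.c q :: List.replicate (z₁.count q) Sym.b) := by
      unfold enc
      rw [AGSM.run_append, St, List.take_length]
    have h3 : τ.run τ.start (enc (z₁.take i₁ ++ z₂.drop i₂) q (z₁.count q)) =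
        τ.run (St τ z₁ z₁.length) (Sym.c q :: List.replicate (z₁.count q) Sym.b) := by
      unfold enc
      rw [List.map_append, List.append_assoc, AGSM.run_append, AGSM.run_append]
      change τ.run (τ.run (St τ z₁ i₁) _) _ = _
      rw [hrun]
    rw [h3, ← h2]; exact h1
  have h4 := A.count _ q _ hacc (by rw [hout]; exact hgen)
  rw [List.count_append] at h4
  have h5 : z₁.count q = (z₁.take i₁).count q + (z₁.drop i₁).count q := by
    rw [← List.count_append, List.take_append_drop]
  omega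

/-- Instances of a class. -/
def Inst (τ : AGSM (Sym n) Y) (g : ContextFreeGrammar Y) (R : ℕ)
    (c : Fin n × g.NT × List Y × List Y × τ.State × τ.State) (k : ℕ) : Prop :=
  ∃ (z : List (Fin n)) (D : Deriv g R g.initial (Tx τ z c.1)) (t i : ℕ), t ≤ D.m ∧ D.N t = c.2.1 ∧
    Tl τ z c.1 = c.2.2.1 ++ D.y t ∧ D.x t = Pr τ z i ++ c.2.2.2.1 ∧ St τ z i = c.2.2.2.2.1 ∧
    St τ z z.length = c.2.2.2.2.2 ∧ k = (z.drop i).count c.1

lemma LinHyp.inst_unique (A : LinHyp τ g R)
    {c : Fin n × g.NT × List Y × List Y × τ.State × τ.State} {k k' : ℕ}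
    (h : Inst τ g R c k) (h' : Inst τ g R c k') : k = k' := by
  obtain ⟨z₁, D₁, t₁, i₁, ht₁, hN₁, hy₁, hx₁, hs₁, hf₁, hk₁⟩ := h
  obtain ⟨z₂, D₂, t₂, i₂, ht₂, hN₂, hy₂, hx₂, hs₂, hf₂, hk₂⟩ := h'
  rw [hk₁, hk₂]
  symm
  apply A.swap (hs₁.trans hs₂.symm) (hf₁.trans hf₂.symm)
  have h1 := D₂.gen t₂ ht₂
  rw [hN₂, ← hN₁] at h1
  have h2 := D₁.ctx0 ht₁ _ h1
  have h3 := (D₂.split t₂ ht₂).trans (Tx_eq τ z₂ c.1 i₂)
  rw [hx₂, hy₂] at h3
  have h4 : c.2.2.2.1 ++ D₂.r t₂ = τ.output (St τ z₂ i₂) ((z₂.drop i₂).map Sym.a) ++ c.2.2.1 := by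
    have h5 : Pr τ z₂ i₂ ++ ((c.2.2.2.1 ++ D₂.r t₂) ++ D₂.y t₂) = Pr τ z₂ i₂ ++
        ((τ.output (St τ z₂ i₂) ((z₂.drop i₂).map Sym.a) ++ c.2.2.1) ++ D₂.y t₂) := by
      simpa [List.append_assoc] using h3
    exact List.append_cancel_right (List.append_cancel_left h5)
  rw [hx₁] at h2
  have h6 : Pr τ z₁ i₁ ++ c.2.2.2.1 ++ D₂.r t₂ ++ D₁.y t₁ = Pr τ z₁ i₁ ++
      (τ.output (St τ z₂ i₂) ((z₂.drop i₂).map Sym.a) ++ Tl τ z₁ c.1) := by
    rw [hy₁, List.append_assoc (Pr τ z₁ i₁), h4]
    simp [List.append_assoc]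
  rw [h6] at h2
  exact h2

/-- Lists of bounded length over a finite type form a finite set. -/
lemma finite_lists [Finite Y] (R : ℕ) : {l : List Y | l.length ≤ R}.Finite :=
  List.finite_length_le Y R

/-- The bound on the number of letters that remain when the right head passes the middle marker. -/
lemma LinHyp.exists_rem [Finite Y] (A : LinHyp τ g R) : ∃ Rem : ℕ, ∀ (z : List (Fin n)) (q : Fin n)
    (D : Deriv g R g.initial (Tx τ z q)) (t i : ℕ) (z' z'' : List Y), t ≤ D.m →
    Tl τ z q = z' ++ D.y t → z'.length ≤ R → D.x t = Pr τ z i ++ z'' →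
    (∃ (s : τ.State) (x : Sym n), z'' <+: τ.out s x) → (z.drop i).count q ≤ Rem := by
  classical
  have := τ.finite_state
  let Pre : Set (List Y) := {v | ∃ (s : τ.State) (x : Sym n), v <+: τ.out s x}
  have hPre : Pre.Finite := by
    have : Pre = ⋃ (p : τ.State × Sym n), {v | v ∈ (τ.out p.1 p.2).inits} := by
      ext v
      simp [Pre, List.mem_inits]
    rw [this]
    apply Set.finite_iUnion
    intro p
    exact List.finite_toSet _
  let Cl : Set (Fin n × g.NT × List Y × List Y × τ.State × τ.State) :=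
    Set.univ ×ˢ (inputs g ×ˢ ({l | l.length ≤ R} ×ˢ (Pre ×ˢ (Set.univ ×ˢ Set.univ))))
  have hCl : Cl.Finite := Set.finite_univ.prod ((finite_inputs g).prod ((finite_lists R).prod
    (hPre.prod (Set.finite_univ.prod Set.finite_univ))))
  have hfin : (⋃ c ∈ Cl, {k | Inst τ g R c k}).Finite := by
    apply Set.Finite.biUnion hCl
    intro c _
    apply Set.Subsingleton.finite
    intro k hk k' hk'
    exact A.inst_unique hk hk'
  obtain ⟨Rem, hRem⟩ := hfin.bddAbove
  refine ⟨Rem, fun z q D t i z' z'' ht h1 h2 h3 h4 => ?_⟩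
  apply hRem
  simp only [Set.mem_iUnion]
  refine ⟨(q, D.N t, z', z'', St τ z i, St τ z z.length), ?_, ?_⟩
  · exact ⟨trivial, D.mem t ht, h2, h4, trivial, trivial⟩
  · exact ⟨z, D, t, i, ht, rfl, h1, h3, rfl, rfl, rfl⟩

lemma Deriv.x_mono {A : g.NT} {W : List Y} (D : Deriv g R A W) {s t : ℕ} (hst : s ≤ t)
    (ht : t ≤ D.m) : (D.x s).length ≤ (D.x t).length := by
  obtain ⟨u, v, h1, _, _⟩ := D.ctx hst ht
  rw [h1]; simp

lemma Deriv.y_mono {A : g.NT} {W : List Y} (D : Deriv g R A W) {s t : ℕ} (hst : s ≤ t)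
    (ht : t ≤ D.m) : (D.y s).length ≤ (D.y t).length := by
  obtain ⟨u, v, _, h1, _⟩ := D.ctx hst ht
  rw [h1]; simp

lemma Deriv.x_prefix {A : g.NT} {W : List Y} (D : Deriv g R A W) {t : ℕ} (ht : t ≤ D.m) :
    D.x t <+: W := by
  have := D.split t ht
  exact ⟨D.r t ++ D.y t, by rw [← List.append_assoc]; exact this⟩

lemma Deriv.y_suffix {A : g.NT} {W : List Y} (D : Deriv g R A W) {t : ℕ} (ht : t ≤ D.m) :
    D.y t <:+ W := by
  have := D.split t ht
  exact ⟨D.x t ++ D.r t, this⟩

/-- Data of a derivation at the boundaries `i ≤ l`. -/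
structure BData (τ : AGSM (Sym n) Y) (g : ContextFreeGrammar Y) (R : ℕ) (z : List (Fin n))
    (q : Fin n) (l : ℕ) where
  A : ℕ → g.NT
  Z : ℕ → List Y
  X : ℕ → List Y
  V : ℕ → List Y
  r : ℕ → List Y
  gen : ∀ i ≤ l, Gen g (A i) (r i)
  ctx : ∀ i ≤ l, Ctx g.initial (X i) (A i) (V i)
  split : ∀ i ≤ l, X i ++ r i ++ V i = Tx τ z q
  pr : ∀ i ≤ l, Pr τ z i = X i ++ Z i
  Zle : ∀ i ≤ l, (Z i).length ≤ R
  Vle : ∀ i ≤ l, (V i).length ≤ (Tl τ z q).length
  mem : ∀ i ≤ l, A i ∈ inputs g
  step : ∀ i j, i ≤ j → j ≤ l → ∃ u v, Ctx (A i) u (A j) v ∧ X j = X i ++ u ∧ V j = v ++ V i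

lemma LinHyp.exists_bdata (H : LinHyp τ g R) {Rem : ℕ}
    (hRem : ∀ (z : List (Fin n)) (q : Fin n)
      (D : Deriv g R g.initial (Tx τ z q)) (t i : ℕ) (z' z'' : List Y), t ≤ D.m →
      Tl τ z q = z' ++ D.y t → z'.length ≤ R → D.x t = Pr τ z i ++ z'' →
      (∃ (s : τ.State) (x : Sym n), z'' <+: τ.out s x) → (z.drop i).count q ≤ Rem)
    (z : List (Fin n)) (q : Fin n) (l : ℕ) (hl : l ≤ z.length) (hq : Rem < (z.drop l).count q) :
    Nonempty (BData τ g R z q l) := by
  classical
  obtain ⟨D⟩ := exists_deriv H.hR (H.gen z q)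
  set te := Nat.findGreatest (fun t => (D.y t).length ≤ (Tl τ z q).length) D.m with hte
  have hte_le : te ≤ D.m := Nat.findGreatest_le _
  have hte_spec : (D.y te).length ≤ (Tl τ z q).length :=
    Nat.findGreatest_spec (P := fun t => (D.y t).length ≤ (Tl τ z q).length) (m := 0)
      (Nat.zero_le _) (by rw [D.y0]; simp)
  have hte_gr : ∀ t, te < t → t ≤ D.m → ¬ (D.y t).length ≤ (Tl τ z q).length := fun t h1 h2 =>
    Nat.findGreatest_is_greatest (P := fun t => (D.y t).length ≤ (Tl τ z q).length) h1 h2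
  let ti : ℕ → ℕ := fun i => Nat.findGreatest (fun t => (D.x t).length ≤ (Pr τ z i).length) te
  have hti_le : ∀ i, ti i ≤ te := fun i => Nat.findGreatest_le _
  have hti_spec : ∀ i, (D.x (ti i)).length ≤ (Pr τ z i).length := fun i =>
    Nat.findGreatest_spec (P := fun t => (D.x t).length ≤ (Pr τ z i).length) (m := 0)
      (Nat.zero_le _) (by rw [D.x0]; simp)
  have hti_gr : ∀ i t, ti i < t → t ≤ te → ¬ (D.x t).length ≤ (Pr τ z i).length := fun i t h1 h2 =>
    Nat.findGreatest_is_greatest (P := fun t => (D.x t).length ≤ (Pr τ z i).length) h1 h2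
  have hti_mono : ∀ i j, i ≤ j → ti i ≤ ti j := fun i j hij =>
    Nat.le_findGreatest (hti_le i) ((hti_spec i).trans (Pr_length_mono τ z hij))
  -- total length
  have htot : ∀ t ≤ D.m, (D.x t).length + (D.r t).length + (D.y t).length =
      (Pr τ z z.length).length + (Tl τ z q).length := by
    intro t ht
    have h1 := congrArg List.length ((D.split t ht).trans (Tx_full τ z q))
    simpa [add_assoc] using h1
  -- the left head has passed position `l`
  have hpass : te < D.m → (Pr τ z l).length ≤ (D.x te).length := by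
    intro hlt
    by_contra hcon
    push Not at hcon
    obtain ⟨u, v, h1, h2, h3, h4, h5⟩ := D.step te hlt
    have h6 := hte_gr (te + 1) (Nat.lt_succ_self _) hlt
    rw [h2, List.length_append] at h6
    -- suffix
    have hsuf : D.y te <:+ Tl τ z q := by
      have h7 := D.y_suffix hte_le
      have h8 : Tl τ z q <:+ Tx τ z q := ⟨_, (Tx_full τ z q).symm⟩
      exact List.suffix_of_suffix_length_le h7 h8 hte_spec
    obtain ⟨z', hz'⟩ := hsuf
    have hz'len : z'.length ≤ R := by
      have := congrArg List.length hz'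
      rw [List.length_append] at this
      omega
    -- position of the left head
    set i' := Nat.findGreatest (fun i => (Pr τ z i).length ≤ (D.x te).length) l with hi'
    have hi'_le : i' ≤ l := Nat.findGreatest_le _
    have hi'_spec : (Pr τ z i').length ≤ (D.x te).length :=
      Nat.findGreatest_spec (P := fun i => (Pr τ z i).length ≤ (D.x te).length) (m := 0)
        (Nat.zero_le _) (by simp [Pr, AGSM.output])
    have hi'_lt : i' < l := by
      rcases Nat.lt_or_eq_of_le hi'_le with h | h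
      · exact h
      · rw [h] at hi'_spec; omega
    have hi'_gr : ¬ (Pr τ z (i' + 1)).length ≤ (D.x te).length :=
      Nat.findGreatest_is_greatest (P := fun i => (Pr τ z i).length ≤ (D.x te).length)
        (Nat.lt_succ_self _) hi'_lt
    have hxp := D.x_prefix hte_le
    obtain ⟨z'', hz''⟩ := List.prefix_of_prefix_length_le (Pr_prefix τ z q i') hxp hi'_spec
    have hx2 : D.x te <+: Pr τ z (i' + 1) :=
      List.prefix_of_prefix_length_le hxp (Pr_prefix τ z q (i' + 1)) (by omega)
    have hz''pre : z'' <+: τ.out (St τ z i') (Sym.a (z[i']'(by omega))) := by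
      rw [← hz'', Pr_succ τ z (by omega)] at hx2
      exact (List.prefix_append_right_inj _).1 hx2
    have h9 := hRem z q D te i' z' z'' hte_le hz'.symm hz'len hz''.symm ⟨_, _, hz''pre⟩
    have h10 : (z.drop l).count q ≤ (z.drop i').count q := by
      have : z.drop l <:+ z.drop i' := by
        rw [show l = i' + (l - i') by omega, ← List.drop_drop]
        exact List.drop_suffix _ _
      exact this.sublist.count_le q
    omega
  -- overshoot
  have hover : ∀ i ≤ l, (Pr τ z i).length ≤ (D.x (ti i)).length + R := by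
    intro i hi
    rcases Nat.lt_or_eq_of_le (hti_le i) with h | h
    · obtain ⟨u, v, h1, h2, h3, h4, h5⟩ := D.step (ti i) (by omega)
      have h6 := hti_gr i (ti i + 1) (Nat.lt_succ_self _) h
      rw [h1, List.length_append] at h6
      omega
    · rcases Nat.lt_or_eq_of_le hte_le with h2 | h2
      · have h3 := hpass h2
        have h4 := Pr_length_mono τ z hi
        rw [h]
        omega
      · have h3 := htot D.m le_rfl
        have h4 := D.last
        have h5 := Pr_length_mono τ z (hi.trans hl)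
        rw [h2] at hte_spec
        rw [h, h2]
        omega
  have hpre : ∀ i, D.x (ti i) <+: Pr τ z i := fun i =>
    List.prefix_of_prefix_length_le (D.x_prefix ((hti_le i).trans hte_le)) (Pr_prefix τ z q i)
      (hti_spec i)
  choose Zf hZ using hpre
  refine ⟨⟨fun i => D.N (ti i), Zf, fun i => D.x (ti i), fun i => D.y (ti i), fun i => D.r (ti i),
    ?_, ?_, ?_, ?_, ?_, ?_, ?_, ?_⟩⟩
  · intro i _; exact D.gen _ ((hti_le i).trans hte_le)
  · intro i _; exact D.ctx0 ((hti_le i).trans hte_le)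
  · intro i _; exact D.split _ ((hti_le i).trans hte_le)
  · intro i _; exact (hZ i).symm
  · intro i hi
    have h1 := hover i hi
    have h2 := congrArg List.length (hZ i)
    rw [List.length_append] at h2
    omega
  · intro i _
    exact (D.y_mono (hti_le i) hte_le).trans hte_spec
  · intro i _; exact D.mem _ ((hti_le i).trans hte_le)
  · intro i j hij _
    obtain ⟨u, v, h1, h2, h3⟩ := D.ctx (hti_mono i j hij) ((hti_le j).trans hte_le)
    exact ⟨u, v, h3, h1, h2⟩

/-- Two derivations with the same data at a position at which one of them has a cycle that only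
moves the left head and reads the letter of the other: impossible. -/
lemma LinHyp.separate (H : LinHyp τ g R) {z : List (Fin n)} {p q : Fin n} {l : ℕ}
    (Dp : BData τ g R z p l) (Dq : BData τ g R z q l) {i e : ℕ} (hie : i ≤ e) (hel : e ≤ l)
    (hs : St τ z e = St τ z i) (hA : Dq.A e = Dq.A i) (hZ : Dq.Z e = Dq.Z i)
    (hV : (Dq.V e).length = (Dq.V i).length) (hpm : p ∈ seg z i e)
    (hpqA : Dp.A i = Dq.A i) (hpqZ : Dp.Z i = Dq.Z i) : False := by
  obtain ⟨u, v, h1, h2, h3⟩ := Dq.step i e hie hel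
  have hv : v = [] := by
    rw [h3, List.length_append] at hV
    rw [← List.length_eq_zero_iff]
    omega
  subst hv
  rw [hA] at h1
  have hil : i ≤ l := hie.trans hel
  have hX : Dp.X i = Dq.X i := by
    have h4 := Dp.pr i hil
    rw [Dq.pr i hil, hpqZ] at h4
    exact (List.append_cancel_right h4).symm
  have h5 := Dp.gen i hil
  rw [hpqA] at h5
  have h6 := h1 _ h5
  rw [← hpqA] at h6
  have h7 := Dp.ctx i hil _ h6
  have h8 := (Dp.split i hil).trans (Tx_eq τ z p i)
  rw [Dp.pr i hil] at h8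
  have h9 : Dp.r i ++ Dp.V i = Dp.Z i ++ (τ.output (St τ z i) ((z.drop i).map Sym.a) ++ Tl τ z p) := by
    have : Dp.X i ++ (Dp.r i ++ Dp.V i) = Dp.X i ++ (Dp.Z i ++
        (τ.output (St τ z i) ((z.drop i).map Sym.a) ++ Tl τ z p)) := by
      simpa [List.append_assoc] using h8
    exact List.append_cancel_left this
  have h10 : Dp.X i ++ (u ++ Dp.r i ++ []) ++ Dp.V i = Pr τ z e ++
      (τ.output (St τ z i) ((z.drop i).map Sym.a) ++ Tl τ z p) := by
    rw [Dq.pr e hel, h2, hZ, ← hpqZ, ← hX, List.append_nil]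
    calc Dp.X i ++ (u ++ Dp.r i) ++ Dp.V i = Dp.X i ++ u ++ (Dp.r i ++ Dp.V i) := by
          simp [List.append_assoc]
      _ = _ := by rw [h9]; simp [List.append_assoc]
  rw [h10] at h7
  have h11 := H.swap (z₁ := z) (z₂ := z) (q := p) (i₁ := e) (i₂ := i) hs rfl h7
  have h12 : z.drop i = seg z i e ++ z.drop e := (seg_append_drop z hie).symm
  rw [h12, List.count_append] at h11
  have := List.count_pos_iff.2 hpm
  omega

end

end Pool.Agent.Helper60.GPrin
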