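import Pool.Agent.Helper60.GPrinRocMain2

/-!
# The family of one-counter languages is not G-principal
-/

namespace Pool.Agent.Helper60.GPrin

section Composite

variable {X Y : Type} (τ : AGSM X Y) (M : OneCounterPDA Y)

/-- One step of the composition of an a-gsm and a one-counter automaton. -/
inductive CStep : τ.State × List Y × M.State → ℕ → List X → τ.State × List Y × M.State → ℕ → Prop
  | letter (g : τ.State) (q : M.State) (h : ℕ) (x : X) :
      CStep (g, [], q) h [x] (τ.step g x, τ.out g x, q) h
  | read (g : τ.State) (y : Y) (v : List Y) (q q' : M.State) (n k : ℕ)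
      (ht : (q, some y, n, q') ∈ M.trans) : CStep (g, y :: v, q) (k + 1) [] (g, v, q') (k + n)
  | eps (g : τ.State) (v : List Y) (q q' : M.State) (n k : ℕ)
      (ht : (q, none, n, q') ∈ M.trans) : CStep (g, v, q) (k + 1) [] (g, v, q') (k + n)

lemma exists_J : ∃ J : ℕ, ∀ t ∈ M.trans, t.2.2.1 ≤ J := by
  obtain ⟨J, hJ⟩ := (M.finite_trans.image (fun t => t.2.2.1)).bddAbove
  exact ⟨J, fun t ht => hJ ⟨t, ht, rfl⟩⟩

/-- The composition as an abstract counter system. -/
noncomputable def comp : CSys X (τ.State × List Y × M.State) where
  step := CStep τ M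
  label_le := by
    intro s h u s' h' st
    cases st <;> simp
  mono := by
    intro s h u s' h' st k
    cases st with
    | letter g q h x => exact .letter g q _ x
    | read g y v q q' n k' ht =>
      rw [show k' + 1 + k = (k' + k) + 1 by ring, show k' + n + k = (k' + k) + n by ring]
      exact .read g y v q q' n _ ht
    | eps g v q q' n k' ht =>
      rw [show k' + 1 + k = (k' + k) + 1 by ring, show k' + n + k = (k' + k) + n by ring]
      exact .eps g v q q' n _ ht
  J := (exists_J M).choose
  up := by
    intro s h u s' h' st
    cases st with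
    | letter g q h x => omega
    | read g y v q q' n k' ht =>
      have : n ≤ (exists_J M).choose := (exists_J M).choose_spec _ ht
      omega
    | eps g v q q' n k' ht =>
      have : n ≤ (exists_J M).choose := (exists_J M).choose_spec _ ht
      omega
  dn := by
    intro s h u s' h' st
    cases st <;> omega

/-- Splitting a run of the automaton. -/
lemma pda_split {b : List Y} {q' : M.State} {h' : ℕ} {c : M.State × List Y × ℕ}
    (r : Relation.ReflTransGen M.Step c (q', [], h')) : ∀ (a : List Y), c.2.1 = a ++ b →
    ∃ q₁ h₁, Relation.ReflTransGen M.Step (c.1, a, c.2.2) (q₁, [], h₁) ∧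
      Relation.ReflTransGen M.Step (q₁, b, h₁) (q', [], h') := by
  induction r using Relation.ReflTransGen.head_induction_on with
  | refl =>
    intro a hc
    simp only at hc
    have h1 : a = [] := by
      cases a with
      | nil => rfl
      | cons x a => simp at hc
    subst h1
    simp only [List.nil_append] at hc
    subst hc
    exact ⟨q', h', .refl, .refl⟩
  | head st r ih =>
    intro a hc
    cases st with
    | read q q₂ x n ht u k =>
      simp only at hc
      cases a with
      | nil =>
        simp only [List.nil_append] at hc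
        subst hc
        exact ⟨q, k + 1, .refl, .head (.read q q₂ x n ht u k) r⟩
      | cons y a =>
        simp only [List.cons_append, List.cons.injEq] at hc
        obtain ⟨rfl, hc⟩ := hc
        obtain ⟨q₁, h₁, r1, r2⟩ := ih a hc
        exact ⟨q₁, h₁, .head (.read q q₂ x n ht a k) r1, r2⟩
    | eps q q₂ n ht u k =>
      obtain ⟨q₁, h₁, r1, r2⟩ := ih a hc
      exact ⟨q₁, h₁, .head (.eps q q₂ n ht a k) r1, r2⟩

lemma comp_run_of_pda (g : τ.State) {q' : M.State} {h' : ℕ} {c : M.State × List Y × ℕ}
    (r : Relation.ReflTransGen M.Step c (q', [], h')) :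
    (comp τ M).Run (g, c.2.1, c.1) c.2.2 [] (g, [], q') h' := by
  induction r using Relation.ReflTransGen.head_induction_on with
  | refl => exact .nil _ _
  | head st r ih =>
    cases st with
    | read q q₂ x n ht u k =>
      exact .cons _ _ [] _ _ [] _ _ (CStep.read g x u q q₂ n k ht) ih
    | eps q q₂ n ht u k =>
      exact .cons _ _ [] _ _ [] _ _ (CStep.eps g u q q₂ n k ht) ih

lemma comp_run_of_pda' (u : List X) : ∀ (g : τ.State) (pend : List Y) (q : M.State) (h : ℕ)
    (q' : M.State) (h' : ℕ),
    Relation.ReflTransGen M.Step (q, pend ++ τ.output g u, h) (q', [], h') →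
    (comp τ M).Run (g, pend, q) h u (τ.run g u, [], q') h' := by
  induction u with
  | nil =>
    intro g pend q h q' h' r
    simp only [AGSM.output, List.append_nil] at r
    exact comp_run_of_pda τ M g r
  | cons x u ih =>
    intro g pend q h q' h' r
    obtain ⟨q₁, h₁, r1, r2⟩ := pda_split M r pend rfl
    have c1 := comp_run_of_pda τ M g r1
    have c2 := ih (τ.step g x) (τ.out g x) q₁ h₁ q' h' r2
    have c3 : (comp τ M).Run (g, [], q₁) h₁ ([x] ++ u) (τ.run (τ.step g x) u, [], q') h' :=
      .cons _ _ _ _ _ _ _ _ (CStep.letter g q₁ h₁ x) c2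
    exact c1.append c3

lemma pda_of_comp_run {s : τ.State × List Y × M.State} {h : ℕ} {u : List X}
    {s' : τ.State × List Y × M.State} {h' : ℕ} (r : (comp τ M).Run s h u s' h') :
    s'.1 = τ.run s.1 u ∧ ∀ rest : List Y, Relation.ReflTransGen M.Step
      (s.2.2, s.2.1 ++ τ.output s.1 u ++ rest, h) (s'.2.2, s'.2.1 ++ rest, h') := by
  induction r with
  | nil s h =>
    refine ⟨rfl, fun rest => ?_⟩
    simp only [AGSM.output, List.append_nil]
    exact .refl
  | cons s h u s₁ h₁ v s₂ h₂ st r ih =>
    obtain ⟨ih1, ih2⟩ := ih
    cases st with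
    | letter g q h x =>
      refine ⟨ih1, fun rest => ?_⟩
      have := ih2 rest
      simpa [AGSM.output, List.append_assoc] using this
    | read g y v' q q' n k ht =>
      refine ⟨ih1, fun rest => ?_⟩
      exact .head (.read q q' y n ht _ k) (ih2 rest)
    | eps g v' q q' n k ht =>
      refine ⟨ih1, fun rest => ?_⟩
      exact .head (.eps q q' n ht _ k) (ih2 rest)

/-- Accepting states of the composition. -/
def compAcc : Set (τ.State × List Y × M.State) := {s | s.1 ∈ τ.accept ∧ s.2.1 = [] ∧ s.2.2 ∈ M.accept}

lemma comp_accepts (u : List X) :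
    (∃ f ∈ compAcc τ M, (comp τ M).Run (τ.start, [], M.start) 1 u f 0) ↔
      u ∈ τ.preimage M.language := by
  constructor
  · rintro ⟨⟨g, pend, q⟩, ⟨hg, hp, hq⟩, r⟩
    simp only at hg hp hq
    subst hp
    obtain ⟨h1, h2⟩ := pda_of_comp_run τ M r
    refine ⟨?_, q, hq, ?_⟩
    · rw [← h1]; exact hg
    · have := h2 []
      simpa using this
  · rintro ⟨hg, q, hq, r⟩
    refine ⟨(τ.run τ.start u, [], q), ⟨hg, rfl, hq⟩, ?_⟩
    exact comp_run_of_pda' τ M u _ _ _ _ _ _ (by simpa using r)

/-- The reachable states form a finite set. -/
lemma exists_P [Finite X] : ∃ P : Finset (τ.State × List Y × M.State),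
    (τ.start, [], M.start) ∈ P ∧
    ∀ s ∈ P, ∀ h u s' h', (comp τ M).step s h u s' h' → s' ∈ P := by
  classical
  have := τ.finite_state
  have := M.finite_state
  let PS : Set (List Y) := {v | ∃ (g : τ.State) (x : X), v <:+ τ.out g x} ∪ {[]}
  have hPS : PS.Finite := by
    apply Set.Finite.union _ (Set.finite_singleton _)
    have : {v | ∃ (g : τ.State) (x : X), v <:+ τ.out g x} =
        ⋃ (p : τ.State × X), {v | v ∈ (τ.out p.1 p.2).tails} := by
      ext v
      simp [List.mem_tails]
    rw [this]
    apply Set.finite_iUnion
    intro p
    exact List.finite_toSet _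
  have hfin : (Set.univ ×ˢ (PS ×ˢ Set.univ) : Set (τ.State × List Y × M.State)).Finite :=
    (Set.finite_univ).prod (hPS.prod Set.finite_univ)
  refine ⟨hfin.toFinset, ?_, ?_⟩
  · rw [Set.Finite.mem_toFinset]
    exact ⟨trivial, Or.inr rfl, trivial⟩
  · intro s hs h u s' h' st
    rw [Set.Finite.mem_toFinset] at hs ⊢
    obtain ⟨_, hs, _⟩ := hs
    cases st with
    | letter g q h x => exact ⟨trivial, Or.inl ⟨g, x, List.suffix_rfl⟩, trivial⟩
    | read g y v q q' n k ht =>
      refine ⟨trivial, ?_, trivial⟩
      rcases hs with ⟨g', x, hx⟩ | hs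
      · exact Or.inl ⟨g', x, (List.suffix_cons y v).trans hx⟩
      · simp at hs
    | eps g v q q' n k ht => exact ⟨trivial, hs, trivial⟩

end Composite

/-- If the test language is the inverse image of a one-counter language then the automaton of the
latter has at least `n` states. -/
theorem card_state_ge {n : ℕ} {Y : Type} (τ : AGSM (Sym n) Y) (M : OneCounterPDA Y)
    (h : τ.preimage M.language = TestLang n) : n ≤ Nat.card M.State := by
  classical
  have := M.finite_state
  obtain ⟨P, hP1, hP2⟩ := exists_P τ M
  have A : Accepts (comp τ M) (τ.start, [], M.start) (compAcc τ M) P := by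
    refine ⟨hP1, hP2, fun w q m => ?_⟩
    rw [comp_accepts, h, enc_mem_iff]
  obtain ⟨w, T, H, hinj, hT⟩ := counter_main A
  have hinj' : Function.Injective (fun q => (T q).2.2) := by
    intro p q hpq
    apply hinj
    have hp1 : ∀ q, (T q).1 = τ.run τ.start (w.map Sym.a) := fun q =>
      (pda_of_comp_run τ M (hT q).1).1
    have hp2 : ∀ q, (T q).2.1 = [] := by
      intro q
      obtain ⟨x, s₂, h₂, st⟩ := (hT q).2
      generalize (T q) = s at st
      generalize (H q) = hh at st
      change CStep τ M s _ _ _ _ at st
      cases st
      rfl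
    apply Prod.ext
    · rw [hp1, hp1]
    · apply Prod.ext
      · rw [hp2, hp2]
      · exact hpq
  have := Nat.card_le_card_of_injective _ hinj'
  simpa using this

/-- The transitions of an automaton for the test language. -/
inductive TestTrans (n : ℕ) : Option (Fin n × Bool) → Option (Sym n) → ℕ →
    Option (Fin n × Bool) → Prop
  | guess (p : Fin n) : TestTrans n none none 1 (some (p, false))
  | count (p : Fin n) : TestTrans n (some (p, false)) (some (Sym.a p)) 2 (some (p, false))
  | skip (p i : Fin n) (hi : i ≠ p) :
      TestTrans n (some (p, false)) (some (Sym.a i)) 1 (some (p, false))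
  | turn (p : Fin n) : TestTrans n (some (p, false)) (some (Sym.c p)) 0 (some (p, true))
  | pop (p : Fin n) : TestTrans n (some (p, true)) (some Sym.b) 0 (some (p, true))

/-- A one-counter automaton for the test language. -/
def testPDA (n : ℕ) : OneCounterPDA (Sym n) where
  State := Option (Fin n × Bool)
  finite_state := inferInstance
  start := none
  accept := {s | ∃ p, s = some (p, true)}
  trans := {t | TestTrans n t.1 t.2.1 t.2.2.1 t.2.2.2}
  finite_trans := by
    refine ((Set.finite_univ (α := Option (Fin n × Bool))).prod
      ((Set.finite_univ (α := Option (Sym n))).prod ((Set.finite_Iic 2).prod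
        (Set.finite_univ (α := Option (Fin n × Bool)))))).subset ?_
    rintro ⟨s, x, m, s'⟩ ht
    refine ⟨trivial, trivial, ?_, trivial⟩
    change TestTrans n s x m s' at ht
    change m ≤ 2
    cases ht <;> omega

/-- Invariant for the automaton `testPDA`. -/
def testInv {n : ℕ} : Option (Fin n × Bool) × List (Sym n) × ℕ → Prop
  | (none, u, h) => h = 1 → u ∈ TestLang n
  | (some (p, false), u, h) => ∀ k, h = k + 1 → ∃ w : List (Fin n), u = enc w p (k + w.count p)
  | (some (_, true), u, h) => u = List.replicate h Sym.b

lemma testInv_of_run {n : ℕ} {p : Fin n} {c : (testPDA n).State × List (Sym n) × ℕ}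
    (r : Relation.ReflTransGen (testPDA n).Step c (some (p, true), [], 0)) : testInv c := by
  induction r using Relation.ReflTransGen.head_induction_on with
  | refl => rfl
  | head st r ih =>
    cases st with
    | read q q' x m ht u k =>
      change TestTrans n q (some x) m q' at ht
      cases ht with
      | count p' =>
        intro k' hk'
        obtain rfl : k = k' := by omega
        obtain ⟨w, hw⟩ := ih (k + 1) (by omega)
        refine ⟨p' :: w, ?_⟩
        rw [hw]
        simp only [enc, List.map_cons, List.cons_append, List.count_cons_self]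
        rw [show k + 1 + List.count p' w = k + (List.count p' w + 1) by ring]
      | skip p' i hi =>
        intro k' hk'
        obtain rfl : k = k' := by omega
        obtain ⟨w, hw⟩ := ih k (by omega)
        refine ⟨i :: w, ?_⟩
        rw [hw]
        simp only [enc, List.map_cons, List.cons_append]
        rw [List.count_cons_of_ne hi]
      | turn p' =>
        intro k' hk'
        obtain rfl : k = k' := by omega
        refine ⟨[], ?_⟩
        have ih' : u = List.replicate (k + 0) Sym.b := ih
        rw [ih']
        simp [enc]
      | pop p' =>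
        have ih' : u = List.replicate (k + 0) Sym.b := ih
        change Sym.b :: u = List.replicate (k + 1) Sym.b
        rw [ih', List.replicate_succ]
        rfl
    | eps q q' m ht u k =>
      change TestTrans n q none m q' at ht
      cases ht with
      | guess p' =>
        intro hk
        obtain rfl : k = 0 := by omega
        obtain ⟨w, hw⟩ := ih 0 rfl
        refine ⟨w, p', ?_⟩
        rw [hw, zero_add]

lemma test_read {n : ℕ} {s s' : Option (Fin n × Bool)} {x : Sym n} {m : ℕ}
    (h : TestTrans n s (some x) m s') (u : List (Sym n)) (k : ℕ) :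
    (testPDA n).Step (s, x :: u, k + 1) (s', u, k + m) :=
  OneCounterPDA.Step.read (M := testPDA n) s s' x m h u k

lemma test_eps {n : ℕ} {s s' : Option (Fin n × Bool)} {m : ℕ}
    (h : TestTrans n s none m s') (u : List (Sym n)) (k : ℕ) :
    (testPDA n).Step (s, u, k + 1) (s', u, k + m) :=
  OneCounterPDA.Step.eps (M := testPDA n) s s' m h u k

lemma testPDA_language (n : ℕ) : (testPDA n).language = TestLang n := by
  ext u
  constructor
  · rintro ⟨q, ⟨p, rfl⟩, r⟩
    exact testInv_of_run r rfl
  · rintro ⟨w, p, rfl⟩
    refine ⟨some (p, true), ⟨p, rfl⟩, ?_⟩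
    -- reading the letters b
    have hb : ∀ m : ℕ, Relation.ReflTransGen (testPDA n).Step
        (some (p, true), List.replicate m Sym.b, m) (some (p, true), [], 0) := by
      intro m
      induction m with
      | zero => exact .refl
      | succ m ih =>
        exact .head (test_read (TestTrans.pop p) (List.replicate m Sym.b) m) ih
    have ha : ∀ (w : List (Fin n)) (k : ℕ), Relation.ReflTransGen (testPDA n).Step
        (some (p, false), enc w p (k + w.count p), k + 1) (some (p, true), [], 0) := by
      intro w
      induction w with
      | nil =>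
        intro k
        exact .head (test_read (TestTrans.turn p)
          (List.replicate (k + List.count p []) Sym.b) k) (hb _)
      | cons i w ih =>
        intro k
        by_cases hi : i = p
        · subst hi
          have h1 := ih (k + 1)
          rw [List.count_cons_self, show k + (List.count i w + 1) = k + 1 + List.count i w by ring]
          exact .head (test_read (TestTrans.count i) _ k) h1
        · have h1 := ih k
          rw [List.count_cons_of_ne hi]
          exact .head (test_read (TestTrans.skip p i hi) _ k) h1
    have h0 := ha w 0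
    rw [zero_add] at h0
    exact .head (test_eps (TestTrans.guess p) _ 0) h0

lemma testLang_mem_roc (n : ℕ) : Roc (Sym n) (TestLang n) :=
  ⟨inferInstance, testPDA n, testPDA_language n⟩

/-- The family of one-counter languages is not G-principal. -/
theorem not_GPrincipal_Roc : ¬ GPrincipal Roc := by
  rintro ⟨Y, L, ⟨_, M, rfl⟩, hL⟩
  obtain ⟨τ, hτ⟩ := ((hL _ _).1 (testLang_mem_roc (Nat.card M.State + 1))).exists_gsm
  have := card_state_ge τ M hτ.symm
  omega

end Pool.Agent.Helper60.GPrin
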