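import Pool.Agent.Helper60.GPrinCounter

/-!
# The test language and abstract counter systems
-/

namespace Pool.Agent.Helper60.GPrin

section

variable {n : ℕ} {σ : Type} (C : CSys (Sym n) σ) (s₀ : σ) (F : Set σ) (P : Finset σ)

/-- The hypotheses on the counter system. -/
structure Accepts : Prop where
  start : s₀ ∈ P
  closed : ∀ s ∈ P, ∀ h u s' h', C.step s h u s' h' → s' ∈ P
  acc : ∀ (w : List (Fin n)) (q : Fin n) (m : ℕ),
    (∃ f ∈ F, C.Run s₀ 1 (enc w q m) f 0) ↔ m = w.count q

variable {C s₀ F P}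

lemma Accepts.up_cycle (A : Accepts C s₀ F P) {s : σ} {h : ℕ} {u : List (Sym n)} {s' : σ} {h' : ℕ}
    (r : C.Run s h u s' h') (hs : s ∈ P) (hlt : h + P.card * C.J < h') :
    ∃ u₁ u₂ u₃ s₁ h₁ h₂, h₁ < h₂ ∧ C.Run s h u₁ s₁ h₁ ∧ C.Run s₁ h₁ u₂ s₁ h₂ ∧
        C.Run s₁ h₂ u₃ s' h' ∧ u = u₁ ++ (u₂ ++ u₃) := by
  obtain ⟨u₁, u₂, u₃, s₁, h₁, h₂, q1, q2⟩ := CSys.exists_cycle (C := C) (fun x => (x : ℤ)) C.J
    (fun s h u s' h' st => by exact_mod_cast C.up st) P.card (P : Set σ)
    (Finset.finite_toSet P) (Set.ncard_coe_finset P) s h u s' h' (r.runIn A.closed hs)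
    (by exact_mod_cast hlt)
  exact ⟨u₁, u₂, u₃, s₁, h₁, h₂, by exact_mod_cast q1, q2⟩

lemma Accepts.down_cycle (A : Accepts C s₀ F P) {s : σ} {h : ℕ} {u : List (Sym n)} {s' : σ}
    {h' : ℕ} (r : C.Run s h u s' h') (hs : s ∈ P) (hlt : h' + P.card < h) :
    ∃ u₁ u₂ u₃ s₁ h₁ h₂, h₂ < h₁ ∧ C.Run s h u₁ s₁ h₁ ∧ C.Run s₁ h₁ u₂ s₁ h₂ ∧
        C.Run s₁ h₂ u₃ s' h' ∧ u = u₁ ++ (u₂ ++ u₃) := by
  obtain ⟨u₁, u₂, u₃, s₁, h₁, h₂, q1, q2⟩ := CSys.exists_cycle (C := C) (fun x => -(x : ℤ)) 1
    (fun s h u s' h' st => by have := C.dn st; push_cast; omega) P.card (P : Set σ)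
    (Finset.finite_toSet P) (Set.ncard_coe_finset P) s h u s' h' (r.runIn A.closed hs)
    (by push_cast; omega)
  exact ⟨u₁, u₂, u₃, s₁, h₁, h₂, by omega, q2⟩

lemma Accepts.count_eq (A : Accepts C s₀ F P) {w : List (Fin n)} {q : Fin n} {m : ℕ} {s : σ}
    {h : ℕ} {f : σ} (hf : f ∈ F) (r : C.Run s₀ 1 (w.map Sym.a) s h)
    (r' : C.Run s h (Sym.c q :: List.replicate m Sym.b) f 0) : m = w.count q :=
  (A.acc w q m).1 ⟨f, hf, r.append r'⟩

/-- The part of an accepting run after the word over the `a i` contains a cycle that reads some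
letters `b` and decreases the counter. -/
lemma Accepts.tail_cycle (A : Accepts C s₀ F P) {z : List (Fin n)} {q : Fin n} {s : σ} {h : ℕ}
    {f : σ} (hf : f ∈ F) (r : C.Run s₀ 1 (z.map Sym.a) s h)
    (r' : C.Run s h (Sym.c q :: List.replicate (z.count q) Sym.b) f 0)
    (hM : (P.card + 1) + P.card * (P.card + 1) + 1 ≤ z.count q) :
    ∃ m₁ j m₃ s₂ h₂ e, 1 ≤ j ∧ 1 ≤ e ∧ m₁ + j + m₃ = z.count q ∧
      C.Run s h (Sym.c q :: List.replicate m₁ Sym.b) s₂ (h₂ + e) ∧
      C.Run s₂ (h₂ + e) (List.replicate j Sym.b) s₂ h₂ ∧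
      C.Run s₂ h₂ (List.replicate m₃ Sym.b) f 0 := by
  classical
  by_contra hno
  set M := z.count q with hMdef
  set κ := P.card with hκ
  have hacc : ∀ m, C.Run s h (Sym.c q :: List.replicate m Sym.b) f 0 → m = M :=
    fun m rm => A.count_eq hf r rm
  obtain ⟨s₁, h₁, r1, r2⟩ := CSys.Run.split2 (u := [Sym.c q]) (v := List.replicate M Sym.b) r'
  obtain ⟨T, H, hA, hB, hC⟩ := r2.seq_replicate
  have hsP : s ∈ P := r.mem A.closed A.start
  have hs₁P : s₁ ∈ P := r1.mem A.closed hsP
  have hTP : ∀ i ≤ M, T i ∈ P := fun i hi => (hA i hi).mem A.closed hs₁P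
  -- no zero cycle
  have hzero : ∀ i j, i < j → j ≤ M → T i = T j → H i ≠ H j := by
    intro i j hij hj hT hH
    have c1 := hC i j hij.le hj
    have c2 := hC i j hij.le hj
    rw [← hT, ← hH] at c1
    have c3 := r1.append ((hA i (by omega)).append (c1.append (c2.append (hB j hj))))
    have e1 : [Sym.c q] ++ (List.replicate i Sym.b ++ (List.replicate (j - i) Sym.b ++
        (List.replicate (j - i) Sym.b ++ List.replicate (M - j) Sym.b))) =
        Sym.c q :: List.replicate (M + (j - i)) (Sym.b (n := n)) := by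
      rw [List.replicate_append_replicate, List.replicate_append_replicate,
        List.replicate_append_replicate, List.singleton_append]
      congr 2
      omega
    rw [e1] at c3
    have := hacc _ c3
    omega
  -- negative cycles reading b are excluded
  have hneg : ∀ i j, i < j → j ≤ M → T i = T j → ¬ H j < H i := by
    intro i j hij hj hT hH
    apply hno
    refine ⟨i, j - i, M - j, T j, H j, H i - H j, by omega, by omega, by omega, ?_, ?_, ?_⟩
    · have := r1.append (hA i (by omega))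
      rw [List.singleton_append] at this
      rw [← hT, Nat.add_sub_cancel' hH.le]
      exact this
    · have := hC i j hij.le hj
      rw [hT] at this
      rw [Nat.add_sub_cancel' hH.le]
      exact this
    · exact hB j hj
  -- a positive cycle near the start
  obtain ⟨i0, j0, hij0, hj0, hT0⟩ : ∃ i j, i < j ∧ j ≤ κ ∧ T i = T j := by
    have hcard : P.card < (Finset.range (κ + 1)).card := by simp [hκ]
    obtain ⟨x, hx, y, hy, hxy, hT⟩ := Finset.exists_ne_map_eq_of_card_lt_of_maps_to hcard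
      (f := T) (fun i hi => hTP i (by have := Finset.mem_range.1 hi; omega))
    rw [Finset.mem_range] at hx hy
    rcases lt_or_gt_of_ne hxy with h | h
    · exact ⟨x, y, h, by omega, hT⟩
    · exact ⟨y, x, h, by omega, hT.symm⟩
  have hlt0 : H i0 < H j0 := by
    have h1 := hzero i0 j0 hij0 (by omega) hT0
    have h2 := hneg i0 j0 hij0 (by omega) hT0
    omega
  -- a high point later
  obtain ⟨j3, hj3, hj3M, hH3⟩ : ∃ j, κ + 1 ≤ j ∧ j ≤ M ∧ κ < H j := by
    by_contra hcon
    push Not at hcon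
    have hcard : (P ×ˢ Finset.range (κ + 1)).card <
        (Finset.Icc (κ + 1) ((κ + 1) + κ * (κ + 1))).card := by
      rw [Finset.card_product, Finset.card_range, Nat.card_Icc, ← hκ]
      omega
    obtain ⟨x, hx, y, hy, hxy, hT⟩ := Finset.exists_ne_map_eq_of_card_lt_of_maps_to hcard
      (f := fun i => (T i, H i)) (fun i hi => by
        rw [Finset.mem_coe, Finset.mem_Icc] at hi
        rw [Finset.mem_coe, Finset.mem_product]
        refine ⟨hTP i (by omega), ?_⟩
        have := hcon i (by omega) (by omega)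
        simp only [Finset.mem_range]
        omega)
    rw [Finset.mem_Icc] at hx hy
    simp only [Prod.mk.injEq] at hT
    rcases lt_or_gt_of_ne hxy with h | h
    · exact hzero x y h (by omega) hT.1 hT.2
    · exact hzero y x h (by omega) hT.1.symm hT.2.symm
  -- a negative cycle after it
  obtain ⟨u₁, u₂, u₃, t, k₁, k₂, q1, q2, q3, q4, q5⟩ :=
    A.down_cycle (hB j3 hj3M) (hTP j3 hj3M) (by omega)
  -- lengths
  have hu : ∀ x ∈ u₁ ++ (u₂ ++ u₃), x = Sym.b := by
    intro x hx
    rw [← q5] at hx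
    exact List.eq_of_mem_replicate hx
  have hu₁ : u₁ = List.replicate u₁.length Sym.b := by
    rw [List.eq_replicate_iff]
    exact ⟨rfl, fun x hx => hu x (by simp [hx])⟩
  have hu₂ : u₂ = List.replicate u₂.length Sym.b := by
    rw [List.eq_replicate_iff]
    exact ⟨rfl, fun x hx => hu x (by simp [hx])⟩
  have hu₃ : u₃ = List.replicate u₃.length Sym.b := by
    rw [List.eq_replicate_iff]
    exact ⟨rfl, fun x hx => hu x (by simp [hx])⟩
  have hlen : M - j3 = u₁.length + (u₂.length + u₃.length) := by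
    have := congrArg List.length q5
    simpa using this
  by_cases hu2 : 1 ≤ u₂.length
  · apply hno
    refine ⟨j3 + u₁.length, u₂.length, u₃.length, t, k₂, k₁ - k₂, hu2, by omega, by omega, ?_, ?_, ?_⟩
    · have := r1.append ((hA j3 hj3M).append q2)
      rw [hu₁, List.replicate_append_replicate, List.singleton_append] at this
      rw [Nat.add_sub_cancel' q1.le]
      simpa using this
    · rw [Nat.add_sub_cancel' q1.le, ← hu₂]; exact q3
    · rw [← hu₃]; exact q4
  · -- combine an epsilon cycle with the positive cycle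
    have hu2' : u₂ = [] := by
      rw [← List.length_eq_zero_iff]; omega
    obtain ⟨d, hd⟩ : ∃ d, H j0 = H i0 + d := ⟨H j0 - H i0, by omega⟩
    obtain ⟨e, he⟩ : ∃ e, k₁ = k₂ + e := ⟨k₁ - k₂, by omega⟩
    have hdpos : 1 ≤ d := by omega
    have hepos : 1 ≤ e := by omega
    have cyc : C.Run (T i0) (H i0) (List.replicate (j0 - i0) Sym.b) (T i0) (H i0 + d) := by
      have := hC i0 j0 hij0.le (by omega)
      rw [← hT0, hd] at this
      exact this
    have cyce := cyc.iter_pos e
    have c1 := (hC i0 j3 (by omega) hj3M).mono (e * d)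
    have c2 := q2.mono (e * d)
    subst hu2'
    rw [he] at q3
    have c3 := q3.iter_neg (d + 1)
    have hrepnil : ∀ k, rep k ([] : List (Sym n)) = [] := by
      intro k; simp [rep]
    rw [hrepnil] at c3
    have e2 : k₁ + e * d = k₂ + (d + 1) * e := by rw [he]; ring
    rw [e2] at c2
    have c4 := r1.append ((hA i0 (by omega)).append (cyce.append (c1.append (c2.append
      (c3.append q4)))))
    have hrep : ∀ k j, rep k (List.replicate j (Sym.b (n := n))) = List.replicate (k * j) Sym.b := by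
      intro k j
      rw [List.eq_replicate_iff]
      refine ⟨by rw [length_rep, List.length_replicate], ?_⟩
      intro x hx
      simp only [rep, List.mem_flatten, List.mem_replicate] at hx
      obtain ⟨l, ⟨_, rfl⟩, hx⟩ := hx
      exact List.eq_of_mem_replicate hx
    rw [hrep, hu₁, hu₃, List.nil_append, List.replicate_append_replicate,
      List.replicate_append_replicate, List.replicate_append_replicate,
      List.replicate_append_replicate, List.singleton_append] at c4
    have := hacc _ c4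
    have h7 : 1 ≤ e * (j0 - i0) := Nat.mul_pos hepos (by omega)
    simp only [List.length_nil] at hlen
    omega

lemma rep_map {β γ : Type} (f : β → γ) (k : ℕ) (l : List β) : rep k (l.map f) = (rep k l).map f := by
  induction k with
  | zero => rfl
  | succ k ih => rw [rep_succ, rep_succ, List.map_append, ih]

lemma rep_replicate {β : Type} (x : β) (k j : ℕ) :
    rep k (List.replicate j x) = List.replicate (k * j) x := by
  induction k with
  | zero => simp [rep_zero]
  | succ k ih => rw [rep_succ, ih, List.replicate_append_replicate]; congr 1; ring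

lemma seg_map {β γ : Type} (f : β → γ) (z : List β) (i j : ℕ) :
    seg (z.map f) i j = (seg z i j).map f := by
  simp [seg, List.map_drop, List.map_take]

/-- Insertion of cycles in the first part and in the last part of an accepting run, together with a
zero cycle in between. -/
lemma Accepts.master (A : Accepts C s₀ F P) {q : Fin n} {w₁ w₂ w₃ u w₄ : List (Fin n)}
    {s₁ s s₂ sc f : σ} {h₁ d g hh hc h₂ e m₁ j m₃ : ℕ} (hf : f ∈ F)
    (r1 : C.Run s₀ 1 (w₁.map Sym.a) s₁ h₁)
    (r2 : C.Run s₁ h₁ (w₂.map Sym.a) s₁ (h₁ + d))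
    (r3 : C.Run s₁ (h₁ + d) (w₃.map Sym.a) s hh)
    (ru : C.Run s g (u.map Sym.a) s g)
    (r4 : C.Run s hh (w₄.map Sym.a) sc hc)
    (r5 : C.Run sc hc (Sym.c q :: List.replicate m₁ Sym.b) s₂ (h₂ + e))
    (r6 : C.Run s₂ (h₂ + e) (List.replicate j Sym.b) s₂ h₂)
    (r7 : C.Run s₂ h₂ (List.replicate m₃ Sym.b) f 0)
    (t : ℕ) (hg : g ≤ hh + t * e * d) :
    m₁ + (t * d + 1) * j + m₃ =
      w₁.count q + t * e * w₂.count q + w₂.count q + w₃.count q + u.count q + w₄.count q := by
  have c2 := r2.iter_pos (t * e)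
  have c3 := r2.mono (t * e * d)
  have c4 := r3.mono (t * e * d)
  have c5 := ru.mono (hh + t * e * d - g)
  rw [Nat.add_sub_cancel' hg] at c5
  have c6 := r4.mono (t * e * d)
  have c7 := r5.mono (t * e * d)
  have c8 := r6.iter_neg (t * d + 1)
  rw [show h₂ + (t * d + 1) * e = h₂ + e + t * e * d by ring] at c8
  rw [show h₁ + d + t * e * d = h₁ + t * e * d + d by ring] at c3 c4
  have c3' : C.Run s₁ (h₁ + t * e * d) (w₂.map Sym.a) s₁ (h₁ + t * e * d + d) := c3
  have first : C.Run s₀ 1 ((w₁ ++ (rep (t * e) w₂ ++ (w₂ ++ (w₃ ++ (u ++ w₄))))).map Sym.a) sc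
      (hc + t * e * d) := by
    have := r1.append (c2.append (c3'.append (c4.append (c5.append c6))))
    rw [rep_map] at this
    simpa only [List.map_append] using this
  have second : C.Run sc (hc + t * e * d)
      (Sym.c q :: List.replicate (m₁ + (t * d + 1) * j + m₃) Sym.b) f 0 := by
    have := c7.append (c8.append r7)
    rw [rep_replicate, List.replicate_append_replicate, List.cons_append,
      List.replicate_append_replicate, ← add_assoc] at this
    exact this
  have := A.count_eq hf first second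
  rw [this]
  simp only [List.count_append, count_rep]
  ring

/-- The ratio of the effects of a positive cycle in the first part and of a negative cycle in the
last part. -/
lemma Accepts.ratio (A : Accepts C s₀ F P) {q : Fin n} {w₁ w₂ w₃ : List (Fin n)}
    {s₁ s₂ sc f : σ} {h₁ d hc h₂ e m₁ j m₃ : ℕ} (hf : f ∈ F)
    (r1 : C.Run s₀ 1 (w₁.map Sym.a) s₁ h₁)
    (r2 : C.Run s₁ h₁ (w₂.map Sym.a) s₁ (h₁ + d))
    (r3 : C.Run s₁ (h₁ + d) (w₃.map Sym.a) sc hc)
    (r5 : C.Run sc hc (Sym.c q :: List.replicate m₁ Sym.b) s₂ (h₂ + e))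
    (r6 : C.Run s₂ (h₂ + e) (List.replicate j Sym.b) s₂ h₂)
    (r7 : C.Run s₂ h₂ (List.replicate m₃ Sym.b) f 0)
    (hM : m₁ + j + m₃ = w₁.count q + (w₂.count q + w₃.count q)) :
    e * w₂.count q = d * j := by
  have h0 : C.Run sc hc (([] : List (Fin n)).map Sym.a) sc hc := .nil _ _
  have := A.master hf r1 r2 r3 h0 h0 r5 r6 r7 1 (by nlinarith)
  simp only [List.count_nil, one_mul] at this
  have e1 : (d + 1) * j = d * j + j := by ring
  rw [e1] at this
  omega

/-- Insertion of a positive and of a later negative cycle, both in the first part. -/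
lemma Accepts.two_cycle (A : Accepts C s₀ F P) {q : Fin n} {w₁ w₂ w₃ w₄ w₅ : List (Fin n)}
    {s₁ s₂ sc f : σ} {h₁ d h₂ e hc M : ℕ} (hf : f ∈ F)
    (r1 : C.Run s₀ 1 (w₁.map Sym.a) s₁ h₁)
    (r2 : C.Run s₁ h₁ (w₂.map Sym.a) s₁ (h₁ + d))
    (r3 : C.Run s₁ (h₁ + d) (w₃.map Sym.a) s₂ (h₂ + e))
    (r4 : C.Run s₂ (h₂ + e) (w₄.map Sym.a) s₂ h₂)
    (r5 : C.Run s₂ h₂ (w₅.map Sym.a) sc hc)
    (r' : C.Run sc hc (Sym.c q :: List.replicate M Sym.b) f 0)
    (hM : M = w₁.count q + (w₂.count q + (w₃.count q + (w₄.count q + w₅.count q)))) :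
    e * w₂.count q = 0 := by
  have c2 := r2.iter_pos e
  have c3 := r2.mono (e * d)
  have c4 := r3.mono (e * d)
  have c5 := r4.iter_neg (d + 1)
  rw [show h₂ + (d + 1) * e = h₂ + e + e * d by ring] at c5
  rw [show h₁ + d + e * d = h₁ + e * d + d by ring] at c3 c4
  have first : C.Run s₀ 1 ((w₁ ++ (rep e w₂ ++ (w₂ ++ (w₃ ++ (rep (d + 1) w₄ ++ w₅))))).map Sym.a)
      sc hc := by
    have := r1.append (c2.append (c3.append (c4.append (c5.append r5))))
    rw [rep_map, rep_map] at this
    simpa only [List.map_append] using this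
  have := A.count_eq hf first r'
  simp only [List.count_append, count_rep] at this
  have e1 : (d + 1) * w₄.count q = d * w₄.count q + w₄.count q := by ring
  rw [e1] at this
  omega

/-- An accepting run on `z c_q b^{|z|_q}` together with its configurations just before each letter
of `z` and just before `c_q`. -/
structure RunData (C : CSys (Sym n) σ) (s₀ : σ) (F : Set σ) (z : List (Fin n)) (q : Fin n) where
  T : ℕ → σ
  H : ℕ → ℕ
  f : σ
  hf : f ∈ F
  ready : ∀ i ≤ z.length, ∃ x s₂ h₂, C.step (T i) (H i) [x] s₂ h₂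
  start : C.Run s₀ 1 [] (T 0) (H 0)
  fin : C.Run (T z.length) (H z.length) (Sym.c q :: List.replicate (z.count q) Sym.b) f 0
  run : ∀ i j, i ≤ j → j ≤ z.length → C.Run (T i) (H i) ((seg z i j).map Sym.a) (T j) (H j)

lemma Accepts.exists_runData (A : Accepts C s₀ F P) (z : List (Fin n)) (q : Fin n) :
    Nonempty (RunData C s₀ F z q) := by
  obtain ⟨f, hf, r⟩ := (A.acc z q (z.count q)).2 rfl
  obtain ⟨T, H, h1, h2, h3, h4⟩ := CSys.Run.seq_ready (z.map Sym.a) r
  rw [List.length_map] at h1 h3 h4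
  exact ⟨⟨T, H, f, hf, h1, h2, h3, fun i j hij hj => by rw [← seg_map]; exact h4 i j hij hj⟩⟩

lemma seg_zero {β : Type} (z : List β) (i : ℕ) : seg z 0 i = z.take i := by simp [seg]

lemma seg_length_self {β : Type} (z : List β) (i : ℕ) : seg z i z.length = z.drop i := by
  unfold seg
  apply List.take_of_length_le
  simp

lemma RunData.run_to {z : List (Fin n)} {q : Fin n} (D : RunData C s₀ F z q) {i : ℕ}
    (hi : i ≤ z.length) : C.Run s₀ 1 ((z.take i).map Sym.a) (D.T i) (D.H i) := by
  have := D.start.append (D.run 0 i (Nat.zero_le _) hi)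
  rwa [List.nil_append, seg_zero] at this

lemma RunData.mem (A : Accepts C s₀ F P) {z : List (Fin n)} {q : Fin n} (D : RunData C s₀ F z q)
    {i : ℕ} (hi : i ≤ z.length) : D.T i ∈ P :=
  (D.run_to hi).mem A.closed A.start

lemma RunData.tail (A : Accepts C s₀ F P) {z : List (Fin n)} {q : Fin n} (D : RunData C s₀ F z q)
    (hM : (P.card + 1) + P.card * (P.card + 1) + 1 ≤ z.count q) :
    ∃ m₁ j m₃ s₂ h₂ e, 1 ≤ j ∧ 1 ≤ e ∧ m₁ + j + m₃ = z.count q ∧
      C.Run (D.T z.length) (D.H z.length) (Sym.c q :: List.replicate m₁ Sym.b) s₂ (h₂ + e) ∧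
      C.Run s₂ (h₂ + e) (List.replicate j Sym.b) s₂ h₂ ∧
      C.Run s₂ h₂ (List.replicate m₃ Sym.b) D.f 0 := by
  have := D.run_to le_rfl
  rw [List.take_length] at this
  exact A.tail_cycle D.hf this D.fin hM

/-- No zero cycle reading the letter `q`. -/
lemma RunData.no_zero (A : Accepts C s₀ F P) {z : List (Fin n)} {q : Fin n}
    (D : RunData C s₀ F z q) {i j : ℕ} (hij : i ≤ j) (hj : j ≤ z.length) (hT : D.T i = D.T j)
    (hH : D.H i = D.H j) : (seg z i j).count q = 0 := by
  have c1 := D.run_to (i := i) (by omega)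
  have c2 := D.run i j hij hj
  have c2' := D.run i j hij hj
  rw [← hT, ← hH] at c2'
  have c3 := D.run j z.length hj le_rfl
  have c4 := c1.append (c2'.append (c2.append c3))
  rw [← List.map_append, ← List.map_append, ← List.map_append] at c4
  have := A.count_eq D.hf c4 D.fin
  simp only [List.count_append] at this
  have h5 : z.count q = (z.take i).count q + ((seg z i j).count q + (seg z j z.length).count q) := by
    rw [← List.count_append, ← List.count_append, seg_append_seg z hij hj, seg_length_self,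
      List.take_append_drop]
  omega

end

end Pool.Agent.Helper60.GPrin
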