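import Pool.Agent.Helper60.GPrinRocMain

/-!
# The test language and abstract counter systems, continued
-/

namespace Pool.Agent.Helper60.GPrin

section

variable {n : ℕ} {σ : Type} {C : CSys (Sym n) σ} {s₀ : σ} {F : Set σ} {P : Finset σ}

/-- A positive cycle in the first part of the run, located before position `l`. -/
lemma RunData.pos_cycle (A : Accepts C s₀ F P) {z : List (Fin n)} {q : Fin n}
    (D : RunData C s₀ F z q) {l K N' : ℕ} (hl : l ≤ z.length) (hK : N' * K ≤ l)
    (hblock : ∀ x, x < N' → q ∈ seg z (x * K) ((x + 1) * K))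
    (hN' : P.card * (P.card * C.J + 2) < N' + 1) :
    ∃ (w₁ w₂ w₃ : List (Fin n)) (s₁ : σ) (h₁ d : ℕ), 1 ≤ d ∧ w₁ ++ (w₂ ++ w₃) = z.take l ∧
      C.Run s₀ 1 (w₁.map Sym.a) s₁ h₁ ∧ C.Run s₁ h₁ (w₂.map Sym.a) s₁ (h₁ + d) ∧
      C.Run s₁ (h₁ + d) (w₃.map Sym.a) (D.T l) (D.H l) := by
  classical
  by_cases hbd : ∃ x, x ≤ N' ∧ 1 + P.card * C.J < D.H (x * K)
  · obtain ⟨x, hx, hH⟩ := hbd
    have hxK : x * K ≤ l := (Nat.mul_le_mul_right K hx).trans hK
    have r := D.run_to (i := x * K) (by omega)
    obtain ⟨u₁, u₂, u₃, s₁, h₁, h₂, q1, q2, q3, q4, q5⟩ := A.up_cycle r A.start hH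
    obtain ⟨w₁, w', hw, hw₁, hw'⟩ := List.map_eq_append_iff.1 q5
    obtain ⟨w₂, w₃, hw2, hw₂, hw₃⟩ := List.map_eq_append_iff.1 hw'
    subst hw₁ hw₂ hw₃
    refine ⟨w₁, w₂, w₃ ++ seg z (x * K) l, s₁, h₁, h₂ - h₁, by omega, ?_, q2, ?_, ?_⟩
    · rw [← List.append_assoc w₂, ← List.append_assoc, ← hw2, ← hw, take_append_seg z hxK]
    · rw [Nat.add_sub_cancel' q1.le]; exact q3
    · rw [Nat.add_sub_cancel' q1.le, List.map_append]
      exact q4.append (D.run _ _ hxK hl)
  · exfalso
    push Not at hbd
    have hcard : (P ×ˢ Finset.range (P.card * C.J + 2)).card < (Finset.range (N' + 1)).card := by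
      rw [Finset.card_product, Finset.card_range, Finset.card_range]
      exact hN'
    obtain ⟨x, hx, y, hy, hxy, hT⟩ := Finset.exists_ne_map_eq_of_card_lt_of_maps_to hcard
      (f := fun x => (D.T (x * K), D.H (x * K))) (fun x hx => by
        rw [Finset.mem_coe, Finset.mem_range] at hx
        have hxK : x * K ≤ l := (Nat.mul_le_mul_right K (by omega)).trans hK
        rw [Finset.mem_coe, Finset.mem_product]
        refine ⟨D.mem A (by omega), ?_⟩
        have := hbd x (by omega)
        simp only [Finset.mem_range]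
        omega)
    rw [Finset.mem_range] at hx hy
    simp only [Prod.mk.injEq] at hT
    have key : ∀ x y, x < y → y ≤ N' → D.T (x * K) = D.T (y * K) → D.H (x * K) ≠ D.H (y * K) := by
      intro x y hxy hy hT hH
      have hyK : y * K ≤ l := (Nat.mul_le_mul_right K hy).trans hK
      have h1 : (x + 1) * K ≤ y * K := Nat.mul_le_mul_right K hxy
      have h2 : x * K ≤ (x + 1) * K := Nat.mul_le_mul_right K (by omega)
      have h0 := D.no_zero A (h2.trans h1) (by omega) hT hH
      have h3 := hblock x (by omega)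
      rw [← seg_append_seg z h2 h1, List.count_append] at h0
      have := List.count_pos_iff.2 h3
      omega
    rcases lt_or_gt_of_ne hxy with h | h
    · exact key x y h (by omega) hT.1 hT.2
    · exact key y x h (by omega) hT.1.symm hT.2.symm

/-- Cycles after position `l` that do not read `q` have zero effect. -/
lemma RunData.zero_effect (A : Accepts C s₀ F P) {z : List (Fin n)} {q : Fin n}
    (D : RunData C s₀ F z q) (hM : (P.card + 1) + P.card * (P.card + 1) + 1 ≤ z.count q)
    {l : ℕ}
    (hpos : ∃ (w₁ w₂ w₃ : List (Fin n)) (s₁ : σ) (h₁ d : ℕ), 1 ≤ d ∧ w₁ ++ (w₂ ++ w₃) = z.take l ∧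
      C.Run s₀ 1 (w₁.map Sym.a) s₁ h₁ ∧ C.Run s₁ h₁ (w₂.map Sym.a) s₁ (h₁ + d) ∧
      C.Run s₁ (h₁ + d) (w₃.map Sym.a) (D.T l) (D.H l))
    {i j : ℕ} (hli : l ≤ i) (hij : i ≤ j) (hj : j ≤ z.length) (hT : D.T i = D.T j)
    (hq : q ∉ seg z i j) : D.H i = D.H j := by
  obtain ⟨m₁, jj, m₃, s₂, h₂, e, hjj, he, hsum, t1, t2, t3⟩ := D.tail A hM
  obtain ⟨w₁, w₂, w₃, s₁, h₁, d, hd, hw, p1, p2, p3⟩ := hpos
  have hdec : z = w₁ ++ (w₂ ++ (w₃ ++ (seg z l i ++ (seg z i j ++ seg z j z.length)))) := by
    rw [seg_append_seg z hij hj, seg_append_seg z hli (hij.trans hj), seg_length_self,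
      ← List.append_assoc w₂, ← List.append_assoc, hw, List.take_append_drop]
  have hcz : z.count q = w₁.count q + (w₂.count q + (w₃.count q + ((seg z l i).count q +
      ((seg z i j).count q + (seg z j z.length).count q)))) := by
    conv_lhs => rw [hdec]
    simp only [List.count_append]
  rcases lt_trichotomy (D.H i) (D.H j) with h | h | h
  · exfalso
    obtain ⟨d', hd'⟩ : ∃ d', D.H j = D.H i + d' := ⟨D.H j - D.H i, by omega⟩
    have r2 : C.Run (D.T i) (D.H i) ((seg z i j).map Sym.a) (D.T i) (D.H i + d') := by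
      have := D.run i j hij hj
      rwa [← hT, hd'] at this
    have r3 := D.run j z.length hj le_rfl
    rw [← hT, hd'] at r3
    have hrat := A.ratio D.hf (D.run_to (i := i) (by omega)) r2 r3 t1 t2 t3 (by
      rw [hsum]
      have : z = z.take i ++ (seg z i j ++ seg z j z.length) := by
        rw [seg_append_seg z hij hj, seg_length_self, List.take_append_drop]
      conv_lhs => rw [this]
      simp only [List.count_append])
    rw [List.count_eq_zero.2 hq] at hrat
    have : 1 ≤ d' * jj := Nat.mul_pos (by omega) hjj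
    omega
  · exact h
  · exfalso
    obtain ⟨e', he'⟩ : ∃ e', D.H i = D.H j + e' := ⟨D.H i - D.H j, by omega⟩
    have r4 : C.Run (D.T j) (D.H j + e') ((seg z i j).map Sym.a) (D.T j) (D.H j) := by
      have := D.run i j hij hj
      rwa [hT, he'] at this
    have r3 : C.Run s₁ (h₁ + d) ((w₃ ++ seg z l i).map Sym.a) (D.T j) (D.H j + e') := by
      have := p3.append (D.run l i hli (by omega))
      rw [hT, he'] at this
      rw [List.map_append]; exact this
    have htwo := A.two_cycle D.hf p1 p2 r3 r4 (D.run j z.length hj le_rfl) D.fin (by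
      rw [hcz, List.count_append]; ring)
    have hrat := A.ratio D.hf p1 p2 (w₃ := w₃ ++ seg z l z.length) (by
      have := p3.append (D.run l z.length (by omega) le_rfl)
      rw [List.map_append]; exact this) t1 t2 t3 (by
      rw [hsum, hcz, List.count_append, ← seg_append_seg z hli (hij.trans hj),
        ← seg_append_seg z hij hj]
      simp only [List.count_append])
    have h1 : 1 ≤ d * jj := Nat.mul_pos hd hjj
    have h2 : w₂.count q = 0 := by
      rcases Nat.mul_eq_zero.1 htwo with h3 | h3
      · omega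
      · exact h3
    rw [h2, mul_zero] at hrat
    omega

/-- Two runs that are in the same state at a position at which one of them has a zero cycle reading
the letter of the other: impossible. -/
lemma RunData.separate (A : Accepts C s₀ F P) {z : List (Fin n)} {p q : Fin n}
    (Dp : RunData C s₀ F z p) (Dq : RunData C s₀ F z q)
    (hM : (P.card + 1) + P.card * (P.card + 1) + 1 ≤ z.count p)
    {l : ℕ}
    (hpos : ∃ (w₁ w₂ w₃ : List (Fin n)) (s₁ : σ) (h₁ d : ℕ), 1 ≤ d ∧ w₁ ++ (w₂ ++ w₃) = z.take l ∧
      C.Run s₀ 1 (w₁.map Sym.a) s₁ h₁ ∧ C.Run s₁ h₁ (w₂.map Sym.a) s₁ (h₁ + d) ∧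
      C.Run s₁ (h₁ + d) (w₃.map Sym.a) (Dp.T l) (Dp.H l))
    {i j : ℕ} (hli : l ≤ i) (hij : i ≤ j) (hj : j ≤ z.length) (hT : Dq.T i = Dq.T j)
    (hH : Dq.H i = Dq.H j) (hpm : p ∈ seg z i j) : Dp.T i ≠ Dq.T i := by
  intro hpq
  obtain ⟨m₁, jj, m₃, s₂, h₂, e, hjj, he, hsum, t1, t2, t3⟩ := Dp.tail A hM
  obtain ⟨w₁, w₂, w₃, s₁, h₁, d, hd, hw, p1, p2, p3⟩ := hpos
  have hil : i ≤ z.length := hij.trans hj
  have hcz : z.count p = w₁.count p + (w₂.count p + ((w₃ ++ seg z l i).count p +
      (seg z i z.length).count p)) := by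
    have hdec : z = w₁ ++ (w₂ ++ ((w₃ ++ seg z l i) ++ seg z i z.length)) := by
      rw [List.append_assoc w₃, seg_append_seg z hli hil, seg_length_self,
        ← List.append_assoc w₂, ← List.append_assoc, hw, List.take_append_drop]
    conv_lhs => rw [hdec]
    simp only [List.count_append]
  have r3 : C.Run s₁ (h₁ + d) ((w₃ ++ seg z l i).map Sym.a) (Dp.T i) (Dp.H i) := by
    have := p3.append (Dp.run l i hli hil)
    rw [List.map_append]; exact this
  have ru : C.Run (Dp.T i) (Dq.H i) ((seg z i j).map Sym.a) (Dp.T i) (Dq.H i) := by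
    have := Dq.run i j hij hj
    rwa [← hT, ← hH, ← hpq] at this
  have hmast := A.master Dp.hf p1 p2 r3 ru (Dp.run i z.length hil le_rfl) t1 t2 t3 (Dq.H i) (by
    have : 1 ≤ e * d := Nat.mul_pos he hd
    calc Dq.H i = Dq.H i * 1 := by ring
      _ ≤ Dq.H i * (e * d) := Nat.mul_le_mul_left _ this
      _ = Dq.H i * e * d := by ring
      _ ≤ _ := by omega)
  have hrat := A.ratio Dp.hf p1 p2 (w₃ := (w₃ ++ seg z l i) ++ seg z i z.length) (by
      rw [List.map_append]; exact r3.append (Dp.run i z.length hil le_rfl)) t1 t2 t3 (by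
      rw [hsum, hcz]; simp only [List.count_append])
  have hcp := List.count_pos_iff.2 hpm
  have h1 : Dq.H i * e * w₂.count p = Dq.H i * d * jj := by
    rw [mul_assoc, hrat]; ring
  have h2 : (Dq.H i * d + 1) * jj = Dq.H i * d * jj + jj := by ring
  rw [h1, h2] at hmast
  omega

end

/-- The main theorem on counter systems: if the accepted words of the form `w c_q b^m` are those of
the test language then there are `n` runs reading the same word over the `a i`, all of them just
before a letter, in `n` different states. -/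
theorem counter_main {n : ℕ} {σ : Type} {C : CSys (Sym n) σ} {s₀ : σ} {F : Set σ} {P : Finset σ}
    (A : Accepts C s₀ F P) :
    ∃ (w : List (Fin n)) (T : Fin n → σ) (H : Fin n → ℕ), Function.Injective T ∧
      ∀ q, C.Run s₀ 1 (w.map Sym.a) (T q) (H q) ∧ ∃ x s₂ h₂, C.step (T q) (H q) [x] s₂ h₂ := by
  classical
  rcases Nat.eq_zero_or_pos n with hn0 | hnpos
  · subst hn0
    exact ⟨[], fun q => q.elim0, fun q => q.elim0, fun q => q.elim0, fun q => q.elim0⟩
  set κ := P.card with hκ
  -- the letters
  let a : ℕ → Fin n := fun p => if h : p < n then ⟨p, h⟩ else ⟨0, hnpos⟩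
  have ha : ∀ q : Fin n, a q.val = q := by
    intro q; simp [a, q.2]
  set N' := κ * (κ * C.J + 2) + ((κ + 1) + κ * (κ + 1) + 1) with hN'
  set U : List (Fin n) := rep N' (List.finRange n) with hU
  -- colors
  let κt : ℕ → Type := fun _ => Fin n → {s // s ∈ P}
  let N : ℕ → ℕ := fun _ => Fintype.card (Fin n → {s // s ∈ P}) + 1
  set z : List (Fin n) := U ++ W a N n ++ [] with hz
  have hUlen : U.length = N' * n := by rw [hU, length_rep, List.length_finRange]
  have hzU : ∀ x, x < N' → ∀ q, q ∈ seg z (x * n) ((x + 1) * n) := by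
    intro x hx q
    rw [mem_seg]
    refine ⟨x * n + q.val, by omega, by rw [add_mul, one_mul]; have := q.2; omega, ?_⟩
    have hUx : U = rep x (List.finRange n) ++ (List.finRange n ++ rep (N' - x - 1) (List.finRange n)) := by
      rw [hU]
      have : N' = x + ((N' - x - 1) + 1) := by omega
      conv_lhs => rw [this]
      rw [rep_add, rep_succ]
    rw [hz, hUx]
    simp only [List.append_assoc]
    rw [List.getElem?_append_right (by rw [length_rep, List.length_finRange]; omega), length_rep,
      List.length_finRange, Nat.add_sub_cancel_left, List.getElem?_append_left (by simp)]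
    simp
  have hcount : ∀ q, (κ + 1) + κ * (κ + 1) + 1 ≤ z.count q := by
    intro q
    have h1 : U.count q = N' := by
      rw [hU, count_rep, List.count_eq_one_of_mem (List.nodup_finRange n) (List.mem_finRange q),
        mul_one]
    rw [hz, List.count_append, List.count_append, h1]
    omega
  -- the runs
  have hrd := fun q => A.exists_runData z q
  let D : ∀ q, RunData C s₀ F z q := fun q => (hrd q).some
  have hlU : U.length ≤ z.length := by rw [hz]; simp
  have hpos : ∀ q, _ := fun q => (D q).pos_cycle A (l := U.length) (K := n) (N' := N') hlU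
    (by rw [hUlen]) (fun x hx => hzU x hx q) (by rw [← hκ]; omega)
  -- coloring
  let col : ∀ p, ℕ → κt p := fun _ i q =>
    if h : (D q).T i ∈ P then ⟨(D q).T i, h⟩ else ⟨s₀, A.start⟩
  obtain ⟨i, hi1, hi2, hi3⟩ := nested a N z κt col n (fun p _ => by
    simp only [κt, N]; exact Nat.lt_succ_self _) n le_rfl U [] hz
  have hzlen : z.length = U.length + (W a N n).length := by rw [hz]; simp
  have hiz : i ≤ z.length := by omega
  refine ⟨z.take i, fun q => (D q).T i, fun q => (D q).H i, ?_, fun q => ⟨(D q).run_to hiz,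
    (D q).ready i hiz⟩⟩
  -- injectivity
  have key : ∀ p q : Fin n, p < q → (D p).T i ≠ (D q).T i := by
    intro p q hpq
    obtain ⟨e, he1, he2, he3, he4, he5⟩ := hi3 p.val p.2
    have hez : e ≤ z.length := by omega
    have hTe : (D q).T i = (D q).T e := by
      have h1 := congrFun he3 q
      simp only [col] at h1
      rw [dif_pos ((D q).mem A hiz), dif_pos ((D q).mem A hez)] at h1
      exact congrArg Subtype.val h1
    have hqs : q ∉ seg z i e := by
      intro hmem
      rw [mem_seg] at hmem
      obtain ⟨k, hk1, hk2, hk3⟩ := hmem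
      obtain ⟨r, hr, hr'⟩ := he5 k hk1 hk2
      rw [hk3] at hr'
      have h1 : q = a r := by simpa using hr'
      have h2 : r < n := lt_of_le_of_lt hr p.2
      have h3 : q.val = r := by rw [h1]; simp [a, h2]
      have h4 : p.val < q.val := hpq
      omega
    have hps : p ∈ seg z i e := by
      rw [mem_seg]
      obtain ⟨k, hk1, hk2, hk3⟩ := he4
      exact ⟨k, hk1, hk2, by rw [hk3, ha]⟩
    have hHe := (D q).zero_effect A (hcount q) (hpos q) hi1 he1.le hez hTe hqs
    exact (D p).separate A (D q) (hcount p) (hpos p) hi1 he1.le hez hTe hHe hps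
  intro p q hpq
  by_contra hne
  rcases lt_or_gt_of_ne hne with h | h
  · exact key p q h hpq
  · exact key q p h hpq.symm

end Pool.Agent.Helper60.GPrin
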