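import Mathlib

open Filter Topology

/-!
# Sequences with an irrational rotation limit do not form a Borel set

The set of integer sequences `n` for which some non root of unity `z` on the unit circle satisfies
`z ^ n k → 1` is not Borel in `ℕ → ℤ`.

Idea.  Nodes are pairs `(v, m)` (finite sequence, counter) with two children `(v, m+1)` and
`(m :: v, 0)`.  A real number is written as a Cantor type series `∑ c_i / 2 ^ B (i+1)` whose digits
are indexed by the nodes.  For a tree `T` the conditions `‖n_k x‖ → 0` can be chosen, continuously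
in `T`, so that they say: for all but finitely many nodes `s`, the digit at `s` is the sum of the
digits at the two children if `s` is in `T` and is zero otherwise, and the digit at `s` is `o(L s)`
where `L s` is the length of the sequence part of `s` plus two.  An irrational solution exists
exactly when `T` has an infinite branch.  This reduces the diagonal analytic set `D`, whose
complement is not analytic, to the set in question.
-/

namespace Pool.Agent.Helper60.NotBorel

/-- distance to the nearest integer -/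
noncomputable def nn (t : ℝ) : ℝ := |t - round t|

lemma nn_nonneg (t : ℝ) : 0 ≤ nn t := abs_nonneg _

lemma nn_le_half (t : ℝ) : nn t ≤ 1/2 := abs_sub_round t

lemma nn_add_int (t : ℝ) (k : ℤ) : nn (t + k) = nn t := by
  simp [nn, round_add_intCast]

lemma nn_le_abs (t : ℝ) (k : ℤ) : nn t ≤ |t - k| := round_le t k

lemma nn_le_abs' (t : ℝ) : nn t ≤ |t| := by
  simpa using nn_le_abs t 0

lemma nn_eq_abs (t : ℝ) (h : |t| ≤ 1/2) : nn t = |t| := by
  apply le_antisymm (nn_le_abs' t)
  unfold nn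
  by_cases hr : round t = 0
  · simp [hr]
  · have h1 : (1:ℝ) ≤ |(round t : ℝ)| := by
      have : (1:ℤ) ≤ |round t| := Int.one_le_abs hr
      exact_mod_cast this
    have h2 : |(round t : ℝ)| - |t| ≤ |(round t : ℝ) - t| := abs_sub_abs_le_abs_sub _ _
    rw [abs_sub_comm] at h2
    linarith

lemma nn_dichotomy (t : ℝ) (h : |t| < 2/3) : nn t = |t| ∨ 1/3 < nn t := by
  by_cases h1 : |t| ≤ 1/2
  · left; exact nn_eq_abs t h1
  · push Not at h1
    right
    unfold nn
    by_cases hr : round t = 0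
    · simp only [hr, Int.cast_zero, sub_zero]; linarith
    · have h1 : (1:ℝ) ≤ |(round t : ℝ)| := by
        have : (1:ℤ) ≤ |round t| := Int.one_le_abs hr
        exact_mod_cast this
      have h2 : |(round t : ℝ)| - |t| ≤ |(round t : ℝ) - t| := abs_sub_abs_le_abs_sub _ _
      rw [abs_sub_comm] at h2
      linarith

lemma mult_small (w ε : ℝ) (M : ℕ) (hε : ε ≤ 1/3) (hM : 1 ≤ M)
    (h : ∀ m : ℕ, m ≤ M → nn (m * w) < ε) : M * nn w < ε := by
  set w' : ℝ := w - round w with hw'
  have hnn : nn w = |w'| := rfl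
  have key : ∀ m : ℕ, 1 ≤ m → m ≤ M → m * |w'| < ε := by
    intro m hm
    induction m, hm using Nat.le_induction with
    | base =>
      intro h1
      have := h 1 h1
      simpa [hnn] using this
    | succ m hm ih =>
      intro hmM
      have h1 := ih (by omega)
      have h0 : |w'| < ε := by
        have := h 1 (by omega)
        simpa [hnn] using this
      have h2 := h (m+1) hmM
      have h3 : nn (((m+1 : ℕ):ℝ) * w) = nn (((m+1 : ℕ):ℝ) * w') := by
        have : (((m+1 : ℕ):ℝ) * w) = (((m+1 : ℕ):ℝ) * w') + (((m+1:ℕ):ℤ) * round w : ℤ) := by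
          rw [hw']; push_cast; ring
        rw [this, nn_add_int]
      rw [h3] at h2
      have h4 : |((m+1 : ℕ):ℝ) * w'| = ((m+1 : ℕ):ℝ) * |w'| := by
        rw [abs_mul, abs_of_nonneg (by positivity)]
      have h5 : |((m+1 : ℕ):ℝ) * w'| < 2/3 := by
        rw [h4]; push_cast; nlinarith
      rcases nn_dichotomy _ h5 with h6 | h6
      · rw [h6, h4] at h2; exact h2
      · linarith
  rw [hnn]
  exact key M hM le_rfl


section NT

variable (L : ℕ → ℕ) (ch0 ch1 : ℕ → ℕ)

/-- exponents -/
def B : ℕ → ℕ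
  | 0 => 0
  | i + 1 => B i + (L i + 4 + i)

open Classical in
/-- The base integer of the second block. -/
noncomputable def g (T : Set ℕ) (i : ℕ) : ℤ :=
  if i ∈ T then 2 ^ (B L i + i) - 2 ^ (B L (ch0 i) + ch0 i) - 2 ^ (B L (ch1 i) + ch1 i + 1)
  else 2 ^ (B L i + i)

/-- The family of integers attached to a set `T` of nodes. -/
noncomputable def F (T : Set ℕ) (p : ℕ × ℕ × Bool) : ℤ :=
  match p.2.2 with
  | false => if p.2.1 * L p.1 ≤ 2 ^ (L p.1 + 4 + p.1) then p.2.1 * 2 ^ (B L p.1) else 0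
  | true => if p.2.1 ≤ 2 ^ (L p.1 + 4) then p.2.1 * g L ch0 ch1 T p.1 else 0

lemma eventually_fst {P : ℕ × ℕ × Bool → Prop} (h : ∀ᶠ p in cofinite, P p) :
    ∀ᶠ i in cofinite, ∀ m b, P (i, m, b) := by
  rw [eventually_cofinite] at h ⊢
  refine (h.image Prod.fst).subset ?_
  intro i hi
  simp only [Set.mem_ofPred_eq, not_forall] at hi
  obtain ⟨m, b, hmb⟩ := hi
  exact ⟨(i, m, b), hmb, rfl⟩

theorem forward (hL : ∀ i, 1 ≤ L i) (h0 : Function.Injective ch0) (h1 : Function.Injective ch1)
    (hL0 : ∀ i, L (ch0 i) = L i) (hL1 : ∀ i, L (ch1 i) = L i + 1) (T : Set ℕ) (x : ℝ)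
    (hx : ∀ N : ℕ, 0 < N → ∀ k : ℤ, (N : ℝ) * x ≠ k)
    (ht : Tendsto (fun p => nn ((F L ch0 ch1 T p : ℝ) * x)) cofinite (𝓝 0)) :
    ∃ c : ℕ → ℤ, (∀ᶠ i in cofinite, i ∈ T → c i = c (ch0 i) + c (ch1 i)) ∧
      (∀ᶠ i in cofinite, i ∉ T → c i = 0) ∧
      (∀ ε : ℝ, 0 < ε → ∀ᶠ i in cofinite, |(c i : ℝ)| ≤ ε * L i) ∧
      (∃ᶠ i in cofinite, c i ≠ 0) := by
  -- notation
  set X : ℕ → ℝ := fun i => 2 ^ (B L i) * x with hX
  set y : ℕ → ℝ := fun i => X i - round (X i) with hy
  set c : ℕ → ℤ := fun i => round (X (i+1)) - 2 ^ (L i + 4 + i) * round (X i) with hc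
  have hnny : ∀ i, nn (X i) = |y i| := fun i => rfl
  have hQ : ∀ i, (2:ℝ) ^ (L i + 4 + i) * y i = c i + y (i+1) := by
    intro i
    have : X (i+1) = 2 ^ (L i + 4 + i) * X i := by
      simp only [hX, B]; rw [pow_add]; ring
    simp only [hy, hc]
    push_cast
    rw [this]; ring
  have hyhalf : ∀ i, |y i| ≤ 1/2 := fun i => abs_sub_round _
  -- eventual bounds
  have hev : ∀ ε : ℝ, 0 < ε → ∀ᶠ i in cofinite, ∀ m b, nn ((F L ch0 ch1 T (i, m, b) : ℝ) * x) < ε := by
    intro ε hε
    exact eventually_fst (ht.eventually (gt_mem_nhds hε) )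
  -- bound for y
  have hyA : ∀ ε : ℝ, 0 < ε → ε ≤ 1/3 → ∀ᶠ i in cofinite,
      |y i| < ε ∧ (2:ℝ) ^ (L i + 4 + i) * |y i| < 2 * L i * ε := by
    intro ε hε hε3
    filter_upwards [hev ε hε] with i hi
    have hi' : ∀ m : ℕ, m * L i ≤ 2 ^ (L i + 4 + i) → nn (m * X i) < ε := by
      intro m hm
      have := hi m false
      simp only [F, hm, if_true] at this
      push_cast at this
      rw [mul_assoc] at this
      exact this
    have hLpos : 0 < L i := hL i
    have hLpow : L i < 2 ^ (L i) := Nat.lt_two_pow_self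
    have hLQ : L i ≤ 2 ^ (L i + 4 + i) := by
      calc L i ≤ 2 ^ (L i) := hLpow.le
        _ ≤ 2 ^ (L i + 4 + i) := Nat.pow_le_pow_right (by norm_num) (by omega)
    have hi1 : |y i| < ε := by
      have := hi' 1 (by simpa using hLQ)
      simpa [hnny] using this
    refine ⟨hi1, ?_⟩
    set M : ℕ := 2 ^ (L i + 4 + i) / L i with hM
    have hM1 : 1 ≤ M := (Nat.one_le_div_iff hLpos).2 hLQ
    have hML : ∀ m, m ≤ M → m * L i ≤ 2 ^ (L i + 4 + i) := by
      intro m hm
      calc m * L i ≤ M * L i := Nat.mul_le_mul_right _ hm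
        _ ≤ _ := Nat.div_mul_le_self _ _
    have := mult_small (X i) ε M hε3 hM1 (fun m hm => hi' m (hML m hm))
    rw [hnny] at this
    have hQM : 2 ^ (L i + 4 + i) ≤ 2 * (M * L i) := by
      have h3 : 2 ^ (L i + 4 + i) < (M + 1) * L i := by
        rw [hM]
        have := Nat.lt_div_mul_add hLpos (a := 2 ^ (L i + 4 + i))
        nlinarith
      nlinarith
    have hQM' : (2:ℝ) ^ (L i + 4 + i) ≤ 2 * (M * L i) := by exact_mod_cast hQM
    have hy0 : 0 ≤ |y i| := abs_nonneg _
    have hL' : (0:ℝ) < L i := by exact_mod_cast hLpos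
    calc (2:ℝ) ^ (L i + 4 + i) * |y i| ≤ 2 * (M * L i) * |y i| := by gcongr
      _ = 2 * L i * (M * |y i|) := by ring
      _ < 2 * L i * ε := by
        apply mul_lt_mul_of_pos_left this (by positivity)
  have hsucc : ∀ {P : ℕ → Prop}, (∀ᶠ i in cofinite, P i) → ∀ᶠ i in cofinite, P (i+1) := by
    intro P hP
    exact ((add_left_injective 1).tendsto_cofinite).eventually hP
  have hc0 : ∀ {P : ℕ → Prop}, (∀ᶠ i in cofinite, P i) → ∀ᶠ i in cofinite, P (ch0 i) := by
    intro P hP
    exact (h0.tendsto_cofinite).eventually hP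
  have hc1 : ∀ {P : ℕ → Prop}, (∀ᶠ i in cofinite, P i) → ∀ᶠ i in cofinite, P (ch1 i) := by
    intro P hP
    exact (h1.tendsto_cofinite).eventually hP
  have hcb : ∀ ε : ℝ, 0 < ε → ε ≤ 1/3 → ∀ᶠ i in cofinite,
      |y i| < ε ∧ |y (i+1)| < ε ∧ |(c i : ℝ)| ≤ 3 * ε * L i := by
    intro ε hε hε3
    filter_upwards [hyA ε hε hε3, hsucc (hyA ε hε hε3)] with i hi hi1
    refine ⟨hi.1, hi1.1, ?_⟩
    have h2 : (c i : ℝ) = (2:ℝ) ^ (L i + 4 + i) * y i - y (i+1) := by rw [hQ]; ring
    have hL' : (1:ℝ) ≤ L i := by exact_mod_cast hL i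
    have h3 : |(c i : ℝ)| ≤ |(2:ℝ) ^ (L i + 4 + i) * y i| + |y (i+1)| := by
      rw [h2]; exact abs_sub _ _
    rw [abs_mul, abs_of_pos (by positivity : (0:ℝ) < 2 ^ (L i + 4 + i))] at h3
    nlinarith [hi.2, hi1.1]
  -- scaled
  have hscale : ∀ i, (2:ℝ)^i * y i = (c i + y (i+1)) / 2 ^ (L i + 4) := by
    intro i
    rw [← hQ, pow_add (2:ℝ) (L i + 4) i]
    field_simp
  have hXscale : ∀ i, ∃ k : ℤ, (2:ℝ)^i * X i = (c i + y (i+1)) / 2 ^ (L i + 4) + k := by
    intro i
    refine ⟨2^i * round (X i), ?_⟩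
    rw [← hscale]
    simp only [hy]; push_cast; ring
  have hLp : ∀ i, (L i : ℝ) ≤ 2 ^ (L i) := by
    intro i
    have hLpow : L i < 2 ^ (L i) := Nat.lt_two_pow_self
    exact_mod_cast hLpow.le
  refine ⟨c, ?_, ?_, ?_, ?_⟩
  · -- flow
    have e1 : (0:ℝ) < 1/100 := by norm_num
    have e2 : (1:ℝ)/100 ≤ 1/3 := by norm_num
    filter_upwards [hev _ e1, hcb _ e1 e2, hc0 (hcb _ e1 e2), hc1 (hcb _ e1 e2)] with i hi hci hci0 hci1 hiT
    set d : ℤ := c i - c (ch0 i) - c (ch1 i) with hd
    set η : ℝ := y (i+1) - y (ch0 i + 1) - y (ch1 i + 1) with hη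
    have hgx : ∃ k : ℤ, (g L ch0 ch1 T i : ℝ) * x = (d + η) / 2 ^ (L i + 4) + k := by
      obtain ⟨k1, hk1⟩ := hXscale i
      obtain ⟨k2, hk2⟩ := hXscale (ch0 i)
      obtain ⟨k3, hk3⟩ := hXscale (ch1 i)
      refine ⟨k1 - k2 - 2 * k3, ?_⟩
      have : (g L ch0 ch1 T i : ℝ) * x = (2:ℝ)^i * X i - (2:ℝ)^(ch0 i) * X (ch0 i)
          - 2 * ((2:ℝ)^(ch1 i) * X (ch1 i)) := by
        simp only [g, hiT, if_true, hX]
        push_cast
        simp only [pow_add, pow_one]
        ring
      rw [this, hk1, hk2, hk3, hL0, hL1, hd, hη]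
      push_cast
      rw [show L i + 1 + 4 = (L i + 4) + 1 by ring, pow_succ (2:ℝ) (L i + 4)]
      field_simp
      ring
    obtain ⟨k, hk⟩ := hgx
    set w : ℝ := (d + η) / 2 ^ (L i + 4) with hw
    have hL' : (1:ℝ) ≤ L i := by exact_mod_cast hL i
    have hηb : |η| ≤ 3/100 := by
      have a1 := abs_le.1 hci.2.1.le
      have a2 := abs_le.1 hci0.2.1.le
      have a3 := abs_le.1 hci1.2.1.le
      rw [abs_le]
      constructor <;> linarith [a1.1, a1.2, a2.1, a2.2, a3.1, a3.2]
    have hdb : |(d:ℝ)| ≤ 12/100 * L i := by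
      have a1 := abs_le.1 hci.2.2
      have a2 := abs_le.1 hci0.2.2
      have a3 := abs_le.1 hci1.2.2
      rw [hL0] at a2
      rw [hL1] at a3
      push_cast at a3
      rw [hd]
      push_cast
      rw [abs_le]
      constructor <;> linarith [a1.1, a1.2, a2.1, a2.2, a3.1, a3.2]
    have hwb : |w| ≤ 1/2 := by
      rw [hw, abs_div, abs_of_pos (by positivity : (0:ℝ) < 2 ^ (L i + 4)), div_le_iff₀ (by positivity)]
      have : |(d:ℝ) + η| ≤ |(d:ℝ)| + |η| := abs_add_le _ _
      rw [pow_add]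
      have := hLp i
      nlinarith
    have hnnw : nn ((g L ch0 ch1 T i : ℝ) * x) = |w| := by
      rw [hk, nn_add_int, nn_eq_abs w hwb]
    have hms := mult_small ((g L ch0 ch1 T i : ℝ) * x) (1/100) (2 ^ (L i + 4)) e2
      (Nat.one_le_two_pow) (by
        intro m hm
        have := hi m true
        simp only [F, hm, if_true] at this
        push_cast at this
        rw [mul_assoc] at this
        exact this)
    rw [hnnw] at hms
    have hdη : |(d:ℝ) + η| < 1/100 := by
      have : |w| = |(d:ℝ) + η| / 2 ^ (L i + 4) := by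
        rw [hw, abs_div, abs_of_pos (by positivity : (0:ℝ) < 2 ^ (L i + 4))]
      rw [this] at hms
      push_cast at hms
      rwa [mul_div_cancel₀ _ (by positivity : (2:ℝ) ^ (L i + 4) ≠ 0)] at hms
    have hd1 : |(d:ℝ)| < 1 := by
      have a1 := abs_lt.1 hdη
      have a2 := abs_le.1 hηb
      rw [abs_lt]
      constructor <;> linarith [a1.1, a1.2, a2.1, a2.2]
    have hd0 : d = 0 := by
      have : |d| < 1 := by exact_mod_cast hd1
      exact Int.abs_lt_one_iff.1 this
    rw [hd] at hd0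
    linarith
  · -- off T
    have e1 : (0:ℝ) < 1/100 := by norm_num
    have e2 : (1:ℝ)/100 ≤ 1/3 := by norm_num
    filter_upwards [hev _ e1, hcb _ e1 e2] with i hi hci hiT
    have hgx : ∃ k : ℤ, (g L ch0 ch1 T i : ℝ) * x = (c i + y (i+1)) / 2 ^ (L i + 4) + k := by
      obtain ⟨k1, hk1⟩ := hXscale i
      refine ⟨k1, ?_⟩
      have : (g L ch0 ch1 T i : ℝ) * x = (2:ℝ)^i * X i := by
        simp only [g, hiT, if_false, hX]
        push_cast
        simp only [pow_add]
        ring
      rw [this, hk1]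
    obtain ⟨k, hk⟩ := hgx
    set w : ℝ := (c i + y (i+1)) / 2 ^ (L i + 4) with hw
    have hL' : (1:ℝ) ≤ L i := by exact_mod_cast hL i
    have hηb : |y (i+1)| ≤ 1/100 := hci.2.1.le
    have hdb : |(c i:ℝ)| ≤ 3/100 * L i := by
      have := hci.2.2; linarith
    have hwb : |w| ≤ 1/2 := by
      rw [hw, abs_div, abs_of_pos (by positivity : (0:ℝ) < 2 ^ (L i + 4)), div_le_iff₀ (by positivity)]
      have : |(c i:ℝ) + y (i+1)| ≤ |(c i:ℝ)| + |y (i+1)| := abs_add_le _ _
      rw [pow_add]
      have := hLp i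
      nlinarith
    have hnnw : nn ((g L ch0 ch1 T i : ℝ) * x) = |w| := by
      rw [hk, nn_add_int, nn_eq_abs w hwb]
    have hms := mult_small ((g L ch0 ch1 T i : ℝ) * x) (1/100) (2 ^ (L i + 4)) e2
      (Nat.one_le_two_pow) (by
        intro m hm
        have := hi m true
        simp only [F, hm, if_true] at this
        push_cast at this
        rw [mul_assoc] at this
        exact this)
    rw [hnnw] at hms
    have hdη : |(c i:ℝ) + y (i+1)| < 1/100 := by
      have : |w| = |(c i:ℝ) + y (i+1)| / 2 ^ (L i + 4) := by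
        rw [hw, abs_div, abs_of_pos (by positivity : (0:ℝ) < 2 ^ (L i + 4))]
      rw [this] at hms
      push_cast at hms
      rwa [mul_div_cancel₀ _ (by positivity : (2:ℝ) ^ (L i + 4) ≠ 0)] at hms
    have hd1 : |(c i:ℝ)| < 1 := by
      have a1 := abs_lt.1 hdη
      have a2 := abs_le.1 hηb
      rw [abs_lt]
      constructor <;> linarith [a1.1, a1.2, a2.1, a2.2]
    have : |c i| < 1 := by exact_mod_cast hd1
    exact Int.abs_lt_one_iff.1 this
  · -- growth
    intro ε hε
    have hε' : 0 < min (ε/3) (1/3) := by positivity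
    filter_upwards [hcb _ hε' (min_le_right _ _)] with i hi
    refine hi.2.2.trans ?_
    have : min (ε/3) (1/3) ≤ ε/3 := min_le_left _ _
    have hL' : (1:ℝ) ≤ L i := by exact_mod_cast hL i
    nlinarith
  · -- infinitely many nonzero
    intro hcon
    simp only [not_not] at hcon
    rw [Nat.cofinite_eq_atTop, eventually_atTop] at hcon
    obtain ⟨i0, hi0⟩ := hcon
    have hstep : ∀ n, |y i0| ≤ |y (i0 + n)| / 2 ^ n := by
      intro n
      induction n with
      | zero => simp
      | succ n ih =>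
        refine ih.trans ?_
        have h3 := hQ (i0 + n)
        rw [hi0 (i0+n) (by omega)] at h3
        simp only [Int.cast_zero, zero_add] at h3
        have h4 : (2:ℝ) * |y (i0+n)| ≤ |y (i0 + n + 1)| := by
          rw [← h3, abs_mul, abs_of_pos (by positivity : (0:ℝ) < 2 ^ (L (i0+n) + 4 + (i0+n)))]
          have : (2:ℝ) ≤ 2 ^ (L (i0+n) + 4 + (i0+n)) := by
            calc (2:ℝ) = 2 ^ 1 := by norm_num
              _ ≤ _ := pow_le_pow_right₀ (by norm_num) (by omega)
          gcongr
        rw [pow_succ, div_le_div_iff₀ (by positivity) (by positivity), ← add_assoc]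
        nlinarith [show (0:ℝ) < 2^n by positivity]
    have hy0 : y i0 = 0 := by
      by_contra hne
      have hpos : 0 < |y i0| := abs_pos.2 hne
      obtain ⟨n, hn⟩ := exists_pow_lt_of_lt_one hpos (by norm_num : (1/2:ℝ) < 1)
      have h5 := hstep n
      have h6 := hyhalf (i0 + n)
      have h7 : |y (i0+n)| / 2^n ≤ (1/2)^n := by
        rw [div_pow, one_pow]
        gcongr
        linarith
      linarith
    refine hx (2 ^ (B L i0)) (by positivity) (round (X i0)) ?_
    push_cast
    have : X i0 - round (X i0) = 0 := hy0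
    simp only [hX] at this ⊢
    linarith

end NT

section NT2

variable (L : ℕ → ℕ) (ch0 ch1 : ℕ → ℕ)

lemma B_add (i j : ℕ) : B L i + j ≤ B L (i + j) := by
  induction j with
  | zero => simp
  | succ j ih =>
    have h1 : B L (i + (j + 1)) = B L (i + j) + (L (i + j) + 4 + (i + j)) := rfl
    omega

/-- Tails of a Cantor type series. -/
noncomputable def tl (c : ℕ → ℤ) (i : ℕ) : ℝ :=
  ∑' j : ℕ, (c (i + j) : ℝ) * ((2:ℝ) ^ (B L i) / 2 ^ (B L (i + j + 1)))

lemma tl_term (c : ℕ → ℤ) (hc : ∀ i, 0 ≤ c i ∧ c i ≤ 1) (i j : ℕ) :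
    0 ≤ (c (i + j) : ℝ) * ((2:ℝ) ^ (B L i) / 2 ^ (B L (i + j + 1))) ∧
    (c (i + j) : ℝ) * ((2:ℝ) ^ (B L i) / 2 ^ (B L (i + j + 1))) ≤ (1/2) ^ (j + 1) := by
  have h0 : (0:ℝ) ≤ c (i+j) := by exact_mod_cast (hc (i+j)).1
  have h1 : (c (i+j) : ℝ) ≤ 1 := by exact_mod_cast (hc (i+j)).2
  have h2 : (2:ℝ) ^ (B L i) / 2 ^ (B L (i + j + 1)) ≤ (1/2) ^ (j+1) := by
    rw [div_pow, one_pow, div_le_div_iff₀ (by positivity) (by positivity), one_mul, ← pow_add]
    apply pow_le_pow_right₀ (by norm_num)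
    exact B_add L i (j+1)
  have h3 : (0:ℝ) ≤ (2:ℝ) ^ (B L i) / 2 ^ (B L (i + j + 1)) := by positivity
  constructor
  · positivity
  · calc _ ≤ 1 * ((2:ℝ) ^ (B L i) / 2 ^ (B L (i + j + 1))) := by gcongr
      _ ≤ _ := by rw [one_mul]; exact h2

lemma summable_half : Summable (fun j : ℕ => ((1:ℝ)/2) ^ (j + 1)) := by
  have := (summable_geometric_of_lt_one (by norm_num : (0:ℝ) ≤ 1/2) (by norm_num : (1/2:ℝ) < 1))
  exact (summable_nat_add_iff 1).2 this

lemma tsum_half : ∑' j : ℕ, ((1:ℝ)/2) ^ (j + 1) = 1 := by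
  simp_rw [pow_succ]
  rw [tsum_mul_right, tsum_geometric_of_lt_one (by norm_num) (by norm_num)]
  norm_num

lemma tl_summable (c : ℕ → ℤ) (hc : ∀ i, 0 ≤ c i ∧ c i ≤ 1) (i : ℕ) :
    Summable (fun j : ℕ => (c (i + j) : ℝ) * ((2:ℝ) ^ (B L i) / 2 ^ (B L (i + j + 1)))) :=
  Summable.of_nonneg_of_le (fun j => (tl_term L c hc i j).1) (fun j => (tl_term L c hc i j).2)
    summable_half

lemma tl_nonneg (c : ℕ → ℤ) (hc : ∀ i, 0 ≤ c i ∧ c i ≤ 1) (i : ℕ) : 0 ≤ tl L c i :=
  tsum_nonneg fun j => (tl_term L c hc i j).1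

lemma tl_le_one (c : ℕ → ℤ) (hc : ∀ i, 0 ≤ c i ∧ c i ≤ 1) (i : ℕ) : tl L c i ≤ 1 := by
  rw [← tsum_half]
  exact (tl_summable L c hc i).tsum_le_tsum (fun j => (tl_term L c hc i j).2) summable_half

lemma tl_rec (c : ℕ → ℤ) (hc : ∀ i, 0 ≤ c i ∧ c i ≤ 1) (i : ℕ) :
    (2:ℝ) ^ (L i + 4 + i) * tl L c i = c i + tl L c (i+1) := by
  unfold tl
  rw [(tl_summable L c hc i).tsum_eq_zero_add, mul_add, ← tsum_mul_left]
  congr 1
  · simp only [add_zero]
    have : B L (i + 1) = B L i + (L i + 4 + i) := rfl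
    rw [this]
    simp only [pow_add]
    field_simp
  · apply tsum_congr
    intro j
    have : B L (i + 1) = B L i + (L i + 4 + i) := rfl
    rw [this, pow_add (2:ℝ) (B L i), show i + (j + 1) = i + 1 + j by ring]
    ring

theorem backward (hL : ∀ i, 1 ≤ L i) (h0 : Function.Injective ch0) (h1 : Function.Injective ch1)
    (hL0 : ∀ i, L (ch0 i) = L i) (hL1 : ∀ i, L (ch1 i) = L i + 1) (T : Set ℕ)
    (c : ℕ → ℤ) (hc : ∀ i, 0 ≤ c i ∧ c i ≤ 1)
    (ha : ∀ i, i ∈ T → c i = c (ch0 i) + c (ch1 i))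
    (hb : ∀ i, i ∉ T → c i = 0)
    (hgr : ∀ ε : ℝ, 0 < ε → ∀ᶠ i in cofinite, |(c i : ℝ)| ≤ ε * L i)
    (hinf : ∃ᶠ i in cofinite, c i ≠ 0) :
    ∃ x : ℝ, (∀ N : ℕ, 0 < N → ∀ k : ℤ, (N : ℝ) * x ≠ k) ∧
      Tendsto (fun p => nn ((F L ch0 ch1 T p : ℝ) * x)) cofinite (𝓝 0) := by
  set t : ℕ → ℝ := tl L c with ht
  have ht0 : ∀ i, 0 ≤ t i := tl_nonneg L c hc
  have ht1 : ∀ i, t i ≤ 1 := tl_le_one L c hc
  have hrec : ∀ i, (2:ℝ) ^ (L i + 4 + i) * t i = c i + t (i+1) := tl_rec L c hc
  have hX : ∀ i, ∃ k : ℤ, (2:ℝ) ^ (B L i) * t 0 = t i + k := by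
    intro i
    induction i with
    | zero => exact ⟨0, by simp [B]⟩
    | succ i ih =>
      obtain ⟨k, hk⟩ := ih
      refine ⟨c i + 2 ^ (L i + 4 + i) * k, ?_⟩
      have : B L (i + 1) = B L i + (L i + 4 + i) := rfl
      rw [this, pow_add]
      calc (2:ℝ) ^ (B L i) * 2 ^ (L i + 4 + i) * t 0 = 2 ^ (L i + 4 + i) * (2 ^ (B L i) * t 0) := by ring
        _ = 2 ^ (L i + 4 + i) * t i + 2 ^ (L i + 4 + i) * k := by rw [hk]; ring
        _ = _ := by rw [hrec]; push_cast; ring
  have hscale : ∀ i, (2:ℝ)^i * t i = (c i + t (i+1)) / 2 ^ (L i + 4) := by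
    intro i
    rw [← hrec, pow_add (2:ℝ) (L i + 4) i]
    field_simp
  have hXscale : ∀ i, ∃ k : ℤ, (2:ℝ)^i * ((2:ℝ) ^ (B L i) * t 0) = (c i + t (i+1)) / 2 ^ (L i + 4) + k := by
    intro i
    obtain ⟨k, hk⟩ := hX i
    refine ⟨2^i * k, ?_⟩
    rw [← hscale, hk]
    push_cast; ring
  -- t tends to zero
  have htsmall : ∀ i, t i ≤ 2 / 2 ^ i := by
    intro i
    have h3 := hrec i
    have h4 : (c i : ℝ) ≤ 1 := by exact_mod_cast (hc i).2
    have h5 := ht1 (i+1)
    have h6 : (2:ℝ) ^ i ≤ 2 ^ (L i + 4 + i) := pow_le_pow_right₀ (by norm_num) (by omega)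
    rw [le_div_iff₀ (by positivity)]
    have := ht0 i
    nlinarith
  have htlim : Tendsto t cofinite (𝓝 0) := by
    rw [Nat.cofinite_eq_atTop]
    apply squeeze_zero ht0 htsmall
    have : Tendsto (fun i : ℕ => 2 * ((1:ℝ)/2) ^ i) atTop (𝓝 (2 * 0)) :=
      (tendsto_pow_atTop_nhds_zero_of_lt_one (by norm_num) (by norm_num)).const_mul 2
    simp only [mul_zero] at this
    refine this.congr ?_
    intro i
    rw [div_pow, one_pow]; ring
  have htev : ∀ ε : ℝ, 0 < ε → ∀ᶠ i in cofinite, t i < ε := fun ε hε =>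
    htlim.eventually (gt_mem_nhds hε)
  refine ⟨t 0, ?_, ?_⟩
  · -- irrationality
    intro N hN k hk
    have hpos : ∀ i, 0 < t i := by
      intro i
      by_contra hcon
      have hti : t i = 0 := le_antisymm (not_lt.1 hcon) (ht0 i)
      have hall : ∀ j, t (i + j) = 0 ∧ c (i + j) = 0 := by
        have aux : ∀ n, t n = 0 → t (n+1) = 0 ∧ c n = 0 := by
          intro n hn
          have h3 := hrec n
          rw [hn, mul_zero] at h3
          have h4 : (0:ℝ) ≤ c n := by exact_mod_cast (hc n).1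
          have h5 := ht0 (n+1)
          constructor
          · linarith
          · have : (c n : ℝ) = 0 := by linarith
            exact_mod_cast this
        intro j
        induction j with
        | zero => exact ⟨hti, (aux i hti).2⟩
        | succ j ih =>
          have := (aux _ ih.1).1
          exact ⟨this, (aux _ this).2⟩
      apply hinf
      rw [Nat.cofinite_eq_atTop, eventually_atTop]
      refine ⟨i, fun j hj => ?_⟩
      simp only [not_not]
      have := (hall (j - i)).2
      rwa [Nat.add_sub_cancel' hj] at this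
    have hNpos : (0:ℝ) < N := by exact_mod_cast hN
    obtain ⟨i, hi⟩ := (htev (1/N) (by positivity)).exists
    obtain ⟨k', hk'⟩ := hX i
    have h7 : (N:ℝ) * t i = ((2 ^ (B L i) * k - N * k' : ℤ) : ℝ) := by
      push_cast
      rw [← hk]
      have : t i = (2:ℝ) ^ (B L i) * t 0 - k' := by rw [hk']; ring
      rw [this]; ring
    have h8 : 0 < (N:ℝ) * t i := mul_pos hNpos (hpos i)
    have h9 : (N:ℝ) * t i < 1 := by
      rw [lt_div_iff₀ hNpos] at hi
      linarith
    rw [h7] at h8 h9
    have h10 : 0 < (2 ^ (B L i) * k - N * k' : ℤ) := by exact_mod_cast h8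
    have h11 : (2 ^ (B L i) * k - N * k' : ℤ) < 1 := by exact_mod_cast h9
    omega
  · -- convergence
    rw [Metric.tendsto_nhds]
    intro ε hε
    have hsucc : ∀ {P : ℕ → Prop}, (∀ᶠ i in cofinite, P i) → ∀ᶠ i in cofinite, P (i+1) := by
      intro P hP
      exact ((add_left_injective 1).tendsto_cofinite).eventually hP
    have hc0 : ∀ {P : ℕ → Prop}, (∀ᶠ i in cofinite, P i) → ∀ᶠ i in cofinite, P (ch0 i) := by
      intro P hP
      exact (h0.tendsto_cofinite).eventually hP
    have hc1 : ∀ {P : ℕ → Prop}, (∀ᶠ i in cofinite, P i) → ∀ᶠ i in cofinite, P (ch1 i) := by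
      intro P hP
      exact (h1.tendsto_cofinite).eventually hP
    have hev : ∀ᶠ i in cofinite, ∀ m b, nn ((F L ch0 ch1 T (i, m, b) : ℝ) * t 0) < ε := by
      have hε8 : 0 < ε/8 := by positivity
      filter_upwards [hgr _ hε8, hsucc (htev _ hε8), hc0 (hsucc (htev _ hε8)),
        hc1 (hsucc (htev _ hε8))] with i hci hti hti0 hti1
      intro m b
      have hL' : (1:ℝ) ≤ L i := by exact_mod_cast hL i
      cases b with
      | false =>
        simp only [F]
        split_ifs with hm
        · obtain ⟨k, hk⟩ := hX i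
          have e1 : (((m : ℤ) * 2 ^ (B L i) : ℤ) : ℝ) * t 0 = m * t i + ((m * k : ℤ) : ℝ) := by
            push_cast
            rw [mul_assoc, hk]; ring
          rw [e1, nn_add_int]
          refine (nn_le_abs' _).trans_lt ?_
          rw [abs_of_nonneg (mul_nonneg (by positivity) (ht0 i))]
          have hm' : (m:ℝ) * L i ≤ 2 ^ (L i + 4 + i) := by exact_mod_cast hm
          have h3 := hrec i
          have h4 := (abs_le.1 hci).2
          have h5 := ht0 i
          have h6 : (m:ℝ) * t i * L i ≤ ε/8 * L i + ε / 8 := by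
            calc (m:ℝ) * t i * L i = (m * L i) * t i := by ring
              _ ≤ 2 ^ (L i + 4 + i) * t i := by gcongr
              _ = c i + t (i+1) := h3
              _ ≤ _ := by linarith
          have h7 : (m:ℝ) * t i * L i < ε * L i := by nlinarith
          exact lt_of_mul_lt_mul_right h7 (by linarith)
        · simp only [Int.cast_zero, zero_mul]
          simpa [nn] using hε
      | true =>
        simp only [F]
        split_ifs with hm
        · have hm' : (m:ℝ) ≤ 2 ^ (L i + 4) := by exact_mod_cast hm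
          by_cases hiT : i ∈ T
          · obtain ⟨k1, hk1⟩ := hXscale i
            obtain ⟨k2, hk2⟩ := hXscale (ch0 i)
            obtain ⟨k3, hk3⟩ := hXscale (ch1 i)
            set η : ℝ := t (i+1) - t (ch0 i + 1) - t (ch1 i + 1) with hη
            have hgx : (g L ch0 ch1 T i : ℝ) * t 0 = η / 2 ^ (L i + 4) + ((k1 - k2 - 2 * k3 : ℤ) : ℝ) := by
              have : (g L ch0 ch1 T i : ℝ) * t 0 = (2:ℝ)^i * ((2:ℝ) ^ (B L i) * t 0)
                  - (2:ℝ)^(ch0 i) * ((2:ℝ) ^ (B L (ch0 i)) * t 0)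
                  - 2 * ((2:ℝ)^(ch1 i) * ((2:ℝ) ^ (B L (ch1 i)) * t 0)) := by
                simp only [g, hiT, if_true]
                push_cast
                simp only [pow_add, pow_one]
                ring
              rw [this, hk1, hk2, hk3, hL0, hL1, hη, ha i hiT]
              push_cast
              rw [show L i + 1 + 4 = (L i + 4) + 1 by ring, pow_succ (2:ℝ) (L i + 4)]
              field_simp
              ring
            have e1 : (((m : ℤ) * g L ch0 ch1 T i : ℤ) : ℝ) * t 0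
                = m * (η / 2 ^ (L i + 4)) + ((m * (k1 - k2 - 2 * k3) : ℤ) : ℝ) := by
              push_cast
              rw [mul_assoc, hgx]
              push_cast
              ring
            rw [e1, nn_add_int]
            refine (nn_le_abs' _).trans_lt ?_
            have hηb : |η| ≤ 3 * (ε/8) := by
              have a1 := ht0 (i+1)
              have a2 := ht0 (ch0 i +1)
              have a3 := ht0 (ch1 i +1)
              rw [abs_le]
              constructor <;> linarith
            rw [abs_mul, abs_div, abs_of_pos (by positivity : (0:ℝ) < 2 ^ (L i + 4)),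
              abs_of_nonneg (by positivity : (0:ℝ) ≤ (m:ℝ))]
            calc (m:ℝ) * (|η| / 2 ^ (L i + 4)) ≤ 2 ^ (L i + 4) * (|η| / 2 ^ (L i + 4)) := by gcongr
              _ = |η| := by field_simp
              _ < ε := by linarith
          · obtain ⟨k1, hk1⟩ := hXscale i
            have hgx : (g L ch0 ch1 T i : ℝ) * t 0 = t (i+1) / 2 ^ (L i + 4) + (k1 : ℝ) := by
              have : (g L ch0 ch1 T i : ℝ) * t 0 = (2:ℝ)^i * ((2:ℝ) ^ (B L i) * t 0) := by
                simp only [g, hiT, if_false]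
                push_cast
                simp only [pow_add]
                ring
              rw [this, hk1, hb i hiT]
              simp
            have e1 : (((m : ℤ) * g L ch0 ch1 T i : ℤ) : ℝ) * t 0
                = m * (t (i+1) / 2 ^ (L i + 4)) + ((m * k1 : ℤ) : ℝ) := by
              push_cast
              rw [mul_assoc, hgx]
              ring
            rw [e1, nn_add_int]
            refine (nn_le_abs' _).trans_lt ?_
            have a1 := ht0 (i+1)
            rw [abs_of_nonneg (by positivity)]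
            calc (m:ℝ) * (t (i+1) / 2 ^ (L i + 4)) ≤ 2 ^ (L i + 4) * (t (i+1) / 2 ^ (L i + 4)) := by gcongr
              _ = t (i+1) := by field_simp
              _ < ε := by linarith
        · simp only [Int.cast_zero, zero_mul]
          simpa [nn] using hε
    -- transfer to the product
    rw [eventually_cofinite] at hev ⊢
    -- bad pairs: i bad and m bounded
    have hfin : (⋃ i ∈ {i | ¬ ∀ m b, nn ((F L ch0 ch1 T (i, m, b) : ℝ) * t 0) < ε},
        (fun q : ℕ × Bool => (i, q)) '' ((Set.Iic (2 ^ (L i + 4 + i))) ×ˢ Set.univ)).Finite := by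
      apply Set.Finite.biUnion hev
      intro i _
      exact ((Set.finite_Iic _).prod Set.finite_univ).image _
    refine hfin.subset ?_
    rintro ⟨i, m, b⟩ hp
    simp only [Real.dist_eq, sub_zero, Set.mem_ofPred_eq, not_lt] at hp
    rw [abs_of_nonneg (nn_nonneg _)] at hp
    simp only [Set.mem_iUnion, Set.mem_image, Set.mem_prod, Set.mem_Iic, Set.mem_univ, and_true,
      Prod.mk.injEq, Prod.exists, exists_prop]
    refine ⟨i, ?_, m, b, ?_, rfl, rfl, rfl⟩
    · intro hcon
      exact absurd (hcon m b) (not_lt.2 hp)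
    · by_contra hm
      push Not at hm
      have hz : F L ch0 ch1 T (i, m, b) = 0 := by
        cases b with
        | false =>
          simp only [F]
          rw [if_neg]
          have := hL i
          have : m * 1 ≤ m * L i := Nat.mul_le_mul_left _ this
          omega
        | true =>
          simp only [F]
          rw [if_neg]
          have : 2 ^ (L i + 4) ≤ 2 ^ (L i + 4 + i) := Nat.pow_le_pow_right (by norm_num) (by omega)
          omega
      rw [hz] at hp
      simp [nn] at hp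
      linarith

end NT2

section Trees

/-- Reversed initial segment. -/
def seg (y : ℕ → ℕ) : ℕ → List ℕ
  | 0 => []
  | n + 1 => y n :: seg y n

lemma seg_length (y : ℕ → ℕ) (n : ℕ) : (seg y n).length = n := by
  induction n with
  | zero => rfl
  | succ n ih => simp [seg, ih]

lemma seg_congr {y z : ℕ → ℕ} {n : ℕ} (h : ∀ i < n, y i = z i) : seg y n = seg z n := by
  induction n with
  | zero => rfl
  | succ n ih => simp only [seg]; rw [h n (by omega), ih (fun i hi => h i (by omega))]

lemma seg_inj {y z : ℕ → ℕ} {n : ℕ} (h : seg y n = seg z n) : ∀ i < n, y i = z i := by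
  induction n with
  | zero => intro i hi; omega
  | succ n ih =>
    simp only [seg, List.cons.injEq] at h
    intro i hi
    rcases Nat.lt_succ_iff_lt_or_eq.1 hi with h1 | h1
    · exact ih h.2 i h1
    · rw [h1]; exact h.1

/-- The tree of attempts coded by `x`, evaluated at the point `x` itself. -/
def Tr (x : ℕ → ℕ) : List ℕ → Prop
  | [] => x (Encodable.encode ((seg x 0, []) : List ℕ × List ℕ)) = 0
  | m :: v => Tr x v ∧ x (Encodable.encode ((seg x (v.length + 1), m :: v) : List ℕ × List ℕ)) = 0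

lemma Tr_seg (x y : ℕ → ℕ) (n : ℕ) : Tr x (seg y n) ↔
    ∀ k ≤ n, x (Encodable.encode (seg x k, seg y k)) = 0 := by
  induction n with
  | zero => simp [Tr, seg]
  | succ n ih =>
    simp only [seg, Tr]
    rw [ih, seg_length]
    constructor
    · rintro ⟨h1, h2⟩ k hk
      rcases Nat.le_succ_iff.1 hk with h | h
      · exact h1 k h
      · rw [h]; exact h2
    · intro h
      exact ⟨fun k hk => h k (by omega), h (n+1) le_rfl⟩

/-- The diagonal set. -/
def D : Set (ℕ → ℕ) := {x | ∃ y : ℕ → ℕ, ∀ n, x (Encodable.encode (seg x n, seg y n)) = 0}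

lemma mem_D (x : ℕ → ℕ) : x ∈ D ↔ ∃ y : ℕ → ℕ, ∀ n, Tr x (seg y n) := by
  constructor
  · rintro ⟨y, hy⟩
    exact ⟨y, fun n => (Tr_seg x y n).2 fun k _ => hy k⟩
  · rintro ⟨y, hy⟩
    exact ⟨y, fun n => (Tr_seg x y n).1 (hy n) n le_rfl⟩

open MeasureTheory in
theorem not_analytic_compl_D : ¬ AnalyticSet (Dᶜ : Set (ℕ → ℕ)) := by
  intro h
  classical
  -- every analytic set has a code
  have hcode : ∃ x0 : ℕ → ℕ, ∀ w : ℕ → ℕ, w ∈ (Dᶜ : Set (ℕ → ℕ)) ↔
      ∃ y : ℕ → ℕ, ∀ n, x0 (Encodable.encode (seg w n, seg y n)) = 0 := by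
    rw [AnalyticSet] at h
    rcases h with h | ⟨f, hf, hfr⟩
    · refine ⟨fun _ => 1, fun w => ?_⟩
      rw [h]
      simp
    · -- code of the graph
      let G : List ℕ × List ℕ → Prop := fun p =>
        ∃ y : ℕ → ℕ, seg (f y) p.1.length = p.1 ∧ seg y p.2.length = p.2
      refine ⟨fun k => match (Encodable.decode k : Option (List ℕ × List ℕ)) with
        | some p => if G p then 0 else 1
        | none => 1, fun w => ?_⟩
      have hG : ∀ w y : ℕ → ℕ, ∀ n, ((match (Encodable.decode (Encodable.encode (seg w n, seg y n)) :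
          Option (List ℕ × List ℕ)) with
        | some p => if G p then 0 else 1
        | none => 1) = 0 ↔ ∃ y', seg (f y') n = seg w n ∧ seg y' n = seg y n) := by
        intro w y n
        rw [Encodable.encodek]
        simp only [G, seg_length]
        by_cases hh : ∃ y', seg (f y') n = seg w n ∧ seg y' n = seg y n
        · simp [hh]
        · simp [hh]
      rw [← hfr]
      constructor
      · rintro ⟨y, rfl⟩
        refine ⟨y, fun n => ?_⟩
        rw [hG]
        exact ⟨y, rfl, rfl⟩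
      · rintro ⟨y, hy⟩
        refine ⟨y, ?_⟩
        have hy' : ∀ n, ∃ y', seg (f y') n = seg w n ∧ seg y' n = seg y n := fun n => (hG w y n).1 (hy n)
        choose z hz1 hz2 using hy'
        -- z n tends to y
        have hzy : Tendsto z atTop (𝓝 y) := by
          rw [tendsto_pi_nhds]
          intro i
          apply tendsto_const_nhds.congr'
          filter_upwards [eventually_gt_atTop i] with n hn
          exact (seg_inj (hz2 n) i hn).symm
        have hfz : Tendsto (fun n => f (z n)) atTop (𝓝 (f y)) := (hf.tendsto y).comp hzy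
        have hfw : Tendsto (fun n => f (z n)) atTop (𝓝 w) := by
          rw [tendsto_pi_nhds]
          intro i
          apply tendsto_const_nhds.congr'
          filter_upwards [eventually_gt_atTop i] with n hn
          exact (seg_inj (hz1 n) i hn).symm
        exact tendsto_nhds_unique hfz hfw
  obtain ⟨x0, hx0⟩ := hcode
  have := hx0 x0
  simp only [D, Set.mem_compl_iff, Set.mem_ofPred_eq] at this
  tauto

/-- membership in the tree is locally determined -/
lemma Tr_local (x : ℕ → ℕ) (v : List ℕ) : ∃ N, ∀ x' : ℕ → ℕ, (∀ i < N, x i = x' i) → (Tr x v ↔ Tr x' v) := by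
  induction v with
  | nil =>
    refine ⟨Encodable.encode ((seg x 0, []) : List ℕ × List ℕ) + 1, fun x' hx' => ?_⟩
    simp only [Tr]
    rw [show seg x' 0 = seg x 0 from rfl, hx' _ (Nat.lt_succ_self _)]
  | cons m v ih =>
    obtain ⟨N, hN⟩ := ih
    set k := Encodable.encode ((seg x (v.length + 1), m :: v) : List ℕ × List ℕ) with hk
    refine ⟨N + (v.length + 1) + (k + 1), fun x' hx' => ?_⟩
    simp only [Tr]
    have h1 : seg x' (v.length + 1) = seg x (v.length + 1) :=
      seg_congr (fun i hi => (hx' i (by omega)).symm)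
    rw [h1, ← hk, hN x' (fun i hi => hx' i (by omega)), hx' k (by omega)]

lemma continuous_of_local {α : Type*} [TopologicalSpace α] [DiscreteTopology α] (f : (ℕ → ℕ) → α)
    (h : ∀ x, ∃ N, ∀ x', (∀ i < N, x i = x' i) → f x = f x') : Continuous f := by
  apply IsLocallyConstant.continuous
  rw [IsLocallyConstant.iff_exists_open]
  intro x
  obtain ⟨N, hN⟩ := h x
  refine ⟨PiNat.cylinder x N, PiNat.isOpen_cylinder _ x N, PiNat.self_mem_cylinder x N, ?_⟩
  intro x' hx'
  exact (hN x' (fun i hi => (hx' i hi).symm)).symm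

/-- A list can be extended to a sequence with prescribed continuation. -/
lemma exists_extend (v : List ℕ) : ∀ f : ℕ → ℕ, ∃ y : ℕ → ℕ, seg y v.length = v ∧
    ∀ k, y (v.length + k) = f k := by
  induction v with
  | nil => intro f; exact ⟨f, rfl, fun k => by simp⟩
  | cons m v ih =>
    intro f
    obtain ⟨y, hy1, hy2⟩ := ih (fun k => if k = 0 then m else f (k - 1))
    refine ⟨y, ?_, fun k => ?_⟩
    · simp only [List.length_cons, seg]
      rw [hy1]
      have := hy2 0
      simp only [add_zero, if_true] at this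
      rw [this]
    · have := hy2 (k + 1)
      simp only [Nat.add_eq_zero_iff, one_ne_zero, and_false, if_false, Nat.add_sub_cancel] at this
      rw [List.length_cons, show v.length + 1 + k = v.length + (k + 1) by ring, this]

lemma exists_branch (x : ℕ → ℕ) (P : List ℕ → Prop) (hP : ∀ v, P v → Tr x v)
    (hstep : ∀ v, P v → ∃ m, P (m :: v)) (v0 : List ℕ) (hv0 : P v0) :
    ∃ y : ℕ → ℕ, ∀ n, Tr x (seg y n) := by
  choose nxt hnxt using hstep
  let V : ℕ → {v // P v} := fun n => Nat.rec ⟨v0, hv0⟩ (fun _ w => ⟨nxt w.1 w.2 :: w.1, hnxt w.1 w.2⟩) n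
  have hV0 : (V 0).1 = v0 := rfl
  have hVs : ∀ n, (V (n+1)).1 = nxt (V n).1 (V n).2 :: (V n).1 := fun n => rfl
  obtain ⟨y, hy1, hy2⟩ := exists_extend v0 (fun k => nxt (V k).1 (V k).2)
  have hyV : ∀ k, seg y (v0.length + k) = (V k).1 := by
    intro k
    induction k with
    | zero => simpa [hV0] using hy1
    | succ k ih =>
      rw [← add_assoc]
      simp only [seg]
      rw [ih, hVs, hy2]
  refine ⟨y, fun n => ?_⟩
  have h1 : Tr x (seg y (v0.length + n)) := by
    rw [hyV]; exact hP _ (V n).2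
  rw [Tr_seg] at h1 ⊢
  intro k hk
  exact h1 k (by omega)

end Trees

section Nodes

/-- Nodes: a finite sequence together with a counter. -/
abbrev Node := List ℕ × ℕ

/-- Enumeration of the nodes. -/
noncomputable def nd : ℕ ≃ Node := (Denumerable.eqv Node).symm

noncomputable def c0 (i : ℕ) : ℕ := nd.symm ((nd i).1, (nd i).2 + 1)
noncomputable def c1 (i : ℕ) : ℕ := nd.symm ((nd i).2 :: (nd i).1, 0)
noncomputable def Lv (i : ℕ) : ℕ := (nd i).1.length + 2

lemma c0_inj : Function.Injective c0 := by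
  intro i j h
  unfold c0 at h
  have h1 := nd.symm.injective h
  simp only [Prod.mk.injEq, Nat.add_right_cancel_iff] at h1
  exact nd.injective (Prod.ext h1.1 h1.2)

lemma c1_inj : Function.Injective c1 := by
  intro i j h
  unfold c1 at h
  have h1 := nd.symm.injective h
  simp only [Prod.mk.injEq, List.cons.injEq, and_true] at h1
  exact nd.injective (Prod.ext h1.2 h1.1)

lemma Lv_c0 (i : ℕ) : Lv (c0 i) = Lv i := by simp [Lv, c0]
lemma Lv_c1 (i : ℕ) : Lv (c1 i) = Lv i + 1 := by simp [Lv, c1]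
lemma one_le_Lv (i : ℕ) : 1 ≤ Lv i := by simp [Lv]

/-- height of a node -/
def ht (s : Node) : ℕ := s.1.length + s.1.sum + s.2

lemma finite_ht (H : ℕ) : {s : Node | ht s ≤ H}.Finite := by
  induction H with
  | zero =>
    refine (Set.finite_singleton (([], 0) : Node)).subset ?_
    rintro ⟨v, m⟩ h
    simp only [ht, Set.mem_ofPred_eq, Nat.le_zero, Nat.add_eq_zero_iff, List.length_eq_zero_iff] at h
    simp [h.1.1, h.2]
  | succ H ih =>
    refine ((ih.image (fun s : Node => ((s.1, s.2 + 1) : Node))).union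
      ((ih.image (fun s : Node => ((s.2 :: s.1, 0) : Node))).union
      (Set.finite_singleton (([], 0) : Node)))).subset ?_
    rintro ⟨v, m⟩ h
    simp only [ht, Set.mem_ofPred_eq] at h
    rcases m with _ | m
    · rcases v with _ | ⟨a, v⟩
      · simp
      · right; left
        refine ⟨(v, a), ?_, rfl⟩
        simp only [ht, Set.mem_ofPred_eq, List.length_cons, List.sum_cons] at h ⊢
        omega
    · left
      refine ⟨(v, m), ?_, rfl⟩
      simp only [ht, Set.mem_ofPred_eq] at h ⊢
      omega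

/-- The set of (indices of) nodes whose sequence part lies in the tree of `x`. -/
def TT (x : ℕ → ℕ) : Set ℕ := {i | Tr x (nd i).1}

theorem comb_forward (x : ℕ → ℕ) (c : ℕ → ℤ)
    (ha : ∀ᶠ i in cofinite, i ∈ TT x → c i = c (c0 i) + c (c1 i))
    (hb : ∀ᶠ i in cofinite, i ∉ TT x → c i = 0)
    (hgr : ∀ ε : ℝ, 0 < ε → ∀ᶠ i in cofinite, |(c i : ℝ)| ≤ ε * Lv i)
    (hinf : ∃ᶠ i in cofinite, c i ≠ 0) :
    ∃ y : ℕ → ℕ, ∀ n, Tr x (seg y n) := by
  -- exceptional nodes have bounded height
  have hexc : {i | ¬ ((i ∈ TT x → c i = c (c0 i) + c (c1 i)) ∧ (i ∉ TT x → c i = 0))}.Finite :=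
    ha.and hb
  obtain ⟨H, hH⟩ := (hexc.image (fun i => ht (nd i))).bddAbove
  have hgood : ∀ s : Node, H < ht s →
      ((Tr x s.1 → c (nd.symm s) = c (nd.symm (s.1, s.2+1)) + c (nd.symm (s.2 :: s.1, 0))) ∧
        (¬ Tr x s.1 → c (nd.symm s) = 0)) := by
    intro s hs
    by_contra hcon
    have : ht s ≤ H := by
      apply hH
      refine ⟨nd.symm s, ?_, by simp⟩
      simp only [Set.mem_ofPred_eq, TT, c0, c1, Equiv.apply_symm_apply]
      exact hcon
    omega
  -- the predicate
  let P : List ℕ → Prop := fun v => ∃ m, H < ht (v, m) ∧ c (nd.symm (v, m)) ≠ 0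
  have hPT : ∀ v, P v → Tr x v := by
    rintro v ⟨m, hm, hcm⟩
    by_contra hcon
    exact hcm ((hgood (v, m) hm).2 hcon)
  have hstep : ∀ v, P v → ∃ m, P (m :: v) := by
    rintro v ⟨m, hm, hcm⟩
    have hTv := hPT v ⟨m, hm, hcm⟩
    by_contra hcon
    push Not at hcon
    -- all further counters nonzero
    have hall : ∀ k, H < ht (v, m + k) ∧ c (nd.symm (v, m + k)) ≠ 0 := by
      intro k
      induction k with
      | zero => exact ⟨hm, hcm⟩
      | succ k ih =>
        obtain ⟨h1, h2⟩ := ih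
        have h3 : H < ht (v, m + (k + 1)) := by simp only [ht] at h1 ⊢; omega
        refine ⟨h3, ?_⟩
        have h4 := (hgood (v, m + k) h1).1 hTv
        simp only at h4
        have h5 : c (nd.symm ((m + k) :: v, 0)) = 0 := by
          by_contra h6
          apply hcon (m + k)
          refine ⟨0, ?_, h6⟩
          simp only [ht, List.length_cons, List.sum_cons] at h1 ⊢
          omega
        rw [h5, add_zero] at h4
        rw [show m + (k + 1) = m + k + 1 by ring, ← h4]
        exact h2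
    have hε : (0:ℝ) < 1 / (2 * (v.length + 2)) := by positivity
    have h1 := hgr _ hε
    rw [eventually_cofinite] at h1
    have hinj : Function.Injective (fun k : ℕ => nd.symm (v, m + k)) := by
      intro a b hab
      have := nd.symm.injective hab
      simp only [Prod.mk.injEq, true_and] at this
      omega
    have hinfin : (Set.range (fun k : ℕ => nd.symm (v, m + k))).Infinite :=
      Set.infinite_range_of_injective hinj
    apply hinfin
    refine h1.subset ?_
    rintro _ ⟨k, rfl⟩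
    simp only [Set.mem_ofPred_eq, not_le, Lv, Equiv.apply_symm_apply]
    have h2 : (1:ℝ) ≤ |(c (nd.symm (v, m + k)) : ℝ)| := by
      have : (1:ℤ) ≤ |c (nd.symm (v, m + k))| := Int.one_le_abs (hall k).2
      exact_mod_cast this
    have h3 : 1 / (2 * ((v.length:ℝ) + 2)) * ((v.length + 2 : ℕ) : ℝ) = 1/2 := by
      push_cast
      field_simp
    rw [h3]
    linarith
  -- the starting node
  obtain ⟨v0, hv0⟩ : ∃ v, P v := by
    by_contra hcon
    push Not at hcon
    apply hinf
    rw [eventually_cofinite]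
    simp only [not_not]
    refine ((finite_ht H).preimage (f := nd) nd.injective.injOn).subset ?_
    intro i hi
    simp only [Set.mem_preimage, Set.mem_ofPred_eq]
    by_contra h
    push Not at h
    apply hcon (nd i).1
    refine ⟨(nd i).2, h, ?_⟩
    simpa using hi
  exact exists_branch x P hPT hstep v0 hv0

open Classical in
/-- The indicator of a branch. -/
noncomputable def cb (y : ℕ → ℕ) (i : ℕ) : ℤ :=
  if (nd i).1 = seg y (nd i).1.length ∧ (nd i).2 ≤ y (nd i).1.length then 1 else 0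

theorem comb_backward (x y : ℕ → ℕ) (hy : ∀ n, Tr x (seg y n)) :
    (∀ i, 0 ≤ cb y i ∧ cb y i ≤ 1) ∧
    (∀ i, i ∈ TT x → cb y i = cb y (c0 i) + cb y (c1 i)) ∧
    (∀ i, i ∉ TT x → cb y i = 0) ∧
    (∀ ε : ℝ, 0 < ε → ∀ᶠ i in cofinite, |(cb y i : ℝ)| ≤ ε * Lv i) ∧
    (∃ᶠ i in cofinite, cb y i ≠ 0) := by
  classical
  refine ⟨?_, ?_, ?_, ?_, ?_⟩
  · intro i
    unfold cb
    split_ifs <;> simp
  · intro i _
    obtain ⟨⟨v, m⟩, rfl⟩ := nd.symm.surjective i
    simp only [cb, c0, c1, Equiv.apply_symm_apply, List.length_cons, seg, List.cons.injEq,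
      Nat.zero_le, and_true]
    by_cases hv : v = seg y v.length
    · rcases lt_trichotomy m (y v.length) with h | h | h
      · rw [if_pos ⟨hv, h.le⟩, if_pos ⟨hv, h⟩, if_neg (fun hh => by omega)]; rfl
      · rw [if_pos ⟨hv, h.le⟩, if_neg (fun hh => by omega), if_pos ⟨h, hv⟩]; rfl
      · rw [if_neg (fun hh => by omega), if_neg (fun hh => by omega), if_neg (fun hh => by omega)]; rfl
    · rw [if_neg (fun hh => hv hh.1), if_neg (fun hh => hv hh.1), if_neg (fun hh => hv hh.2)]; rfl
  · intro i hi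
    unfold cb
    rw [if_neg]
    rintro ⟨h1, _⟩
    apply hi
    simp only [TT, Set.mem_ofPred_eq]
    rw [h1]
    exact hy _
  · intro ε hε
    rw [eventually_cofinite]
    -- finitely many levels
    obtain ⟨K, hK⟩ := exists_nat_gt (1/ε)
    have hfin : (⋃ n ∈ Finset.range K, (fun m => nd.symm (seg y n, m)) '' (Set.Iic (y n))).Finite := by
      apply Set.Finite.biUnion (Finset.finite_toSet _)
      intro n _
      exact (Set.finite_Iic _).image _
    refine hfin.subset ?_
    intro i hi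
    simp only [Set.mem_ofPred_eq, not_le, cb] at hi
    split_ifs at hi with h
    · simp only [Set.mem_iUnion, Finset.mem_range, Set.mem_image, Set.mem_Iic, exists_prop]
      refine ⟨(nd i).1.length, ?_, (nd i).2, h.2, ?_⟩
      · simp only [Int.cast_one, abs_one, Lv] at hi
        have h1 : ((nd i).1.length : ℝ) < 1/ε := by
          rw [lt_div_iff₀ hε]
          push_cast at hi
          nlinarith
        have : ((nd i).1.length : ℝ) < K := h1.trans hK
        exact_mod_cast this
      · rw [← h.1]; simp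
    · exfalso
      simp only [Int.cast_zero, abs_zero] at hi
      have : (0:ℝ) ≤ ε * Lv i := by positivity
      linarith
  · have hinj : Function.Injective (fun n : ℕ => nd.symm (seg y n, 0)) := by
      intro a b hab
      have := nd.symm.injective hab
      simp only [Prod.mk.injEq, and_true] at this
      have := congrArg List.length this
      simpa [seg_length] using this
    rw [Filter.frequently_cofinite_iff_infinite]
    refine (Set.infinite_range_of_injective hinj).mono ?_
    rintro _ ⟨n, rfl⟩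
    simp [cb, seg_length]

end Nodes

section Final

lemma tendsto_circle_iff {ι : Type*} (l : Filter ι) (x : ℝ) (n : ι → ℤ) :
    Tendsto (fun k => (AddCircle.toCircle (x : AddCircle (1:ℝ))) ^ (n k)) l (𝓝 1) ↔
      Tendsto (fun k => nn ((n k : ℝ) * x)) l (𝓝 0) := by
  have h1 : ∀ k, (AddCircle.toCircle (x : AddCircle (1:ℝ))) ^ (n k) =
      AddCircle.homeomorphCircle (T := 1) one_ne_zero (((n k : ℝ) * x : ℝ) : AddCircle (1:ℝ)) := by
    intro k
    rw [AddCircle.homeomorphCircle_apply, ← AddCircle.toCircle_zsmul, ← AddCircle.coe_zsmul,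
      zsmul_eq_mul]
  have h2 : (1 : Circle) = AddCircle.homeomorphCircle (T := 1) one_ne_zero (0 : AddCircle (1:ℝ)) := by
    rw [AddCircle.homeomorphCircle_apply, AddCircle.toCircle_zero]
  simp_rw [h1]
  rw [h2]
  have h3 : Tendsto (fun k => AddCircle.homeomorphCircle (T := 1) one_ne_zero
      (((n k : ℝ) * x : ℝ) : AddCircle (1:ℝ))) l
      (𝓝 (AddCircle.homeomorphCircle (T := 1) one_ne_zero (0 : AddCircle (1:ℝ)))) ↔
      Tendsto (fun k => (((n k : ℝ) * x : ℝ) : AddCircle (1:ℝ))) l (𝓝 0) :=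
    (AddCircle.homeomorphCircle (T := 1) one_ne_zero).isInducing.tendsto_nhds_iff.symm
  rw [h3, tendsto_zero_iff_norm_tendsto_zero]
  simp only [UnitAddCircle.norm_eq]
  rfl

lemma pow_ne_one_iff (x : ℝ) :
    (∀ m : ℕ, 0 < m → (AddCircle.toCircle (x : AddCircle (1:ℝ))) ^ m ≠ 1) ↔
      ∀ N : ℕ, 0 < N → ∀ k : ℤ, (N : ℝ) * x ≠ k := by
  apply forall_congr'
  intro N
  apply imp_congr_right
  intro _
  rw [← AddCircle.toCircle_nsmul, ← AddCircle.coe_nsmul, nsmul_eq_mul,
    ← AddCircle.toCircle_zero (T := 1), (AddCircle.injective_toCircle one_ne_zero).ne_iff, Ne,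
    AddCircle.coe_eq_zero_iff, not_exists]
  apply forall_congr'
  intro k
  rw [zsmul_eq_mul, mul_one, eq_comm]

/-- Enumeration of the conditions. -/
noncomputable def ec : ℕ ≃ ℕ × ℕ × Bool :=
  (@Denumerable.eqv _ (Denumerable.ofEncodableOfInfinite (ℕ × ℕ × Bool))).symm

/-- The reduction. -/
noncomputable def Phi (x : ℕ → ℕ) (k : ℕ) : ℤ := F Lv c0 c1 (TT x) (ec k)

lemma F_congr {S T : Set ℕ} (p : ℕ × ℕ × Bool) (h : p.1 ∈ S ↔ p.1 ∈ T) :
    F Lv c0 c1 S p = F Lv c0 c1 T p := by
  have hg : g Lv c0 c1 S p.1 = g Lv c0 c1 T p.1 := by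
    unfold g
    by_cases h1 : p.1 ∈ S
    · rw [if_pos h1, if_pos (h.1 h1)]
    · rw [if_neg h1, if_neg (fun h2 => h1 (h.2 h2))]
  unfold F
  rw [hg]

lemma mem_TT (x : ℕ → ℕ) (i : ℕ) : i ∈ TT x ↔ Tr x (nd i).1 := Iff.rfl

lemma Phi_congr (x x' : ℕ → ℕ) (k : ℕ) (v : List ℕ) (hv : (nd (ec k).1).1 = v)
    (h : Tr x v ↔ Tr x' v) : Phi x k = Phi x' k := by
  unfold Phi
  apply F_congr
  rw [mem_TT, mem_TT, hv]
  exact h

lemma continuous_Phi : Continuous Phi := by
  apply continuous_pi
  intro k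
  generalize hv : (nd (ec k).1).1 = v
  apply continuous_of_local (fun x => Phi x k)
  intro x
  obtain ⟨N, hN⟩ := Tr_local x v
  refine ⟨N, fun x' hx' => ?_⟩
  exact Phi_congr x x' k v hv (hN x' hx')

lemma tendsto_Phi (x : ℕ → ℕ) (r : ℝ) :
    Tendsto (fun k => nn ((Phi x k : ℝ) * r)) atTop (𝓝 0) ↔
      Tendsto (fun p => nn ((F Lv c0 c1 (TT x) p : ℝ) * r)) cofinite (𝓝 0) := by
  rw [← Nat.cofinite_eq_atTop]
  constructor
  · intro h
    have := h.comp (ec.symm.injective.tendsto_cofinite)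
    refine this.congr fun p => ?_
    simp [Phi]
  · intro h
    exact h.comp (ec.injective.tendsto_cofinite)

/-- The set of integer sequences with an irrational rotation limit. -/
def RotSet : Set (ℕ → ℤ) := {n : ℕ → ℤ | ∃ z : Circle, (∀ m : ℕ, 0 < m → z ^ m ≠ 1) ∧
      Tendsto (fun k => z ^ n k) atTop (𝓝 1)}

theorem preimage_RotSet : Phi ⁻¹' RotSet = D := by
  ext x
  rw [mem_D]
  constructor
  · rintro ⟨z, hz1, hz2⟩
    obtain ⟨a, rfl⟩ : ∃ a : AddCircle (1:ℝ), AddCircle.toCircle a = z := by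
      refine ⟨(AddCircle.homeomorphCircle (T := 1) one_ne_zero).symm z, ?_⟩
      rw [← AddCircle.homeomorphCircle_apply one_ne_zero, Homeomorph.apply_symm_apply]
    obtain ⟨r, rfl⟩ := QuotientAddGroup.mk_surjective a
    have h1 := (pow_ne_one_iff r).1 hz1
    have h2 := (tendsto_circle_iff atTop r (Phi x)).1 hz2
    rw [tendsto_Phi] at h2
    obtain ⟨c, hc1, hc2, hc3, hc4⟩ := forward Lv c0 c1 one_le_Lv c0_inj c1_inj Lv_c0 Lv_c1 (TT x) r h1 h2
    exact comb_forward x c hc1 hc2 hc3 hc4
  · rintro ⟨y, hy⟩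
    obtain ⟨h1, h2, h3, h4, h5⟩ := comb_backward x y hy
    obtain ⟨r, hr1, hr2⟩ := backward Lv c0 c1 one_le_Lv c0_inj c1_inj Lv_c0 Lv_c1 (TT x)
      (cb y) h1 h2 h3 h4 h5
    refine ⟨AddCircle.toCircle (r : AddCircle (1:ℝ)), (pow_ne_one_iff r).2 hr1, ?_⟩
    rw [tendsto_circle_iff, tendsto_Phi]
    exact hr2

open MeasureTheory in
theorem not_borel : ¬ @MeasurableSet (ℕ → ℤ) (borel (ℕ → ℤ)) RotSet := by
  intro h
  let _ : MeasurableSpace (ℕ → ℤ) := borel (ℕ → ℤ)
  have : BorelSpace (ℕ → ℤ) := ⟨rfl⟩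
  have hm : Measurable Phi := continuous_Phi.measurable
  have h1 : MeasurableSet (Phi ⁻¹' RotSet) := hm h
  rw [preimage_RotSet] at h1
  exact not_analytic_compl_D h1.compl.analyticSet

end Final

end Pool.Agent.Helper60.NotBorel
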