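import Mathlib

/-!
# Truth-trees with parity

Definitions of truth-trees with traces and parity, of direct acceptability and of acceptability.
-/

namespace Pool.Agent.Helper60.TruthTree

/-- Formulae built from sentence letters `var n` with negation, conjunction, disjunction and a
primitive arrow. -/
inductive Fml : Type
  | var (n : ℕ) : Fml
  | neg (φ : Fml) : Fml
  | and (φ ψ : Fml) : Fml
  | or (φ ψ : Fml) : Fml
  | imp (φ ψ : Fml) : Fml

/-- The set of sentence letters occurring in a formula. -/
def Fml.letters : Fml → Set ℕ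
  | var n => {n}
  | neg φ => φ.letters
  | and φ ψ => φ.letters ∪ ψ.letters
  | or φ ψ => φ.letters ∪ ψ.letters
  | imp φ ψ => φ.letters ∪ ψ.letters

/-- A node of a branch: the formula it carries, the positions on the branch of the node(s) it came
from, and, for a critical node, the position of its partner. -/
structure Node where
  fml : Fml
  inputs : List ℕ
  partner : Option ℕ

/-- A branch is the list of its nodes, the root first; nodes are referred to by their position. -/
abbrev Branch := List Node

/-- The node at position `i` of the branch `b` carries the formula `φ`. -/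
def At (b : Branch) (i : ℕ) (φ : Fml) : Prop := ∃ n : Node, b[i]? = some n ∧ n.fml = φ

/-- `Trace b m k`: the node at position `k` is in the trace of the node at position `m`. -/
inductive Trace (b : Branch) : ℕ → ℕ → Prop
  | self (m : ℕ) (n : Node) (h : b[m]? = some n) : Trace b m m
  | step (m i k : ℕ) (n : Node) (h : b[m]? = some n) (hi : i ∈ n.inputs) (hk : Trace b i k) :
      Trace b m k

/-- Parity of a branch `b`: some crash-pair `z : ζ`, `z' : ¬ζ` on `b` is such that whenever a
critical node is in the trace of the pair then so is its partner. -/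
def ParityBranch (b : Branch) : Prop :=
  ∃ (z z' : ℕ) (ζ : Fml), At b z ζ ∧ At b z' ζ.neg ∧
    ∀ (c d : ℕ) (n : Node), b[c]? = some n → n.partner = some d →
      (Trace b z c ∨ Trace b z' c) → (Trace b z d ∨ Trace b z' d)

/-- `ParityTree S b`: the branch `b` can be continued to a (finite) truth-tree, in which the
recursive rule is used only for implications in `S`, such that every complete branch satisfies
parity. -/
inductive ParityTree (S : Set Fml) : Branch → Prop
  /-- the branch is complete and satisfies parity -/
  | stop (b : Branch) (h : ParityBranch b) : ParityTree S b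
  /-- from `φ ∧ ψ` add `φ`, `ψ` -/
  | conj (b : Branch) (i : ℕ) (φ ψ : Fml) (h : At b i (φ.and ψ))
      (t : ParityTree S (b ++ [⟨φ, [i], none⟩, ⟨ψ, [i], none⟩])) : ParityTree S b
  /-- from `¬(φ ∨ ψ)` add `¬φ`, `¬ψ` -/
  | negOr (b : Branch) (i : ℕ) (φ ψ : Fml) (h : At b i (φ.or ψ).neg)
      (t : ParityTree S (b ++ [⟨φ.neg, [i], none⟩, ⟨ψ.neg, [i], none⟩])) : ParityTree S b
  /-- from `¬¬φ` add `φ` -/
  | negNeg (b : Branch) (i : ℕ) (φ : Fml) (h : At b i φ.neg.neg)
      (t : ParityTree S (b ++ [⟨φ, [i], none⟩])) : ParityTree S b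
  /-- from `¬(φ ∧ ψ)` fork into `¬φ | ¬ψ` -/
  | negAnd (b : Branch) (i : ℕ) (φ ψ : Fml) (h : At b i (φ.and ψ).neg)
      (t₁ : ParityTree S (b ++ [⟨φ.neg, [i], none⟩]))
      (t₂ : ParityTree S (b ++ [⟨ψ.neg, [i], none⟩])) : ParityTree S b
  /-- from `φ ∨ ψ` fork into `φ | ψ` -/
  | disj (b : Branch) (i : ℕ) (φ ψ : Fml) (h : At b i (φ.or ψ))
      (t₁ : ParityTree S (b ++ [⟨φ, [i], none⟩]))
      (t₂ : ParityTree S (b ++ [⟨ψ, [i], none⟩])) : ParityTree S b
  /-- modus ponens: from `φ` and `φ → ψ` add `ψ` -/
  | mp (b : Branch) (i j : ℕ) (φ ψ : Fml) (hi : At b i φ) (hj : At b j (φ.imp ψ))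
      (t : ParityTree S (b ++ [⟨ψ, [i, j], none⟩])) : ParityTree S b
  /-- counter-case: from `¬(φ → ψ)` add the critical nodes `φ` and `¬ψ`, partners of each other -/
  | counter (b : Branch) (i : ℕ) (φ ψ : Fml) (h : At b i (φ.imp ψ).neg)
      (t : ParityTree S (b ++ [⟨φ, [i], some (b.length + 1)⟩, ⟨ψ.neg, [i], some b.length⟩])) :
      ParityTree S b
  /-- recursive rule: from `φ` add `ψ` whenever `φ → ψ` is in `S` -/
  | recur (b : Branch) (i : ℕ) (φ ψ : Fml) (hS : φ.imp ψ ∈ S) (h : At b i φ)
      (t : ParityTree S (b ++ [⟨ψ, [i], none⟩])) : ParityTree S b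

/-- The one-node branch with root `¬α`. -/
def root (α : Fml) : Branch := [⟨α.neg, [], none⟩]

/-- Direct acceptability: some truth-tree (without the recursive rule) satisfies parity. -/
def DirectlyAcceptable (α : Fml) : Prop := ParityTree ∅ (root α)

/-- Acceptability, defined recursively: `α` is acceptable if some tree for `α`, using the recursive
rule only for acceptable implications, satisfies parity. -/
inductive Acceptable : Fml → Prop
  | intro (α : Fml) (S : Set Fml) (hS : ∀ β ∈ S, Acceptable β) (t : ParityTree S (root α)) :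
      Acceptable α

lemma ParityTree.mono {S S' : Set Fml} (hSS : S ⊆ S') {b : Branch} (t : ParityTree S b) :
    ParityTree S' b := by
  induction t with
  | stop b h => exact .stop b h
  | conj b i φ ψ h t ih => exact .conj b i φ ψ h ih
  | negOr b i φ ψ h t ih => exact .negOr b i φ ψ h ih
  | negNeg b i φ h t ih => exact .negNeg b i φ h ih
  | negAnd b i φ ψ h t₁ t₂ ih₁ ih₂ => exact .negAnd b i φ ψ h ih₁ ih₂
  | disj b i φ ψ h t₁ t₂ ih₁ ih₂ => exact .disj b i φ ψ h ih₁ ih₂
  | mp b i j φ ψ hi hj t ih => exact .mp b i j φ ψ hi hj ih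
  | counter b i φ ψ h t ih => exact .counter b i φ ψ h ih
  | recur b i φ ψ hS h t ih => exact .recur b i φ ψ (hSS hS) h ih

/-- The defining equation of the set of acceptable formulae. -/
theorem acceptable_iff (α : Fml) : Acceptable α ↔ ParityTree {β | Acceptable β} (root α) := by
  constructor
  · rintro ⟨_, S, hS, t⟩
    exact t.mono hS
  · intro t
    exact .intro α _ (fun β hβ => hβ) t

/-- Directly acceptable formulae are acceptable. -/
theorem DirectlyAcceptable.acceptable {α : Fml} (h : DirectlyAcceptable α) : Acceptable α :=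
  .intro α ∅ (fun β hβ => absurd hβ (Set.notMem_empty β)) h

end Pool.Agent.Helper60.TruthTree
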