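import Pool.Agent.Helper60.TruthTreeDefs

/-!
# Letter-sharing for acceptability in truth-trees with parity

Formulae are evaluated at subsets `X` of a two-element set `U`: letters take downward closed values,
`φ → ψ` is true at `X` if `φ` true at `Y` implies `ψ` true at `X ∪ Y`, and `¬φ` is true at `X` if `φ`
is not true at the complement of `X`.  If `α` is not true at the empty set then some branch of every
tree for `α` can be labelled by sets at which its nodes are true, the root by `U`, with modus ponens
giving unions and a counter-case step giving two labels whose union contains the old one.  The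
labels of the two nodes of a crash-pair with parity then have union `U`, which is impossible.
-/

namespace Pool.Agent.Helper60.TruthTree

/-! ## The semantics: truth at subsets of a two-element set -/

/-- Truth of a formula at a set `X` of Booleans, relative to an assignment `v`. -/
def sat (v : ℕ → Set (Set Bool)) : Fml → Set Bool → Prop
  | .var n, X => X ∈ v n
  | .neg φ, X => ¬ sat v φ Xᶜ
  | .and φ ψ, X => sat v φ X ∧ sat v ψ X
  | .or φ ψ, X => sat v φ X ∨ sat v ψ X
  | .imp φ ψ, X => ∀ Y, sat v φ Y → sat v ψ (X ∪ Y)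

/-- The assignment takes downward closed values. -/
def Down (v : ℕ → Set (Set Bool)) : Prop := ∀ n X Y, X ∈ v n → Y ⊆ X → Y ∈ v n

lemma sat_down {v : ℕ → Set (Set Bool)} (hv : Down v) (φ : Fml) :
    ∀ X Y : Set Bool, sat v φ X → Y ⊆ X → sat v φ Y := by
  induction φ with
  | var n => exact fun X Y h hXY => hv n X Y h hXY
  | neg φ ih =>
    intro X Y h hXY h'
    exact h (ih _ _ h' (Set.compl_subset_compl.2 hXY))
  | and φ ψ ih₁ ih₂ => exact fun X Y h hXY => ⟨ih₁ X Y h.1 hXY, ih₂ X Y h.2 hXY⟩
  | or φ ψ ih₁ ih₂ => exact fun X Y h hXY => h.imp (fun h => ih₁ X Y h hXY) (fun h => ih₂ X Y h hXY)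
  | imp φ ψ ih₁ ih₂ =>
    intro X Y h hXY Z hZ
    exact ih₂ _ _ (h Z hZ) (Set.union_subset_union_left Z hXY)

/-- A formula is valid if it is true at the empty set under all downward closed assignments. -/
def Valid (φ : Fml) : Prop := ∀ v, Down v → sat v φ ∅

/-- A labelling of the nodes of a branch that is compatible with the rules. -/
structure Good (v : ℕ → Set (Set Bool)) (b : Branch) (l : ℕ → Set Bool) : Prop where
  pos : 0 < b.length
  truth : ∀ (i : ℕ) (n : Node), b[i]? = some n → sat v n.fml (l i)
  root : l 0 = Set.univ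
  inputs_lt : ∀ (m : ℕ) (n : Node) (i : ℕ), b[m]? = some n → i ∈ n.inputs → i < m
  inputs_ne : ∀ (m : ℕ) (n : Node), b[m]? = some n → m ≠ 0 → n.inputs ≠ []
  plain : ∀ (m : ℕ) (n : Node), b[m]? = some n → n.partner = none → ∀ i ∈ n.inputs, l i ⊆ l m
  crit : ∀ (m : ℕ) (n : Node) (d : ℕ), b[m]? = some n → n.partner = some d → ∀ i ∈ n.inputs,
    i < d ∧ d < b.length ∧ l i ⊆ l m ∪ l d

lemma At.lt {b : Branch} {i : ℕ} {φ : Fml} (h : At b i φ) : i < b.length := by
  obtain ⟨n, hn, _⟩ := h
  exact (List.getElem?_eq_some_iff.1 hn).1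

lemma Good.at {v : ℕ → Set (Set Bool)} {b : Branch} {l : ℕ → Set Bool} (h : Good v b l) {i : ℕ}
    {φ : Fml} (hi : At b i φ) : sat v φ (l i) := by
  obtain ⟨n, hn, rfl⟩ := hi
  exact h.truth i n hn

lemma Trace.le_length {b : Branch} {m k : ℕ} (h : Trace b m k) : k < b.length := by
  induction h with
  | self m n h => exact (List.getElem?_eq_some_iff.1 h).1
  | step m i k n h hi hk ih => exact ih

/-- The union of the labels of a crash-pair with parity is everything. -/
lemma Good.cover {v : ℕ → Set (Set Bool)} {b : Branch} {l : ℕ → Set Bool} (h : Good v b l)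
    {z z' : ℕ} (hz : z < b.length)
    (hp : ∀ (c d : ℕ) (n : Node), b[c]? = some n → n.partner = some d →
      (Trace b z c ∨ Trace b z' c) → (Trace b z d ∨ Trace b z' d)) :
    l z ∪ l z' = Set.univ := by
  classical
  rw [Set.eq_univ_iff_forall]
  intro a
  -- the root is in the trace
  have hroot : ∀ m, m < b.length → Trace b m 0 := by
    intro m
    induction m using Nat.strong_induction_on with
    | _ m ih =>
      intro hm
      have hn : b[m]? = some b[m] := List.getElem?_eq_getElem hm
      by_cases h0 : m = 0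
      · subst h0; exact .self _ _ hn
      · obtain ⟨i, hi⟩ := List.exists_mem_of_ne_nil _ (h.inputs_ne m _ hn h0)
        have hlt := h.inputs_lt m _ i hn hi
        exact .step m i 0 _ hn hi (ih i hlt (by omega))
  -- take the last node in the trace whose label contains `a`
  let Q : ℕ → Prop := fun m => (Trace b z m ∨ Trace b z' m) ∧ a ∈ l m
  have hQ0 : Q 0 := ⟨Or.inl (hroot z hz), by rw [h.root]; exact Set.mem_univ a⟩
  have hbdd : ∀ m, Q m → m ≤ b.length := by
    rintro m ⟨hm | hm, _⟩ <;> exact hm.le_length.le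
  obtain ⟨m, hm, hmax⟩ : ∃ m, Q m ∧ ∀ m', Q m' → m' ≤ m := by
    refine ⟨Nat.findGreatest Q b.length, ?_, ?_⟩
    · exact Nat.findGreatest_spec (P := Q) (m := 0) (Nat.zero_le _) hQ0
    · intro m' hm'
      exact Nat.le_findGreatest (hbdd m' hm') hm'
  obtain ⟨hmT, hma⟩ := hm
  -- either `m` is `z` or `z'`, or it is the input of a node in the trace
  have key : ∀ w, Trace b w m → m = w ∨ ∃ m' n, Trace b w m' ∧ b[m']? = some n ∧ m ∈ n.inputs := by
    intro w hw
    clear hmT hma hmax
    induction hw with
    | self m n h => exact Or.inl rfl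
    | step w i k n hn hi hk ih =>
      right
      rcases ih with rfl | ⟨m', n', h1, h2, h3⟩
      · exact ⟨w, n, .self w n hn, hn, hi⟩
      · exact ⟨m', n', .step w i m' n hn hi h1, h2, h3⟩
  have key2 : m = z ∨ m = z' ∨ ∃ m' n, (Trace b z m' ∨ Trace b z' m') ∧ b[m']? = some n ∧
      m ∈ n.inputs := by
    rcases hmT with hmT | hmT
    · rcases key z hmT with h1 | ⟨m', n, h1, h2, h3⟩
      · exact Or.inl h1
      · exact Or.inr (Or.inr ⟨m', n, Or.inl h1, h2, h3⟩)
    · rcases key z' hmT with h1 | ⟨m', n, h1, h2, h3⟩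
      · exact Or.inr (Or.inl h1)
      · exact Or.inr (Or.inr ⟨m', n, Or.inr h1, h2, h3⟩)
  rcases key2 with rfl | rfl | ⟨m', n, h1, h2, h3⟩
  · exact Or.inl hma
  · exact Or.inr hma
  · exfalso
    have hlt := h.inputs_lt m' n m h2 h3
    cases hpn : n.partner with
    | none =>
      have := hmax m' ⟨h1, h.plain m' n h2 hpn m h3 hma⟩
      omega
    | some d =>
      obtain ⟨hd, _, hsub⟩ := h.crit m' n d h2 hpn m h3
      rcases hsub hma with h4 | h4
      · have := hmax m' ⟨h1, h4⟩
        omega
      · have := hmax d ⟨hp m' d n h2 hpn h1, h4⟩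
        omega

lemma getElem?_append_one {b : Branch} {x n : Node} {m : ℕ} (h : (b ++ [x])[m]? = some n) :
    (m < b.length ∧ b[m]? = some n) ∨ (m = b.length ∧ n = x) := by
  rcases lt_trichotomy m b.length with h1 | h1 | h1
  · left
    rw [List.getElem?_append_left h1] at h
    exact ⟨h1, h⟩
  · right
    subst h1
    simp at h
    exact ⟨rfl, h.symm⟩
  · rw [List.getElem?_eq_none (by simp; omega)] at h
    cases h

lemma getElem?_append_two {b : Branch} {x y n : Node} {m : ℕ} (h : (b ++ [x, y])[m]? = some n) :
    (m < b.length ∧ b[m]? = some n) ∨ (m = b.length ∧ n = x) ∨ (m = b.length + 1 ∧ n = y) := by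
  have h' : ((b ++ [x]) ++ [y])[m]? = some n := by simpa using h
  rcases getElem?_append_one h' with ⟨h1, h2⟩ | ⟨h1, h2⟩
  · rcases getElem?_append_one h2 with h3 | h3
    · exact Or.inl h3
    · exact Or.inr (Or.inl h3)
  · right; right
    simp at h1
    exact ⟨h1, h2⟩

/-- Adding one non-critical node. -/
lemma Good.add_one {v : ℕ → Set (Set Bool)} {b : Branch} {l : ℕ → Set Bool} (h : Good v b l)
    (φ : Fml) (I : List ℕ) (hI : I ≠ []) (hlt : ∀ i ∈ I, i < b.length) (X : Set Bool)
    (hX : ∀ i ∈ I, l i ⊆ X) (hφ : sat v φ X) :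
    Good v (b ++ [⟨φ, I, none⟩]) (Function.update l b.length X) := by
  have hne : ∀ i, i < b.length → Function.update l b.length X i = l i := fun i hi => by
    rw [Function.update_of_ne (by omega)]
  refine ⟨by simp, ?_, ?_, ?_, ?_, ?_, ?_⟩
  · intro i n hn
    rcases getElem?_append_one hn with ⟨h1, h2⟩ | ⟨h1, h2⟩
    · rw [hne i h1]; exact h.truth i n h2
    · subst h1 h2; simpa using hφ
  · rw [hne 0 h.pos]; exact h.root
  · intro m n i hn hi
    rcases getElem?_append_one hn with ⟨h1, h2⟩ | ⟨h1, h2⟩
    · exact h.inputs_lt m n i h2 hi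
    · subst h1 h2; exact hlt i hi
  · intro m n hn hm
    rcases getElem?_append_one hn with ⟨h1, h2⟩ | ⟨h1, h2⟩
    · exact h.inputs_ne m n h2 hm
    · subst h1 h2; exact hI
  · intro m n hn hp i hi
    rcases getElem?_append_one hn with ⟨h1, h2⟩ | ⟨h1, h2⟩
    · have := h.inputs_lt m n i h2 hi
      rw [hne m h1, hne i (by omega)]
      exact h.plain m n h2 hp i hi
    · subst h1 h2
      rw [hne i (hlt i hi)]
      simpa using hX i hi
  · intro m n d hn hp i hi
    rcases getElem?_append_one hn with ⟨h1, h2⟩ | ⟨h1, h2⟩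
    · have h3 := h.inputs_lt m n i h2 hi
      obtain ⟨h4, h5, h6⟩ := h.crit m n d h2 hp i hi
      refine ⟨h4, by simp; omega, ?_⟩
      rw [hne m h1, hne i (by omega), hne d h5]
      exact h6
    · subst h1 h2
      simp at hp

/-- Adding two non-critical nodes. -/
lemma Good.add_two {v : ℕ → Set (Set Bool)} {b : Branch} {l : ℕ → Set Bool} (h : Good v b l)
    (φ ψ : Fml) (i : ℕ) (hi : i < b.length) (hφ : sat v φ (l i)) (hψ : sat v ψ (l i)) :
    ∃ l', Good v (b ++ [⟨φ, [i], none⟩, ⟨ψ, [i], none⟩]) l' := by
  have h1 := h.add_one φ [i] (by simp) (by simpa using hi) (l i) (by simp) hφ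
  have h2 := h1.add_one ψ [i] (by simp) (by simp; omega) (l i) (by
    intro j hj
    simp only [List.mem_singleton] at hj
    subst hj
    rw [Function.update_of_ne (by omega)]) hψ
  rw [List.append_assoc] at h2
  exact ⟨_, h2⟩

/-- The counter-case step. -/
lemma Good.add_counter {v : ℕ → Set (Set Bool)} {b : Branch} {l : ℕ → Set Bool}
    (h : Good v b l) (φ ψ : Fml) (i : ℕ) (hi : At b i (φ.imp ψ).neg) :
    ∃ l', Good v (b ++ [⟨φ, [i], some (b.length + 1)⟩, ⟨ψ.neg, [i], some b.length⟩]) l' := by
  have hlt := hi.lt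
  have hs := h.at hi
  simp only [sat, not_forall] at hs
  obtain ⟨Y, hY, hn⟩ := hs
  -- labels
  set X := l i with hX
  refine ⟨Function.update (Function.update l b.length Y) (b.length + 1) (Xᶜ ∪ Y)ᶜ, ?_⟩
  set l' := Function.update (Function.update l b.length Y) (b.length + 1) (Xᶜ ∪ Y)ᶜ with hl'
  have hne : ∀ j, j < b.length → l' j = l j := fun j hj => by
    rw [hl', Function.update_of_ne (by omega), Function.update_of_ne (by omega)]
  have ha : l' b.length = Y := by
    rw [hl', Function.update_of_ne (by omega), Function.update_self]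
  have hb : l' (b.length + 1) = (Xᶜ ∪ Y)ᶜ := by
    rw [hl', Function.update_self]
  have hcov : X ⊆ Y ∪ (Xᶜ ∪ Y)ᶜ := by
    intro a ha
    by_cases h : a ∈ Y
    · exact Or.inl h
    · right
      simp only [Set.mem_compl_iff, Set.mem_union, not_or, not_not]
      exact ⟨ha, h⟩
  have hψ : sat v ψ.neg (Xᶜ ∪ Y)ᶜ := by
    simp only [sat, compl_compl]; exact hn
  refine ⟨by simp, ?_, ?_, ?_, ?_, ?_, ?_⟩
  · intro j n hn
    rcases getElem?_append_two hn with ⟨h1, h2⟩ | ⟨h1, h2⟩ | ⟨h1, h2⟩
    · rw [hne j h1]; exact h.truth j n h2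
    · subst h1 h2; rw [ha]; exact hY
    · subst h1 h2; rw [hb]; exact hψ
  · rw [hne 0 h.pos]; exact h.root
  · intro m n j hn hj
    rcases getElem?_append_two hn with ⟨h1, h2⟩ | ⟨h1, h2⟩ | ⟨h1, h2⟩
    · exact h.inputs_lt m n j h2 hj
    · subst h1 h2; simp only [List.mem_singleton] at hj; omega
    · subst h1 h2; simp only [List.mem_singleton] at hj; omega
  · intro m n hn hm
    rcases getElem?_append_two hn with ⟨h1, h2⟩ | ⟨h1, h2⟩ | ⟨h1, h2⟩
    · exact h.inputs_ne m n h2 hm
    · subst h1 h2; simp
    · subst h1 h2; simp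
  · intro m n hn hp j hj
    rcases getElem?_append_two hn with ⟨h1, h2⟩ | ⟨h1, h2⟩ | ⟨h1, h2⟩
    · have := h.inputs_lt m n j h2 hj
      rw [hne m h1, hne j (by omega)]
      exact h.plain m n h2 hp j hj
    · subst h1 h2; simp at hp
    · subst h1 h2; simp at hp
  · intro m n d hn hp j hj
    rcases getElem?_append_two hn with ⟨h1, h2⟩ | ⟨h1, h2⟩ | ⟨h1, h2⟩
    · have h3 := h.inputs_lt m n j h2 hj
      obtain ⟨h4, h5, h6⟩ := h.crit m n d h2 hp j hj
      refine ⟨h4, by simp; omega, ?_⟩
      rw [hne m h1, hne j (by omega), hne d h5]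
      exact h6
    · subst h1 h2
      simp only [Option.some.injEq] at hp
      simp only [List.mem_singleton] at hj
      subst hp hj
      refine ⟨by omega, by simp, ?_⟩
      rw [ha, hb, hne j hlt]
      exact hcov
    · subst h1 h2
      simp only [Option.some.injEq] at hp
      simp only [List.mem_singleton] at hj
      subst hp hj
      refine ⟨by omega, by simp, ?_⟩
      rw [ha, hb, hne j hlt, Set.union_comm]
      exact hcov

/-- A branch with a good labelling cannot satisfy parity. -/
lemma Good.not_parity {v : ℕ → Set (Set Bool)} (hv : Down v) {b : Branch} {l : ℕ → Set Bool}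
    (hl : Good v b l) : ¬ ParityBranch b := by
  rintro ⟨z, z', ζ, hz, hz', hp⟩
  have hcov := hl.cover hz.lt hp
  have h1 := hl.at hz
  have h2 := hl.at hz'
  simp only [sat] at h2
  apply h2
  apply sat_down hv ζ _ _ h1
  intro a ha
  have : a ∈ l z ∪ l z' := by rw [hcov]; exact Set.mem_univ a
  exact this.resolve_right ha

/-- A branch with a good labelling cannot be continued to a tree satisfying parity. -/
theorem no_good {v : ℕ → Set (Set Bool)} (hv : Down v) {S : Set Fml}
    (hS : ∀ φ ∈ S, sat v φ ∅) {b : Branch} (t : ParityTree S b) :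
    ∀ l, ¬ Good v b l := by
  induction t with
  | stop b h => exact fun l hl => hl.not_parity hv h
  | conj b i φ ψ h t ih =>
    intro l hl
    have hs := hl.at h
    simp only [sat] at hs
    obtain ⟨l', hl'⟩ := hl.add_two φ ψ i h.lt hs.1 hs.2
    exact ih l' hl'
  | negOr b i φ ψ h t ih =>
    intro l hl
    have hs := hl.at h
    simp only [sat, not_or] at hs
    obtain ⟨l', hl'⟩ := hl.add_two φ.neg ψ.neg i h.lt hs.1 hs.2
    exact ih l' hl'
  | negNeg b i φ h t ih =>
    intro l hl
    have hs := hl.at h
    simp only [sat, not_not, compl_compl] at hs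
    exact ih _ (hl.add_one φ [i] (by simp) (by simpa using h.lt) (l i) (by simp) hs)
  | negAnd b i φ ψ h t₁ t₂ ih₁ ih₂ =>
    intro l hl
    have hs := hl.at h
    simp only [sat, not_and_or] at hs
    rcases hs with hs | hs
    · exact ih₁ _ (hl.add_one φ.neg [i] (by simp) (by simpa using h.lt) (l i) (by simp) hs)
    · exact ih₂ _ (hl.add_one ψ.neg [i] (by simp) (by simpa using h.lt) (l i) (by simp) hs)
  | disj b i φ ψ h t₁ t₂ ih₁ ih₂ =>
    intro l hl
    have hs := hl.at h
    simp only [sat] at hs
    rcases hs with hs | hs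
    · exact ih₁ _ (hl.add_one φ [i] (by simp) (by simpa using h.lt) (l i) (by simp) hs)
    · exact ih₂ _ (hl.add_one ψ [i] (by simp) (by simpa using h.lt) (l i) (by simp) hs)
  | mp b i j φ ψ hi hj t ih =>
    intro l hl
    have hsi := hl.at hi
    have hsj := hl.at hj
    simp only [sat] at hsj
    exact ih _ (hl.add_one ψ [i, j] (by simp) (by simpa using ⟨hi.lt, hj.lt⟩) (l j ∪ l i)
      (by simp) (hsj _ hsi))
  | counter b i φ ψ h t ih =>
    intro l hl
    obtain ⟨l', hl'⟩ := hl.add_counter φ ψ i h
    exact ih l' hl'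
  | recur b i φ ψ hS' h t ih =>
    intro l hl
    have hs := hl.at h
    have := hS _ hS'
    simp only [sat] at this
    have h2 := this _ hs
    rw [Set.empty_union] at h2
    exact ih _ (hl.add_one ψ [i] (by simp) (by simpa using h.lt) (l i) (by simp) h2)

/-- Soundness: acceptable formulae are valid. -/
theorem Acceptable.valid {α : Fml} (h : Acceptable α) : Valid α := by
  induction h with
  | intro α S hS t ih =>
    intro v hv
    by_contra hcon
    have hroot : Good v (root α) (fun _ => Set.univ) := by
      refine ⟨by simp [root], ?_, rfl, ?_, ?_, ?_, ?_⟩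
      · intro i n hn
        rcases i with _ | i
        · simp only [root, List.length_cons, List.length_nil, zero_add, Nat.lt_one_iff,
            pos_of_gt, List.getElem?_eq_getElem, List.getElem_cons_zero, Option.some.injEq] at hn
          subst hn
          simp only [sat, Set.compl_univ]
          exact hcon
        · simp [root] at hn
      · intro m n i hn hi
        rcases m with _ | m
        · simp [root] at hn
          subst hn
          simp at hi
        · simp [root] at hn
      · intro m n hn hm
        rcases m with _ | m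
        · exact absurd rfl hm
        · simp [root] at hn
      · intro m n hn hp i hi
        exact subset_rfl
      · intro m n d hn hp i hi
        rcases m with _ | m
        · simp [root] at hn
          subst hn
          simp at hp
        · simp [root] at hn
    exact no_good hv (fun φ hφ => ih φ hφ v hv) t _ hroot

/-- If all letters of `φ` have the value `{X | X ⊆ {c}}` then so does `φ`. -/
lemma sat_const {v : ℕ → Set (Set Bool)} (c : Bool) (φ : Fml) :
    (∀ n ∈ φ.letters, v n = {X | X ⊆ {c}}) → ∀ X : Set Bool, sat v φ X ↔ X ⊆ {c} := by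
  induction φ with
  | var n =>
    intro h X
    have := h n (by simp [Fml.letters])
    simp [sat, this]
  | neg φ ih =>
    intro h X
    simp only [sat]
    rw [ih h]
    constructor
    · intro h1 a ha
      by_contra h2
      apply h1
      intro x hx
      simp only [Set.mem_singleton_iff] at h2 ⊢
      by_contra h3
      have : x = a := by
        cases x <;> cases a <;> cases c <;> simp_all
      exact hx (this ▸ ha)
    · intro h1 h2
      have h3 : (!c) ∈ Xᶜ := by
        intro h4
        have := h1 h4
        simp at this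
      have := h2 h3
      simp at this
  | and φ ψ ih₁ ih₂ =>
    intro h X
    simp only [sat]
    rw [ih₁ (fun n hn => h n (Or.inl hn)), ih₂ (fun n hn => h n (Or.inr hn))]
    simp
  | or φ ψ ih₁ ih₂ =>
    intro h X
    simp only [sat]
    rw [ih₁ (fun n hn => h n (Or.inl hn)), ih₂ (fun n hn => h n (Or.inr hn))]
    simp
  | imp φ ψ ih₁ ih₂ =>
    intro h X
    simp only [sat]
    constructor
    · intro h1
      have h2 := h1 ∅ ((ih₁ (fun n hn => h n (Or.inl hn)) ∅).2 (Set.empty_subset _))
      rw [ih₂ (fun n hn => h n (Or.inr hn))] at h2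
      simpa using h2
    · intro h1 Y hY
      rw [ih₁ (fun n hn => h n (Or.inl hn))] at hY
      rw [ih₂ (fun n hn => h n (Or.inr hn))]
      exact Set.union_subset h1 hY

/-- Letter-sharing for acceptable implications. -/
theorem letter_sharing (φ ψ : Fml) (h : Acceptable (φ.imp ψ)) :
    ∃ n, n ∈ φ.letters ∧ n ∈ ψ.letters := by
  classical
  by_contra hcon
  push Not at hcon
  let v : ℕ → Set (Set Bool) := fun n =>
    if n ∈ φ.letters then {X | X ⊆ {true}} else {X | X ⊆ {false}}
  have hv : Down v := by
    intro n X Y hX hXY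
    simp only [v] at hX ⊢
    split_ifs at hX ⊢
    · exact hXY.trans hX
    · exact hXY.trans hX
  have h1 := h.valid v hv
  simp only [sat] at h1
  have hφ : ∀ X : Set Bool, sat v φ X ↔ X ⊆ {true} :=
    sat_const true φ (fun n hn => by simp [v, hn])
  have hψ : ∀ X : Set Bool, sat v ψ X ↔ X ⊆ {false} :=
    sat_const false ψ (fun n hn => by
      have : n ∉ φ.letters := fun hn' => hcon n hn' hn
      simp [v, this])
  have h2 := h1 {true} ((hφ _).2 subset_rfl)
  rw [hψ, Set.empty_union] at h2
  have := h2 (Set.mem_singleton true)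
  simp at this

end Pool.Agent.Helper60.TruthTree
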